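import Mathlib

set_option autoImplicit false

namespace Pool.Agent.Erdos456.SieveAux

open Finset

/-- transfer of a sum along an injection -/
theorem sum_le_of_inj {α β : Type*} [DecidableEq β] {S : Finset α} {T : Finset β}
    {f : α → ℝ} {g : β → ℝ} (φ : α → β)
    (hφ : ∀ n ∈ S, φ n ∈ T) (hinj : Set.InjOn φ S) (hfg : ∀ n ∈ S, f n ≤ g (φ n))
    (hg : ∀ t ∈ T, 0 ≤ g t) : ∑ n ∈ S, f n ≤ ∑ t ∈ T, g t := by
  calc ∑ n ∈ S, f n ≤ ∑ n ∈ S, g (φ n) := Finset.sum_le_sum hfg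
    _ = ∑ t ∈ S.image φ, g t := (Finset.sum_image hinj).symm
    _ ≤ ∑ t ∈ T, g t := by
        apply Finset.sum_le_sum_of_subset_of_nonneg
        · intro t ht
          rw [Finset.mem_image] at ht
          obtain ⟨n, hn, rfl⟩ := ht
          exact hφ n hn
        · intro t ht _
          exact hg t ht

theorem sum_inv_sq_le (X : ℕ) : ∑ b ∈ Icc 1 X, (1 : ℝ) / (b : ℝ) ^ 2 ≤ 2 := by
  have h : ∀ X : ℕ, 1 ≤ X → ∑ b ∈ Icc 1 X, (1 : ℝ) / (b : ℝ) ^ 2 ≤ 2 - 1 / X := by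
    intro X hX
    induction X, hX using Nat.le_induction with
    | base => norm_num
    | succ n hn ih =>
      rw [Finset.sum_Icc_succ_top (by omega)]
      have hn' : (0 : ℝ) < n := by exact_mod_cast hn
      have h1 : (1 : ℝ) / ((n + 1 : ℕ) : ℝ) ^ 2 ≤ 1 / n - 1 / (n + 1 : ℕ) := by
        push_cast
        rw [div_sub_div _ _ hn'.ne' (by positivity), div_le_div_iff₀ (by positivity) (by positivity)]
        nlinarith
      linarith
  rcases Nat.eq_zero_or_pos X with h0 | h0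
  · subst h0; norm_num
  · have := h X h0
    have h2 : (0 : ℝ) < 1 / X := by positivity
    linarith

/-- squarefree integers up to `X` coprime to `M` -/
def SF (X M : ℕ) : Finset ℕ := (Icc 1 X).filter fun n => Squarefree n ∧ Nat.Coprime n M

noncomputable def U (X M : ℕ) : ℝ := ∑ u ∈ SF X M, (1 : ℝ) / u

theorem harmonic_le (X : ℕ) :
    ∑ n ∈ Icc 1 X, (1 : ℝ) / n ≤ 2 * ∑ l ∈ (Icc 1 X).filter Squarefree, (1 : ℝ) / l := by
  classical
  choose A B hAB using Nat.sq_mul_squarefree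
  have h1 : ∑ n ∈ Icc 1 X, (1 : ℝ) / n ≤
      ∑ t ∈ ((Icc 1 X).filter Squarefree) ×ˢ (Icc 1 X), (1 : ℝ) / t.1 * (1 / (t.2 : ℝ) ^ 2) := by
    apply sum_le_of_inj (fun n => (A n, B n))
    · intro n hn
      rw [mem_Icc] at hn
      obtain ⟨h1, h2⟩ := hAB n
      have hA : 0 < A n := Nat.pos_of_ne_zero (by rintro h; rw [h] at h1; omega)
      have hB : 0 < B n := Nat.pos_of_ne_zero (by rintro h; rw [h] at h1; simp at h1; omega)
      have hAn : A n ≤ n := by
        calc A n = 1 * A n := (one_mul _).symm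
          _ ≤ B n ^ 2 * A n := Nat.mul_le_mul_right _ (Nat.one_le_pow _ _ hB)
          _ = n := h1
      have hBn : B n ≤ n := by
        calc B n = B n * 1 := (mul_one _).symm
          _ ≤ B n * (B n * A n) := Nat.mul_le_mul_left _ (Nat.mul_pos hB hA)
          _ = B n ^ 2 * A n := by ring
          _ = n := h1
      simp only [mem_product, mem_filter, mem_Icc]
      exact ⟨⟨⟨hA, hAn.trans hn.2⟩, h2⟩, ⟨hB, hBn.trans hn.2⟩⟩
    · intro m _ n _ hmn
      simp only [Prod.mk.injEq] at hmn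
      rw [← (hAB m).1, ← (hAB n).1, hmn.1, hmn.2]
    · intro n hn
      have h1 := (hAB n).1
      apply le_of_eq
      have : (n : ℝ) = (B n : ℝ) ^ 2 * A n := by exact_mod_cast h1.symm
      rw [this]
      simp only [one_div, mul_inv]
      ring
    · intro t _
      positivity
  have h2 : ∑ t ∈ ((Icc 1 X).filter Squarefree) ×ˢ (Icc 1 X), (1 : ℝ) / t.1 * (1 / (t.2 : ℝ) ^ 2)
      = (∑ l ∈ (Icc 1 X).filter Squarefree, (1 : ℝ) / l) * ∑ b ∈ Icc 1 X, 1 / (b : ℝ) ^ 2 := by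
    rw [Finset.sum_mul_sum, Finset.sum_product]
  rw [h2] at h1
  have h3 := sum_inv_sq_le X
  have h4 : 0 ≤ ∑ l ∈ (Icc 1 X).filter Squarefree, (1 : ℝ) / l :=
    Finset.sum_nonneg fun _ _ => by positivity
  nlinarith

theorem coprime_div_gcd {l M : ℕ} (hl : Squarefree l) : Nat.Coprime (l / Nat.gcd l M) M := by
  have hl0 : l ≠ 0 := hl.ne_zero
  have hg : Nat.gcd l M ∣ l := Nat.gcd_dvd_left _ _
  have h1 : Nat.gcd l M * (l / Nat.gcd l M) = l := Nat.mul_div_cancel' hg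
  have h2 : Nat.Coprime (Nat.gcd l M) (l / Nat.gcd l M) := by
    apply Nat.coprime_of_squarefree_mul
    rw [h1]; exact hl
  have h3 : Nat.gcd (l / Nat.gcd l M) M ∣ Nat.gcd l M :=
    Nat.dvd_gcd ((Nat.gcd_dvd_left _ _).trans (Nat.div_dvd_of_dvd hg)) (Nat.gcd_dvd_right _ _)
  have h4 : Nat.gcd (l / Nat.gcd l M) M ∣ Nat.gcd (Nat.gcd l M) (l / Nat.gcd l M) :=
    Nat.dvd_gcd h3 (Nat.gcd_dvd_left _ _)
  rw [h2] at h4
  exact Nat.dvd_one.1 h4

theorem sf_le (X M : ℕ) (hM : M ≠ 0) :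
    ∑ l ∈ (Icc 1 X).filter Squarefree, (1 : ℝ) / l ≤
      (∑ v ∈ (Nat.divisors M).filter Squarefree, (1 : ℝ) / v) * U X M := by
  classical
  have h1 : ∑ l ∈ (Icc 1 X).filter Squarefree, (1 : ℝ) / l ≤
      ∑ t ∈ ((Nat.divisors M).filter Squarefree) ×ˢ (SF X M), (1 : ℝ) / t.1 * (1 / (t.2 : ℝ)) := by
    apply sum_le_of_inj (fun l => (Nat.gcd l M, l / Nat.gcd l M))
    · intro l hl
      rw [mem_filter, mem_Icc] at hl
      obtain ⟨⟨h1, h2⟩, h3⟩ := hl
      have hg : Nat.gcd l M ∣ l := Nat.gcd_dvd_left _ _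
      have hg0 : 0 < Nat.gcd l M := Nat.gcd_pos_of_pos_left _ h1
      simp only [mem_product, mem_filter, Nat.mem_divisors, SF, mem_Icc]
      refine ⟨⟨⟨Nat.gcd_dvd_right _ _, hM⟩, h3.squarefree_of_dvd hg⟩,
        ⟨Nat.div_pos (Nat.le_of_dvd h1 hg) hg0, (Nat.div_le_self _ _).trans h2⟩,
        h3.squarefree_of_dvd (Nat.div_dvd_of_dvd hg), coprime_div_gcd h3⟩
    · intro m _ n _ hmn
      simp only [Prod.mk.injEq] at hmn
      rw [← Nat.mul_div_cancel' (Nat.gcd_dvd_left m M), ← Nat.mul_div_cancel' (Nat.gcd_dvd_left n M),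
        hmn.2, hmn.1]
    · intro l hl
      rw [mem_filter, mem_Icc] at hl
      have h1 : Nat.gcd l M * (l / Nat.gcd l M) = l := Nat.mul_div_cancel' (Nat.gcd_dvd_left _ _)
      apply le_of_eq
      have : (l : ℝ) = (Nat.gcd l M : ℝ) * ((l / Nat.gcd l M : ℕ) : ℝ) := by exact_mod_cast h1.symm
      simp only [one_div]
      rw [← mul_inv, ← this]
    · intro t _
      positivity
  rw [Finset.sum_product] at h1
  unfold U
  rw [Finset.sum_mul_sum]
  exact h1

theorem divisors_le (M : ℕ) (hM : M ≠ 0) :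
    ∑ v ∈ (Nat.divisors M).filter Squarefree, (1 : ℝ) / v ≤ (M : ℝ) / (Nat.totient M : ℝ) := by
  classical
  have h1 : ∑ v ∈ (Nat.divisors M).filter Squarefree, (1 : ℝ) / v ≤
      ∑ s ∈ M.primeFactors.powerset, ∏ p ∈ s, (1 : ℝ) / p := by
    apply sum_le_of_inj (fun v => v.primeFactors)
    · intro v hv
      rw [mem_filter, Nat.mem_divisors] at hv
      rw [mem_powerset]
      exact Nat.primeFactors_mono hv.1.1 hM
    · intro v hv w hw hvw
      simp only [coe_filter, Set.mem_ofPred_eq] at hv hw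
      rw [← Nat.prod_primeFactors_of_squarefree hv.2, ← Nat.prod_primeFactors_of_squarefree hw.2]
      simp only at hvw
      rw [hvw]
    · intro v hv
      rw [mem_filter, Nat.mem_divisors] at hv
      apply le_of_eq
      have := Nat.prod_primeFactors_of_squarefree hv.2
      conv_lhs => rw [← this]
      simp only [one_div]
      rw [Finset.prod_inv_distrib]
      push_cast; rfl
    · intro s _
      exact Finset.prod_nonneg fun _ _ => by positivity
  rw [← Finset.prod_one_add] at h1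
  refine h1.trans ?_
  have h2 := Nat.totient_eq_mul_prod_factors M
  have h3 : (Nat.totient M : ℝ) = M * ∏ p ∈ M.primeFactors, (1 - (p : ℝ)⁻¹) := by
    have := congrArg (fun q : ℚ => (q : ℝ)) h2
    push_cast at this
    exact this
  have hM' : (M : ℝ) ≠ 0 := by exact_mod_cast hM
  rw [h3, div_mul_eq_div_div, div_self hM', one_div, ← Finset.prod_inv_distrib]
  apply Finset.prod_le_prod
  · intro p _; positivity
  · intro p hp
    have hp1 := (Nat.prime_of_mem_primeFactors hp).one_lt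
    have hp' : (1 : ℝ) < p := by exact_mod_cast hp1
    have h4 : 0 < 1 - (p : ℝ)⁻¹ := by
      have : (p : ℝ)⁻¹ < 1 := inv_lt_one_of_one_lt₀ hp'
      linarith
    rw [one_div, inv_eq_one_div (1 - (p : ℝ)⁻¹), le_div_iff₀ h4]
    have : (1 + (p : ℝ)⁻¹) * (1 - (p : ℝ)⁻¹) = 1 - ((p : ℝ)⁻¹) ^ 2 := by ring
    rw [this]
    have : 0 ≤ ((p : ℝ)⁻¹) ^ 2 := by positivity
    linarith

theorem U_lower (X M : ℕ) (hM : M ≠ 0) :
    Real.log (X + 1) ≤ 2 * ((M : ℝ) / (Nat.totient M : ℝ)) * U X M := by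
  have h1 := harmonic_le X
  have h2 := sf_le X M hM
  have h3 := divisors_le M hM
  have h4 := log_add_one_le_harmonic X
  have h5 : ((harmonic X : ℚ) : ℝ) = ∑ n ∈ Icc 1 X, (1 : ℝ) / n := by
    rw [harmonic_eq_sum_Icc]
    push_cast
    simp
  rw [h5] at h4
  have hU : 0 ≤ U X M := Finset.sum_nonneg fun _ _ => by positivity
  push_cast at h4
  calc Real.log (X + 1) ≤ _ := h4
    _ ≤ _ := h1
    _ ≤ 2 * ((∑ v ∈ (Nat.divisors M).filter Squarefree, (1 : ℝ) / v) * U X M) := by linarith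
    _ ≤ 2 * (((M : ℝ) / (Nat.totient M : ℝ)) * U X M) := by gcongr
    _ = _ := by ring

theorem U_sq (X M : ℕ) :
    (U X M) ^ 2 ≤ 2 * ∑ l ∈ SF (X ^ 2) M, ((Nat.divisors l).card : ℝ) / l := by
  classical
  have h0 : (U X M) ^ 2 = ∑ t ∈ (SF X M) ×ˢ (SF X M), (1 : ℝ) / t.1 * (1 / (t.2 : ℝ)) := by
    unfold U
    rw [sq, Finset.sum_mul_sum, Finset.sum_product]
  have h1 : ∑ t ∈ (SF X M) ×ˢ (SF X M), (1 : ℝ) / t.1 * (1 / (t.2 : ℝ)) ≤
      ∑ s ∈ (Icc 1 X) ×ˢ ((SF (X ^ 2) M).sigma fun l => Nat.divisorsAntidiagonal l),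
        (1 / (s.1 : ℝ) ^ 2) * (1 / (s.2.1 : ℝ)) := by
    apply sum_le_of_inj (fun t : ℕ × ℕ => (Nat.gcd t.1 t.2,
      (⟨(t.1 / Nat.gcd t.1 t.2) * (t.2 / Nat.gcd t.1 t.2),
        (t.1 / Nat.gcd t.1 t.2, t.2 / Nat.gcd t.1 t.2)⟩ : (_ : ℕ) × (ℕ × ℕ))))
    · rintro ⟨a, b⟩ hab
      simp only [mem_product, SF, mem_filter, mem_Icc] at hab
      obtain ⟨⟨⟨ha1, ha2⟩, ha3, ha4⟩, ⟨hb1, hb2⟩, hb3, hb4⟩ := hab
      have hga : Nat.gcd a b ∣ a := Nat.gcd_dvd_left _ _
      have hgb : Nat.gcd a b ∣ b := Nat.gcd_dvd_right _ _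
      have hg0 : 0 < Nat.gcd a b := Nat.gcd_pos_of_pos_left _ ha1
      have hda : 0 < a / Nat.gcd a b := Nat.div_pos (Nat.le_of_dvd ha1 hga) hg0
      have hdb : 0 < b / Nat.gcd a b := Nat.div_pos (Nat.le_of_dvd hb1 hgb) hg0
      have hcop : Nat.Coprime (a / Nat.gcd a b) (b / Nat.gcd a b) := Nat.coprime_div_gcd_div_gcd hg0
      simp only [mem_product, mem_sigma, mem_Icc, SF, mem_filter, Nat.mem_divisorsAntidiagonal]
      refine ⟨⟨hg0, (Nat.le_of_dvd ha1 hga).trans ha2⟩, ⟨⟨Nat.mul_pos hda hdb, ?_⟩, ?_, ?_⟩, ?_⟩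
      · rw [sq]
        exact Nat.mul_le_mul ((Nat.div_le_self _ _).trans ha2) ((Nat.div_le_self _ _).trans hb2)
      · rw [Nat.squarefree_mul_iff]
        exact ⟨hcop, ha3.squarefree_of_dvd (Nat.div_dvd_of_dvd hga),
          hb3.squarefree_of_dvd (Nat.div_dvd_of_dvd hgb)⟩
      · exact Nat.Coprime.mul_left (Nat.Coprime.coprime_dvd_left (Nat.div_dvd_of_dvd hga) ha4)
          (Nat.Coprime.coprime_dvd_left (Nat.div_dvd_of_dvd hgb) hb4)
      · exact ⟨trivial, (Nat.mul_pos hda hdb).ne'⟩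
    · rintro ⟨a, b⟩ _ ⟨c, d⟩ _ h
      simp only [Prod.mk.injEq, Sigma.mk.injEq, heq_eq_eq] at h
      obtain ⟨h1, -, h2, h3⟩ := h
      have e1 := Nat.mul_div_cancel' (Nat.gcd_dvd_left a b)
      have e2 := Nat.mul_div_cancel' (Nat.gcd_dvd_right a b)
      have e3 := Nat.mul_div_cancel' (Nat.gcd_dvd_left c d)
      have e4 := Nat.mul_div_cancel' (Nat.gcd_dvd_right c d)
      rw [Prod.mk.injEq]
      constructor
      · rw [← e1, ← e3, h2, h1]
      · rw [← e2, ← e4, h3, h1]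
    · rintro ⟨a, b⟩ _
      apply le_of_eq
      simp only
      have e1 : (a : ℝ) = (Nat.gcd a b : ℝ) * ((a / Nat.gcd a b : ℕ) : ℝ) := by
        exact_mod_cast (Nat.mul_div_cancel' (Nat.gcd_dvd_left a b)).symm
      have e2 : (b : ℝ) = (Nat.gcd a b : ℝ) * ((b / Nat.gcd a b : ℕ) : ℝ) := by
        exact_mod_cast (Nat.mul_div_cancel' (Nat.gcd_dvd_right a b)).symm
      conv_lhs => rw [e1, e2]
      push_cast
      simp only [one_div, mul_inv]
      ring
    · intro s _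
      positivity
  rw [h0]
  refine h1.trans ?_
  rw [Finset.sum_product]
  have h2 : ∀ c ∈ Icc 1 X, ∑ s ∈ (SF (X ^ 2) M).sigma fun l => Nat.divisorsAntidiagonal l,
      (1 / (c : ℝ) ^ 2) * (1 / (s.1 : ℝ))
      = (1 / (c : ℝ) ^ 2) * ∑ l ∈ SF (X ^ 2) M, ((Nat.divisors l).card : ℝ) / l := by
    intro c _
    rw [← Finset.mul_sum, Finset.sum_sigma]
    congr 1
    apply Finset.sum_congr rfl
    intro l _
    simp only
    rw [Finset.sum_const, nsmul_eq_mul]
    have : (Nat.divisorsAntidiagonal l).card = (Nat.divisors l).card := by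
      rw [← Nat.map_div_right_divisors, Finset.card_map]
    rw [this]; ring
  rw [Finset.sum_congr rfl h2, ← Finset.sum_mul]
  have h3 := sum_inv_sq_le X
  have h4 : 0 ≤ ∑ l ∈ SF (X ^ 2) M, ((Nat.divisors l).card : ℝ) / l :=
    Finset.sum_nonneg fun _ _ => by positivity
  gcongr

end Pool.Agent.Erdos456.SieveAux
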