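import Mathlib

set_option autoImplicit false

namespace Pool.Agent.Erdos456.SieveAux

open Finset ArithmeticFunction BoundingSieve
open scoped ArithmeticFunction.Moebius ArithmeticFunction.zeta

variable (s : BoundingSieve) (R : ℕ)

noncomputable def JJ : ℝ := ∑ l ∈ (Nat.divisors s.prodPrimes).filter (· ≤ R), s.selbergTerms l

noncomputable def ww (d : ℕ) : ℝ :=
  (μ d : ℝ) / (s.nu d * JJ s R) *
    ∑ k ∈ (Nat.divisors s.prodPrimes).filter (fun k => d ∣ k ∧ k ≤ R), s.selbergTerms k

theorem P_ne : s.prodPrimes ≠ 0 := s.prodPrimes_squarefree.ne_zero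

variable {s}

theorem g_pos {l : ℕ} (hl : l ∈ Nat.divisors s.prodPrimes) : 0 < s.selbergTerms l :=
  selbergTerms_pos (Nat.dvd_of_mem_divisors hl)

theorem g_one : s.selbergTerms 1 = 1 := selbergTerms_isMultiplicative.map_one

theorem JJ_pos (hR : 1 ≤ R) : 0 < JJ s R := by
  unfold JJ
  have h1 : (1 : ℕ) ∈ (Nat.divisors s.prodPrimes).filter (· ≤ R) := by
    rw [mem_filter, Nat.mem_divisors]
    exact ⟨⟨one_dvd _, P_ne s⟩, hR⟩
  calc (0 : ℝ) < s.selbergTerms 1 := by rw [g_one]; norm_num
    _ ≤ _ := Finset.single_le_sum (f := fun l => s.selbergTerms l) (fun i hi => (g_pos (mem_filter.1 hi).1).le) h1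

theorem ww_one (hR : 1 ≤ R) : ww s R 1 = 1 := by
  unfold ww
  have h1 : (Nat.divisors s.prodPrimes).filter (fun k => 1 ∣ k ∧ k ≤ R)
      = (Nat.divisors s.prodPrimes).filter (· ≤ R) := by
    apply Finset.filter_congr
    intro k _
    simp
  rw [h1]
  have h2 : s.nu 1 = 1 := s.nu_mult.map_one
  have h3 : ∑ k ∈ (Nat.divisors s.prodPrimes).filter (· ≤ R), s.selbergTerms k = JJ s R := rfl
  rw [h3, h2, moebius_apply_one]
  have := (JJ_pos (s := s) R hR).ne'
  field_simp
  norm_num

/-- sum of Moebius over divisors of a squarefree `k` that are multiples of `l` -/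
theorem moebius_sum {k l : ℕ} (hk : Squarefree k) (hl : l ∣ k) :
    ∑ d ∈ (Nat.divisors k).filter (fun d => l ∣ d), (μ d : ℝ) = if l = k then (μ l : ℝ) else 0 := by
  have hk0 : k ≠ 0 := hk.ne_zero
  have hl0 : l ≠ 0 := ne_zero_of_dvd_ne_zero hk0 hl
  have hkl : l * (k / l) = k := Nat.mul_div_cancel' hl
  have hcop : Nat.Coprime l (k / l) := by
    apply Nat.coprime_of_squarefree_mul
    rw [hkl]; exact hk
  have h1 : ∑ d ∈ (Nat.divisors k).filter (fun d => l ∣ d), (μ d : ℝ)
      = ∑ e ∈ Nat.divisors (k / l), (μ l : ℝ) * (μ e : ℝ) := by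
    apply Finset.sum_nbij' (fun d => d / l) (fun e => l * e)
    · intro d hd
      rw [mem_filter, Nat.mem_divisors] at hd
      rw [Nat.mem_divisors]
      exact ⟨Nat.div_dvd_div hd.2 hd.1.1, (Nat.div_pos (Nat.le_of_dvd (Nat.pos_of_ne_zero hk0) hl)
        (Nat.pos_of_ne_zero hl0)).ne'⟩
    · intro e he
      rw [Nat.mem_divisors] at he
      rw [mem_filter, Nat.mem_divisors]
      refine ⟨⟨?_, hk0⟩, dvd_mul_right _ _⟩
      rw [← hkl]
      exact Nat.mul_dvd_mul_left l he.1
    · intro d hd
      rw [mem_filter] at hd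
      exact Nat.mul_div_cancel' hd.2
    · intro e _
      exact Nat.mul_div_cancel_left e (Nat.pos_of_ne_zero hl0)
    · intro d hd
      rw [mem_filter, Nat.mem_divisors] at hd
      have h2 : d = l * (d / l) := (Nat.mul_div_cancel' hd.2).symm
      have h3 : Nat.Coprime l (d / l) := by
        apply Nat.coprime_of_squarefree_mul
        rw [← h2]; exact hk.squarefree_of_dvd hd.1.1
      have h4 : μ d = μ l * μ (d / l) := by
        conv_lhs => rw [h2]
        exact isMultiplicative_moebius.map_mul_of_coprime h3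
      rw [h4]; push_cast; ring
  rw [h1, ← Finset.mul_sum]
  have h5 : ∑ e ∈ Nat.divisors (k / l), (μ e : ℝ) = if k / l = 1 then 1 else 0 := by
    have h6 : ((ζ * μ : ArithmeticFunction ℤ)) (k / l) = (1 : ArithmeticFunction ℤ) (k / l) := by
      rw [coe_zeta_mul_moebius]
    rw [coe_zeta_mul_apply, ArithmeticFunction.one_apply] at h6
    have h7 := congrArg (fun z : ℤ => (z : ℝ)) h6
    push_cast at h7
    rw [h7]
  rw [h5]
  by_cases h : l = k
  · rw [if_pos h, if_pos, mul_one]
    rw [h]; exact Nat.div_self (Nat.pos_of_ne_zero hk0)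
  · rw [if_neg h, if_neg, mul_zero]
    intro h8
    apply h
    rw [← hkl, h8, mul_one]

theorem inner_sum (hR : 1 ≤ R) {l : ℕ} (hl : l ∈ Nat.divisors s.prodPrimes) :
    ∑ d ∈ Nat.divisors s.prodPrimes, (if l ∣ d then s.nu d * ww s R d else 0)
      = if l ≤ R then (μ l : ℝ) * s.selbergTerms l / JJ s R else 0 := by
  have hP := P_ne s
  have hJ := (JJ_pos (s := s) R hR).ne'
  have h1 : ∀ d ∈ Nat.divisors s.prodPrimes, (if l ∣ d then s.nu d * ww s R d else 0)
      = ∑ k ∈ (Nat.divisors s.prodPrimes).filter (· ≤ R),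
          (if l ∣ d ∧ d ∣ k then (μ d : ℝ) * (s.selbergTerms k / JJ s R) else 0) := by
    intro d hd
    have hnu := nu_ne_zero (s := s) (Nat.dvd_of_mem_divisors hd)
    by_cases h : l ∣ d
    · rw [if_pos h]
      simp only [h, true_and]
      rw [← Finset.sum_filter, Finset.filter_filter]
      unfold ww
      have hf : (Nat.divisors s.prodPrimes).filter (fun k => d ∣ k ∧ k ≤ R)
          = (Nat.divisors s.prodPrimes).filter (fun k => k ≤ R ∧ d ∣ k) := by
        apply Finset.filter_congr; intro k _; exact and_comm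
      rw [hf, Finset.mul_sum, Finset.mul_sum]
      apply Finset.sum_congr rfl
      intro k _
      field_simp
    · rw [if_neg h]
      simp [h]
  rw [Finset.sum_congr rfl h1, Finset.sum_comm]
  have h2 : ∀ k ∈ (Nat.divisors s.prodPrimes).filter (· ≤ R),
      ∑ d ∈ Nat.divisors s.prodPrimes,
        (if l ∣ d ∧ d ∣ k then (μ d : ℝ) * (s.selbergTerms k / JJ s R) else 0)
      = if l = k then (μ l : ℝ) * (s.selbergTerms k / JJ s R) else 0 := by
    intro k hk
    rw [mem_filter, Nat.mem_divisors] at hk
    have hksq : Squarefree k := s.prodPrimes_squarefree.squarefree_of_dvd hk.1.1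
    rw [← Finset.sum_filter, ← Finset.sum_mul]
    have h3 : (Nat.divisors s.prodPrimes).filter (fun d => l ∣ d ∧ d ∣ k)
        = (Nat.divisors k).filter (fun d => l ∣ d) := by
      ext d
      simp only [mem_filter, Nat.mem_divisors]
      constructor
      · rintro ⟨-, h4, h5⟩
        exact ⟨⟨h5, hksq.ne_zero⟩, h4⟩
      · rintro ⟨⟨h5, -⟩, h4⟩
        exact ⟨⟨h5.trans hk.1.1, hP⟩, h4, h5⟩
    rw [h3]
    by_cases hlk : l ∣ k
    · rw [moebius_sum hksq hlk]
      split_ifs <;> simp
    · have h4 : (Nat.divisors k).filter (fun d => l ∣ d) = ∅ := by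
        apply Finset.filter_false_of_mem
        intro d hd hld
        exact hlk (hld.trans (Nat.dvd_of_mem_divisors hd))
      rw [h4, if_neg]
      · simp
      · rintro rfl
        exact hlk dvd_rfl
  rw [Finset.sum_congr rfl h2, Finset.sum_ite_eq]
  simp only [mem_filter, hl, true_and]
  split_ifs
  · ring
  · rfl

theorem mainSum_eq (hR : 1 ≤ R) : s.mainSum (lambdaSquared (ww s R)) = 1 / JJ s R := by
  have hJ := (JJ_pos (s := s) R hR).ne'
  rw [mainSum_lambdaSquared_eq_sum_mul_sum_sq]
  have h1 : ∀ l ∈ Nat.divisors s.prodPrimes, (s.selbergTerms l)⁻¹ *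
        (∑ d ∈ Nat.divisors s.prodPrimes, if l ∣ d then s.nu d * ww s R d else 0) ^ 2
      = if l ≤ R then s.selbergTerms l / (JJ s R) ^ 2 else 0 := by
    intro l hl
    rw [inner_sum R hR hl]
    have hg := (g_pos hl).ne'
    have hsq : Squarefree l := s.prodPrimes_squarefree.squarefree_of_dvd (Nat.dvd_of_mem_divisors hl)
    have hmu : (μ l : ℝ) ^ 2 = 1 := by exact_mod_cast moebius_sq_eq_one_of_squarefree hsq
    split_ifs
    · field_simp
      rw [hmu]
    · simp
  rw [Finset.sum_congr rfl h1, ← Finset.sum_filter, ← Finset.sum_div]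
  have h2 : ∑ l ∈ (Nat.divisors s.prodPrimes).filter (· ≤ R), s.selbergTerms l = JJ s R := rfl
  rw [h2]
  field_simp

theorem ww_zero {d : ℕ} (hd0 : 0 < d) (hd : R < d) : ww s R d = 0 := by
  unfold ww
  have : (Nat.divisors s.prodPrimes).filter (fun k => d ∣ k ∧ k ≤ R) = ∅ := by
    apply Finset.filter_false_of_mem
    rintro k hk ⟨h1, h2⟩
    have := Nat.le_of_dvd (Nat.pos_of_mem_divisors hk) h1
    omega
  rw [this]; simp

theorem ww_bound (hR : 1 ≤ R) {d : ℕ} (hd : d ∈ Nat.divisors s.prodPrimes) :
    |ww s R d| ≤ s.selbergTerms d / s.nu d := by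
  have hJ := JJ_pos (s := s) R hR
  have hP := P_ne s
  have hnu := nu_pos_of_dvd_prodPrimes (s := s) (Nat.dvd_of_mem_divisors hd)
  have hsq : Squarefree d := s.prodPrimes_squarefree.squarefree_of_dvd (Nat.dvd_of_mem_divisors hd)
  have hd0 : 0 < d := Nat.pos_of_mem_divisors hd
  have hmu : |(μ d : ℝ)| = 1 := by
    have := abs_moebius_eq_one_of_squarefree hsq
    exact_mod_cast this
  have hsum : ∑ k ∈ (Nat.divisors s.prodPrimes).filter (fun k => d ∣ k ∧ k ≤ R), s.selbergTerms k
      ≤ s.selbergTerms d * JJ s R := by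
    unfold JJ
    rw [Finset.mul_sum]
    have h1 : ∑ k ∈ (Nat.divisors s.prodPrimes).filter (fun k => d ∣ k ∧ k ≤ R), s.selbergTerms k
        = ∑ m ∈ ((Nat.divisors s.prodPrimes).filter (fun k => d ∣ k ∧ k ≤ R)).image (fun k => k / d),
          s.selbergTerms d * s.selbergTerms m := by
      rw [Finset.sum_image]
      · apply Finset.sum_congr rfl
        intro k hk
        rw [mem_filter, Nat.mem_divisors] at hk
        have h2 : k = d * (k / d) := (Nat.mul_div_cancel' hk.2.1).symm
        have h3 : Nat.Coprime d (k / d) := by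
          apply Nat.coprime_of_squarefree_mul
          rw [← h2]; exact s.prodPrimes_squarefree.squarefree_of_dvd hk.1.1
        conv_lhs => rw [h2]
        exact selbergTerms_isMultiplicative.map_mul_of_coprime h3
      · intro a ha b hb hab
        simp only [coe_filter, Nat.mem_divisors, Set.mem_ofPred_eq] at ha hb
        simp only at hab
        rw [← Nat.mul_div_cancel' ha.2.1, ← Nat.mul_div_cancel' hb.2.1, hab]
    rw [h1]
    apply Finset.sum_le_sum_of_subset_of_nonneg
    · intro m hm
      rw [mem_image] at hm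
      obtain ⟨k, hk, rfl⟩ := hm
      rw [mem_filter, Nat.mem_divisors] at hk
      rw [mem_filter, Nat.mem_divisors]
      exact ⟨⟨(Nat.div_dvd_of_dvd hk.2.1).trans hk.1.1, hP⟩, (Nat.div_le_self _ _).trans hk.2.2⟩
    · intro m hm _
      exact mul_nonneg (g_pos hd).le (g_pos (mem_filter.1 hm).1).le
  have hnn : 0 ≤ ∑ k ∈ (Nat.divisors s.prodPrimes).filter (fun k => d ∣ k ∧ k ≤ R), s.selbergTerms k :=
    Finset.sum_nonneg fun k hk => (g_pos (mem_filter.1 hk).1).le
  unfold ww
  rw [abs_mul, abs_div, hmu, abs_of_pos (mul_pos hnu hJ), abs_of_nonneg hnn]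
  calc 1 / (s.nu d * JJ s R) * _ ≤ 1 / (s.nu d * JJ s R) * (s.selbergTerms d * JJ s R) := by
        gcongr
    _ = s.selbergTerms d / s.nu d := by
        field_simp

/-- Error term bound: if all weights are at most `A` in size (for divisors at most `R`)
and all remainders `|rem (lcm d1 d2)|` are at most `B` for `d1, d2 ≤ R`. -/
theorem errSum_le {A B : ℝ} (hA : 0 ≤ A) (hB : 0 ≤ B)
    (hw : ∀ d ∈ Nat.divisors s.prodPrimes, d ≤ R → |ww s R d| ≤ A)
    (hr : ∀ d ∈ Nat.divisors s.prodPrimes, d ≤ R ^ 2 → |s.rem d| ≤ B) :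
    s.errSum (lambdaSquared (ww s R)) ≤ B * (R * A) ^ 2 := by
  classical
  have hP := P_ne s
  unfold errSum
  set D := Nat.divisors s.prodPrimes with hD
  have habs : ∀ d ∈ D, |lambdaSquared (ww s R) d| * |s.rem d| ≤
      ∑ d1 ∈ D, ∑ d2 ∈ D, (if d = Nat.lcm d1 d2 then |ww s R d1| * |ww s R d2| * B else 0) := by
    intro d hd
    have hd' := Nat.dvd_of_mem_divisors hd
    have hsub : Nat.divisors d ⊆ D := Nat.divisors_subset_of_dvd hP hd'
    have h1 : |lambdaSquared (ww s R) d| * |s.rem d| ≤
        ∑ d1 ∈ Nat.divisors d, ∑ d2 ∈ Nat.divisors d,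
          (if d = Nat.lcm d1 d2 then |ww s R d1| * |ww s R d2| * B else 0) := by
      unfold lambdaSquared
      calc _ ≤ (∑ d1 ∈ Nat.divisors d, ∑ d2 ∈ Nat.divisors d,
            |if d = Nat.lcm d1 d2 then ww s R d1 * ww s R d2 else 0|) * |s.rem d| := by
            gcongr
            refine (Finset.abs_sum_le_sum_abs _ _).trans ?_
            apply Finset.sum_le_sum
            intro d1 _
            exact Finset.abs_sum_le_sum_abs _ _
        _ = ∑ d1 ∈ Nat.divisors d, ∑ d2 ∈ Nat.divisors d,
            |if d = Nat.lcm d1 d2 then ww s R d1 * ww s R d2 else 0| * |s.rem d| := by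
            rw [Finset.sum_mul]
            apply Finset.sum_congr rfl
            intro d1 _
            rw [Finset.sum_mul]
        _ ≤ _ := by
            apply Finset.sum_le_sum
            intro d1 hd1
            apply Finset.sum_le_sum
            intro d2 hd2
            split_ifs with h
            · rw [abs_mul]
              have hd10 : 0 < d1 := Nat.pos_of_mem_divisors hd1
              have hd20 : 0 < d2 := Nat.pos_of_mem_divisors hd2
              by_cases h1 : R < d1
              · rw [ww_zero R hd10 h1]; simp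
              · by_cases h2 : R < d2
                · rw [ww_zero R hd20 h2]; simp
                · have hdR : d ≤ R ^ 2 := by
                    rw [h, sq]
                    exact (Nat.le_of_dvd (Nat.mul_pos hd10 hd20) (Nat.lcm_dvd_mul d1 d2)).trans
                      (Nat.mul_le_mul (by omega) (by omega))
                  have := hr d hd hdR
                  gcongr
            · simp
    refine h1.trans ?_
    calc _ ≤ ∑ d1 ∈ Nat.divisors d, ∑ d2 ∈ D,
          (if d = Nat.lcm d1 d2 then |ww s R d1| * |ww s R d2| * B else 0) := by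
          apply Finset.sum_le_sum
          intro d1 _
          apply Finset.sum_le_sum_of_subset_of_nonneg hsub
          intro d2 _ _
          split_ifs <;> positivity
      _ ≤ _ := by
          apply Finset.sum_le_sum_of_subset_of_nonneg hsub
          intro d1 _ _
          apply Finset.sum_nonneg
          intro d2 _
          split_ifs <;> positivity
  calc ∑ d ∈ D, |lambdaSquared (ww s R) d| * |s.rem d|
      ≤ ∑ d ∈ D, ∑ d1 ∈ D, ∑ d2 ∈ D, (if d = Nat.lcm d1 d2 then |ww s R d1| * |ww s R d2| * B else 0) :=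
        Finset.sum_le_sum habs
    _ = ∑ d1 ∈ D, ∑ d2 ∈ D, ∑ d ∈ D, (if d = Nat.lcm d1 d2 then |ww s R d1| * |ww s R d2| * B else 0) := by
        rw [Finset.sum_comm]
        apply Finset.sum_congr rfl
        intro d1 _
        rw [Finset.sum_comm]
    _ ≤ ∑ d1 ∈ D, ∑ d2 ∈ D, |ww s R d1| * |ww s R d2| * B := by
        apply Finset.sum_le_sum
        intro d1 _
        apply Finset.sum_le_sum
        intro d2 _
        rw [Finset.sum_ite_eq']
        split_ifs
        · exact le_rfl
        · positivity
    _ = B * (∑ d ∈ D, |ww s R d|) ^ 2 := by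
        rw [sq, Finset.sum_mul_sum, Finset.mul_sum]
        apply Finset.sum_congr rfl
        intro d1 _
        rw [Finset.mul_sum]
        apply Finset.sum_congr rfl
        intro d2 _
        ring
    _ ≤ B * (R * A) ^ 2 := by
        have h2 : ∑ d ∈ D, |ww s R d| ≤ R * A := by
          have h3 : ∑ d ∈ D, |ww s R d| = ∑ d ∈ D.filter (· ≤ R), |ww s R d| := by
            rw [Finset.sum_filter]
            apply Finset.sum_congr rfl
            intro d hd
            split_ifs with h
            · rfl
            · rw [ww_zero R (Nat.pos_of_mem_divisors hd) (by omega)]; simp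
          rw [h3]
          calc _ ≤ ∑ _d ∈ D.filter (· ≤ R), A := by
                apply Finset.sum_le_sum
                intro d hd
                rw [mem_filter] at hd
                exact hw d hd.1 hd.2
            _ = ((D.filter (· ≤ R)).card : ℝ) * A := by rw [Finset.sum_const, nsmul_eq_mul]
            _ ≤ R * A := by
                gcongr
                have h4 : D.filter (· ≤ R) ⊆ Icc 1 R := by
                  intro d hd
                  rw [mem_filter] at hd
                  rw [mem_Icc]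
                  exact ⟨Nat.pos_of_mem_divisors hd.1, hd.2⟩
                have h5 := Finset.card_le_card h4
                rw [Nat.card_Icc] at h5
                simpa using h5
        have h6 : 0 ≤ ∑ d ∈ D, |ww s R d| := Finset.sum_nonneg fun _ _ => abs_nonneg _
        gcongr

/-- The Selberg upper bound in the form we use. -/
theorem selberg_bound (hR : 1 ≤ R) {A B : ℝ} (hA : 0 ≤ A) (hB : 0 ≤ B)
    (hw : ∀ d ∈ Nat.divisors s.prodPrimes, d ≤ R → s.selbergTerms d / s.nu d ≤ A)
    (hr : ∀ d ∈ Nat.divisors s.prodPrimes, d ≤ R ^ 2 → |s.rem d| ≤ B) :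
    s.siftedSum ≤ s.totalMass / JJ s R + B * (R * A) ^ 2 := by
  have h1 := siftedSum_le_mainSum_errSum_of_upperMoebius (s := s) _
    (upperMoebius_lambdaSquared (ww s R) (ww_one R hR))
  rw [mainSum_eq R hR] at h1
  have h2 := errSum_le (s := s) R hA hB
    (fun d hd hdR => (ww_bound R hR hd).trans (hw d hd hdR)) hr
  calc s.siftedSum ≤ _ := h1
    _ ≤ s.totalMass * (1 / JJ s R) + B * (R * A) ^ 2 := by linarith
    _ = _ := by ring

end Pool.Agent.Erdos456.SieveAux
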