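import Mathlib
import Pool.Agent.Erdos456.SieveA
import Pool.Agent.Erdos456.SieveB

set_option autoImplicit false

namespace Pool.Agent.Erdos456.SieveAux

open Finset ArithmeticFunction BoundingSieve

/-- product of primes up to `R` not dividing `M` -/
def PR (R M : ℕ) : ℕ := ∏ p ∈ (Finset.range (R + 1)).filter (fun p => p.Prime ∧ ¬ p ∣ M), p

theorem PR_squarefree (R M : ℕ) : Squarefree (PR R M) := by
  apply (squarefree_primorial R).squarefree_of_dvd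
  unfold PR primorial
  apply Finset.prod_dvd_prod_of_subset
  intro p hp
  rw [mem_filter] at hp ⊢
  exact ⟨hp.1, hp.2.1⟩

theorem prime_dvd_PR {R M p : ℕ} (hp : p.Prime) : p ∣ PR R M ↔ p ≤ R ∧ ¬ p ∣ M := by
  unfold PR
  rw [Prime.dvd_finsetProd_iff hp.prime]
  constructor
  · rintro ⟨q, hq, hpq⟩
    rw [mem_filter, mem_range] at hq
    have : p = q := (Nat.prime_dvd_prime_iff_eq hp hq.2.1).1 hpq
    subst this
    exact ⟨by omega, hq.2.2⟩
  · rintro ⟨h1, h2⟩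
    exact ⟨p, by rw [mem_filter, mem_range]; exact ⟨by omega, hp, h2⟩, dvd_rfl⟩

theorem coprime_of_dvd_PR {R M d : ℕ} (hd : d ∣ PR R M) : Nat.Coprime d M := by
  apply Nat.Coprime.symm
  rw [Nat.coprime_iff_gcd_eq_one]
  by_contra h
  obtain ⟨p, hp, hpd⟩ := Nat.exists_prime_and_dvd h
  have h1 : p ∣ M := hpd.trans (Nat.gcd_dvd_left _ _)
  have h2 : p ∣ PR R M := (hpd.trans (Nat.gcd_dvd_right _ _)).trans hd
  exact ((prime_dvd_PR hp).1 h2).2 h1

theorem dvd_PR {R M l : ℕ} (hl0 : l ≤ R) (hl : Squarefree l) (hlM : Nat.Coprime l M) : l ∣ PR R M := by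
  rw [← Nat.prod_primeFactors_of_squarefree hl]
  unfold PR
  apply Finset.prod_dvd_prod_of_subset
  intro p hp
  rw [Nat.mem_primeFactors] at hp
  rw [mem_filter, mem_range]
  refine ⟨?_, hp.1, ?_⟩
  · have := Nat.le_of_dvd (Nat.pos_of_ne_zero hp.2.2) hp.2.1
    omega
  · intro h
    have := Nat.dvd_gcd hp.2.1 h
    rw [hlM] at this
    exact hp.1.one_lt.ne' (Nat.dvd_one.1 this)

/-- the density function `τ(n)/n` -/
noncomputable def nuF : ArithmeticFunction ℝ :=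
  ⟨fun n => ((Nat.divisors n).card : ℝ) / n, by simp⟩

theorem nuF_apply (n : ℕ) : nuF n = ((Nat.divisors n).card : ℝ) / n := rfl

theorem nuF_mult : nuF.IsMultiplicative := by
  constructor
  · simp [nuF_apply]
  · intro m n hmn
    rw [nuF_apply, nuF_apply, nuF_apply, Nat.Coprime.card_divisors_mul hmn]
    push_cast
    rw [mul_div_mul_comm]

theorem nuF_prime {p : ℕ} (hp : p.Prime) : nuF p = 2 / p := by
  rw [nuF_apply, hp.divisors, Finset.card_pair hp.one_lt.ne]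
  norm_num

def ff (a₁ b₁ a₂ b₂ n : ℕ) : ℕ := (a₁ * n + b₁) * (a₂ * n + b₂)

theorem ff_mono {a₁ a₂ : ℕ} (b₁ b₂ : ℕ) (h1 : 0 < a₁) (h2 : 0 < a₂) : StrictMono (ff a₁ b₁ a₂ b₂) := by
  intro m n hmn
  unfold ff
  apply Nat.mul_lt_mul''
  · have := Nat.mul_lt_mul_of_pos_left hmn h1
    omega
  · have := Nat.mul_lt_mul_of_pos_left hmn h2
    omega

theorem three_le_of_dvd {R M p : ℕ} (hM : 2 ∣ M) (hp : p.Prime) (h : p ∣ PR R M) : 3 ≤ p := by
  have h1 := ((prime_dvd_PR hp).1 h).2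
  have h2 := hp.two_le
  rcases h2.lt_or_eq with h3 | h3
  · exact h3
  · subst h3; exact absurd hM h1

noncomputable def sv (a₁ b₁ a₂ b₂ N R M : ℕ) (hM : 2 ∣ M) : BoundingSieve where
  support := (Icc 1 N).image (ff a₁ b₁ a₂ b₂)
  prodPrimes := PR R M
  prodPrimes_squarefree := PR_squarefree R M
  weights := fun _ => 1
  weights_nonneg := fun _ => zero_le_one
  totalMass := N
  nu := nuF
  nu_mult := nuF_mult
  nu_pos_of_prime := by
    intro p hp _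
    rw [nuF_prime hp]
    have : (0 : ℝ) < p := by exact_mod_cast hp.pos
    positivity
  nu_lt_one_of_prime := by
    intro p hp hd
    rw [nuF_prime hp]
    have h3 := three_le_of_dvd hM hp hd
    have h3' : (3 : ℝ) ≤ p := by exact_mod_cast h3
    rw [div_lt_one (by linarith)]
    linarith

/-- counting a residue class in `[1, N]` -/
theorem count_class (N d c : ℕ) (hd : 0 < d) :
    |(((Icc 1 N).filter (fun n => n ≡ c [MOD d])).card : ℝ) - (N : ℝ) / d| ≤ 1 := by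
  have h1 := Nat.Ioc_filter_modEq_card 0 N hd c
  have h2 : Icc 1 N = Ioc 0 N := by
    ext x; simp [mem_Icc, mem_Ioc, Nat.lt_iff_add_one_le]
  rw [h2]
  have hdq : (0 : ℚ) < d := by exact_mod_cast hd
  have hle : (⌊((0 : ℕ) - (c : ℚ)) / (d : ℚ)⌋ : ℤ) ≤ ⌊((N : ℚ) - (c : ℚ)) / (d : ℚ)⌋ := by
    apply Int.floor_le_floor
    gcongr
    exact_mod_cast Nat.zero_le N
  rw [max_eq_left (by linarith)] at h1
  have h3 := Int.floor_le (((N : ℚ) - (c : ℚ)) / (d : ℚ))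
  have h4 := Int.lt_floor_add_one (((N : ℚ) - (c : ℚ)) / (d : ℚ))
  have h5 := Int.floor_le (((0 : ℕ) - (c : ℚ)) / (d : ℚ))
  have h6 := Int.lt_floor_add_one (((0 : ℕ) - (c : ℚ)) / (d : ℚ))
  have h7 : ((N : ℚ) - (c : ℚ)) / (d : ℚ) - (((0 : ℕ) - (c : ℚ)) / (d : ℚ)) = N / d := by
    push_cast; ring
  set x := ⌊((N : ℚ) - (c : ℚ)) / (d : ℚ)⌋
  set y := ⌊((0 : ℕ) - (c : ℚ)) / (d : ℚ)⌋
  have h8 : (((((Ioc 0 N).filter (fun n => n ≡ c [MOD d])).card : ℤ) : ℚ)) = x - y := by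
    rw [h1]; push_cast; rfl
  have h9 : |(((((Ioc 0 N).filter (fun n => n ≡ c [MOD d])).card : ℤ) : ℚ)) - N / d| ≤ 1 := by
    rw [h8, abs_le]
    constructor <;> linarith
  have h10 : ((|(((((Ioc 0 N).filter (fun n => n ≡ c [MOD d])).card : ℤ) : ℚ)) - N / d| : ℚ) : ℝ) ≤ ((1 : ℚ) : ℝ) := by
    exact_mod_cast h9
  push_cast at h10
  exact h10

theorem exists_class_one {a b d : ℕ} (hd : 0 < d) (had : Nat.Coprime a d) :
    ∃ c : ℕ, ∀ n : ℕ, d ∣ a * n + b ↔ n ≡ c [MOD d] := by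
  have : NeZero d := ⟨hd.ne'⟩
  set u := ZMod.unitOfCoprime a had with hu
  have hua : (u : ZMod d) = a := ZMod.coe_unitOfCoprime a had
  refine ⟨(-(b : ZMod d) * ((u⁻¹ : (ZMod d)ˣ) : ZMod d)).val, fun n => ?_⟩
  rw [← ZMod.natCast_eq_zero_iff, ← ZMod.natCast_eq_natCast_iff, ZMod.natCast_zmod_val]
  push_cast
  rw [← hua]
  constructor
  · intro h
    have h1 : (u : ZMod d) * n = -b := by linear_combination h
    rw [← h1, mul_comm (u : ZMod d), mul_assoc, Units.mul_inv, mul_one]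
  · intro h
    rw [h]
    have : (u : ZMod d) * (-(b : ZMod d) * ((u⁻¹ : (ZMod d)ˣ) : ZMod d))
        = -(b : ZMod d) * ((u : ZMod d) * ((u⁻¹ : (ZMod d)ˣ) : ZMod d)) := by ring
    rw [this, Units.mul_inv]
    ring

theorem exists_class_two {a₁ b₁ a₂ b₂ d₁ d₂ : ℕ} (hd₁ : 0 < d₁) (hd₂ : 0 < d₂)
    (h1 : Nat.Coprime a₁ d₁) (h2 : Nat.Coprime a₂ d₂) (h12 : Nat.Coprime d₁ d₂) :
    ∃ c : ℕ, ∀ n : ℕ, (d₁ ∣ a₁ * n + b₁ ∧ d₂ ∣ a₂ * n + b₂) ↔ n ≡ c [MOD (d₁ * d₂)] := by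
  obtain ⟨c1, hc1⟩ := exists_class_one (b := b₁) hd₁ h1
  obtain ⟨c2, hc2⟩ := exists_class_one (b := b₂) hd₂ h2
  obtain ⟨c, hca, hcb⟩ := Nat.chineseRemainder h12 c1 c2
  refine ⟨c, fun n => ?_⟩
  rw [hc1, hc2, ← Nat.modEq_and_modEq_iff_modEq_mul h12]
  constructor
  · rintro ⟨h3, h4⟩
    exact ⟨h3.trans hca.symm, h4.trans hcb.symm⟩
  · rintro ⟨h3, h4⟩
    exact ⟨h3.trans hca, h4.trans hcb⟩

/-- unique factorisation `d = d₁ d₂`, `d₁ ∣ x`, `d₂ ∣ y` -/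
theorem factor_count {x y d : ℕ} (hd : Squarefree d) (hxy : ∀ p, p.Prime → p ∣ d → p ∣ x → ¬ p ∣ y) :
    (∑ e ∈ Nat.divisorsAntidiagonal d, if e.1 ∣ x ∧ e.2 ∣ y then (1 : ℝ) else 0)
      = if d ∣ x * y then 1 else 0 := by
  have hd0 : d ≠ 0 := hd.ne_zero
  by_cases h : d ∣ x * y
  · rw [if_pos h]
    set g := Nat.gcd d x with hg
    have hgd : g ∣ d := Nat.gcd_dvd_left _ _
    have hg0 : 0 < g := Nat.gcd_pos_of_pos_left _ (Nat.pos_of_ne_zero hd0)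
    have hgx : g ∣ x := Nat.gcd_dvd_right _ _
    have hgm : g * (d / g) = d := Nat.mul_div_cancel' hgd
    have hmem : (g, d / g) ∈ Nat.divisorsAntidiagonal d := by
      rw [Nat.mem_divisorsAntidiagonal]; exact ⟨hgm, hd0⟩
    have hcop : Nat.Coprime (d / g) (x / g) := Nat.coprime_div_gcd_div_gcd hg0
    have hy : d / g ∣ y := by
      have h1 : d / g ∣ (x / g) * y := by
        have h2 : g * (d / g) ∣ g * ((x / g) * y) := by
          rw [hgm, ← mul_assoc, Nat.mul_div_cancel' hgx]; exact h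
        exact Nat.dvd_of_mul_dvd_mul_left hg0 h2
      exact hcop.dvd_of_dvd_mul_left h1
    rw [Finset.sum_eq_single (g, d / g)]
    · rw [if_pos ⟨hgx, hy⟩]
    · rintro ⟨e1, e2⟩ he hne
      rw [if_neg]
      rintro ⟨h1, h2⟩
      apply hne
      rw [Nat.mem_divisorsAntidiagonal] at he
      simp only at he h1 h2
      have he1 : e1 ∣ g := Nat.dvd_gcd (he.1 ▸ dvd_mul_right _ _) h1
      -- `g / e1` divides both
      have hge : g = e1 := by
        obtain ⟨q, hq⟩ := he1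
        by_contra hne'
        have hq1 : q ≠ 1 := by
          rintro rfl; apply hne'; rw [hq, mul_one]
        obtain ⟨p, hp, hpq⟩ := Nat.exists_prime_and_dvd hq1
        have hpg : p ∣ g := hpq.trans (hq ▸ dvd_mul_left _ _)
        have hqe2 : q ∣ e2 := by
          have h3 : e1 * q ∣ e1 * e2 := by rw [he.1, ← hq]; exact hgd
          have he10 : 0 < e1 := Nat.pos_of_ne_zero (by rintro rfl; apply hd0; rw [← he.1, zero_mul])
          exact Nat.dvd_of_mul_dvd_mul_left he10 h3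
        exact hxy p hp (hpg.trans hgd) (hpg.trans hgx) ((hpq.trans hqe2).trans h2)
      have he2 : e2 = d / g := by
        rw [hge, ← he.1]
        exact (Nat.mul_div_cancel_left e2 (by rw [← hge]; exact hg0)).symm
      rw [he2, ← hge]
    · intro h3; exact absurd hmem h3
  · rw [if_neg h]
    apply Finset.sum_eq_zero
    rintro ⟨e1, e2⟩ he
    rw [if_neg]
    rintro ⟨h1, h2⟩
    apply h
    rw [Nat.mem_divisorsAntidiagonal] at he
    simp only at he h1 h2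
    rw [← he.1]
    exact Nat.mul_dvd_mul h1 h2

/-- The relevant nonvanishing discriminant. -/
def DD (a₁ b₁ a₂ b₂ : ℕ) : ℕ := a₁ * a₂ * (((a₁ * b₂ : ℕ) : ℤ) - ((a₂ * b₁ : ℕ) : ℤ)).natAbs

theorem no_common {a₁ b₁ a₂ b₂ n p : ℕ} (hpD : ¬ p ∣ DD a₁ b₁ a₂ b₂)
    (h1 : p ∣ a₁ * n + b₁) : ¬ p ∣ a₂ * n + b₂ := by
  intro h2
  apply hpD
  unfold DD
  apply Dvd.dvd.mul_left
  rw [← Int.natCast_dvd]
  have h1' : (p : ℤ) ∣ (a₁ : ℤ) * n + b₁ := by exact_mod_cast h1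
  have h2' : (p : ℤ) ∣ (a₂ : ℤ) * n + b₂ := by exact_mod_cast h2
  have h3 : ((a₁ * b₂ : ℕ) : ℤ) - ((a₂ * b₁ : ℕ) : ℤ)
      = (a₁ : ℤ) * ((a₂ : ℤ) * n + b₂) - (a₂ : ℤ) * ((a₁ : ℤ) * n + b₁) := by
    push_cast; ring
  rw [h3]
  exact dvd_sub (h2'.mul_left _) (h1'.mul_left _)

theorem count_ff {a₁ b₁ a₂ b₂ d : ℕ} (N : ℕ) (hd : Squarefree d)
    (hcop : Nat.Coprime d (DD a₁ b₁ a₂ b₂)) :
    |(((Icc 1 N).filter (fun n => d ∣ ff a₁ b₁ a₂ b₂ n)).card : ℝ) - nuF d * N|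
      ≤ (Nat.divisors d).card := by
  have hd0 : 0 < d := Nat.pos_of_ne_zero hd.ne_zero
  have hpD : ∀ p : ℕ, p.Prime → p ∣ d → ¬ p ∣ DD a₁ b₁ a₂ b₂ := by
    intro p hp hpd h
    have := Nat.dvd_gcd hpd h
    rw [hcop] at this
    exact hp.one_lt.ne' (Nat.dvd_one.1 this)
  have hcopa₁ : ∀ e, e ∣ d → Nat.Coprime a₁ e := by
    intro e he
    have h1 : a₁ ∣ DD a₁ b₁ a₂ b₂ := by unfold DD; rw [mul_assoc]; exact dvd_mul_right _ _
    exact (Nat.Coprime.coprime_dvd_left he (Nat.Coprime.coprime_dvd_right h1 hcop)).symm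
  have hcopa₂ : ∀ e, e ∣ d → Nat.Coprime a₂ e := by
    intro e he
    have h1 : a₂ ∣ DD a₁ b₁ a₂ b₂ := by
      unfold DD; rw [mul_comm a₁ a₂, mul_assoc]; exact dvd_mul_right _ _
    exact (Nat.Coprime.coprime_dvd_left he (Nat.Coprime.coprime_dvd_right h1 hcop)).symm
  have h1 : (((Icc 1 N).filter (fun n => d ∣ ff a₁ b₁ a₂ b₂ n)).card : ℝ)
      = ∑ e ∈ Nat.divisorsAntidiagonal d,
        (((Icc 1 N).filter (fun n => e.1 ∣ a₁ * n + b₁ ∧ e.2 ∣ a₂ * n + b₂)).card : ℝ) := by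
    have h2 : ∀ (q : ℕ → Prop) [DecidablePred q], (((Icc 1 N).filter q).card : ℝ)
        = ∑ n ∈ Icc 1 N, if q n then (1 : ℝ) else 0 := by
      intro q _
      rw [Finset.card_filter]; push_cast; rfl
    rw [h2]
    simp_rw [h2]
    rw [Finset.sum_comm]
    apply Finset.sum_congr rfl
    intro n _
    rw [factor_count hd]
    · rfl
    · intro p hp hpd h3
      exact no_common (hpD p hp hpd) h3
  have h2 : nuF d * N = ∑ e ∈ Nat.divisorsAntidiagonal d, (N : ℝ) / d := by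
    rw [Finset.sum_const, nsmul_eq_mul, nuF_apply]
    have : (Nat.divisorsAntidiagonal d).card = (Nat.divisors d).card := by
      rw [← Nat.map_div_right_divisors, Finset.card_map]
    rw [this]; ring
  rw [h1, h2, ← Finset.sum_sub_distrib]
  refine (Finset.abs_sum_le_sum_abs _ _).trans ?_
  have h3 : ∀ e ∈ Nat.divisorsAntidiagonal d,
      |(((Icc 1 N).filter (fun n => e.1 ∣ a₁ * n + b₁ ∧ e.2 ∣ a₂ * n + b₂)).card : ℝ) - (N : ℝ) / d| ≤ 1 := by
    rintro ⟨e1, e2⟩ he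
    rw [Nat.mem_divisorsAntidiagonal] at he
    simp only at he ⊢
    have he1 : e1 ∣ d := he.1 ▸ dvd_mul_right _ _
    have he2 : e2 ∣ d := he.1 ▸ dvd_mul_left _ _
    have h12 : Nat.Coprime e1 e2 := by
      apply Nat.coprime_of_squarefree_mul
      rw [he.1]; exact hd
    obtain ⟨c, hc⟩ := exists_class_two (b₁ := b₁) (b₂ := b₂) (Nat.pos_of_dvd_of_pos he1 hd0)
      (Nat.pos_of_dvd_of_pos he2 hd0) (hcopa₁ e1 he1) (hcopa₂ e2 he2) h12
    have h4 : (Icc 1 N).filter (fun n => e1 ∣ a₁ * n + b₁ ∧ e2 ∣ a₂ * n + b₂)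
        = (Icc 1 N).filter (fun n => n ≡ c [MOD d]) := by
      apply Finset.filter_congr
      intro n _
      rw [hc n, he.1]
    rw [h4]
    exact count_class N d c hd0
  refine (Finset.sum_le_sum h3).trans ?_
  rw [Finset.sum_const, nsmul_eq_mul, mul_one]
  have : (Nat.divisorsAntidiagonal d).card = (Nat.divisors d).card := by
    rw [← Nat.map_div_right_divisors, Finset.card_map]
  rw [this]

theorem rem_le {a₁ b₁ a₂ b₂ N R M d : ℕ} (hM : 2 ∣ M) (ha₁ : 0 < a₁) (ha₂ : 0 < a₂)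
    (hDM : DD a₁ b₁ a₂ b₂ ∣ M) (hd : d ∣ PR R M) :
    |(sv a₁ b₁ a₂ b₂ N R M hM).rem d| ≤ d := by
  have hsq : Squarefree d := (PR_squarefree R M).squarefree_of_dvd hd
  have hcop : Nat.Coprime d (DD a₁ b₁ a₂ b₂) := Nat.Coprime.coprime_dvd_right hDM (coprime_of_dvd_PR hd)
  have h1 := count_ff N hsq hcop
  have h2 : (sv a₁ b₁ a₂ b₂ N R M hM).multSum d
      = (((Icc 1 N).filter (fun n => d ∣ ff a₁ b₁ a₂ b₂ n)).card : ℝ) := by
    unfold multSum
    show ∑ n ∈ (Icc 1 N).image (ff a₁ b₁ a₂ b₂), (if d ∣ n then (1 : ℝ) else 0) = _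
    rw [Finset.sum_image fun x _ y _ h => (ff_mono b₁ b₂ ha₁ ha₂).injective h, Finset.card_filter]
    push_cast; rfl
  have h3 : (sv a₁ b₁ a₂ b₂ N R M hM).rem d
      = (((Icc 1 N).filter (fun n => d ∣ ff a₁ b₁ a₂ b₂ n)).card : ℝ) - nuF d * N := by
    unfold BoundingSieve.rem
    rw [h2]; rfl
  rw [h3]
  refine h1.trans ?_
  exact_mod_cast Nat.card_divisors_le_self d

theorem g_div_nu_le {a₁ b₁ a₂ b₂ N R M d : ℕ} (hM : 2 ∣ M) (hd : d ∣ PR R M) :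
    (sv a₁ b₁ a₂ b₂ N R M hM).selbergTerms d / (sv a₁ b₁ a₂ b₂ N R M hM).nu d ≤ d := by
  have hsq : Squarefree d := (PR_squarefree R M).squarefree_of_dvd hd
  have hnu : (sv a₁ b₁ a₂ b₂ N R M hM).nu d ≠ 0 :=
    nu_ne_zero (s := sv a₁ b₁ a₂ b₂ N R M hM) hd
  rw [selbergTerms_apply, mul_comm, mul_div_assoc, div_self hnu, mul_one]
  have h1 : (d : ℝ) = ∏ p ∈ d.primeFactors, (p : ℝ) := by
    conv_lhs => rw [← Nat.prod_primeFactors_of_squarefree hsq]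
    push_cast; rfl
  rw [h1]
  apply Finset.prod_le_prod
  · intro p hp
    have hpp := Nat.prime_of_mem_primeFactors hp
    have h2 := (sv a₁ b₁ a₂ b₂ N R M hM).nu_lt_one_of_prime p hpp
      ((Nat.dvd_of_mem_primeFactors hp).trans hd)
    rw [inv_nonneg]; linarith
  · intro p hp
    have hpp := Nat.prime_of_mem_primeFactors hp
    have h3 := three_le_of_dvd hM hpp ((Nat.dvd_of_mem_primeFactors hp).trans hd)
    have h3' : (3 : ℝ) ≤ p := by exact_mod_cast h3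
    show (1 - nuF p)⁻¹ ≤ p
    rw [nuF_prime hpp]
    have h4 : 1 - 2 / (p : ℝ) = (p - 2) / p := by field_simp
    rw [h4, inv_div, div_le_iff₀ (by linarith)]
    nlinarith

theorem JJ_lower {a₁ b₁ a₂ b₂ N X M : ℕ} (hM : 2 ∣ M) :
    ∑ l ∈ SF (X ^ 2) M, ((Nat.divisors l).card : ℝ) / l
      ≤ JJ (sv a₁ b₁ a₂ b₂ N (X ^ 2) M hM) (X ^ 2) := by
  set s := sv a₁ b₁ a₂ b₂ N (X ^ 2) M hM with hs
  unfold JJ
  have hsub : SF (X ^ 2) M ⊆ (Nat.divisors s.prodPrimes).filter (· ≤ X ^ 2) := by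
    intro l hl
    unfold SF at hl
    rw [mem_filter, mem_Icc] at hl
    rw [mem_filter, Nat.mem_divisors]
    exact ⟨⟨dvd_PR hl.1.2 hl.2.1 hl.2.2, P_ne s⟩, hl.1.2⟩
  calc ∑ l ∈ SF (X ^ 2) M, ((Nat.divisors l).card : ℝ) / l
      ≤ ∑ l ∈ SF (X ^ 2) M, s.selbergTerms l := by
        apply Finset.sum_le_sum
        intro l hl
        have hl' := hsub hl
        rw [mem_filter] at hl'
        have hlP := Nat.dvd_of_mem_divisors hl'.1
        rw [selbergTerms_apply]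
        show nuF l ≤ nuF l * _
        have hnu : 0 < nuF l := nu_pos_of_dvd_prodPrimes (s := s) hlP
        have h1 : (1 : ℝ) ≤ ∏ p ∈ l.primeFactors, (1 - s.nu p)⁻¹ := by
          have h0 : (1 : ℝ) = ∏ _p ∈ l.primeFactors, (1 : ℝ) := by simp
          refine h0.le.trans ?_
          apply Finset.prod_le_prod
          · intro p _; norm_num
          · intro p hp
            have hpp := Nat.prime_of_mem_primeFactors hp
            have hpP := (Nat.dvd_of_mem_primeFactors hp).trans hlP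
            have h2 := s.nu_lt_one_of_prime p hpp hpP
            have h3 := s.nu_pos_of_prime p hpp hpP
            have h4 : 0 < 1 - s.nu p := by linarith
            exact (one_le_inv₀ h4).2 (by linarith)
        nlinarith
    _ ≤ _ := by
        apply Finset.sum_le_sum_of_subset_of_nonneg hsub
        intro l hl _
        exact (g_pos (mem_filter.1 hl).1).le

theorem siftedSum_eq {a₁ b₁ a₂ b₂ N R M : ℕ} (hM : 2 ∣ M) (ha₁ : 0 < a₁) (ha₂ : 0 < a₂) :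
    (sv a₁ b₁ a₂ b₂ N R M hM).siftedSum
      = (((Icc 1 N).filter (fun n => Nat.Coprime (PR R M) (ff a₁ b₁ a₂ b₂ n))).card : ℝ) := by
  unfold siftedSum
  show ∑ n ∈ (Icc 1 N).image (ff a₁ b₁ a₂ b₂), (if Nat.Coprime (PR R M) n then (1 : ℝ) else 0) = _
  rw [Finset.sum_image fun x _ y _ h => (ff_mono b₁ b₂ ha₁ ha₂).injective h, Finset.card_filter]
  push_cast; rfl

theorem card_le_sifted {a₁ b₁ a₂ b₂ N R M : ℕ} (hM : 2 ∣ M) (ha₁ : 0 < a₁) (ha₂ : 0 < a₂) :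
    (((Icc 1 N).filter (fun n => (a₁ * n + b₁).Prime ∧ (a₂ * n + b₂).Prime)).card : ℝ)
      ≤ R + (sv a₁ b₁ a₂ b₂ N R M hM).siftedSum := by
  classical
  rw [siftedSum_eq hM ha₁ ha₂]
  have h1 : (Icc 1 N).filter (fun n => (a₁ * n + b₁).Prime ∧ (a₂ * n + b₂).Prime)
      ⊆ Icc 1 R ∪ (Icc 1 N).filter (fun n => Nat.Coprime (PR R M) (ff a₁ b₁ a₂ b₂ n)) := by
    intro n hn
    rw [mem_filter, mem_Icc] at hn
    rw [mem_union, mem_Icc, mem_filter, mem_Icc]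
    obtain ⟨⟨hn1, hn2⟩, hp1, hp2⟩ := hn
    by_cases hnR : n ≤ R
    · left; exact ⟨hn1, hnR⟩
    · right
      refine ⟨⟨hn1, hn2⟩, ?_⟩
      rw [Nat.coprime_iff_gcd_eq_one]
      by_contra h
      obtain ⟨p, hp, hpd⟩ := Nat.exists_prime_and_dvd h
      have h2 : p ∣ PR R M := hpd.trans (Nat.gcd_dvd_left _ _)
      have h3 : p ∣ ff a₁ b₁ a₂ b₂ n := hpd.trans (Nat.gcd_dvd_right _ _)
      have hpR := ((prime_dvd_PR hp).1 h2).1
      unfold ff at h3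
      rcases (Nat.Prime.dvd_mul hp).1 h3 with h4 | h4
      · have h5 := (Nat.prime_dvd_prime_iff_eq hp hp1).1 h4
        have h6 : n ≤ a₁ * n := Nat.le_mul_of_pos_left n ha₁
        omega
      · have h5 := (Nat.prime_dvd_prime_iff_eq hp hp2).1 h4
        have h6 : n ≤ a₂ * n := Nat.le_mul_of_pos_left n ha₂
        omega
  have h2 := Finset.card_le_card h1
  have h3 := h2.trans (Finset.card_union_le _ _)
  rw [Nat.card_Icc] at h3
  simp only [Nat.add_sub_cancel] at h3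
  exact_mod_cast h3

end Pool.Agent.Erdos456.SieveAux

namespace Pool.Agent.Erdos456

open Finset SieveAux

/-- Selberg upper bound for two linear forms being simultaneously prime. -/
theorem sieve_two : ∃ C : ℝ, 0 < C ∧ ∀ a₁ b₁ a₂ b₂ N : ℕ, 0 < a₁ → 0 < a₂ →
    Nat.Coprime a₁ b₁ → Nat.Coprime a₂ b₂ → a₁ * b₂ ≠ a₂ * b₁ → 2 ≤ N →
    (((Finset.Icc 1 N).filter (fun n => (a₁ * n + b₁).Prime ∧ (a₂ * n + b₂).Prime)).card : ℝ) ≤
      C * (((a₁ * a₂ * (((a₁ * b₂ : ℕ) : ℤ) - ((a₂ * b₁ : ℕ) : ℤ)).natAbs : ℕ) : ℝ) /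
        ((Nat.totient (a₁ * a₂ * (((a₁ * b₂ : ℕ) : ℤ) - ((a₂ * b₁ : ℕ) : ℤ)).natAbs) : ℕ) : ℝ)) ^ 2
        * N / (Real.log N) ^ 2 := by
  refine ⟨8320, by norm_num, ?_⟩
  intro a₁ b₁ a₂ b₂ N ha₁ ha₂ _ _ hne hN
  have hDdef : a₁ * a₂ * (((a₁ * b₂ : ℕ) : ℤ) - ((a₂ * b₁ : ℕ) : ℤ)).natAbs = DD a₁ b₁ a₂ b₂ := rfl
  rw [hDdef]
  set D := DD a₁ b₁ a₂ b₂ with hD
  have hD0 : 0 < D := by
    rw [hD]; unfold DD
    apply Nat.mul_pos (Nat.mul_pos ha₁ ha₂)
    rw [Int.natAbs_pos]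
    intro h
    apply hne
    have : ((a₁ * b₂ : ℕ) : ℤ) = ((a₂ * b₁ : ℕ) : ℤ) := by linarith
    exact_mod_cast this
  have hNR : (2 : ℝ) ≤ N := by exact_mod_cast hN
  have hN0 : (0 : ℝ) < N := by linarith
  have hlog : 0 < Real.log N := Real.log_pos (by linarith)
  set M := 2 * D with hM
  have hM2 : 2 ∣ M := dvd_mul_right _ _
  have hDM : D ∣ M := dvd_mul_left _ _
  have hM0 : M ≠ 0 := by omega
  set X := ⌊(N : ℝ) ^ ((1 : ℝ) / 16)⌋₊ with hX
  have hX1 : 1 ≤ X := by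
    rw [hX, Nat.one_le_floor_iff]
    exact Real.one_le_rpow (by linarith) (by norm_num)
  have hXle : (X : ℝ) ≤ (N : ℝ) ^ ((1 : ℝ) / 16) := Nat.floor_le (by positivity)
  have hXlt : (N : ℝ) ^ ((1 : ℝ) / 16) < X + 1 := Nat.lt_floor_add_one _
  have hlogX : Real.log N / 16 ≤ Real.log (X + 1) := by
    have h1 := Real.log_le_log (by positivity) hXlt.le
    rw [Real.log_rpow hN0] at h1
    linarith
  set R := X ^ 2 with hR
  have hR1 : 1 ≤ R := Nat.one_le_pow _ _ hX1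
  set s := sv a₁ b₁ a₂ b₂ N R M hM2 with hs
  -- main Selberg bound
  have hsel := selberg_bound (s := s) R hR1 (A := R) (B := (R : ℝ) ^ 2) (by positivity) (by positivity)
    (by
      intro d hd hdR
      refine (g_div_nu_le hM2 (Nat.dvd_of_mem_divisors hd)).trans ?_
      exact_mod_cast hdR)
    (by
      intro d hd hdR
      refine (rem_le hM2 ha₁ ha₂ hDM (Nat.dvd_of_mem_divisors hd)).trans ?_
      exact_mod_cast hdR)
  have hcard := card_le_sifted (a₁ := a₁) (b₁ := b₁) (a₂ := a₂) (b₂ := b₂) (N := N) (R := R) hM2 ha₁ ha₂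
  -- lower bound for J
  have hJ1 := JJ_lower (a₁ := a₁) (b₁ := b₁) (a₂ := a₂) (b₂ := b₂) (N := N) (X := X) hM2
  have hU := U_lower X M hM0
  have hUs := U_sq X M
  have hJpos : 0 < JJ s R := JJ_pos R hR1
  have htot : (0 : ℝ) < Nat.totient D := by exact_mod_cast Nat.totient_pos.2 hD0
  have htotM : (0 : ℝ) < Nat.totient M := by exact_mod_cast Nat.totient_pos.2 (Nat.pos_of_ne_zero hM0)
  have hDr : (0 : ℝ) < D := by exact_mod_cast hD0
  set G := (D : ℝ) / (Nat.totient D : ℝ) with hG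
  have hG1 : 1 ≤ G := by
    rw [hG, one_le_div htot]
    exact_mod_cast Nat.totient_le D
  have hMG : (M : ℝ) / (Nat.totient M : ℝ) ≤ 2 * G := by
    rw [hG, hM, ← mul_div_assoc]
    push_cast
    apply div_le_div_of_nonneg_left (by positivity) htot
    have : Nat.totient D ≤ Nat.totient (2 * D) :=
      Nat.le_of_dvd (Nat.totient_pos.2 (by omega)) (Nat.totient_dvd_of_dvd (dvd_mul_left _ _))
    exact_mod_cast this
  have hU0 : 0 ≤ U X M := Finset.sum_nonneg fun _ _ => by positivity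
  have hU2 : Real.log N ≤ 64 * G * U X M := by
    have h1 : Real.log (X + 1) ≤ 2 * (2 * G) * U X M := by
      refine hU.trans ?_
      gcongr
    linarith
  have hJ2 : (Real.log N) ^ 2 ≤ 8192 * G ^ 2 * JJ s R := by
    calc (Real.log N) ^ 2 ≤ (64 * G * U X M) ^ 2 := by gcongr
      _ = 4096 * G ^ 2 * (U X M) ^ 2 := by ring
      _ ≤ 4096 * G ^ 2 * (2 * JJ s R) := by
          gcongr
          refine hUs.trans ?_
          linarith
      _ = _ := by ring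
  have hmain : s.totalMass / JJ s R ≤ 8192 * G ^ 2 * N / (Real.log N) ^ 2 := by
    show (N : ℝ) / JJ s R ≤ _
    rw [div_le_div_iff₀ hJpos (by positivity)]
    calc (N : ℝ) * (Real.log N) ^ 2 ≤ N * (8192 * G ^ 2 * JJ s R) := by gcongr
      _ = _ := by ring
  -- error terms
  have hlog8 : (Real.log N) ^ 2 ≤ 64 * (N : ℝ) ^ ((1 : ℝ) / 4) := by
    have h1 : Real.log N ≤ (N : ℝ) ^ ((1 : ℝ) / 8) / (1 / 8) :=
      Real.log_le_rpow_div hN0.le (by norm_num)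
    calc (Real.log N) ^ 2 ≤ ((N : ℝ) ^ ((1 : ℝ) / 8) / (1 / 8)) ^ 2 := by gcongr
      _ = 64 * ((N : ℝ) ^ ((1 : ℝ) / 8)) ^ 2 := by ring
      _ = 64 * (N : ℝ) ^ ((1 : ℝ) / 4) := by
          rw [← Real.rpow_natCast, ← Real.rpow_mul hN0.le]; norm_num
  have hX12 : (X : ℝ) ^ 12 ≤ (N : ℝ) ^ ((3 : ℝ) / 4) := by
    calc (X : ℝ) ^ 12 ≤ ((N : ℝ) ^ ((1 : ℝ) / 16)) ^ 12 := by gcongr
      _ = (N : ℝ) ^ ((3 : ℝ) / 4) := by
          rw [← Real.rpow_natCast, ← Real.rpow_mul hN0.le]; norm_num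
  have hX1r : (1 : ℝ) ≤ X := by exact_mod_cast hX1
  have herr : (N : ℝ) ^ ((3 : ℝ) / 4) ≤ 64 * G ^ 2 * N / (Real.log N) ^ 2 := by
    rw [le_div_iff₀ (by positivity)]
    calc (N : ℝ) ^ ((3 : ℝ) / 4) * (Real.log N) ^ 2
        ≤ (N : ℝ) ^ ((3 : ℝ) / 4) * (64 * (N : ℝ) ^ ((1 : ℝ) / 4)) := by gcongr
      _ = 64 * ((N : ℝ) ^ ((3 : ℝ) / 4) * (N : ℝ) ^ ((1 : ℝ) / 4)) := by ring
      _ = 64 * N := by
          rw [← Real.rpow_add hN0]; norm_num
      _ ≤ 64 * G ^ 2 * N := by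
          have : 1 ≤ G ^ 2 := one_le_pow₀ hG1
          nlinarith
  have hRr : (R : ℝ) = (X : ℝ) ^ 2 := by rw [hR]; push_cast; ring
  have he1 : (R : ℝ) ≤ (N : ℝ) ^ ((3 : ℝ) / 4) := by
    rw [hRr]
    refine le_trans ?_ hX12
    exact pow_le_pow_right₀ hX1r (by norm_num)
  have he2 : (R : ℝ) ^ 2 * ((R : ℝ) * R) ^ 2 ≤ (N : ℝ) ^ ((3 : ℝ) / 4) := by
    rw [hRr]
    calc ((X : ℝ) ^ 2) ^ 2 * ((X : ℝ) ^ 2 * (X : ℝ) ^ 2) ^ 2 = (X : ℝ) ^ 12 := by ring
      _ ≤ _ := hX12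
  calc _ ≤ (R : ℝ) + s.siftedSum := hcard
    _ ≤ (N : ℝ) ^ ((3 : ℝ) / 4) + (8192 * G ^ 2 * N / (Real.log N) ^ 2 + (N : ℝ) ^ ((3 : ℝ) / 4)) := by
        linarith
    _ ≤ 64 * G ^ 2 * N / (Real.log N) ^ 2 + (8192 * G ^ 2 * N / (Real.log N) ^ 2
        + 64 * G ^ 2 * N / (Real.log N) ^ 2) := by linarith
    _ = 8320 * G ^ 2 * N / (Real.log N) ^ 2 := by ring

end Pool.Agent.Erdos456
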