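import Mathlib

set_option autoImplicit false

namespace Pool.Agent.Erdos456

/-- least positive `m` with `n ∣ φ m` -/
noncomputable def mm (n : ℕ) : ℕ := sInf {m : ℕ | 0 < m ∧ n ∣ Nat.totient m}

/-- `n / mm n` -/
noncomputable def tt (n : ℕ) : ℝ := (n : ℝ) / (mm n : ℝ)

theorem mm_set_nonempty (n : ℕ) (hn : 0 < n) : {m : ℕ | 0 < m ∧ n ∣ Nat.totient m}.Nonempty := by
  refine ⟨n * n, by positivity, ?_⟩
  have h := Nat.totient_gcd_mul_totient_mul n n
  rw [Nat.gcd_self] at h
  have hp : 0 < Nat.totient n := Nat.totient_pos.mpr hn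
  have h2 : Nat.totient (n * n) = Nat.totient n * n := by
    apply Nat.eq_of_mul_eq_mul_left hp
    rw [h]; ring
  rw [h2]
  exact Dvd.intro_left _ rfl

theorem mm_spec (n : ℕ) (hn : 0 < n) : 0 < mm n ∧ n ∣ Nat.totient (mm n) :=
  Nat.sInf_mem (mm_set_nonempty n hn)

theorem mm_le {n m : ℕ} (hm : 0 < m) (h : n ∣ Nat.totient m) : mm n ≤ m :=
  Nat.sInf_le ⟨hm, h⟩

theorem mm_pos {n : ℕ} (hn : 0 < n) : 0 < mm n := (mm_spec n hn).1

theorem le_mm {n : ℕ} (hn : 0 < n) : n ≤ mm n := by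
  have h := mm_spec n hn
  have h1 : 0 < Nat.totient (mm n) := Nat.totient_pos.mpr h.1
  exact (Nat.le_of_dvd h1 h.2).trans (Nat.totient_le _)

theorem tt_nonneg (n : ℕ) : 0 ≤ tt n := by unfold tt; positivity

theorem tt_pos {n : ℕ} (hn : 0 < n) : 0 < tt n := by
  have := mm_pos hn
  unfold tt; positivity

theorem tt_le_one (n : ℕ) : tt n ≤ 1 := by
  rcases Nat.eq_zero_or_pos n with rfl | hn
  · simp [tt]
  · unfold tt
    rw [div_le_one (by exact_mod_cast mm_pos hn)]
    exact_mod_cast le_mm hn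

/-- if `d = r * d'`, `d' ∣ φ s`, and `mm d = c * s`, then `tt d ≤ (r / c) * tt d'` -/
theorem tt_le_of_split {d r d' c s : ℕ} (hd : 0 < d) (h1 : d = r * d') (h2 : mm d = c * s)
    (h3 : d' ∣ Nat.totient s) : tt d ≤ ((r : ℝ) / c) * tt d' := by
  have hm := mm_pos hd
  rw [h2] at hm
  have hs : 0 < s := Nat.pos_of_mul_pos_left hm |> fun h => by
    rcases Nat.eq_zero_or_pos s with h0 | h0
    · simp [h0] at hm
    · exact h0
  have hc : 0 < c := by
    rcases Nat.eq_zero_or_pos c with h0 | h0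
    · simp [h0] at hm
    · exact h0
  have hd' : 0 < d' := by
    rcases Nat.eq_zero_or_pos d' with h0 | h0
    · simp [h0] at h1; omega
    · exact h0
  have hle : mm d' ≤ s := mm_le hs h3
  have hp : 0 < mm d' := mm_pos hd'
  unfold tt
  rw [h2, h1]
  push_cast
  rw [div_mul_div_comm]
  apply div_le_div_of_nonneg_left
  · positivity
  · have : (0:ℝ) < c := by exact_mod_cast hc
    have : (0:ℝ) < mm d' := by exact_mod_cast hp
    positivity
  · have : ((mm d' : ℕ) : ℝ) ≤ s := by exact_mod_cast hle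
    have hc' : (0:ℝ) ≤ c := by positivity
    exact mul_le_mul_of_nonneg_left this hc'

theorem exists_prime_factor_totient {m Q : ℕ} (hm : 0 < m) (hQ : Q.Prime) (h : Q ∣ Nat.totient m) :
    ∃ l : ℕ, l.Prime ∧ l ∣ m ∧ Q ∣ l ^ (m.factorization l - 1) * (l - 1) := by
  rw [Nat.totient_eq_prod_factorization hm.ne'] at h
  rw [Finsupp.prod] at h
  rw [Prime.dvd_finsetProd_iff hQ.prime] at h
  obtain ⟨l, hl, h2⟩ := h
  rw [Nat.support_factorization] at hl
  exact ⟨l, Nat.prime_of_mem_primeFactors hl, Nat.dvd_of_mem_primeFactors hl, h2⟩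

/-- gcd splitting: if `d ∣ A * B` then with `r = gcd d A`, `d / r ∣ B`. -/
theorem div_gcd_dvd {d A B : ℕ} (hd : 0 < d) (h : d ∣ A * B) : d / Nat.gcd d A ∣ B := by
  have hg : 0 < Nat.gcd d A := Nat.gcd_pos_of_pos_left _ hd
  have h1 : Nat.Coprime (d / Nat.gcd d A) (A / Nat.gcd d A) := Nat.coprime_div_gcd_div_gcd hg
  have h2 : d / Nat.gcd d A ∣ (A / Nat.gcd d A) * B := by
    have h3 : d / Nat.gcd d A * Nat.gcd d A ∣ (A / Nat.gcd d A) * B * Nat.gcd d A := by
      rw [Nat.div_mul_cancel (Nat.gcd_dvd_left d A)]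
      have : A / Nat.gcd d A * B * Nat.gcd d A = A / Nat.gcd d A * Nat.gcd d A * B := by ring
      rw [this, Nat.div_mul_cancel (Nat.gcd_dvd_right d A)]
      exact h
    exact Nat.dvd_of_mul_dvd_mul_right hg h3
  exact h1.dvd_of_dvd_mul_left h2

theorem mm_decomp' (d Q : ℕ) (hd : 0 < d) (hQ : Q.Prime) (hQd : Q ∣ d)
    (hmax : ∀ p : ℕ, p.Prime → p ∣ d → p ≤ Q) :
    (∃ r d' b : ℕ, d = r * d' ∧ Q ∣ r ∧ 1 ≤ b ∧ (r * b + 1).Prime ∧ (b : ℝ) * tt d ≤ tt d' ∧
      (r * b + 1) * mm d' ≤ mm d) ∨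
    (∃ r₁ d' f : ℕ, d = Q ^ f * r₁ * d' ∧ 1 ≤ f ∧ r₁ ∣ Q - 1 ∧
      tt d ≤ ((r₁ : ℝ) / Q) * tt d') := by
  obtain ⟨hm, hdm⟩ := mm_spec d hd
  obtain ⟨l, hl, hlm, hQl⟩ := exists_prime_factor_totient hm hQ (hQd.trans hdm)
  set m := mm d with hmdef
  set e := m.factorization l with he
  have he1 : 1 ≤ e := by
    rw [he]
    exact (hl.dvd_iff_one_le_factorization hm.ne').mp hlm
  -- m = l^e * s
  obtain ⟨s, hs⟩ : ∃ s, m = l ^ e * s := ⟨m / l ^ e, (Nat.mul_div_cancel' (Nat.ordProj_dvd m l)).symm⟩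
  have hls : Nat.Coprime l s := by
    have h1 : s = m / l ^ e := by
      rw [hs]; exact (Nat.mul_div_cancel_left s (pow_pos hl.pos e)).symm
    rw [h1]
    exact Nat.coprime_ordCompl hl hm.ne'
  have hspos : 0 < s := by
    rcases Nat.eq_zero_or_pos s with h0 | h0
    · rw [h0] at hs; omega
    · exact h0
  have hphi : Nat.totient m = l ^ (e - 1) * (l - 1) * Nat.totient s := by
    rw [hs, Nat.totient_mul (Nat.Coprime.pow_left e hls), Nat.totient_prime_pow hl he1]
  by_cases hlQ : l = Q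
  · -- case 2
    right
    subst hlQ
    have he2 : 2 ≤ e := by
      by_contra hcon
      have : e = 1 := by omega
      rw [this] at hQl
      simp only [Nat.sub_self, pow_zero, one_mul] at hQl
      have h1 := Nat.le_of_dvd (by have := hl.two_le; omega) hQl
      have := hl.two_le
      omega
    set A := l ^ (e - 1) * (l - 1) with hA
    have hApos : 0 < A := by
      have := hl.two_le
      have h2 : 0 < l - 1 := by omega
      positivity
    set r := Nat.gcd d A with hr
    have hrpos : 0 < r := Nat.gcd_pos_of_pos_left _ hd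
    have hd' : d / r ∣ Nat.totient s := div_gcd_dvd hd (by rw [← hphi]; exact hdm)
    have hdr : d = r * (d / r) := (Nat.mul_div_cancel' (Nat.gcd_dvd_left d A)).symm
    -- split r = l^f * r1
    have hr0 : r ≠ 0 := hrpos.ne'
    set f := r.factorization l with hf
    obtain ⟨r1, hr1⟩ : ∃ r1, r = l ^ f * r1 := ⟨r / l ^ f, (Nat.mul_div_cancel' (Nat.ordProj_dvd r l)).symm⟩
    have hr1cop : Nat.Coprime l r1 := by
      have h1 : r1 = r / l ^ f := by
        rw [hr1]; exact (Nat.mul_div_cancel_left r1 (pow_pos hl.pos f)).symm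
      rw [h1]
      exact Nat.coprime_ordCompl hl hr0
    have hlr : l ∣ r := Nat.dvd_gcd hQd (by
      rw [hA]
      exact Dvd.dvd.mul_right (dvd_pow_self l (by omega)) _)
    have hf1 : 1 ≤ f := by
      rw [hf]
      exact (hl.dvd_iff_one_le_factorization hr0).mp hlr
    have hr1dvd : r1 ∣ l - 1 := by
      have h1 : r1 ∣ A := (Dvd.intro_left _ hr1.symm).trans (Nat.gcd_dvd_right d A)
      rw [hA] at h1
      exact (Nat.Coprime.pow_right _ hr1cop.symm).dvd_of_dvd_mul_left h1
    have hfe : f ≤ e - 1 := by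
      have h1 : l ^ f ∣ A := (Dvd.intro _ hr1.symm).trans (Nat.gcd_dvd_right d A)
      rw [hA] at h1
      have h2 : Nat.Coprime (l ^ f) (l - 1) := by
        apply Nat.Coprime.pow_left
        rw [Nat.coprime_comm]
        have := hl.two_le
        have h3 : l = (l - 1) + 1 := by omega
        conv_rhs => rw [h3]
        simp
      have h3 := h2.dvd_of_dvd_mul_right h1
      exact (Nat.pow_dvd_pow_iff_le_right hl.one_lt).mp h3
    refine ⟨r1, d / r, f, ?_, hf1, hr1dvd, ?_⟩
    · rw [← hr1]; exact hdr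
    · have h1 : tt d ≤ ((r : ℝ) / (l ^ e : ℕ)) * tt (d / r) :=
        tt_le_of_split hd hdr (by rw [← hmdef]; exact hs) hd'
      refine h1.trans ?_
      apply mul_le_mul_of_nonneg_right _ (tt_nonneg _)
      rw [hr1]
      push_cast
      have hlpos : (0:ℝ) < l := by exact_mod_cast hl.pos
      rw [div_le_div_iff₀ (by positivity) hlpos]
      have h2 : (l:ℝ) ^ f * l ≤ l ^ e := by
        rw [← pow_succ]
        apply pow_le_pow_right₀ (by exact_mod_cast hl.one_lt.le)
        omega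
      nlinarith [show (0:ℝ) ≤ r1 by positivity]
  · -- case 1
    left
    have hQl1 : Q ∣ l - 1 := by
      rcases (Nat.Prime.dvd_mul hQ).mp hQl with h | h
      · exfalso
        have := hQ.dvd_of_dvd_pow h
        rw [Nat.prime_dvd_prime_iff_eq hQ hl] at this
        exact hlQ this.symm
      · exact h
    have hl1pos : 0 < l - 1 := by have := hl.two_le; omega
    have hlQlt : Q < l := by
      have := Nat.le_of_dvd hl1pos hQl1
      omega
    have hld : ¬ l ∣ d := fun h => by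
      have := hmax l hl h
      omega
    have hcop : Nat.Coprime d l := ((Nat.Prime.coprime_iff_not_dvd hl).mpr hld).symm
    -- e = 1 by minimality
    have he1' : e = 1 := by
      by_contra hne
      have he2 : 2 ≤ e := by omega
      have h1 : m = l * (l ^ (e - 1) * s) := by
        rw [hs, ← mul_assoc, ← pow_succ']
        congr 2
        omega
      have h2 : Nat.totient m = l * Nat.totient (l ^ (e - 1) * s) := by
        rw [hphi, Nat.totient_mul (Nat.Coprime.pow_left _ hls), Nat.totient_prime_pow hl (by omega)]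
        have : l ^ (e - 1) = l * l ^ (e - 1 - 1) := by
          rw [← pow_succ']
          congr 1
          omega
        rw [this]; ring
      have h3 : d ∣ Nat.totient (l ^ (e - 1) * s) := by
        rw [h2] at hdm
        exact hcop.dvd_of_dvd_mul_left hdm
      have h4 : m ≤ l ^ (e - 1) * s := mm_le (by have := hl.pos; positivity) h3
      have h5 : 0 < l ^ (e - 1) * s := by have := hl.pos; positivity
      have h6 := hl.two_le
      nlinarith
    rw [he1'] at hs hphi
    simp only [pow_one, Nat.sub_self, pow_zero, one_mul] at hs hphi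
    set r := Nat.gcd d (l - 1) with hr
    have hrpos : 0 < r := Nat.gcd_pos_of_pos_left _ hd
    have hd' : d / r ∣ Nat.totient s := div_gcd_dvd hd (by rw [← hphi]; exact hdm)
    have hdr : d = r * (d / r) := (Nat.mul_div_cancel' (Nat.gcd_dvd_left d (l-1))).symm
    obtain ⟨b, hb⟩ : r ∣ l - 1 := Nat.gcd_dvd_right d (l - 1)
    have hb1 : 1 ≤ b := by
      rcases Nat.eq_zero_or_pos b with h0 | h0
      · rw [h0] at hb; omega
      · exact h0
    have hlrb : r * b + 1 = l := by omega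
    refine ⟨r, d / r, b, hdr, Nat.dvd_gcd hQd hQl1, hb1, by rw [hlrb]; exact hl, ?_, ?_⟩
    swap
    · rw [hlrb, hs]
      exact Nat.mul_le_mul_left l (mm_le hspos hd')
    have h1 : tt d ≤ ((r : ℝ) / l) * tt (d / r) :=
      tt_le_of_split hd hdr (by rw [← hmdef]; exact hs) hd'
    have hbR : (0:ℝ) ≤ b := by positivity
    calc (b : ℝ) * tt d ≤ b * (((r : ℝ) / l) * tt (d / r)) := mul_le_mul_of_nonneg_left h1 hbR
      _ = ((r * b : ℝ) / l) * tt (d / r) := by ring
      _ ≤ 1 * tt (d / r) := by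
          apply mul_le_mul_of_nonneg_right _ (tt_nonneg _)
          rw [div_le_one (by exact_mod_cast hl.pos)]
          rw [← hlrb]; push_cast; linarith
      _ = tt (d / r) := one_mul _

theorem mm_decomp (d Q : ℕ) (hd : 0 < d) (hQ : Q.Prime) (hQd : Q ∣ d)
    (hmax : ∀ p : ℕ, p.Prime → p ∣ d → p ≤ Q) :
    (∃ r d' b : ℕ, d = r * d' ∧ Q ∣ r ∧ 1 ≤ b ∧ (r * b + 1).Prime ∧ (b : ℝ) * tt d ≤ tt d') ∨
    (∃ r₁ d' f : ℕ, d = Q ^ f * r₁ * d' ∧ 1 ≤ f ∧ r₁ ∣ Q - 1 ∧
      tt d ≤ ((r₁ : ℝ) / Q) * tt d') := by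
  rcases mm_decomp' d Q hd hQ hQd hmax with ⟨r, d', b, h1, h2, h3, h4, h5, _⟩ | h
  · left; exact ⟨r, d', b, h1, h2, h3, h4, h5⟩
  · right; exact h

end Pool.Agent.Erdos456
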