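import Mathlib

set_option autoImplicit false

namespace Pool.Agent.Erdos456

/-- `n / φ(n)` -/
noncomputable def GG (n : ℕ) : ℝ := (n : ℝ) / (Nat.totient n : ℝ)

theorem GG_eq_prod {n : ℕ} (hn : 0 < n) : GG n = ∏ p ∈ n.primeFactors, (1 - (p : ℝ)⁻¹)⁻¹ := by
  unfold GG
  have h := Nat.totient_eq_mul_prod_factors n
  have h2 : (Nat.totient n : ℝ) = n * ∏ p ∈ n.primeFactors, (1 - (p : ℝ)⁻¹) := by
    have := congrArg (fun x : ℚ => (x : ℝ)) h
    push_cast at this
    exact this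
  rw [h2]
  have hn' : (n : ℝ) ≠ 0 := by exact_mod_cast hn.ne'
  rw [Finset.prod_inv_distrib]
  rw [div_mul_eq_div_div, div_self hn', one_div]

theorem GG_zero : GG 0 = 0 := by simp [GG]

theorem GG_nonneg (n : ℕ) : 0 ≤ GG n := by unfold GG; positivity

theorem one_le_GG {n : ℕ} (hn : 0 < n) : 1 ≤ GG n := by
  unfold GG
  rw [le_div_iff₀ (by exact_mod_cast Nat.totient_pos.mpr hn), one_mul]
  exact_mod_cast Nat.totient_le n

theorem factor_ge_one {p : ℕ} (hp : p.Prime) : 1 ≤ (1 - (p : ℝ)⁻¹)⁻¹ := by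
  have h2 : (2:ℝ) ≤ p := by exact_mod_cast hp.two_le
  have h3 : (p : ℝ)⁻¹ ≤ 2⁻¹ := inv_anti₀ (by norm_num) h2
  have h4 : 0 < (p:ℝ)⁻¹ := by positivity
  rw [one_le_inv₀ (by linarith)]
  linarith

theorem factor_le_two {p : ℕ} (hp : p.Prime) : (1 - (p : ℝ)⁻¹)⁻¹ ≤ 2 := by
  have h2 : (2:ℝ) ≤ p := by exact_mod_cast hp.two_le
  have h3 : (p : ℝ)⁻¹ ≤ 2⁻¹ := inv_anti₀ (by norm_num) h2
  rw [inv_le_comm₀ (by linarith) (by norm_num)]
  linarith

theorem GG_mono_dvd {m n : ℕ} (hn : 0 < n) (h : m ∣ n) : GG m ≤ GG n := by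
  have hm : 0 < m := Nat.pos_of_dvd_of_pos h hn
  rw [GG_eq_prod hm, GG_eq_prod hn]
  apply Finset.prod_le_prod_of_subset_of_one_le (Nat.primeFactors_mono h hn.ne')
  · intro p hp
    exact zero_le_one.trans (factor_ge_one (Nat.prime_of_mem_primeFactors hp))
  · intro p hp _
    exact factor_ge_one (Nat.prime_of_mem_primeFactors hp)

theorem GG_mul_le (m n : ℕ) : GG (m * n) ≤ GG m * GG n := by
  rcases Nat.eq_zero_or_pos m with rfl | hm
  · simp [GG_zero]
  rcases Nat.eq_zero_or_pos n with rfl | hn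
  · simp [GG_zero]
  unfold GG
  rw [div_mul_div_comm]
  push_cast
  apply div_le_div_of_nonneg_left (by positivity)
  · have := Nat.totient_pos.mpr hm
    have := Nat.totient_pos.mpr hn
    positivity
  · exact_mod_cast Nat.totient_super_multiplicative m n

theorem prod_le_sum_divisors {n : ℕ} (hn : 0 < n) :
    ∏ p ∈ n.primeFactors, (1 + (p : ℝ) ^ (-(1/2) : ℝ)) ≤
      ∑ d ∈ n.divisors, (d : ℝ) ^ (-(1/2) : ℝ) := by
  rw [Finset.prod_one_add]
  have hinj : Set.InjOn (fun t : Finset ℕ => ∏ p ∈ t, p) (n.primeFactors.powerset : Set (Finset ℕ)) := by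
    intro s hs t ht hst
    simp only [Finset.coe_powerset, Set.mem_preimage, Set.mem_powerset_iff, Finset.coe_subset] at hs ht
    have h1 : (∏ p ∈ s, p).primeFactors = s :=
      Nat.primeFactors_prod (fun p hp => Nat.prime_of_mem_primeFactors (hs hp))
    have h2 : (∏ p ∈ t, p).primeFactors = t :=
      Nat.primeFactors_prod (fun p hp => Nat.prime_of_mem_primeFactors (ht hp))
    rw [← h1, ← h2]
    exact congrArg _ hst
  have h1 : ∑ t ∈ n.primeFactors.powerset, ∏ p ∈ t, (p : ℝ) ^ (-(1/2) : ℝ) =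
      ∑ d ∈ n.primeFactors.powerset.image (fun t : Finset ℕ => ∏ p ∈ t, p), (d : ℝ) ^ (-(1/2) : ℝ) := by
    rw [Finset.sum_image hinj]
    apply Finset.sum_congr rfl
    intro t _
    push_cast
    rw [Real.finsetProd_rpow]
    intro i _
    positivity
  rw [h1]
  apply Finset.sum_le_sum_of_subset_of_nonneg
  · intro d hd
    simp only [Finset.mem_image, Finset.mem_powerset] at hd
    obtain ⟨t, ht, rfl⟩ := hd
    rw [Nat.mem_divisors]
    refine ⟨?_, hn.ne'⟩
    exact (Finset.prod_dvd_prod_of_subset _ _ _ ht).trans (Nat.prod_primeFactors_dvd n)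
  · intro d _ _
    positivity

theorem factor_six {p : ℕ} (hp : 64 ≤ p) :
    ((1 - (p : ℝ)⁻¹)⁻¹) ^ 6 ≤ 1 + (p : ℝ) ^ (-(1/2) : ℝ) := by
  have hp' : (64:ℝ) ≤ p := by exact_mod_cast hp
  set y : ℝ := (p : ℝ) ^ (-(1/2) : ℝ) with hy
  have hy0 : 0 < y := by positivity
  have hyy : y ^ 2 = (p : ℝ)⁻¹ := by
    rw [hy, ← Real.rpow_natCast, ← Real.rpow_mul (by positivity)]
    norm_num
    rw [Real.rpow_neg_one]
  have hy8 : y ≤ 1 / 8 := by
    have : y ^ 2 ≤ (1/8 : ℝ)^2 := by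
      rw [hyy]
      have : (p:ℝ)⁻¹ ≤ 64⁻¹ := inv_anti₀ (by norm_num) hp'
      linarith
    exact le_of_sq_le_sq this (by norm_num) |> fun h => h
  rw [← hyy, inv_pow]
  rw [inv_le_comm₀ (by have : y^2 < 1 := by nlinarith
                       have h0 : 0 < 1 - y^2 := by linarith
                       positivity) (by positivity)]
  -- (1+y)^-1 ≤ (1-y^2)^6
  have h1 : (1 + y)⁻¹ ≤ 1 - 6 * y ^ 2 := by
    rw [inv_le_iff_one_le_mul₀ (by positivity)]
    nlinarith
  have h2 : 1 - 6 * y ^ 2 ≤ (1 - y ^ 2) ^ 6 := by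
    have := one_add_mul_le_pow (a := -y^2) (by nlinarith) 6
    have h3 : (1 + -y ^ 2) = 1 - y ^ 2 := by ring
    rw [h3] at this
    push_cast at this
    linarith
  exact h1.trans h2

/-- pointwise bound -/
theorem GG_pow_six_le : ∃ C : ℝ, 0 < C ∧ ∀ n : ℕ, 0 < n →
    GG n ^ 6 ≤ C * ∑ d ∈ n.divisors, (d : ℝ) ^ (-(1/2) : ℝ) := by
  refine ⟨64 ^ 64, by positivity, ?_⟩
  intro n hn
  have h1 : GG n ^ 6 ≤ 64 ^ 64 * ∏ p ∈ n.primeFactors, (1 + (p : ℝ) ^ (-(1/2) : ℝ)) := by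
    rw [GG_eq_prod hn, ← Finset.prod_pow]
    rw [← Finset.prod_filter_mul_prod_filter_not n.primeFactors (fun p => p < 64)]
    rw [← Finset.prod_filter_mul_prod_filter_not n.primeFactors (fun p => p < 64)
      (fun p : ℕ => (1 + (p : ℝ) ^ (-(1/2) : ℝ)))]
    have hA : ∏ p ∈ n.primeFactors.filter (fun p => p < 64), ((1 - (p : ℝ)⁻¹)⁻¹) ^ 6 ≤ 64 ^ 64 := by
      have hA1 : ∏ p ∈ n.primeFactors.filter (fun p => p < 64), ((1 - (p : ℝ)⁻¹)⁻¹) ^ 6
          ≤ ∏ p ∈ n.primeFactors.filter (fun p => p < 64), (64 : ℝ) := by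
        apply Finset.prod_le_prod
        · intro p hp
          have := factor_ge_one (Nat.prime_of_mem_primeFactors (Finset.mem_filter.mp hp).1)
          positivity
        · intro p hp
          have h2 := factor_le_two (Nat.prime_of_mem_primeFactors (Finset.mem_filter.mp hp).1)
          have h3 := factor_ge_one (Nat.prime_of_mem_primeFactors (Finset.mem_filter.mp hp).1)
          calc ((1 - (p : ℝ)⁻¹)⁻¹) ^ 6 ≤ 2 ^ 6 := by gcongr
            _ = 64 := by norm_num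
      refine hA1.trans ?_
      rw [Finset.prod_const]
      apply pow_le_pow_right₀ (by norm_num)
      have : n.primeFactors.filter (fun p => p < 64) ⊆ Finset.range 64 := by
        intro p hp
        simp only [Finset.mem_filter] at hp
        simp [hp.2]
      simpa using Finset.card_le_card this
    have hB : ∏ p ∈ n.primeFactors.filter (fun p => ¬ p < 64), ((1 - (p : ℝ)⁻¹)⁻¹) ^ 6 ≤
        ∏ p ∈ n.primeFactors.filter (fun p => ¬ p < 64), (1 + (p : ℝ) ^ (-(1/2) : ℝ)) := by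
      apply Finset.prod_le_prod
      · intro p hp
        have := factor_ge_one (Nat.prime_of_mem_primeFactors (Finset.mem_filter.mp hp).1)
        positivity
      · intro p hp
        apply factor_six
        have := (Finset.mem_filter.mp hp).2
        omega
    have hC : 1 ≤ ∏ p ∈ n.primeFactors.filter (fun p => p < 64), (1 + (p : ℝ) ^ (-(1/2) : ℝ)) := by
      apply Finset.one_le_prod
      intro p _
      have : (0:ℝ) ≤ (p : ℝ) ^ (-(1/2) : ℝ) := by positivity
      linarith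
    have hB0 : 0 ≤ ∏ p ∈ n.primeFactors.filter (fun p => ¬ p < 64), (1 + (p : ℝ) ^ (-(1/2) : ℝ)) := by
      positivity
    have hB1 : 0 ≤ ∏ p ∈ n.primeFactors.filter (fun p => ¬ p < 64), ((1 - (p : ℝ)⁻¹)⁻¹) ^ 6 := by
      apply Finset.prod_nonneg
      intro p hp
      have := factor_ge_one (Nat.prime_of_mem_primeFactors (Finset.mem_filter.mp hp).1)
      positivity
    calc _ ≤ (64:ℝ) ^ 64 * ∏ p ∈ n.primeFactors.filter (fun p => ¬ p < 64), (1 + (p : ℝ) ^ (-(1/2) : ℝ)) :=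
          mul_le_mul hA hB hB1 (by positivity)
      _ ≤ _ := by
          gcongr
          exact le_mul_of_one_le_left hB0 hC
  exact h1.trans (by gcongr; exact prod_le_sum_divisors hn)

theorem GG_sq_le_six {n : ℕ} (hn : 0 < n) : GG n ^ 2 ≤ GG n ^ 6 :=
  pow_le_pow_right₀ (one_le_GG hn) (by norm_num)

/-- pointwise bound for the square, valid for all `n` -/
theorem GG_sq_le : ∃ C : ℝ, 0 < C ∧ ∀ n : ℕ,
    GG n ^ 2 ≤ C * ∑ d ∈ n.divisors, (d : ℝ) ^ (-(1/2) : ℝ) := by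
  obtain ⟨C, hC, h⟩ := GG_pow_six_le
  refine ⟨C, hC, ?_⟩
  intro n
  rcases Nat.eq_zero_or_pos n with rfl | hn
  · simp [GG_zero]
  · exact (GG_sq_le_six hn).trans (h n hn)

end Pool.Agent.Erdos456
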