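import Mathlib
import Pool.Agent.Erdos456.Tot
import Pool.Agent.Erdos456.Mertens
import Pool.Agent.Erdos456.Sieve

set_option autoImplicit false

namespace Pool.Agent.Erdos456

theorem primesBelow_eq (N : ℕ) : Nat.primesBelow (N + 1) = (Finset.Icc 1 N).filter Nat.Prime := by
  ext p
  rw [Nat.mem_primesBelow, Finset.mem_filter, Finset.mem_Icc]
  constructor
  · rintro ⟨h1, h2⟩; exact ⟨⟨h2.one_lt.le, by omega⟩, h2⟩
  · rintro ⟨h1, h2⟩; exact ⟨by omega, h2⟩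

/-- Mertens in dyadic form -/
theorem mertens_both : ∃ C : ℝ, 0 < C ∧ ∀ j : ℕ, 1 ≤ j →
    |∑ p ∈ Nat.primesBelow (2 ^ j + 1), (p : ℝ)⁻¹ - Real.log j| ≤ C := by
  obtain ⟨C, h⟩ := Mert.mertens_inv
  have hC : 0 ≤ C := (abs_nonneg _).trans (h 3 le_rfl)
  refine ⟨C + |Real.log (Real.log 2)| + 2, by positivity, ?_⟩
  intro j hj
  rcases Nat.lt_or_ge j 2 with hj2 | hj2
  · have hj1 : j = 1 := by omega
    subst hj1
    have h2 : Nat.primesBelow (2 ^ 1 + 1) = {2} := by decide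
    rw [h2]
    have h3 := abs_nonneg (Real.log (Real.log 2))
    rw [Finset.sum_singleton, Nat.cast_one, Real.log_one, sub_zero, abs_of_pos (by norm_num)]
    push_cast
    linarith
  · have h1 : 3 ≤ 2 ^ j := by
      calc 3 ≤ 2 ^ 2 := by norm_num
        _ ≤ 2 ^ j := Nat.pow_le_pow_right (by norm_num) hj2
    have h2 := h (2 ^ j) h1
    rw [primesBelow_eq]
    have h3 : Real.log (Real.log ((2 ^ j : ℕ) : ℝ)) = Real.log j + Real.log (Real.log 2) := by
      push_cast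
      rw [Real.log_pow, Real.log_mul (by positivity) (by have := Real.log_pos (by norm_num : (1:ℝ) < 2); exact this.ne')]
    rw [h3] at h2
    have h4 : ∑ p ∈ (Finset.Icc 1 (2 ^ j)).filter Nat.Prime, (1 : ℝ) / p =
        ∑ p ∈ (Finset.Icc 1 (2 ^ j)).filter Nat.Prime, (p : ℝ)⁻¹ := by
      apply Finset.sum_congr rfl
      intro p _
      rw [one_div]
    rw [h4] at h2
    rw [abs_le] at h2 ⊢
    have h5 := le_abs_self (Real.log (Real.log 2))
    have h6 := neg_abs_le (Real.log (Real.log 2))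
    constructor <;> linarith [h2.1, h2.2]

/-- Mertens upper bound in dyadic form -/
theorem mertens_upper : ∃ C : ℝ, 0 < C ∧ ∀ j : ℕ, 1 ≤ j →
    ∑ p ∈ Nat.primesBelow (2 ^ j + 1), (p : ℝ)⁻¹ ≤ Real.log j + C := by
  obtain ⟨C, hC, h⟩ := mertens_both
  refine ⟨C, hC, fun j hj => ?_⟩
  have := (abs_le.mp (h j hj)).2
  linarith

/-- Mertens lower bound in dyadic form -/
theorem mertens_lower : ∃ C : ℝ, 0 < C ∧ ∀ j : ℕ, 1 ≤ j →
    Real.log j - C ≤ ∑ p ∈ Nat.primesBelow (2 ^ j + 1), (p : ℝ)⁻¹ := by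
  obtain ⟨C, hC, h⟩ := mertens_both
  refine ⟨C, hC, fun j hj => ?_⟩
  have := (abs_le.mp (h j hj)).1
  linarith

/-- Mertens first theorem, upper bound in dyadic form -/
theorem mertens_log_upper : ∃ C : ℝ, 0 < C ∧ ∀ j : ℕ, 1 ≤ j →
    ∑ p ∈ Nat.primesBelow (2 ^ j + 1), Real.log p / p ≤ C * j := by
  obtain ⟨C, h⟩ := Mert.mertens_log
  have hC : 0 ≤ C := (abs_nonneg _).trans (h 1 le_rfl)
  refine ⟨C + 1, by positivity, ?_⟩
  intro j hj
  have hj' : (1:ℝ) ≤ j := by exact_mod_cast hj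
  have h1 := (abs_le.mp (h (2 ^ j) Nat.one_le_two_pow)).2
  rw [primesBelow_eq]
  have h2 : Real.log ((2 ^ j : ℕ) : ℝ) ≤ j := by
    push_cast
    rw [Real.log_pow]
    have := Real.log_two_lt_d9
    nlinarith
  nlinarith

/-- Chebyshev in dyadic form -/
theorem cheb_dyadic : ∃ C : ℝ, 0 < C ∧ ∀ j : ℕ, 1 ≤ j →
    (((Finset.Ioc (2 ^ j) (2 ^ (j + 1))).filter Nat.Prime).card : ℝ) ≤ C * 2 ^ j / j := by
  have hl2 := Real.log_pos (by norm_num : (1:ℝ) < 2)
  refine ⟨Real.log 4 * 2 / Real.log 2, ?_, ?_⟩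
  · have := Real.log_pos (by norm_num : (1:ℝ) < 4)
    positivity
  intro j hj
  have hj' : (0:ℝ) < j := by exact_mod_cast hj
  have h1 := Chebyshev.theta_le_log4_mul_x (x := ((2 ^ (j + 1) : ℕ) : ℝ)) (by positivity)
  rw [Chebyshev.theta_eq_sum_Icc, Nat.floor_natCast] at h1
  have h2 : (((Finset.Ioc (2 ^ j) (2 ^ (j + 1))).filter Nat.Prime).card : ℝ) * ((j : ℝ) * Real.log 2) ≤
      ∑ p ∈ (Finset.Icc 0 (2 ^ (j + 1))).filter Nat.Prime, Real.log p := by
    rw [← nsmul_eq_mul, ← Finset.sum_const]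
    calc ∑ p ∈ (Finset.Ioc (2 ^ j) (2 ^ (j + 1))).filter Nat.Prime, ((j : ℝ) * Real.log 2)
        ≤ ∑ p ∈ (Finset.Ioc (2 ^ j) (2 ^ (j + 1))).filter Nat.Prime, Real.log p := by
          apply Finset.sum_le_sum
          intro p hp
          rw [Finset.mem_filter, Finset.mem_Ioc] at hp
          rw [← Real.log_pow]
          apply Real.log_le_log (by positivity)
          exact_mod_cast hp.1.1.le
      _ ≤ _ := by
          apply Finset.sum_le_sum_of_subset_of_nonneg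
          · intro p hp
            rw [Finset.mem_filter, Finset.mem_Ioc] at hp
            rw [Finset.mem_filter, Finset.mem_Icc]
            exact ⟨⟨by omega, hp.1.2⟩, hp.2⟩
          · intro p _ _
            exact Real.log_natCast_nonneg p
  have h3 := h2.trans h1
  rw [le_div_iff₀ hj', ← mul_le_mul_iff_of_pos_right hl2]
  push_cast at h3
  calc _ = (((Finset.Ioc (2 ^ j) (2 ^ (j + 1))).filter Nat.Prime).card : ℝ) * ((j : ℝ) * Real.log 2) := by ring
    _ ≤ Real.log 4 * 2 ^ (j + 1) := h3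
    _ = _ := by
        field_simp
        ring

/-- Selberg sieve in dimension two -/
theorem sieve_two' : ∃ C : ℝ, 0 < C ∧ ∀ a₁ b₁ a₂ b₂ N : ℕ, 0 < a₁ → 0 < a₂ → Nat.Coprime a₁ b₁ →
    Nat.Coprime a₂ b₂ → a₁ * b₂ ≠ a₂ * b₁ → 2 ≤ N →
    (((Finset.Icc 1 N).filter (fun n => (a₁ * n + b₁).Prime ∧ (a₂ * n + b₂).Prime)).card : ℝ) ≤
      C * (GG (a₁ * a₂ * (((a₁ * b₂ : ℕ) : ℤ) - ((a₂ * b₁ : ℕ) : ℤ)).natAbs)) ^ 2 * N /
        (Real.log N) ^ 2 := sieve_two

end Pool.Agent.Erdos456
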