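import Mathlib

set_option autoImplicit false

open scoped ENNReal

namespace Pool.Agent.Erdos456

/-- number of prime factors in `s`, with multiplicity -/
def vs (s : Finset ℕ) (n : ℕ) : ℕ := ∑ p ∈ s, n.factorization p

theorem vs_mul (s : Finset ℕ) {a b : ℕ} (ha : a ≠ 0) (hb : b ≠ 0) :
    vs s (a * b) = vs s a + vs s b := by
  unfold vs
  rw [Nat.factorization_mul ha hb, ← Finset.sum_add_distrib]
  rfl

theorem vs_mono {s t : Finset ℕ} (h : s ⊆ t) (n : ℕ) : vs s n ≤ vs t n :=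
  Finset.sum_le_sum_of_subset h

/-- one prime splitting of a sum over the naturals -/
theorem tsum_split {p : ℕ} (hp : p.Prime) (F : ℕ → ℝ≥0∞) (hF0 : F 0 = 0) :
    ∑' n, F n = ∑' e : ℕ, ∑' m : ℕ, if p ∣ m then 0 else F (p ^ e * m) := by
  rw [← ENNReal.tsum_prod (f := fun e m => if p ∣ m then 0 else F (p ^ e * m))]
  let g : {n : ℕ // n ≠ 0} → ℕ × ℕ := fun n => (n.1.factorization p, n.1 / p ^ (n.1.factorization p))
  have hg : Function.Injective g := by
    intro a b hab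
    simp only [g, Prod.mk.injEq] at hab
    apply Subtype.ext
    rw [← Nat.ordProj_mul_ordCompl_eq_self a.1 p, ← Nat.ordProj_mul_ordCompl_eq_self b.1 p]
    rw [hab.2, hab.1]
  have hsupp : Function.support (fun x : ℕ × ℕ => if p ∣ x.2 then (0 : ℝ≥0∞) else F (p ^ x.1 * x.2)) ⊆ Set.range g := by
    intro x hx
    simp only [Function.mem_support, ne_eq, ite_eq_left_iff, not_forall] at hx
    obtain ⟨h1, h2⟩ := hx
    have hx2 : x.2 ≠ 0 := by
      intro h0
      apply h2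
      rw [h0]; simpa using hF0
    have hne : p ^ x.1 * x.2 ≠ 0 := mul_ne_zero (pow_ne_zero _ hp.ne_zero) hx2
    refine ⟨⟨p ^ x.1 * x.2, hne⟩, ?_⟩
    have hfac : (p ^ x.1 * x.2).factorization p = x.1 := by
      rw [Nat.factorization_mul (pow_ne_zero _ hp.ne_zero) hx2]
      simp [hp.factorization_pow, Nat.factorization_eq_zero_of_not_dvd h1]
    simp only [g]
    rw [hfac]
    ext
    · rfl
    · simp [Nat.mul_div_cancel_left _ (pow_pos hp.pos x.1)]
  have h1 := hg.tsum_eq hsupp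
  rw [← h1]
  have h2 : ∀ n : {n : ℕ // n ≠ 0}, (if p ∣ (g n).2 then (0 : ℝ≥0∞) else F (p ^ (g n).1 * (g n).2)) = F n.1 := by
    intro n
    have h3 : ¬ p ∣ (g n).2 := Nat.not_dvd_ordCompl hp n.2
    rw [if_neg h3]
    congr 1
    exact Nat.ordProj_mul_ordCompl_eq_self n.1 p
  rw [tsum_congr h2]
  symm
  apply tsum_subtype_eq_of_support_subset (s := {n : ℕ | n ≠ 0})
  intro n hn
  simp only [Function.mem_support] at hn
  intro h0
  apply hn
  rw [h0]; exact hF0

/-- `n ^ (-σ)` as an extended nonnegative real -/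
noncomputable def zp (σ : ℝ) (n : ℕ) : ℝ≥0∞ := ENNReal.ofReal ((n : ℝ) ^ (-σ))

/-- zeta sum -/
noncomputable def ZZ (σ : ℝ) : ℝ≥0∞ := ∑' n : ℕ, zp σ n

theorem zp_zero {σ : ℝ} (hσ : 0 < σ) : zp σ 0 = 0 := by
  unfold zp
  rw [Nat.cast_zero, Real.zero_rpow (by linarith)]
  simp

theorem zp_one (σ : ℝ) : zp σ 1 = 1 := by simp [zp]

theorem zp_mul (σ : ℝ) (a b : ℕ) : zp σ (a * b) = zp σ a * zp σ b := by
  unfold zp
  rw [← ENNReal.ofReal_mul (by positivity)]
  congr 1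
  push_cast
  rw [Real.mul_rpow (by positivity) (by positivity)]

theorem zp_pow (σ : ℝ) (a e : ℕ) : zp σ (a ^ e) = zp σ a ^ e := by
  induction e with
  | zero => simp [zp_one]
  | succ n ih => rw [pow_succ, zp_mul, ih, pow_succ]

theorem ZZ_le {σ : ℝ} (hσ : 1 < σ) : ZZ σ ≤ ENNReal.ofReal (1 + 1 / (σ - 1)) := by
  have h1 := ZetaAsymptotics.zeta_limit_aux1 hσ
  have h2 : 0 ≤ ZetaAsymptotics.termTSum σ := by
    unfold ZetaAsymptotics.termTSum
    exact tsum_nonneg fun n => ZetaAsymptotics.term_nonneg _ _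
  have hs : Summable (fun n : ℕ => (n : ℝ) ^ (-σ)) := by
    simpa [Real.rpow_neg] using (Real.summable_nat_rpow (p := -σ)).mpr (by linarith)
  unfold ZZ zp
  rw [← ENNReal.ofReal_tsum_of_nonneg (fun n => by positivity) hs]
  apply ENNReal.ofReal_le_ofReal
  rw [hs.tsum_eq_zero_add]
  have h3 : (((0:ℕ):ℝ)) ^ (-σ) = 0 := by
    rw [Nat.cast_zero, Real.zero_rpow (by linarith)]
  rw [h3, zero_add]
  have h4 : ∑' (b : ℕ), ((b + 1 : ℕ) : ℝ) ^ (-σ) = ∑' (n : ℕ), 1 / ((n : ℝ) + 1) ^ σ := by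
    apply tsum_congr
    intro n
    rw [Real.rpow_neg (by positivity)]
    push_cast
    rw [one_div]
  rw [h4]
  nlinarith

end Pool.Agent.Erdos456
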