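import Mathlib
import Pool.Agent.Erdos456.Basic
import Pool.Agent.Erdos456.Tot
import Pool.Agent.Erdos456.Mult
import Pool.Agent.Erdos456.Iface

set_option autoImplicit false

open scoped ENNReal

namespace Pool.Agent.Erdos456

/-- `2 ^ (-Ω n) / n` -/
noncomputable def uu (n : ℕ) : ℝ≥0∞ := ENNReal.ofReal ((1/2 : ℝ) ^ (ArithmeticFunction.cardFactors n) / n)

theorem uu_zero : uu 0 = 0 := by simp [uu]

theorem uu_one : uu 1 = 1 := by simp [uu]

theorem uu_mul (a b : ℕ) : uu (a * b) = uu a * uu b := by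
  rcases Nat.eq_zero_or_pos a with rfl | ha
  · simp [uu_zero]
  rcases Nat.eq_zero_or_pos b with rfl | hb
  · simp [uu_zero]
  unfold uu
  rw [ArithmeticFunction.cardFactors_mul ha.ne' hb.ne', ← ENNReal.ofReal_mul (by positivity)]
  congr 1
  push_cast
  rw [pow_add]
  field_simp

theorem uu_pow (a e : ℕ) : uu (a ^ e) = uu a ^ e := by
  induction e with
  | zero => simp [uu_one]
  | succ n ih => rw [pow_succ, uu_mul, ih, pow_succ]

theorem uu_le (n : ℕ) : uu n ≤ ENNReal.ofReal ((n : ℝ)⁻¹) := by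
  unfold uu
  apply ENNReal.ofReal_le_ofReal
  rw [div_eq_mul_inv]
  apply mul_le_of_le_one_left (by positivity)
  exact pow_le_one₀ (by norm_num) (by norm_num)

theorem uu_prime {p : ℕ} (hp : p.Prime) : uu p = ENNReal.ofReal ((1/2) / p) := by
  unfold uu
  rw [ArithmeticFunction.cardFactors_apply_prime hp, pow_one]

/-- `tt` as extended nonnegative real -/
noncomputable def te (n : ℕ) : ℝ≥0∞ := ENNReal.ofReal (tt n)

theorem te_le_one (n : ℕ) : te n ≤ 1 := by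
  unfold te
  rw [← ENNReal.ofReal_one]
  exact ENNReal.ofReal_le_ofReal (tt_le_one n)

/-- numbers all of whose prime factors are at most `2 ^ j` -/
def Sm (j : ℕ) : Set ℕ := Nat.smoothNumbers (2 ^ j + 1)

theorem mem_Sm {j n : ℕ} : n ∈ Sm j ↔ n ≠ 0 ∧ ∀ p : ℕ, p.Prime → p ∣ n → p ≤ 2 ^ j := by
  unfold Sm
  constructor
  · intro h
    refine ⟨Nat.ne_zero_of_mem_smoothNumbers h, ?_⟩
    intro p hp hpn
    have := (Nat.mem_smoothNumbers'.mp h) p hp hpn
    omega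
  · rintro ⟨_, h2⟩
    rw [Nat.mem_smoothNumbers']
    intro p hp hpn
    have := h2 p hp hpn
    omega

theorem Sm_mono {i j : ℕ} (h : i ≤ j) : Sm i ⊆ Sm j := by
  intro n hn
  rw [mem_Sm] at hn ⊢
  exact ⟨hn.1, fun p hp hpn => (hn.2 p hp hpn).trans (Nat.pow_le_pow_right (by norm_num) h)⟩

theorem Sm_dvd {j m n : ℕ} (h : n ∈ Sm j) (hmn : m ∣ n) : m ∈ Sm j := by
  rw [mem_Sm] at h ⊢
  refine ⟨fun h0 => h.1 (by rw [h0] at hmn; exact Nat.eq_zero_of_zero_dvd hmn), ?_⟩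
  intro p hp hpm
  exact h.2 p hp (hpm.trans hmn)

/-- the monoid hom version of `uu` -/
noncomputable def uuHom : ℕ →* ℝ where
  toFun n := (1/2 : ℝ) ^ (ArithmeticFunction.cardFactors n) / n
  map_one' := by simp
  map_mul' a b := by
    rcases Nat.eq_zero_or_pos a with rfl | ha
    · simp
    rcases Nat.eq_zero_or_pos b with rfl | hb
    · simp
    rw [ArithmeticFunction.cardFactors_mul ha.ne' hb.ne']
    push_cast
    rw [pow_add]
    field_simp

/-- sum of `uu` over smooth numbers -/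
noncomputable def UU (j : ℕ) : ℝ≥0∞ := ∑' n : ℕ, (Sm j).indicator uu n

theorem UU_eq (j : ℕ) : UU j = ENNReal.ofReal (∏ p ∈ Nat.primesBelow (2 ^ j + 1), (1 - (1/2 : ℝ) / p)⁻¹) := by
  have h := EulerProduct.summable_and_hasSum_smoothNumbers_prod_primesBelow_geometric (f := uuHom)
    (fun {p} hp => by
      have h2 : (2:ℝ) ≤ p := by exact_mod_cast hp.two_le
      simp only [uuHom, MonoidHom.coe_mk, OneHom.coe_mk, ArithmeticFunction.cardFactors_apply_prime hp, pow_one]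
      rw [Real.norm_of_nonneg (by positivity), div_lt_one (by positivity)]
      linarith) (2 ^ j + 1)
  obtain ⟨h1, h2⟩ := h
  unfold UU
  rw [← tsum_subtype (Sm j) uu]
  have h3 : ∀ x : Sm j, uu x = ENNReal.ofReal (uuHom x) := fun x => rfl
  rw [tsum_congr h3, ← ENNReal.ofReal_tsum_of_nonneg]
  · congr 1
    have h4 := h2.tsum_eq
    rw [show (∑' (n : ↑(Sm j)), uuHom ↑n) = ∑' (b : ↑(2 ^ j + 1).smoothNumbers), uuHom ↑b from rfl, h4]
    apply Finset.prod_congr rfl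
    intro p hp
    have hp' := Nat.prime_of_mem_primesBelow hp
    simp only [uuHom, MonoidHom.coe_mk, OneHom.coe_mk, ArithmeticFunction.cardFactors_apply_prime hp', pow_one]
  · intro n
    simp only [uuHom, MonoidHom.coe_mk, OneHom.coe_mk]
    positivity
  · exact h2.summable

theorem sum_inv_sq_le (s : Finset ℕ) (hs : ∀ p ∈ s, 1 ≤ p) : ∑ p ∈ s, ((p : ℝ)⁻¹) ^ 2 ≤ 2 := by
  have h1 : Summable (fun n : ℕ => ((n : ℝ)⁻¹) ^ 2) := by
    simpa using (Real.summable_nat_pow_inv (p := 2)).mpr (by norm_num)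
  have h2 : ∑ p ∈ s, ((p : ℝ)⁻¹) ^ 2 ≤ ∑' n : ℕ, ((n : ℝ)⁻¹) ^ 2 :=
    h1.sum_le_tsum s (fun i _ => by positivity)
  have h3 : ∑' n : ℕ, ((n : ℝ)⁻¹) ^ 2 = Real.pi ^ 2 / 6 := by
    have := hasSum_zeta_two.tsum_eq
    rw [← this]
    apply tsum_congr
    intro n
    rw [inv_pow, one_div]
  have h4 : Real.pi ^ 2 / 6 ≤ 2 := by
    have := Real.pi_lt_d2
    have h0 := Real.pi_pos
    nlinarith
  linarith

theorem UU_le : ∃ C : ℝ, 0 < C ∧ ∀ j : ℕ, 1 ≤ j → UU j ≤ ENNReal.ofReal (C * Real.sqrt j) := by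
  obtain ⟨C, hC, h⟩ := mertens_upper
  refine ⟨Real.exp (C / 2 + 2), by positivity, ?_⟩
  intro j hj
  rw [UU_eq]
  apply ENNReal.ofReal_le_ofReal
  have h1 : ∏ p ∈ Nat.primesBelow (2 ^ j + 1), (1 - (1/2 : ℝ) / p)⁻¹ ≤
      ∏ p ∈ Nat.primesBelow (2 ^ j + 1), Real.exp (1/2 * (p : ℝ)⁻¹ + ((p : ℝ)⁻¹) ^ 2) := by
    apply Finset.prod_le_prod
    · intro p hp
      have h2 : (2:ℝ) ≤ p := by exact_mod_cast (Nat.prime_of_mem_primesBelow hp).two_le
      rw [inv_nonneg, sub_nonneg, div_le_one (by positivity)]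
      linarith
    · intro p hp
      have h2 : (2:ℝ) ≤ p := by exact_mod_cast (Nat.prime_of_mem_primesBelow hp).two_le
      set x := (p : ℝ)⁻¹ with hx
      have hx0 : 0 < x := by positivity
      have hx1 : x ≤ 1/2 := by rw [hx, one_div]; exact inv_anti₀ (by norm_num) h2
      have h3 : (1/2 : ℝ) / p = x / 2 := by rw [hx]; ring
      rw [h3]
      have h4 : (1 - x/2)⁻¹ ≤ 1 + (1/2 * x + x^2) := by
        rw [inv_le_iff_one_le_mul₀ (by linarith)]
        nlinarith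
      have := Real.add_one_le_exp (1/2 * x + x^2)
      linarith
  rw [← Real.exp_sum] at h1
  refine h1.trans ?_
  have h5 : ∑ p ∈ Nat.primesBelow (2 ^ j + 1), (1/2 * (p : ℝ)⁻¹ + ((p : ℝ)⁻¹) ^ 2) ≤
      1/2 * (Real.log j + C) + 2 := by
    rw [Finset.sum_add_distrib, ← Finset.mul_sum]
    have h6 := h j hj
    have h7 := sum_inv_sq_le (Nat.primesBelow (2 ^ j + 1)) (fun p hp => (Nat.prime_of_mem_primesBelow hp).one_lt.le)
    linarith
  calc Real.exp (∑ p ∈ Nat.primesBelow (2 ^ j + 1), (1/2 * (p : ℝ)⁻¹ + ((p : ℝ)⁻¹) ^ 2))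
      ≤ Real.exp (1/2 * (Real.log j + C) + 2) := Real.exp_le_exp.mpr h5
    _ = Real.exp (C/2 + 2) * Real.sqrt j := by
        have hj' : (0:ℝ) < j := by exact_mod_cast hj
        rw [Real.sqrt_eq_rpow, Real.rpow_def_of_pos hj', ← Real.exp_add]
        congr 1
        ring

end Pool.Agent.Erdos456
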