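import Mathlib
import Pool.Agent.Erdos456.Smooth

set_option autoImplicit false

open scoped ENNReal

namespace Pool.Agent.Erdos456

/-- bounding a sum by a sum over tuples determining the index -/
theorem tsum_le_of_rel {β : Type*} (P : ℕ → Prop) (f : ℕ → ℝ≥0∞) (H : β → ℝ≥0∞) (R : ℕ → β → Prop)
    (hex : ∀ d, P d → ∃ x, R d x ∧ f d ≤ H x) (hinj : ∀ d d' x, R d x → R d' x → d = d') :
    ∑' d, Set.indicator {d | P d} f d ≤ ∑' x, H x := by
  classical
  rw [← tsum_subtype {d | P d} f]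
  choose τ hτ1 hτ2 using fun d : {d | P d} => hex d.1 d.2
  have hinjτ : Function.Injective τ := by
    intro a b hab
    apply Subtype.ext
    exact hinj a.1 b.1 (τ a) (hτ1 a) (by rw [hab]; exact hτ1 b)
  calc ∑' d : {d | P d}, f d ≤ ∑' d : {d | P d}, H (τ d) := ENNReal.tsum_le_tsum hτ2
    _ ≤ ∑' x, H x := ENNReal.tsum_comp_le_tsum_of_injective hinjτ _

/-- sum over divisors, unfolded -/
theorem tsum_divisors_le (F : ℕ → ℕ → ℝ≥0∞) :
    ∑' n : ℕ, ∑ e ∈ n.divisors, F n e ≤ ∑' e : ℕ, ∑' s : ℕ, if e = 0 then 0 else F (e * s) e := by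
  have h1 : ∀ n : ℕ, ∑ e ∈ n.divisors, F n e = ∑' e : ℕ, Set.indicator {e | e ∈ n.divisors} (F n) e := by
    intro n
    rw [tsum_eq_sum (s := n.divisors)]
    · apply Finset.sum_congr rfl
      intro e he
      rw [Set.indicator_of_mem]
      exact he
    · intro e he
      rw [Set.indicator_of_notMem]
      exact he
  rw [tsum_congr h1, ENNReal.tsum_comm]
  apply ENNReal.tsum_le_tsum
  intro e
  have h2 : ∀ n : ℕ, Set.indicator {e | e ∈ n.divisors} (F n) e =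
      Set.indicator {n : ℕ | e ∈ n.divisors} (fun n => F n e) n := by
    intro n
    simp only [Set.indicator_apply, Set.mem_ofPred_eq]
  rw [tsum_congr h2]
  apply tsum_le_of_rel (P := fun n => e ∈ n.divisors) (R := fun n s => n = e * s)
  · intro n hn
    rw [Nat.mem_divisors] at hn
    obtain ⟨⟨s, hs⟩, hn0⟩ := hn
    have he : e ≠ 0 := by
      rintro rfl
      simp at hs
      exact hn0 hs
    refine ⟨s, hs, ?_⟩
    rw [if_neg he, ← hs]
  · intro n n' s h1 h2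
    rw [h1, h2]

theorem tsum_rpow_fin : ∃ C : ℝ, 0 < C ∧
    ∑' e : ℕ, ENNReal.ofReal ((e : ℝ)⁻¹ * (e : ℝ) ^ (-(1/2) : ℝ)) ≤ ENNReal.ofReal C := by
  have hs : Summable (fun n : ℕ => (n : ℝ)⁻¹ * (n : ℝ) ^ (-(1/2) : ℝ)) := by
    have h := (Real.summable_nat_rpow (p := -(3/2))).mpr (by norm_num)
    refine h.congr ?_
    intro n
    rcases Nat.eq_zero_or_pos n with rfl | hn
    · simp [Real.zero_rpow]
    · have hn' : (0:ℝ) < n := by exact_mod_cast hn
      rw [← Real.rpow_neg_one, ← Real.rpow_add hn']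
      norm_num
  refine ⟨(∑' n : ℕ, (n : ℝ)⁻¹ * (n : ℝ) ^ (-(1/2) : ℝ)) + 1, ?_, ?_⟩
  · have : 0 ≤ ∑' n : ℕ, (n : ℝ)⁻¹ * (n : ℝ) ^ (-(1/2) : ℝ) := tsum_nonneg (fun n => by positivity)
    linarith
  · rw [← ENNReal.ofReal_tsum_of_nonneg (fun n => by positivity) hs]
    apply ENNReal.ofReal_le_ofReal
    linarith

/-- `∑_{r smooth} G(r)^2 uu(r) ≤ C √j` -/
theorem UU2_le : ∃ C : ℝ, 0 < C ∧ ∀ j : ℕ, 1 ≤ j →
    ∑' r : ℕ, (Sm j).indicator (fun r => ENNReal.ofReal (GG r ^ 2) * uu r) r ≤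
      ENNReal.ofReal (C * Real.sqrt j) := by
  obtain ⟨C1, hC1, h1⟩ := GG_sq_le
  obtain ⟨C2, hC2, h2⟩ := UU_le
  obtain ⟨C3, hC3, h3⟩ := tsum_rpow_fin
  refine ⟨C1 * C3 * C2, by positivity, ?_⟩
  intro j hj
  have hA : ∀ r : ℕ, (Sm j).indicator (fun r => ENNReal.ofReal (GG r ^ 2) * uu r) r ≤
      ∑ e ∈ r.divisors, ENNReal.ofReal C1 * ((Sm j).indicator uu r * ENNReal.ofReal ((e : ℝ) ^ (-(1/2) : ℝ))) := by
    intro r
    by_cases hr : r ∈ Sm j
    · rw [Set.indicator_of_mem hr, Set.indicator_of_mem hr, ← Finset.mul_sum, ← Finset.mul_sum,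
        ← ENNReal.ofReal_sum_of_nonneg (fun i _ => by positivity)]
      calc ENNReal.ofReal (GG r ^ 2) * uu r
          ≤ ENNReal.ofReal (C1 * ∑ d ∈ r.divisors, (d : ℝ) ^ (-(1/2) : ℝ)) * uu r := by
            gcongr
            exact h1 r
        _ = _ := by
            rw [ENNReal.ofReal_mul hC1.le]
            ring
    · rw [Set.indicator_of_notMem hr]
      exact zero_le
  calc ∑' r : ℕ, (Sm j).indicator (fun r => ENNReal.ofReal (GG r ^ 2) * uu r) r
      ≤ ∑' r : ℕ, ∑ e ∈ r.divisors, ENNReal.ofReal C1 * ((Sm j).indicator uu r * ENNReal.ofReal ((e : ℝ) ^ (-(1/2) : ℝ))) :=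
        ENNReal.tsum_le_tsum hA
    _ ≤ ∑' e : ℕ, ∑' s : ℕ, if e = 0 then 0 else ENNReal.ofReal C1 * ((Sm j).indicator uu (e * s) * ENNReal.ofReal ((e : ℝ) ^ (-(1/2) : ℝ))) :=
        tsum_divisors_le _
    _ ≤ ∑' e : ℕ, ∑' s : ℕ, ENNReal.ofReal C1 * (ENNReal.ofReal ((e : ℝ)⁻¹ * (e : ℝ) ^ (-(1/2) : ℝ)) * (Sm j).indicator uu s) := by
        apply ENNReal.tsum_le_tsum
        intro e
        apply ENNReal.tsum_le_tsum
        intro s
        split_ifs with he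
        · exact zero_le
        · by_cases hes : e * s ∈ Sm j
          · have hs : s ∈ Sm j := Sm_dvd hes (Dvd.intro_left _ rfl)
            rw [Set.indicator_of_mem hes, Set.indicator_of_mem hs, uu_mul, ENNReal.ofReal_mul (by positivity)]
            calc ENNReal.ofReal C1 * (uu e * uu s * ENNReal.ofReal ((e : ℝ) ^ (-(1/2) : ℝ)))
                ≤ ENNReal.ofReal C1 * (ENNReal.ofReal ((e : ℝ)⁻¹) * uu s * ENNReal.ofReal ((e : ℝ) ^ (-(1/2) : ℝ))) := by
                  gcongr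
                  exact uu_le e
              _ = _ := by ring
          · rw [Set.indicator_of_notMem hes]
            simp
    _ = ENNReal.ofReal C1 * ((∑' e : ℕ, ENNReal.ofReal ((e : ℝ)⁻¹ * (e : ℝ) ^ (-(1/2) : ℝ))) * UU j) := by
        simp_rw [ENNReal.tsum_mul_left, ENNReal.tsum_mul_right]
        rfl
    _ ≤ ENNReal.ofReal C1 * (ENNReal.ofReal C3 * ENNReal.ofReal (C2 * Real.sqrt j)) := by
        gcongr
        exact h2 j hj
    _ = ENNReal.ofReal (C1 * C3 * C2 * Real.sqrt j) := by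
        rw [← ENNReal.ofReal_mul hC3.le, ← ENNReal.ofReal_mul hC1.le]
        congr 1
        ring

/-- `∑_{1 ≤ b ≤ B} G(b)^2 / b ≤ C (1 + log B)` -/
theorem sum_GG_sq_div_le : ∃ C : ℝ, 0 < C ∧ ∀ B : ℕ,
    ∑' b : ℕ, (if 1 ≤ b ∧ b ≤ B then ENNReal.ofReal (GG b ^ 2 * (b : ℝ)⁻¹) else 0) ≤
      ENNReal.ofReal (C * (1 + Real.log B)) := by
  obtain ⟨C1, hC1, h1⟩ := GG_sq_le
  obtain ⟨C3, hC3, h3⟩ := tsum_rpow_fin
  refine ⟨C1 * C3, by positivity, ?_⟩
  intro B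
  have hH : ∑' s : ℕ, (if 1 ≤ s ∧ s ≤ B then ENNReal.ofReal ((s : ℝ)⁻¹) else 0) ≤ ENNReal.ofReal (1 + Real.log B) := by
    rw [tsum_eq_sum (s := Finset.Icc 1 B)]
    · rw [Finset.sum_congr rfl (g := fun s : ℕ => ENNReal.ofReal ((s : ℝ)⁻¹))]
      · rw [← ENNReal.ofReal_sum_of_nonneg (fun i _ => by positivity)]
        apply ENNReal.ofReal_le_ofReal
        have := harmonic_le_one_add_log B
        rw [harmonic_eq_sum_Icc] at this
        push_cast at this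
        exact this
      · intro s hs
        rw [Finset.mem_Icc] at hs
        rw [if_pos hs]
    · intro s hs
      rw [Finset.mem_Icc] at hs
      rw [if_neg hs]
  have hA : ∀ b : ℕ, (if 1 ≤ b ∧ b ≤ B then ENNReal.ofReal (GG b ^ 2 * (b : ℝ)⁻¹) else 0) ≤
      ∑ e ∈ b.divisors, (if 1 ≤ b ∧ b ≤ B then ENNReal.ofReal C1 * (ENNReal.ofReal ((b : ℝ)⁻¹) * ENNReal.ofReal ((e : ℝ) ^ (-(1/2) : ℝ))) else 0) := by
    intro b
    split_ifs with hb
    · rw [← Finset.mul_sum, ← Finset.mul_sum, ← ENNReal.ofReal_sum_of_nonneg (fun i _ => by positivity)]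
      rw [← ENNReal.ofReal_mul (by positivity), ← ENNReal.ofReal_mul (by positivity)]
      apply ENNReal.ofReal_le_ofReal
      have := h1 b
      calc GG b ^ 2 * (b : ℝ)⁻¹ ≤ (C1 * ∑ d ∈ b.divisors, (d : ℝ) ^ (-(1/2) : ℝ)) * (b : ℝ)⁻¹ := by
            gcongr
        _ = _ := by ring
    · exact zero_le
  calc _ ≤ ∑' b : ℕ, ∑ e ∈ b.divisors, (if 1 ≤ b ∧ b ≤ B then ENNReal.ofReal C1 * (ENNReal.ofReal ((b : ℝ)⁻¹) * ENNReal.ofReal ((e : ℝ) ^ (-(1/2) : ℝ))) else 0) :=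
        ENNReal.tsum_le_tsum hA
    _ ≤ ∑' e : ℕ, ∑' s : ℕ, if e = 0 then 0 else (if 1 ≤ e * s ∧ e * s ≤ B then ENNReal.ofReal C1 * (ENNReal.ofReal (((e * s : ℕ) : ℝ)⁻¹) * ENNReal.ofReal ((e : ℝ) ^ (-(1/2) : ℝ))) else 0) :=
        tsum_divisors_le _
    _ ≤ ∑' e : ℕ, ∑' s : ℕ, ENNReal.ofReal C1 * (ENNReal.ofReal ((e : ℝ)⁻¹ * (e : ℝ) ^ (-(1/2) : ℝ)) * (if 1 ≤ s ∧ s ≤ B then ENNReal.ofReal ((s : ℝ)⁻¹) else 0)) := by
        apply ENNReal.tsum_le_tsum
        intro e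
        apply ENNReal.tsum_le_tsum
        intro s
        by_cases he : e = 0
        · rw [if_pos he]; exact zero_le
        rw [if_neg he]
        by_cases h2 : 1 ≤ e * s ∧ e * s ≤ B
        · have h3 : 1 ≤ s ∧ s ≤ B := by
            have he1 : 1 ≤ e := Nat.one_le_iff_ne_zero.mpr he
            constructor
            · rcases Nat.eq_zero_or_pos s with h0 | h0
              · rw [h0] at h2; simp at h2
              · exact h0
            · calc s = 1 * s := (one_mul s).symm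
                _ ≤ e * s := Nat.mul_le_mul_right s he1
                _ ≤ B := h2.2
          rw [if_pos h2, if_pos h3, ENNReal.ofReal_mul (by positivity)]
          push_cast
          rw [mul_inv, ENNReal.ofReal_mul (by positivity)]
          apply le_of_eq
          ring
        · rw [if_neg h2]; exact zero_le
    _ = ENNReal.ofReal C1 * ((∑' e : ℕ, ENNReal.ofReal ((e : ℝ)⁻¹ * (e : ℝ) ^ (-(1/2) : ℝ))) * ∑' s : ℕ, (if 1 ≤ s ∧ s ≤ B then ENNReal.ofReal ((s : ℝ)⁻¹) else 0)) := by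
        simp_rw [ENNReal.tsum_mul_left, ENNReal.tsum_mul_right]
    _ ≤ ENNReal.ofReal C1 * (ENNReal.ofReal C3 * ENNReal.ofReal (1 + Real.log B)) := by
        gcongr
    _ = ENNReal.ofReal (C1 * C3 * (1 + Real.log B)) := by
        rw [← ENNReal.ofReal_mul hC3.le, ← ENNReal.ofReal_mul hC1.le]
        congr 1
        ring

/-- `∑_{1 ≤ b ≤ X} G(b)^2 ≤ C X` -/
theorem sum_GG_sq_le : ∃ C : ℝ, 0 < C ∧ ∀ X : ℝ, 0 ≤ X →
    ∑' b : ℕ, (if 1 ≤ b ∧ (b : ℝ) ≤ X then ENNReal.ofReal (GG b ^ 2) else 0) ≤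
      ENNReal.ofReal (C * X) := by
  obtain ⟨C1, hC1, h1⟩ := GG_sq_le
  obtain ⟨C3, hC3, h3⟩ := tsum_rpow_fin
  refine ⟨C1 * C3, by positivity, ?_⟩
  intro X hX
  have hA : ∀ b : ℕ, (if 1 ≤ b ∧ (b : ℝ) ≤ X then ENNReal.ofReal (GG b ^ 2) else 0) ≤
      ∑ e ∈ b.divisors, (if 1 ≤ b ∧ (b : ℝ) ≤ X then ENNReal.ofReal C1 * (ENNReal.ofReal ((e : ℝ) ^ (-(1/2) : ℝ))) else 0) := by
    intro b
    split_ifs with hb
    · rw [← Finset.mul_sum, ← ENNReal.ofReal_sum_of_nonneg (fun i _ => by positivity)]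
      rw [← ENNReal.ofReal_mul (by positivity)]
      apply ENNReal.ofReal_le_ofReal
      exact h1 b
    · exact zero_le
  have hH : ∀ e : ℕ, e ≠ 0 → ∑' s : ℕ, (if 1 ≤ s ∧ ((e * s : ℕ) : ℝ) ≤ X then (1 : ℝ≥0∞) else 0) ≤ ENNReal.ofReal (X * (e : ℝ)⁻¹) := by
    intro e he
    have he' : (0:ℝ) < e := by exact_mod_cast Nat.pos_of_ne_zero he
    rw [tsum_eq_sum (s := Finset.Icc 1 (⌊X / e⌋₊))]
    · calc ∑ s ∈ Finset.Icc 1 (⌊X / e⌋₊), (if 1 ≤ s ∧ ((e * s : ℕ) : ℝ) ≤ X then (1 : ℝ≥0∞) else 0)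
          ≤ ∑ s ∈ Finset.Icc 1 (⌊X / e⌋₊), (1 : ℝ≥0∞) := by
            apply Finset.sum_le_sum
            intro s _
            split_ifs <;> simp
        _ = ((⌊X / e⌋₊ : ℕ) : ℝ≥0∞) := by simp
        _ = ENNReal.ofReal ((⌊X / e⌋₊ : ℕ) : ℝ) := by rw [ENNReal.ofReal_natCast]
        _ ≤ _ := by
            apply ENNReal.ofReal_le_ofReal
            rw [← div_eq_mul_inv]
            exact Nat.floor_le (by positivity)
    · intro s hs
      rw [Finset.mem_Icc] at hs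
      rw [if_neg]
      rintro ⟨h4, h5⟩
      apply hs
      refine ⟨h4, ?_⟩
      apply Nat.le_floor
      rw [le_div_iff₀ he']
      push_cast at h5
      linarith
  calc _ ≤ ∑' b : ℕ, ∑ e ∈ b.divisors, (if 1 ≤ b ∧ (b : ℝ) ≤ X then ENNReal.ofReal C1 * (ENNReal.ofReal ((e : ℝ) ^ (-(1/2) : ℝ))) else 0) :=
        ENNReal.tsum_le_tsum hA
    _ ≤ ∑' e : ℕ, ∑' s : ℕ, if e = 0 then 0 else (if 1 ≤ e * s ∧ ((e * s : ℕ) : ℝ) ≤ X then ENNReal.ofReal C1 * (ENNReal.ofReal ((e : ℝ) ^ (-(1/2) : ℝ))) else 0) :=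
        tsum_divisors_le _
    _ ≤ ∑' e : ℕ, ENNReal.ofReal C1 * (ENNReal.ofReal X * ENNReal.ofReal ((e : ℝ)⁻¹ * (e : ℝ) ^ (-(1/2) : ℝ))) := by
        apply ENNReal.tsum_le_tsum
        intro e
        by_cases he : e = 0
        · simp [he]
        · simp only [if_neg he]
          calc ∑' s : ℕ, (if 1 ≤ e * s ∧ ((e * s : ℕ) : ℝ) ≤ X then ENNReal.ofReal C1 * (ENNReal.ofReal ((e : ℝ) ^ (-(1/2) : ℝ))) else 0)
              ≤ ∑' s : ℕ, (ENNReal.ofReal C1 * (ENNReal.ofReal ((e : ℝ) ^ (-(1/2) : ℝ)))) * (if 1 ≤ s ∧ ((e * s : ℕ) : ℝ) ≤ X then (1 : ℝ≥0∞) else 0) := by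
                apply ENNReal.tsum_le_tsum
                intro s
                split_ifs with h2 h3 h3
                · simp
                · exfalso
                  apply h3
                  refine ⟨?_, h2.2⟩
                  rcases Nat.eq_zero_or_pos s with h0 | h0
                  · rw [h0] at h2; simp at h2
                  · exact h0
                · exact zero_le
                · exact zero_le
            _ ≤ (ENNReal.ofReal C1 * (ENNReal.ofReal ((e : ℝ) ^ (-(1/2) : ℝ)))) * ENNReal.ofReal (X * (e : ℝ)⁻¹) := by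
                rw [ENNReal.tsum_mul_left]
                gcongr
                exact hH e he
            _ = _ := by
                rw [ENNReal.ofReal_mul hX, ENNReal.ofReal_mul (by positivity)]
                ring
    _ = ENNReal.ofReal C1 * (ENNReal.ofReal X * (∑' e : ℕ, ENNReal.ofReal ((e : ℝ)⁻¹ * (e : ℝ) ^ (-(1/2) : ℝ)))) := by
        simp_rw [ENNReal.tsum_mul_left]
    _ ≤ ENNReal.ofReal C1 * (ENNReal.ofReal X * ENNReal.ofReal C3) := by
        gcongr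
    _ = ENNReal.ofReal (C1 * C3 * X) := by
        rw [← ENNReal.ofReal_mul hX, ← ENNReal.ofReal_mul hC1.le]
        congr 1
        ring

end Pool.Agent.Erdos456
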