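import Mathlib
import Pool.Agent.Erdos456.Smooth2

set_option autoImplicit false

open scoped ENNReal

namespace Pool.Agent.Erdos456

theorem card_divisors_le_two_sqrt (n : ℕ) : (n.divisors.card : ℝ) ≤ 2 * Real.sqrt n := by
  have h1 : n.divisors ⊆ (Finset.Icc 1 (Nat.sqrt n)) ∪ (Finset.Icc 1 (Nat.sqrt n)).image (fun d => n / d) := by
    intro d hd
    rw [Nat.mem_divisors] at hd
    obtain ⟨⟨e, he⟩, hn⟩ := hd
    have hd0 : 0 < d := Nat.pos_of_ne_zero (by rintro rfl; simp at he; exact hn he)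
    have he0 : 0 < e := Nat.pos_of_ne_zero (by rintro rfl; simp at he; exact hn he)
    rw [Finset.mem_union]
    by_cases h : d ≤ Nat.sqrt n
    · left; rw [Finset.mem_Icc]; exact ⟨hd0, h⟩
    · right
      rw [Finset.mem_image]
      refine ⟨e, ?_, ?_⟩
      · rw [Finset.mem_Icc]
        refine ⟨he0, ?_⟩
        by_contra h2
        have h3 : Nat.sqrt n + 1 ≤ d := by omega
        have h4 : Nat.sqrt n + 1 ≤ e := by omega
        have h5 : (Nat.sqrt n + 1) * (Nat.sqrt n + 1) ≤ d * e := Nat.mul_le_mul h3 h4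
        have h6 := Nat.lt_succ_sqrt n
        rw [← he] at h5
        simp only [Nat.succ_eq_add_one] at h6
        omega
      · rw [he]; exact Nat.mul_div_cancel d he0
  have h2 : n.divisors.card ≤ Nat.sqrt n + Nat.sqrt n := by
    calc n.divisors.card ≤ _ := Finset.card_le_card h1
      _ ≤ (Finset.Icc 1 (Nat.sqrt n)).card + ((Finset.Icc 1 (Nat.sqrt n)).image (fun d => n / d)).card :=
          Finset.card_union_le _ _
      _ ≤ Nat.sqrt n + Nat.sqrt n := by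
          have := Finset.card_image_le (s := Finset.Icc 1 (Nat.sqrt n)) (f := fun d => n / d)
          simp at this ⊢
          omega
  have h3 : ((Nat.sqrt n : ℕ) : ℝ) ≤ Real.sqrt n := Real.nat_sqrt_le_real_sqrt
  have h4 : (n.divisors.card : ℝ) ≤ Nat.sqrt n + Nat.sqrt n := by exact_mod_cast h2
  linarith

/-- sum over primes in a dyadic block -/
theorem cheb_Q : ∃ C : ℝ, 0 < C ∧ ∀ j : ℕ, 1 ≤ j →
    ∑' Q : ℕ, (if Q.Prime ∧ 2 ^ j < Q ∧ Q ≤ 2 ^ (j + 1) then uu Q else 0) ≤ ENNReal.ofReal (C / j) := by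
  obtain ⟨C, hC, h⟩ := cheb_dyadic
  refine ⟨C, hC, ?_⟩
  intro j hj
  have hj' : (0:ℝ) < j := by exact_mod_cast hj
  rw [tsum_eq_sum (s := (Finset.Ioc (2 ^ j) (2 ^ (j + 1))).filter Nat.Prime)]
  · calc ∑ Q ∈ (Finset.Ioc (2 ^ j) (2 ^ (j + 1))).filter Nat.Prime, (if Q.Prime ∧ 2 ^ j < Q ∧ Q ≤ 2 ^ (j + 1) then uu Q else 0)
        ≤ ∑ Q ∈ (Finset.Ioc (2 ^ j) (2 ^ (j + 1))).filter Nat.Prime, ENNReal.ofReal (((2:ℝ)^j)⁻¹) := by
          apply Finset.sum_le_sum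
          intro Q hQ
          rw [Finset.mem_filter, Finset.mem_Ioc] at hQ
          rw [if_pos ⟨hQ.2, hQ.1.1, hQ.1.2⟩]
          refine (uu_le Q).trans (ENNReal.ofReal_le_ofReal ?_)
          apply inv_anti₀ (by positivity)
          exact_mod_cast hQ.1.1.le
      _ = ENNReal.ofReal ((((Finset.Ioc (2 ^ j) (2 ^ (j + 1))).filter Nat.Prime).card : ℝ) * ((2:ℝ)^j)⁻¹) := by
          rw [Finset.sum_const, nsmul_eq_mul, ENNReal.ofReal_mul (by positivity), ENNReal.ofReal_natCast]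
      _ ≤ _ := by
          apply ENNReal.ofReal_le_ofReal
          calc _ ≤ (C * 2 ^ j / j) * ((2:ℝ)^j)⁻¹ := by
                gcongr
                exact h j hj
            _ = C / j := by field_simp
  · intro Q hQ
    rw [if_neg]
    rintro ⟨h1, h2, h3⟩
    apply hQ
    rw [Finset.mem_filter, Finset.mem_Ioc]
    exact ⟨⟨h2, h3⟩, h1⟩

/-- count of primes `Q` in a dyadic block with `g * Q + 1` prime -/
theorem sieve_count : ∃ C : ℝ, 0 < C ∧ ∀ g j : ℕ, 1 ≤ g → 1 ≤ j →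
    (((Finset.Ioc (2 ^ j) (2 ^ (j + 1))).filter (fun Q => Q.Prime ∧ (g * Q + 1).Prime)).card : ℝ) ≤
      C * GG g ^ 2 * 2 ^ j / (j : ℝ) ^ 2 := by
  obtain ⟨C, hC, h⟩ := sieve_two'
  refine ⟨C * 2 / (Real.log 2) ^ 2, ?_, ?_⟩
  · have := Real.log_pos (by norm_num : (1:ℝ) < 2)
    positivity
  intro g j hg hj
  have hj' : (0:ℝ) < j := by exact_mod_cast hj
  have h1 := h 1 0 g 1 (2 ^ (j + 1)) (by norm_num) hg (by norm_num) (by norm_num) (by omega)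
    (by calc 2 = 2 ^ 1 := by norm_num
          _ ≤ 2 ^ (j + 1) := Nat.pow_le_pow_right (by norm_num) (by omega))
  have h2 : (1 * g * (((1 * 1 : ℕ) : ℤ) - ((g * 0 : ℕ) : ℤ)).natAbs) = g := by simp
  rw [h2] at h1
  have h3 : (Finset.Ioc (2 ^ j) (2 ^ (j + 1))).filter (fun Q => Q.Prime ∧ (g * Q + 1).Prime) ⊆
      (Finset.Icc 1 (2 ^ (j + 1))).filter (fun n => (1 * n + 0).Prime ∧ (g * n + 1).Prime) := by
    intro Q hQ
    rw [Finset.mem_filter, Finset.mem_Ioc] at hQ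
    rw [Finset.mem_filter, Finset.mem_Icc]
    refine ⟨⟨by omega, hQ.1.2⟩, ?_⟩
    simpa using hQ.2
  have h4 : (((Finset.Ioc (2 ^ j) (2 ^ (j + 1))).filter (fun Q => Q.Prime ∧ (g * Q + 1).Prime)).card : ℝ) ≤
      C * GG g ^ 2 * ((2 ^ (j + 1) : ℕ) : ℝ) / (Real.log ((2 ^ (j + 1) : ℕ) : ℝ)) ^ 2 :=
    le_trans (by exact_mod_cast Finset.card_le_card h3) h1
  refine h4.trans ?_
  have hl2 := Real.log_pos (by norm_num : (1:ℝ) < 2)
  have hlog : Real.log ((2 ^ (j + 1) : ℕ) : ℝ) = (j + 1) * Real.log 2 := by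
    push_cast
    rw [Real.log_pow]
    push_cast
    ring
  rw [hlog]
  push_cast
  have h5 : ((j : ℝ) * Real.log 2) ^ 2 ≤ (((j : ℝ) + 1) * Real.log 2) ^ 2 := by gcongr; linarith
  calc C * GG g ^ 2 * 2 ^ (j + 1) / (((j : ℝ) + 1) * Real.log 2) ^ 2
      ≤ C * GG g ^ 2 * 2 ^ (j + 1) / ((j : ℝ) * Real.log 2) ^ 2 := by
        gcongr
    _ = _ := by
        field_simp
        ring

theorem sieve_Q : ∃ C : ℝ, 0 < C ∧ ∀ g j : ℕ, 1 ≤ g → 1 ≤ j →
    ∑' Q : ℕ, (if Q.Prime ∧ 2 ^ j < Q ∧ Q ≤ 2 ^ (j + 1) ∧ (g * Q + 1).Prime then ENNReal.ofReal ((Q : ℝ)⁻¹) else 0) ≤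
      ENNReal.ofReal (C * GG g ^ 2 / (j : ℝ) ^ 2) := by
  obtain ⟨C, hC, h⟩ := sieve_count
  refine ⟨C, hC, ?_⟩
  intro g j hg hj
  have hj' : (0:ℝ) < j := by exact_mod_cast hj
  rw [tsum_eq_sum (s := (Finset.Ioc (2 ^ j) (2 ^ (j + 1))).filter (fun Q => Q.Prime ∧ (g * Q + 1).Prime))]
  · calc ∑ Q ∈ (Finset.Ioc (2 ^ j) (2 ^ (j + 1))).filter (fun Q => Q.Prime ∧ (g * Q + 1).Prime),
          (if Q.Prime ∧ 2 ^ j < Q ∧ Q ≤ 2 ^ (j + 1) ∧ (g * Q + 1).Prime then ENNReal.ofReal ((Q : ℝ)⁻¹) else 0)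
        ≤ ∑ Q ∈ (Finset.Ioc (2 ^ j) (2 ^ (j + 1))).filter (fun Q => Q.Prime ∧ (g * Q + 1).Prime), ENNReal.ofReal (((2:ℝ)^j)⁻¹) := by
          apply Finset.sum_le_sum
          intro Q hQ
          rw [Finset.mem_filter, Finset.mem_Ioc] at hQ
          rw [if_pos ⟨hQ.2.1, hQ.1.1, hQ.1.2, hQ.2.2⟩]
          refine (ENNReal.ofReal_le_ofReal ?_)
          apply inv_anti₀ (by positivity)
          exact_mod_cast hQ.1.1.le
      _ = ENNReal.ofReal ((((Finset.Ioc (2 ^ j) (2 ^ (j + 1))).filter (fun Q => Q.Prime ∧ (g * Q + 1).Prime)).card : ℝ) * ((2:ℝ)^j)⁻¹) := by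
          rw [Finset.sum_const, nsmul_eq_mul, ENNReal.ofReal_mul (by positivity), ENNReal.ofReal_natCast]
      _ ≤ _ := by
          apply ENNReal.ofReal_le_ofReal
          calc _ ≤ (C * GG g ^ 2 * 2 ^ j / (j : ℝ) ^ 2) * ((2:ℝ)^j)⁻¹ := by
                gcongr
                exact h g j hg hj
            _ = C * GG g ^ 2 / (j : ℝ) ^ 2 := by field_simp
  · intro Q hQ
    rw [if_neg]
    rintro ⟨h1, h2, h3, h4⟩
    apply hQ
    rw [Finset.mem_filter, Finset.mem_Ioc]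
    exact ⟨⟨h2, h3⟩, h1, h4⟩

end Pool.Agent.Erdos456
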