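import Mathlib
import Pool.Agent.Erdos456.Frec

set_option autoImplicit false

open scoped ENNReal

namespace Pool.Agent.Erdos456

/-- weighted sum of `tt` over smooth numbers -/
noncomputable def FF (j : ℕ) : ℝ≥0∞ := ∑' d : ℕ, (Sm j).indicator (fun d => te d * uu d) d

/-- weighted sum over numbers with largest prime factor in a block -/
noncomputable def BB (j : ℕ) : ℝ≥0∞ := ∑' d : ℕ, (Sm (j + 1) \ Sm j).indicator (fun d => te d * uu d) d

theorem FF_succ (j : ℕ) : FF (j + 1) = FF j + BB j := by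
  unfold FF BB
  rw [← ENNReal.tsum_add]
  apply tsum_congr
  intro d
  by_cases h1 : d ∈ Sm j
  · have h2 : d ∈ Sm (j + 1) := Sm_mono (Nat.le_succ j) h1
    rw [Set.indicator_of_mem h2, Set.indicator_of_mem h1, Set.indicator_of_notMem, add_zero]
    intro h; exact h.2 h1
  · by_cases h2 : d ∈ Sm (j + 1)
    · rw [Set.indicator_of_mem h2, Set.indicator_of_notMem h1, Set.indicator_of_mem, zero_add]
      exact ⟨h2, h1⟩
    · rw [Set.indicator_of_notMem h2, Set.indicator_of_notMem h1, Set.indicator_of_notMem, zero_add]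
      intro h; exact h2 h.1

theorem FF_le_UU (j : ℕ) : FF j ≤ UU j := by
  unfold FF UU
  apply ENNReal.tsum_le_tsum
  intro d
  by_cases h1 : d ∈ Sm j
  · rw [Set.indicator_of_mem h1, Set.indicator_of_mem h1]
    calc te d * uu d ≤ 1 * uu d := by gcongr; exact te_le_one d
      _ = uu d := one_mul _
  · rw [Set.indicator_of_notMem h1]
    exact zero_le

theorem FF_ne_top (j : ℕ) : FF j ≠ ∞ := by
  apply ne_top_of_le_ne_top _ (FF_le_UU j)
  rw [UU_eq]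
  exact ENNReal.ofReal_ne_top

/-- structure of an element of the block -/
theorem block_struct {j d : ℕ} (hd : d ∈ Sm (j + 1) \ Sm j) :
    ∃ Q : ℕ, Q.Prime ∧ 2 ^ j < Q ∧ Q ≤ 2 ^ (j + 1) ∧
    ((∃ r' d' b : ℕ, d = Q * r' * d' ∧ r' ∈ Sm (j + 1) ∧ d' ∈ Sm (j + 1) ∧ 1 ≤ b ∧
      ((r' * b) * Q + 1).Prime ∧ (b : ℝ) * tt d ≤ tt d') ∨
    (∃ r₁ d' f : ℕ, d = Q ^ f * r₁ * d' ∧ d' ∈ Sm (j + 1) ∧ 1 ≤ f ∧ r₁ ∣ Q - 1 ∧ 1 ≤ r₁ ∧
      tt d ≤ ((r₁ : ℝ) / Q) * tt d')) := by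
  obtain ⟨h1, h2⟩ := hd
  rw [mem_Sm] at h2
  have h1' := mem_Sm.mp h1
  have hd0 : 0 < d := Nat.pos_of_ne_zero h1'.1
  have h3 : ∃ p : ℕ, p.Prime ∧ p ∣ d ∧ 2 ^ j < p := by
    by_contra hcon
    push Not at hcon
    exact h2 ⟨h1'.1, hcon⟩
  obtain ⟨p, hp, hpd, hpj⟩ := h3
  have hne : d.primeFactors.Nonempty := ⟨p, Nat.mem_primeFactors.mpr ⟨hp, hpd, hd0.ne'⟩⟩
  set Q := d.primeFactors.max' hne with hQ
  have hQm := Finset.max'_mem d.primeFactors hne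
  rw [← hQ, Nat.mem_primeFactors] at hQm
  have hmax : ∀ p : ℕ, p.Prime → p ∣ d → p ≤ Q := by
    intro p hp hpd
    exact Finset.le_max' _ _ (Nat.mem_primeFactors.mpr ⟨hp, hpd, hd0.ne'⟩)
  refine ⟨Q, hQm.1, lt_of_lt_of_le hpj (hmax p hp hpd), h1'.2 Q hQm.1 hQm.2.1, ?_⟩
  rcases mm_decomp d Q hd0 hQm.1 hQm.2.1 hmax with ⟨r, d', b, hr1, hr2, hb, hpr, ht⟩ | ⟨r₁, d', f, hr1, hf, hr2, ht⟩
  · left
    obtain ⟨r', hr'⟩ := hr2
    have e1 : d = Q * r' * d' := by rw [hr1, hr']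
    refine ⟨r', d', b, e1, ?_, ?_, hb, ?_, ht⟩
    · exact Sm_dvd h1 ⟨Q * d', by rw [e1]; ring⟩
    · exact Sm_dvd h1 ⟨Q * r', by rw [e1]; ring⟩
    · have : r' * b * Q + 1 = r * b + 1 := by rw [hr']; ring
      rw [this]; exact hpr
  · right
    refine ⟨r₁, d', f, hr1, ?_, hf, hr2, ?_, ht⟩
    · exact Sm_dvd h1 ⟨Q ^ f * r₁, by rw [hr1]; ring⟩
    · rcases Nat.eq_zero_or_pos r₁ with h0 | h0
      · rw [h0] at hr1; simp at hr1; omega
      · exact h0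

/-- first type: small `b` -/
theorem block_one : ∃ C : ℝ, 0 < C ∧ ∀ j : ℕ, 1 ≤ j →
    ∑' d : ℕ, Set.indicator {d | ∃ Q r' d' b : ℕ, Q.Prime ∧ 2 ^ j < Q ∧ Q ≤ 2 ^ (j + 1) ∧ d = Q * r' * d' ∧
      r' ∈ Sm (j + 1) ∧ d' ∈ Sm (j + 1) ∧ 1 ≤ b ∧ b ≤ j ∧
      ((r' * b) * Q + 1).Prime ∧ (b : ℝ) * tt d ≤ tt d'} (fun d => te d * uu d) d ≤
    ENNReal.ofReal (C * (1 + Real.log j) * Real.sqrt (j + 1) / (j : ℝ) ^ 2) * FF (j + 1) := by
  obtain ⟨C1, hC1, h1⟩ := sieve_Q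
  obtain ⟨C2, hC2, h2⟩ := UU2_le
  obtain ⟨C3, hC3, h3⟩ := sum_GG_sq_div_le
  refine ⟨C1 * C2 * C3, by positivity, ?_⟩
  intro j hj
  have hj' : (0:ℝ) < j := by exact_mod_cast hj
  have hlog : 0 ≤ Real.log j := Real.log_nonneg (by exact_mod_cast hj)
  -- the comparison function on tuples (b, r', d', Q)
  let H : ℕ × ℕ × ℕ × ℕ → ℝ≥0∞ := fun x =>
    (if 1 ≤ x.1 ∧ x.1 ≤ j then ENNReal.ofReal ((x.1 : ℝ)⁻¹) else 0) *
    ((Sm (j + 1)).indicator uu x.2.1 * ((Sm (j + 1)).indicator (fun d => te d * uu d) x.2.2.1 *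
      (if x.2.2.2.Prime ∧ 2 ^ j < x.2.2.2 ∧ x.2.2.2 ≤ 2 ^ (j + 1) ∧ ((x.2.1 * x.1) * x.2.2.2 + 1).Prime then
        ENNReal.ofReal ((x.2.2.2 : ℝ)⁻¹) else 0)))
  have hA := tsum_le_of_rel (β := ℕ × ℕ × ℕ × ℕ)
    (P := fun d => ∃ Q r' d' b : ℕ, Q.Prime ∧ 2 ^ j < Q ∧ Q ≤ 2 ^ (j + 1) ∧ d = Q * r' * d' ∧
      r' ∈ Sm (j + 1) ∧ d' ∈ Sm (j + 1) ∧ 1 ≤ b ∧ b ≤ j ∧
      ((r' * b) * Q + 1).Prime ∧ (b : ℝ) * tt d ≤ tt d')
    (f := fun d => te d * uu d) (H := H)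
    (R := fun d x => d = x.2.2.2 * x.2.1 * x.2.2.1)
    (by
      rintro d ⟨Q, r', d', b, hQ, hQ1, hQ2, hd, hr', hd', hb1, hb2, hpr, ht⟩
      refine ⟨(b, r', d', Q), hd, ?_⟩
      simp only [H]
      rw [if_pos ⟨hb1, hb2⟩, Set.indicator_of_mem hr', Set.indicator_of_mem hd', if_pos ⟨hQ, hQ1, hQ2, hpr⟩]
      have hb0 : (0:ℝ) < b := by exact_mod_cast hb1
      have hte : te d ≤ ENNReal.ofReal ((b : ℝ)⁻¹) * te d' := by
        unfold te
        rw [← ENNReal.ofReal_mul (by positivity)]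
        apply ENNReal.ofReal_le_ofReal
        rw [inv_mul_eq_div, le_div_iff₀ hb0]
        linarith
      have huu : uu d ≤ ENNReal.ofReal ((Q : ℝ)⁻¹) * uu r' * uu d' := by
        rw [hd, uu_mul, uu_mul]
        gcongr
        exact uu_le Q
      calc te d * uu d ≤ (ENNReal.ofReal ((b : ℝ)⁻¹) * te d') * (ENNReal.ofReal ((Q : ℝ)⁻¹) * uu r' * uu d') := by
            gcongr
        _ = _ := by ring)
    (by
      rintro d d' x hx hx'
      rw [hx, hx'])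
  refine hA.trans ?_
  -- evaluate
  rw [ENNReal.tsum_prod' (f := H)]
  have hB : ∀ b : ℕ, ∑' y : ℕ × ℕ × ℕ, H (b, y) ≤
      (if 1 ≤ b ∧ b ≤ j then ENNReal.ofReal (GG b ^ 2 * (b : ℝ)⁻¹) else 0) *
        (ENNReal.ofReal (C1 / (j : ℝ) ^ 2) * (ENNReal.ofReal (C2 * Real.sqrt (j + 1)) * FF (j + 1))) := by
    intro b
    by_cases hb : 1 ≤ b ∧ b ≤ j
    · simp only [H, if_pos hb]
      rw [ENNReal.tsum_mul_left, ENNReal.tsum_prod']
      have hC : ∀ r' : ℕ, ∑' z : ℕ × ℕ, (Sm (j + 1)).indicator uu r' * ((Sm (j + 1)).indicator (fun d => te d * uu d) z.1 *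
          (if z.2.Prime ∧ 2 ^ j < z.2 ∧ z.2 ≤ 2 ^ (j + 1) ∧ ((r' * b) * z.2 + 1).Prime then
            ENNReal.ofReal ((z.2 : ℝ)⁻¹) else 0)) ≤
          (ENNReal.ofReal (GG b ^ 2) * ENNReal.ofReal (C1 / (j : ℝ) ^ 2) * FF (j + 1)) *
            (Sm (j + 1)).indicator (fun r => ENNReal.ofReal (GG r ^ 2) * uu r) r' := by
        intro r'
        by_cases hr' : r' ∈ Sm (j + 1)
        · rw [Set.indicator_of_mem hr', Set.indicator_of_mem hr', ENNReal.tsum_mul_left, ENNReal.tsum_prod']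
          simp_rw [ENNReal.tsum_mul_left, ENNReal.tsum_mul_right]
          have hr0 : 1 ≤ r' := Nat.one_le_iff_ne_zero.mpr (mem_Sm.mp hr').1
          have hg : 1 ≤ r' * b := Nat.one_le_iff_ne_zero.mpr (by
            have := hb.1
            positivity)
          have h4 := h1 (r' * b) j hg hj
          have h5 : ENNReal.ofReal (C1 * GG (r' * b) ^ 2 / (j : ℝ) ^ 2) ≤
              ENNReal.ofReal (C1 / (j : ℝ) ^ 2) * (ENNReal.ofReal (GG r' ^ 2) * ENNReal.ofReal (GG b ^ 2)) := by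
            rw [← ENNReal.ofReal_mul (by positivity), ← ENNReal.ofReal_mul (by positivity)]
            apply ENNReal.ofReal_le_ofReal
            have h6 := GG_mul_le r' b
            have h7 := GG_nonneg (r' * b)
            have h8 : GG (r' * b) ^ 2 ≤ (GG r' * GG b) ^ 2 := by gcongr
            calc C1 * GG (r' * b) ^ 2 / (j : ℝ) ^ 2 ≤ C1 * (GG r' * GG b) ^ 2 / (j : ℝ) ^ 2 := by gcongr
              _ = _ := by ring
          calc uu r' * ((∑' d', (Sm (j + 1)).indicator (fun d => te d * uu d) d') *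
                ∑' Q : ℕ, (if Q.Prime ∧ 2 ^ j < Q ∧ Q ≤ 2 ^ (j + 1) ∧ ((r' * b) * Q + 1).Prime then
                ENNReal.ofReal ((Q : ℝ)⁻¹) else 0))
              ≤ uu r' * (FF (j + 1) * (ENNReal.ofReal (C1 / (j : ℝ) ^ 2) * (ENNReal.ofReal (GG r' ^ 2) * ENNReal.ofReal (GG b ^ 2)))) := by
                gcongr
                · exact le_of_eq rfl
                · exact h4.trans h5
            _ = _ := by ring
        · rw [Set.indicator_of_notMem hr', Set.indicator_of_notMem hr']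
          simp
      calc ENNReal.ofReal ((b : ℝ)⁻¹) * ∑' (r' : ℕ), ∑' z : ℕ × ℕ, (Sm (j + 1)).indicator uu r' * ((Sm (j + 1)).indicator (fun d => te d * uu d) z.1 *
          (if z.2.Prime ∧ 2 ^ j < z.2 ∧ z.2 ≤ 2 ^ (j + 1) ∧ ((r' * b) * z.2 + 1).Prime then
            ENNReal.ofReal ((z.2 : ℝ)⁻¹) else 0))
          ≤ ENNReal.ofReal ((b : ℝ)⁻¹) * ∑' (r' : ℕ), (ENNReal.ofReal (GG b ^ 2) * ENNReal.ofReal (C1 / (j : ℝ) ^ 2) * FF (j + 1)) *
            (Sm (j + 1)).indicator (fun r => ENNReal.ofReal (GG r ^ 2) * uu r) r' := by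
            gcongr with r'
            exact hC r'
        _ ≤ ENNReal.ofReal ((b : ℝ)⁻¹) * ((ENNReal.ofReal (GG b ^ 2) * ENNReal.ofReal (C1 / (j : ℝ) ^ 2) * FF (j + 1)) *
            ENNReal.ofReal (C2 * Real.sqrt (j + 1))) := by
            rw [ENNReal.tsum_mul_left]
            gcongr
            have := h2 (j + 1) (by omega)
            push_cast at this
            exact this
        _ = _ := by
            rw [ENNReal.ofReal_mul (p := GG b ^ 2) (by positivity)]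
            ring
    · simp only [H, if_neg hb]
      simp
  calc ∑' b : ℕ, ∑' y : ℕ × ℕ × ℕ, H (b, y)
      ≤ ∑' b : ℕ, (if 1 ≤ b ∧ b ≤ j then ENNReal.ofReal (GG b ^ 2 * (b : ℝ)⁻¹) else 0) *
        (ENNReal.ofReal (C1 / (j : ℝ) ^ 2) * (ENNReal.ofReal (C2 * Real.sqrt (j + 1)) * FF (j + 1))) :=
        ENNReal.tsum_le_tsum hB
    _ ≤ ENNReal.ofReal (C3 * (1 + Real.log j)) *
        (ENNReal.ofReal (C1 / (j : ℝ) ^ 2) * (ENNReal.ofReal (C2 * Real.sqrt (j + 1)) * FF (j + 1))) := by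
        rw [ENNReal.tsum_mul_right]
        gcongr
        exact h3 j
    _ = _ := by
        rw [← mul_assoc (ENNReal.ofReal (C1 / (j : ℝ) ^ 2)), ← mul_assoc (ENNReal.ofReal (C3 * (1 + Real.log j))),
          ← ENNReal.ofReal_mul (by positivity), ← ENNReal.ofReal_mul (by positivity)]
        congr 2
        ring

/-- second type: large `b` -/
theorem block_two : ∃ C : ℝ, 0 < C ∧ ∀ j : ℕ, 1 ≤ j →
    ∑' d : ℕ, Set.indicator {d | ∃ Q r' d' : ℕ, Q.Prime ∧ 2 ^ j < Q ∧ Q ≤ 2 ^ (j + 1) ∧ d = Q * r' * d' ∧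
      r' ∈ Sm (j + 1) ∧ d' ∈ Sm (j + 1) ∧ (j : ℝ) * tt d ≤ tt d'} (fun d => te d * uu d) d ≤
    ENNReal.ofReal (C * Real.sqrt (j + 1) / (j : ℝ) ^ 2) * FF (j + 1) := by
  obtain ⟨C1, hC1, h1⟩ := cheb_Q
  obtain ⟨C2, hC2, h2⟩ := UU_le
  refine ⟨C1 * C2, by positivity, ?_⟩
  intro j hj
  have hj' : (0:ℝ) < j := by exact_mod_cast hj
  let H : ℕ × ℕ × ℕ → ℝ≥0∞ := fun x =>
    ENNReal.ofReal ((j : ℝ)⁻¹) * ((Sm (j + 1)).indicator uu x.1 * ((Sm (j + 1)).indicator (fun d => te d * uu d) x.2.1 *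
      (if x.2.2.Prime ∧ 2 ^ j < x.2.2 ∧ x.2.2 ≤ 2 ^ (j + 1) then uu x.2.2 else 0)))
  have hA := tsum_le_of_rel (β := ℕ × ℕ × ℕ)
    (P := fun d => ∃ Q r' d' : ℕ, Q.Prime ∧ 2 ^ j < Q ∧ Q ≤ 2 ^ (j + 1) ∧ d = Q * r' * d' ∧
      r' ∈ Sm (j + 1) ∧ d' ∈ Sm (j + 1) ∧ (j : ℝ) * tt d ≤ tt d')
    (f := fun d => te d * uu d) (H := H)
    (R := fun d x => d = x.2.2 * x.1 * x.2.1)
    (by
      rintro d ⟨Q, r', d', hQ, hQ1, hQ2, hd, hr', hd', ht⟩
      refine ⟨(r', d', Q), hd, ?_⟩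
      simp only [H]
      rw [Set.indicator_of_mem hr', Set.indicator_of_mem hd', if_pos ⟨hQ, hQ1, hQ2⟩]
      have hte : te d ≤ ENNReal.ofReal ((j : ℝ)⁻¹) * te d' := by
        unfold te
        rw [← ENNReal.ofReal_mul (by positivity)]
        apply ENNReal.ofReal_le_ofReal
        rw [inv_mul_eq_div, le_div_iff₀ hj']
        linarith
      calc te d * uu d ≤ (ENNReal.ofReal ((j : ℝ)⁻¹) * te d') * (uu Q * uu r' * uu d') := by
            rw [hd, uu_mul, uu_mul, ← hd]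
            gcongr
        _ = _ := by ring)
    (by
      rintro d d' x hx hx'
      rw [hx, hx'])
  refine hA.trans ?_
  have hE : ∑' x, H x = ENNReal.ofReal ((j : ℝ)⁻¹) * (UU (j + 1) * (FF (j + 1) *
      ∑' Q : ℕ, (if Q.Prime ∧ 2 ^ j < Q ∧ Q ≤ 2 ^ (j + 1) then uu Q else 0))) := by
    rw [ENNReal.tsum_prod' (f := H)]
    simp only [H]
    simp_rw [ENNReal.tsum_mul_left, ENNReal.tsum_prod', ENNReal.tsum_mul_left, ENNReal.tsum_mul_right]
    rfl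
  rw [hE]
  have h3 := h2 (j + 1) (by omega)
  push_cast at h3
  calc _ ≤ ENNReal.ofReal ((j : ℝ)⁻¹) * (ENNReal.ofReal (C2 * Real.sqrt (j + 1)) * (FF (j + 1) * ENNReal.ofReal (C1 / j))) := by
        gcongr
        exact h1 j hj
    _ = (ENNReal.ofReal ((j : ℝ)⁻¹) * (ENNReal.ofReal (C2 * Real.sqrt (j + 1)) * ENNReal.ofReal (C1 / j))) * FF (j + 1) := by ring
    _ = _ := by
        rw [← ENNReal.ofReal_mul (by positivity), ← ENNReal.ofReal_mul (by positivity)]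
        congr 2
        field_simp

/-- auxiliary power function -/
noncomputable def gpow (Q f : ℕ) : ℝ≥0∞ := if 1 ≤ f then uu Q ^ f else 0

/-- auxiliary divisor indicator -/
noncomputable def dvi (Q r : ℕ) : ℝ≥0∞ := if r ∈ (Q - 1).divisors then 1 else 0

/-- sum over `f` of powers -/
theorem geom_uu {Q : ℕ} (hQ : Q.Prime) :
    ∑' f : ℕ, gpow Q f ≤ ENNReal.ofReal ((Q : ℝ)⁻¹) := by
  unfold gpow
  have h2 : (2:ℝ) ≤ Q := by exact_mod_cast hQ.two_le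
  have h1 : uu Q ≤ ENNReal.ofReal (1/4) := by
    rw [uu_prime hQ]
    apply ENNReal.ofReal_le_ofReal
    rw [div_le_iff₀ (by linarith)]
    linarith
  have h3 : ∑' f : ℕ, (if 1 ≤ f then uu Q ^ f else 0) = uu Q * ∑' f : ℕ, uu Q ^ f := by
    rw [tsum_eq_zero_add' ENNReal.summable]
    simp only [show ¬ (1 ≤ 0) by norm_num, if_false, zero_add]
    rw [← ENNReal.tsum_mul_left]
    apply tsum_congr
    intro f
    rw [if_pos (by omega), pow_succ]
    ring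
  rw [h3, ENNReal.tsum_geometric]
  have h4 : (1 - uu Q)⁻¹ ≤ 2 := by
    rw [ENNReal.inv_le_iff_inv_le]
    have : uu Q ≤ 2⁻¹ := by
      refine h1.trans ?_
      rw [show (2⁻¹ : ℝ≥0∞) = ENNReal.ofReal (1/2) by
        rw [one_div, ENNReal.ofReal_inv_of_pos (by norm_num)]; norm_num]
      exact ENNReal.ofReal_le_ofReal (by norm_num)
    calc (2⁻¹ : ℝ≥0∞) = 1 - 2⁻¹ := by rw [ENNReal.one_sub_inv_two]
      _ ≤ 1 - uu Q := by gcongr
  calc uu Q * (1 - uu Q)⁻¹ ≤ uu Q * 2 := by gcongr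
    _ = ENNReal.ofReal ((Q : ℝ)⁻¹) := by
        rw [uu_prime hQ, show (2 : ℝ≥0∞) = ENNReal.ofReal 2 by norm_num, ← ENNReal.ofReal_mul (by positivity)]
        congr 1
        field_simp

/-- third type: square of the large prime -/
theorem block_three : ∀ j : ℕ, 1 ≤ j →
    ∑' d : ℕ, Set.indicator {d | ∃ Q r₁ d' f : ℕ, Q.Prime ∧ 2 ^ j < Q ∧ Q ≤ 2 ^ (j + 1) ∧
      d = Q ^ f * r₁ * d' ∧ d' ∈ Sm (j + 1) ∧ 1 ≤ f ∧ r₁ ∣ Q - 1 ∧ 1 ≤ r₁ ∧
      tt d ≤ ((r₁ : ℝ) / Q) * tt d'} (fun d => te d * uu d) d ≤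
    ENNReal.ofReal (2 / Real.sqrt (2 ^ j)) * FF (j + 1) := by
  intro j hj
  let H : ℕ × ℕ × ℕ × ℕ → ℝ≥0∞ := fun x =>
    (if x.1.Prime ∧ 2 ^ j < x.1 ∧ x.1 ≤ 2 ^ (j + 1) then ENNReal.ofReal ((x.1 : ℝ)⁻¹) else 0) *
    (dvi x.1 x.2.1 * (gpow x.1 x.2.2.1 *
      (Sm (j + 1)).indicator (fun d => te d * uu d) x.2.2.2))
  have hA := tsum_le_of_rel (β := ℕ × ℕ × ℕ × ℕ)
    (P := fun d => ∃ Q r₁ d' f : ℕ, Q.Prime ∧ 2 ^ j < Q ∧ Q ≤ 2 ^ (j + 1) ∧
      d = Q ^ f * r₁ * d' ∧ d' ∈ Sm (j + 1) ∧ 1 ≤ f ∧ r₁ ∣ Q - 1 ∧ 1 ≤ r₁ ∧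
      tt d ≤ ((r₁ : ℝ) / Q) * tt d')
    (f := fun d => te d * uu d) (H := H)
    (R := fun d x => d = x.1 ^ x.2.2.1 * x.2.1 * x.2.2.2)
    (by
      rintro d ⟨Q, r₁, d', f, hQ, hQ1, hQ2, hd, hd', hf, hr, hr1, ht⟩
      refine ⟨(Q, r₁, f, d'), hd, ?_⟩
      simp only [H]
      have hmem : r₁ ∈ (Q - 1).divisors := by
        rw [Nat.mem_divisors]
        refine ⟨hr, ?_⟩
        have := hQ.two_le
        omega
      rw [Set.indicator_of_mem hd', if_pos ⟨hQ, hQ1, hQ2⟩]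
      have hdvi : dvi Q r₁ = 1 := if_pos hmem
      have hgp : gpow Q f = uu Q ^ f := if_pos hf
      rw [hdvi, hgp]
      have hr0 : (0:ℝ) < r₁ := by exact_mod_cast hr1
      have hte : te d ≤ ENNReal.ofReal ((r₁ : ℝ) / Q) * te d' := by
        unfold te
        rw [← ENNReal.ofReal_mul (by positivity)]
        exact ENNReal.ofReal_le_ofReal ht
      have hcancel : ENNReal.ofReal ((r₁ : ℝ) / Q) * ENNReal.ofReal ((r₁ : ℝ)⁻¹) = ENNReal.ofReal ((Q : ℝ)⁻¹) := by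
        rw [← ENNReal.ofReal_mul (by positivity)]
        congr 1
        field_simp
      calc te d * uu d ≤ (ENNReal.ofReal ((r₁ : ℝ) / Q) * te d') * (uu Q ^ f * ENNReal.ofReal ((r₁ : ℝ)⁻¹) * uu d') := by
            have : uu d ≤ uu Q ^ f * ENNReal.ofReal ((r₁ : ℝ)⁻¹) * uu d' := by
              rw [hd, uu_mul, uu_mul, uu_pow]
              gcongr
              exact uu_le r₁
            gcongr
        _ = (ENNReal.ofReal ((r₁ : ℝ) / Q) * ENNReal.ofReal ((r₁ : ℝ)⁻¹)) * (1 * (uu Q ^ f * (te d' * uu d'))) := by ring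
        _ = _ := by rw [hcancel])
    (by
      rintro d d' x hx hx'
      rw [hx, hx'])
  refine hA.trans ?_
  rw [ENNReal.tsum_prod' (f := H)]
  have hQs : ∀ Q : ℕ, ∑' y : ℕ × ℕ × ℕ, H (Q, y) ≤
      (if Q ∈ Finset.Ioc (2 ^ j) (2 ^ (j + 1)) then ENNReal.ofReal (2 / (2 ^ j * Real.sqrt (2 ^ j))) * FF (j + 1) else 0) := by
    intro Q
    by_cases hQ : Q.Prime ∧ 2 ^ j < Q ∧ Q ≤ 2 ^ (j + 1)
    · rw [if_pos (Finset.mem_Ioc.mpr hQ.2)]
      simp only [H, if_pos hQ]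
      rw [ENNReal.tsum_mul_left, ENNReal.tsum_prod']
      simp_rw [ENNReal.tsum_mul_left, ENNReal.tsum_prod']
      simp_rw [ENNReal.tsum_mul_left, ENNReal.tsum_mul_right]
      have hQ0 : (0:ℝ) < Q := by exact_mod_cast hQ.1.pos
      have hc : ∑' r₁ : ℕ, dvi Q r₁ ≤ ENNReal.ofReal (2 * Real.sqrt Q) := by
        unfold dvi
        rw [tsum_eq_sum (s := (Q - 1).divisors)]
        · rw [Finset.sum_congr rfl (g := fun _ => (1 : ℝ≥0∞))]
          · rw [Finset.sum_const, nsmul_eq_mul, mul_one, ← ENNReal.ofReal_natCast]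
            apply ENNReal.ofReal_le_ofReal
            refine (card_divisors_le_two_sqrt (Q - 1)).trans ?_
            gcongr
            omega
          · intro r hr
            rw [if_pos hr]
        · intro r hr
          rw [if_neg hr]
      have hf := geom_uu hQ.1
      calc ENNReal.ofReal ((Q : ℝ)⁻¹) * ((∑' r₁ : ℕ, dvi Q r₁) *
            ((∑' f : ℕ, gpow Q f) * ∑' d' : ℕ, (Sm (j + 1)).indicator (fun d => te d * uu d) d'))
          ≤ ENNReal.ofReal ((Q : ℝ)⁻¹) * (ENNReal.ofReal (2 * Real.sqrt Q) * (ENNReal.ofReal ((Q : ℝ)⁻¹) * FF (j + 1))) := by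
            gcongr
            exact le_of_eq rfl
        _ = (ENNReal.ofReal ((Q : ℝ)⁻¹) * (ENNReal.ofReal (2 * Real.sqrt Q) * ENNReal.ofReal ((Q : ℝ)⁻¹))) * FF (j + 1) := by ring
        _ ≤ _ := by
            gcongr
            rw [← ENNReal.ofReal_mul (by positivity), ← ENNReal.ofReal_mul (by positivity)]
            apply ENNReal.ofReal_le_ofReal
            have h2j : (0:ℝ) < 2 ^ j := by positivity
            have hle : (2:ℝ) ^ j ≤ Q := by exact_mod_cast hQ.2.1.le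
            have hs : Real.sqrt (2 ^ j) ≤ Real.sqrt Q := Real.sqrt_le_sqrt hle
            have hs0 : 0 < Real.sqrt (2 ^ j) := Real.sqrt_pos.mpr h2j
            have hsQ : Real.sqrt Q * Real.sqrt Q = Q := Real.mul_self_sqrt hQ0.le
            have hsQ0 : 0 < Real.sqrt Q := lt_of_lt_of_le hs0 hs
            have e1 : (Q : ℝ)⁻¹ * (2 * Real.sqrt Q * (Q : ℝ)⁻¹) = 2 / (Q * Real.sqrt Q) := by
              have : (Q:ℝ) ≠ 0 := hQ0.ne'
              have h9 : Real.sqrt Q ≠ 0 := hsQ0.ne'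
              rw [div_eq_mul_inv, mul_inv]
              have e2 : (Real.sqrt Q)⁻¹ = Real.sqrt Q * (Q : ℝ)⁻¹ := by
                rw [← div_eq_mul_inv, eq_div_iff this, inv_mul_eq_iff_eq_mul₀ h9]
                exact hsQ.symm
              rw [e2]; ring
            rw [e1]
            gcongr
    · simp only [H, if_neg hQ]
      simp
  calc ∑' Q : ℕ, ∑' y : ℕ × ℕ × ℕ, H (Q, y)
      ≤ ∑' Q : ℕ, (if Q ∈ Finset.Ioc (2 ^ j) (2 ^ (j + 1)) then ENNReal.ofReal (2 / (2 ^ j * Real.sqrt (2 ^ j))) * FF (j + 1) else 0) :=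
        ENNReal.tsum_le_tsum hQs
    _ = ∑ Q ∈ Finset.Ioc (2 ^ j) (2 ^ (j + 1)), ENNReal.ofReal (2 / (2 ^ j * Real.sqrt (2 ^ j))) * FF (j + 1) := by
        rw [tsum_eq_sum (s := Finset.Ioc (2 ^ j) (2 ^ (j + 1)))]
        · apply Finset.sum_congr rfl
          intro Q hQ
          rw [if_pos hQ]
        · intro Q hQ
          rw [if_neg hQ]
    _ = _ := by
        rw [Finset.sum_const, Nat.card_Ioc, nsmul_eq_mul, ← mul_assoc, ← ENNReal.ofReal_natCast,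
          ← ENNReal.ofReal_mul (by positivity)]
        congr 2
        have h9 : 2 ^ (j + 1) - 2 ^ j = 2 ^ j := by rw [pow_succ]; omega
        rw [h9]
        push_cast
        have h2j : (0:ℝ) < 2 ^ j := by positivity
        have hs0 : 0 < Real.sqrt (2 ^ j) := Real.sqrt_pos.mpr h2j
        field_simp

end Pool.Agent.Erdos456
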