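import Mathlib
import Pool.Agent.Erdos456.Frec2

set_option autoImplicit false

open scoped ENNReal

namespace Pool.Agent.Erdos456

theorem BB_le_sum (j : ℕ) (_hj : 1 ≤ j) : BB j ≤
    ∑' d : ℕ, Set.indicator {d | ∃ Q r' d' b : ℕ, Q.Prime ∧ 2 ^ j < Q ∧ Q ≤ 2 ^ (j + 1) ∧ d = Q * r' * d' ∧
      r' ∈ Sm (j + 1) ∧ d' ∈ Sm (j + 1) ∧ 1 ≤ b ∧ b ≤ j ∧
      ((r' * b) * Q + 1).Prime ∧ (b : ℝ) * tt d ≤ tt d'} (fun d => te d * uu d) d +
    (∑' d : ℕ, Set.indicator {d | ∃ Q r' d' : ℕ, Q.Prime ∧ 2 ^ j < Q ∧ Q ≤ 2 ^ (j + 1) ∧ d = Q * r' * d' ∧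
      r' ∈ Sm (j + 1) ∧ d' ∈ Sm (j + 1) ∧ (j : ℝ) * tt d ≤ tt d'} (fun d => te d * uu d) d +
    ∑' d : ℕ, Set.indicator {d | ∃ Q r₁ d' f : ℕ, Q.Prime ∧ 2 ^ j < Q ∧ Q ≤ 2 ^ (j + 1) ∧
      d = Q ^ f * r₁ * d' ∧ d' ∈ Sm (j + 1) ∧ 1 ≤ f ∧ r₁ ∣ Q - 1 ∧ 1 ≤ r₁ ∧
      tt d ≤ ((r₁ : ℝ) / Q) * tt d'} (fun d => te d * uu d) d) := by
  unfold BB
  rw [← ENNReal.tsum_add, ← ENNReal.tsum_add]
  apply ENNReal.tsum_le_tsum
  intro d
  by_cases hd : d ∈ Sm (j + 1) \ Sm j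
  · rw [Set.indicator_of_mem hd]
    obtain ⟨Q, hQ, hQ1, hQ2, h⟩ := block_struct hd
    rcases h with ⟨r', d', b, h1, h2, h3, h4, h5, h6⟩ | ⟨r₁, d', f, h1, h2, h3, h4, h5, h6⟩
    · by_cases hb : b ≤ j
      · refine le_trans ?_ le_self_add
        rw [Set.indicator_of_mem]
        exact ⟨Q, r', d', b, hQ, hQ1, hQ2, h1, h2, h3, h4, hb, h5, h6⟩
      · refine le_trans ?_ le_add_self
        refine le_trans ?_ le_self_add
        rw [Set.indicator_of_mem]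
        refine ⟨Q, r', d', hQ, hQ1, hQ2, h1, h2, h3, ?_⟩
        have hb' : (j : ℝ) ≤ b := by exact_mod_cast (by omega : j ≤ b)
        have := tt_nonneg d
        nlinarith
    · refine le_trans ?_ le_add_self
      refine le_trans ?_ le_add_self
      rw [Set.indicator_of_mem]
      exact ⟨Q, r₁, d', f, hQ, hQ1, hQ2, h1, h2, h3, h4, h5, h6⟩
  · rw [Set.indicator_of_notMem hd]
    exact zero_le

theorem exp_decay : ∃ C : ℝ, 0 < C ∧ ∀ j : ℕ, 1 ≤ j → 2 / Real.sqrt (2 ^ j) ≤ C * (j : ℝ) ^ (-(23/16) : ℝ) := by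
  have h := tendsto_pow_const_mul_const_pow_of_lt_one 2 (r := (Real.sqrt 2)⁻¹) (by positivity) (by
    apply inv_lt_one_of_one_lt₀
    rw [show (1:ℝ) = Real.sqrt 1 by simp]
    exact Real.sqrt_lt_sqrt (by norm_num) (by norm_num))
  obtain ⟨M, hM⟩ := h.bddAbove_range
  refine ⟨2 * (|M| + 1), by positivity, ?_⟩
  intro j hj
  have hj' : (1:ℝ) ≤ j := by exact_mod_cast hj
  have h1 : (j : ℝ) ^ 2 * ((Real.sqrt 2)⁻¹) ^ j ≤ M := hM ⟨j, rfl⟩
  have h2 : Real.sqrt (2 ^ j) = (Real.sqrt 2) ^ j := by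
    rw [Real.sqrt_eq_rpow, Real.sqrt_eq_rpow, ← Real.rpow_natCast, ← Real.rpow_natCast, ← Real.rpow_mul (by norm_num),
      ← Real.rpow_mul (by norm_num)]
    congr 1
    ring
  rw [h2]
  have h3 : (2:ℝ) / (Real.sqrt 2) ^ j = 2 * ((Real.sqrt 2)⁻¹) ^ j := by rw [inv_pow]; rfl
  rw [h3]
  have h4 : ((Real.sqrt 2)⁻¹) ^ j ≤ M / (j : ℝ) ^ 2 := by
    rw [le_div_iff₀ (by positivity)]
    linarith
  have h5 : M / (j : ℝ) ^ 2 ≤ (|M| + 1) * (j : ℝ) ^ (-(23/16) : ℝ) := by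
    have h6 : ((j : ℝ) ^ 2)⁻¹ ≤ (j : ℝ) ^ (-(23/16) : ℝ) := by
      rw [← Real.rpow_natCast, ← Real.rpow_neg (by positivity)]
      apply Real.rpow_le_rpow_of_exponent_le hj'
      norm_num
    have h7 : M ≤ |M| + 1 := by linarith [le_abs_self M]
    rw [div_eq_mul_inv]
    calc M * ((j : ℝ) ^ 2)⁻¹ ≤ (|M| + 1) * ((j : ℝ) ^ 2)⁻¹ := by gcongr
      _ ≤ _ := by gcongr
  linarith

theorem block_bound : ∃ C : ℝ, 0 < C ∧ ∀ j : ℕ, 1 ≤ j →
    BB j ≤ ENNReal.ofReal (C * (j : ℝ) ^ (-(23/16) : ℝ)) * FF (j + 1) := by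
  obtain ⟨C1, hC1, h1⟩ := block_one
  obtain ⟨C2, hC2, h2⟩ := block_two
  obtain ⟨C3, hC3, h3⟩ := exp_decay
  refine ⟨C1 * 34 + C2 * 2 + C3, by positivity, ?_⟩
  intro j hj
  have hj' : (1:ℝ) ≤ j := by exact_mod_cast hj
  have hj0 : (0:ℝ) < j := by linarith
  have hlog : Real.log j ≤ 16 * (j : ℝ) ^ (1/16 : ℝ) := by
    have := Real.log_le_rpow_div hj0.le (by norm_num : (0:ℝ) < 1/16)
    linarith
  have hpow1 : (1:ℝ) ≤ (j : ℝ) ^ (1/16 : ℝ) := Real.one_le_rpow hj' (by norm_num)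
  have hsq : Real.sqrt (j + 1) ≤ 2 * (j : ℝ) ^ (1/2 : ℝ) := by
    rw [← Real.sqrt_eq_rpow]
    have : Real.sqrt (j + 1) ≤ Real.sqrt (4 * j) := Real.sqrt_le_sqrt (by linarith)
    rw [Real.sqrt_mul (by norm_num), show Real.sqrt 4 = 2 by
      rw [show (4:ℝ) = 2^2 by norm_num]; exact Real.sqrt_sq (by norm_num)] at this
    exact this
  have e1 : (1 + Real.log j) * Real.sqrt (j + 1) / (j : ℝ) ^ 2 ≤ 34 * (j : ℝ) ^ (-(23/16) : ℝ) := by
    have h4 : (1 + Real.log j) * Real.sqrt (j + 1) ≤ (17 * (j : ℝ) ^ (1/16 : ℝ)) * (2 * (j : ℝ) ^ (1/2 : ℝ)) := by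
      gcongr
      linarith
    have h5 : (j : ℝ) ^ (-(23/16) : ℝ) = (j : ℝ) ^ (1/16 : ℝ) * (j : ℝ) ^ (1/2 : ℝ) / (j : ℝ) ^ 2 := by
      rw [← Real.rpow_add hj0, ← Real.rpow_natCast, ← Real.rpow_sub hj0]
      congr 1
      norm_num
    rw [h5, ← mul_div_assoc]
    apply div_le_div_of_nonneg_right _ (by positivity)
    linarith
  have e2 : Real.sqrt (j + 1) / (j : ℝ) ^ 2 ≤ 2 * (j : ℝ) ^ (-(23/16) : ℝ) := by
    have h5 : (j : ℝ) ^ (1/2 : ℝ) / (j : ℝ) ^ 2 ≤ (j : ℝ) ^ (-(23/16) : ℝ) := by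
      rw [← Real.rpow_natCast, ← Real.rpow_sub hj0]
      apply Real.rpow_le_rpow_of_exponent_le hj'
      norm_num
    calc Real.sqrt (j + 1) / (j : ℝ) ^ 2 ≤ (2 * (j : ℝ) ^ (1/2 : ℝ)) / (j : ℝ) ^ 2 := by gcongr
      _ = 2 * ((j : ℝ) ^ (1/2 : ℝ) / (j : ℝ) ^ 2) := by ring
      _ ≤ _ := by gcongr
  refine (BB_le_sum j hj).trans ?_
  have t1 := h1 j hj
  have t2 := h2 j hj
  have t3 := block_three j hj
  refine (add_le_add t1 (add_le_add t2 t3)).trans ?_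
  rw [← add_mul, ← add_mul, ← ENNReal.ofReal_add (by positivity) (by positivity), ← ENNReal.ofReal_add (by positivity) (by positivity)]
  gcongr
  have e3 := h3 j hj
  calc C1 * (1 + Real.log j) * Real.sqrt (j + 1) / (j : ℝ) ^ 2 + (C2 * Real.sqrt (j + 1) / (j : ℝ) ^ 2 + 2 / Real.sqrt (2 ^ j))
      = C1 * ((1 + Real.log j) * Real.sqrt (j + 1) / (j : ℝ) ^ 2) + (C2 * (Real.sqrt (j + 1) / (j : ℝ) ^ 2) + 2 / Real.sqrt (2 ^ j)) := by ring
    _ ≤ C1 * (34 * (j : ℝ) ^ (-(23/16) : ℝ)) + (C2 * (2 * (j : ℝ) ^ (-(23/16) : ℝ)) + C3 * (j : ℝ) ^ (-(23/16) : ℝ)) := by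
        gcongr
    _ = _ := by ring

theorem FF_bounded : ∃ C : ℝ, 0 < C ∧ ∀ j : ℕ, FF j ≤ ENNReal.ofReal C := by
  obtain ⟨C, hC, h⟩ := block_bound
  set ε : ℕ → ℝ := fun j => C * (j : ℝ) ^ (-(23/16) : ℝ) with hε
  have hεnn : ∀ j, 0 ≤ ε j := fun j => by simp only [hε]; positivity
  have hsum : Summable ε := by
    simp only [hε]
    apply Summable.mul_left
    exact (Real.summable_nat_rpow).mpr (by norm_num)
  have hlim := hsum.tendsto_atTop_zero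
  have hev : ∀ᶠ j in Filter.atTop, ε j ≤ 1/2 := by
    have := hlim.eventually (ge_mem_nhds (show (0:ℝ) < 1/2 by norm_num))
    exact this
  obtain ⟨J0, hJ0⟩ := Filter.eventually_atTop.mp hev
  set J := J0 + 1 with hJ
  set f : ℕ → ℝ := fun j => (FF j).toReal with hf
  have hfnn : ∀ j, 0 ≤ f j := fun j => ENNReal.toReal_nonneg
  have hstep : ∀ j, J ≤ j → f (j + 1) ≤ f j * Real.exp (2 * ε j) := by
    intro j hj
    have h1 := h j (by omega)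
    have h2 : f (j + 1) ≤ f j + ε j * f (j + 1) := by
      simp only [hf]
      have h3 : FF (j + 1) ≤ FF j + ENNReal.ofReal (ε j) * FF (j + 1) := by
        conv_lhs => rw [FF_succ]
        gcongr
      have h4 := ENNReal.toReal_mono (by
        apply ENNReal.add_ne_top.mpr
        exact ⟨FF_ne_top j, ENNReal.mul_ne_top ENNReal.ofReal_ne_top (FF_ne_top _)⟩) h3
      rw [ENNReal.toReal_add (FF_ne_top j) (ENNReal.mul_ne_top ENNReal.ofReal_ne_top (FF_ne_top _)),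
        ENNReal.toReal_mul, ENNReal.toReal_ofReal (hεnn j)] at h4
      exact h4
    have h5 : ε j ≤ 1/2 := hJ0 j (by omega)
    have h6 := hεnn j
    have h7 : 1 + 2 * ε j ≤ Real.exp (2 * ε j) := by
      have := Real.add_one_le_exp (2 * ε j)
      linarith
    have h8 : f (j + 1) ≤ f j * (1 + 2 * ε j) := by
      have h9 : f (j + 1) * (1 - ε j) ≤ f j := by linarith
      have h10 : f (j + 1) * (1 - ε j) * (1 + 2 * ε j) ≤ f j * (1 + 2 * ε j) := by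
        gcongr
      have h11 : f (j + 1) ≤ f (j + 1) * ((1 - ε j) * (1 + 2 * ε j)) := by
        apply le_mul_of_one_le_right (hfnn _)
        nlinarith
      calc f (j + 1) ≤ f (j + 1) * ((1 - ε j) * (1 + 2 * ε j)) := h11
        _ = f (j + 1) * (1 - ε j) * (1 + 2 * ε j) := by ring
        _ ≤ _ := h10
    calc f (j + 1) ≤ f j * (1 + 2 * ε j) := h8
      _ ≤ _ := by
        gcongr
  have hind : ∀ k, f (J + k) ≤ f J * Real.exp (2 * ∑ i ∈ Finset.range k, ε (J + i)) := by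
    intro k
    induction k with
    | zero => simp
    | succ k ih =>
      have h1 := hstep (J + k) (by omega)
      rw [Finset.sum_range_succ, mul_add, Real.exp_add, ← mul_assoc]
      calc f (J + (k + 1)) = f (J + k + 1) := by rw [← add_assoc]
        _ ≤ f (J + k) * Real.exp (2 * ε (J + k)) := h1
        _ ≤ _ := by gcongr
  have hmono : ∀ j, FF j ≤ FF (j + 1) := fun j => by rw [FF_succ]; exact le_self_add
  have hmono' : Monotone FF := monotone_nat_of_le_succ hmono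
  set S := ∑' i, ε i with hS
  refine ⟨f J * Real.exp (2 * S) + 1, by have := hfnn J; positivity, ?_⟩
  intro j
  have h1 : FF j ≤ FF (J + j) := hmono' (by omega)
  refine h1.trans ?_
  rw [← ENNReal.ofReal_toReal (FF_ne_top (J + j))]
  apply ENNReal.ofReal_le_ofReal
  have h2 := hind j
  have h3 : ∑ i ∈ Finset.range j, ε (J + i) ≤ S := by
    have h4 : ∑ i ∈ Finset.range j, ε (J + i) = ∑ i ∈ (Finset.range j).image (fun i => J + i), ε i := by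
      rw [Finset.sum_image]
      intro a _ b _ hab
      simpa using hab
    rw [h4]
    exact hsum.sum_le_tsum _ (fun i _ => hεnn i)
  calc f (J + j) ≤ f J * Real.exp (2 * ∑ i ∈ Finset.range j, ε (J + i)) := h2
    _ ≤ f J * Real.exp (2 * S) := by
        gcongr
    _ ≤ _ := by linarith

theorem BB_le : ∃ C : ℝ, 0 < C ∧ ∀ j : ℕ, 1 ≤ j →
    BB j ≤ ENNReal.ofReal (C * (j : ℝ) ^ (-(23/16) : ℝ)) := by
  obtain ⟨C1, hC1, h1⟩ := block_bound
  obtain ⟨C2, hC2, h2⟩ := FF_bounded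
  refine ⟨C1 * C2, by positivity, ?_⟩
  intro j hj
  calc BB j ≤ ENNReal.ofReal (C1 * (j : ℝ) ^ (-(23/16) : ℝ)) * FF (j + 1) := h1 j hj
    _ ≤ ENNReal.ofReal (C1 * (j : ℝ) ^ (-(23/16) : ℝ)) * ENNReal.ofReal C2 := by
        gcongr
        exact h2 (j + 1)
    _ = _ := by
        rw [← ENNReal.ofReal_mul (by positivity)]
        congr 1
        ring

end Pool.Agent.Erdos456
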