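import Mathlib
import Pool.Agent.Erdos456.Mult

set_option autoImplicit false

open scoped ENNReal

namespace Pool.Agent.Erdos456

/-- weighted zeta sum -/
noncomputable def WS (σ : ℝ) (s : Finset ℕ) (θ : ℝ≥0∞) : ℝ≥0∞ := ∑' n : ℕ, zp σ n * θ ^ (vs s n)

theorem WS_empty (σ : ℝ) (θ : ℝ≥0∞) : WS σ ∅ θ = ZZ σ := by
  simp [WS, ZZ, vs]

theorem WS_insert {σ : ℝ} (hσ : 0 < σ) {s : Finset ℕ} {p : ℕ} (hp : p.Prime) (hps : p ∉ s)
    (hs : ∀ q ∈ s, q.Prime) {θ : ℝ≥0∞} (h1 : zp σ p < 1) (h2 : θ * zp σ p < 1) :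
    WS σ (insert p s) θ = WS σ s θ * (1 - zp σ p) * (1 - θ * zp σ p)⁻¹ := by
  set x := zp σ p with hx
  set A : ℝ≥0∞ := ∑' m : ℕ, if p ∣ m then 0 else zp σ m * θ ^ (vs s m) with hA
  have hvs : ∀ e m : ℕ, m ≠ 0 → ¬ p ∣ m → vs s (p ^ e * m) = vs s m := by
    intro e m hm hpm
    rw [vs_mul _ (pow_ne_zero _ hp.ne_zero) hm]
    have : vs s (p ^ e) = 0 := by
      unfold vs
      apply Finset.sum_eq_zero
      intro q hq
      rw [hp.factorization_pow]
      have : p ≠ q := fun h => hps (h ▸ hq)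
      simp [this]
    omega
  have hvi : ∀ e m : ℕ, m ≠ 0 → ¬ p ∣ m → vs (insert p s) (p ^ e * m) = e + vs s m := by
    intro e m hm hpm
    have h3 : vs (insert p s) (p ^ e * m) = (p ^ e * m).factorization p + vs s (p ^ e * m) := by
      unfold vs
      rw [Finset.sum_insert hps]
    rw [h3, hvs e m hm hpm]
    congr 1
    rw [Nat.factorization_mul (pow_ne_zero _ hp.ne_zero) hm]
    simp [hp.factorization_pow, Nat.factorization_eq_zero_of_not_dvd hpm]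
  have hW1 : WS σ s θ = (1 - x)⁻¹ * A := by
    unfold WS
    rw [tsum_split hp _ (by simp [zp_zero hσ])]
    rw [← ENNReal.tsum_geometric, ← ENNReal.tsum_mul_right]
    apply tsum_congr
    intro e
    rw [hA, ← ENNReal.tsum_mul_left]
    apply tsum_congr
    intro m
    split_ifs with hpm
    · simp
    · rcases Nat.eq_zero_or_pos m with rfl | hm
      · simp at hpm
      · rw [hvs e m hm.ne' hpm, zp_mul, zp_pow, ← hx]
        ring
  have hW2 : WS σ (insert p s) θ = (1 - θ * x)⁻¹ * A := by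
    unfold WS
    rw [tsum_split hp _ (by simp [zp_zero hσ])]
    rw [← ENNReal.tsum_geometric, ← ENNReal.tsum_mul_right]
    apply tsum_congr
    intro e
    rw [hA, ← ENNReal.tsum_mul_left]
    apply tsum_congr
    intro m
    split_ifs with hpm
    · simp
    · rcases Nat.eq_zero_or_pos m with rfl | hm
      · simp at hpm
      · rw [hvi e m hm.ne' hpm, zp_mul, zp_pow, ← hx, pow_add, mul_pow]
        ring
  rw [hW2, hW1]
  have h3 : (1 - x)⁻¹ * A * (1 - x) = A := by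
    rw [mul_comm ((1 - x)⁻¹) A, mul_assoc, ENNReal.inv_mul_cancel, mul_one]
    · exact (tsub_pos_of_lt h1).ne'
    · exact ne_top_of_le_ne_top ENNReal.one_ne_top tsub_le_self
  rw [h3, mul_comm]

theorem zp_prime_le {σ : ℝ} (hσ : 1 < σ) {p : ℕ} (hp : p.Prime) : zp σ p ≤ ENNReal.ofReal ((p : ℝ)⁻¹) := by
  unfold zp
  apply ENNReal.ofReal_le_ofReal
  rw [← Real.rpow_neg_one]
  apply Real.rpow_le_rpow_of_exponent_le
  · exact_mod_cast hp.one_lt.le
  · linarith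

theorem real_zp {σ : ℝ} (p : ℕ) : zp σ p = ENNReal.ofReal ((p : ℝ) ^ (-σ)) := rfl

/-- general bound: if each local factor is at most `exp (g p)` -/
theorem WS_le {σ : ℝ} (hσ : 1 < σ) {θ : ℝ≥0∞} (g : ℕ → ℝ) (s : Finset ℕ) (hs : ∀ q ∈ s, q.Prime)
    (h2 : ∀ q ∈ s, θ * zp σ q < 1)
    (hg : ∀ q ∈ s, (1 - zp σ q) * (1 - θ * zp σ q)⁻¹ ≤ ENNReal.ofReal (Real.exp (g q))) :
    WS σ s θ ≤ ZZ σ * ENNReal.ofReal (Real.exp (∑ q ∈ s, g q)) := by
  induction s using Finset.induction_on with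
  | empty => simp [WS_empty]
  | insert p s hps ih =>
    have hp : p.Prime := hs p (Finset.mem_insert_self _ _)
    have hs' : ∀ q ∈ s, q.Prime := fun q hq => hs q (Finset.mem_insert_of_mem hq)
    have h1 : zp σ p < 1 := by
      refine (zp_prime_le hσ hp).trans_lt ?_
      rw [← ENNReal.ofReal_one]
      apply (ENNReal.ofReal_lt_ofReal_iff (by norm_num)).mpr
      have h2 : (2:ℝ) ≤ p := by exact_mod_cast hp.two_le
      exact inv_lt_one_of_one_lt₀ (by linarith)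
    rw [WS_insert (by linarith) hp hps hs' h1 (h2 p (Finset.mem_insert_self _ _))]
    rw [Finset.sum_insert hps, Real.exp_add, ENNReal.ofReal_mul (Real.exp_pos _).le]
    have h3 := ih hs' (fun q hq => h2 q (Finset.mem_insert_of_mem hq)) (fun q hq => hg q (Finset.mem_insert_of_mem hq))
    have h4 := hg p (Finset.mem_insert_self _ _)
    calc WS σ s θ * (1 - zp σ p) * (1 - θ * zp σ p)⁻¹
        = WS σ s θ * ((1 - zp σ p) * (1 - θ * zp σ p)⁻¹) := by ring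
      _ ≤ (ZZ σ * ENNReal.ofReal (Real.exp (∑ q ∈ s, g q))) * ENNReal.ofReal (Real.exp (g p)) := by
          gcongr
      _ = _ := by ring

theorem local_half {x : ℝ} (h0 : 0 ≤ x) (h1 : x ≤ 1/2) :
    (1 - ENNReal.ofReal x) * (1 - ENNReal.ofReal (1/2) * ENNReal.ofReal x)⁻¹ ≤
      ENNReal.ofReal (Real.exp (-(x/2))) := by
  rw [← ENNReal.ofReal_mul (by norm_num), ← ENNReal.ofReal_one, ← ENNReal.ofReal_sub _ h0,
    ← ENNReal.ofReal_sub _ (by linarith), ← ENNReal.ofReal_inv_of_pos (by linarith),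
    ← ENNReal.ofReal_mul (by linarith)]
  apply ENNReal.ofReal_le_ofReal
  have h2 : (1 - x) * (1 - 1/2 * x)⁻¹ ≤ 1 - x/2 := by
    rw [← div_eq_mul_inv, div_le_iff₀ (by linarith)]
    nlinarith
  have h3 : 1 - x/2 ≤ Real.exp (-(x/2)) := by
    have := Real.add_one_le_exp (-(x/2))
    linarith
  exact h2.trans h3

theorem local_five_four {x : ℝ} (h0 : 0 ≤ x) (h1 : x ≤ 1/2) :
    (1 - ENNReal.ofReal x) * (1 - ENNReal.ofReal (5/4) * ENNReal.ofReal x)⁻¹ ≤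
      ENNReal.ofReal (Real.exp (x/4 + x^2)) := by
  rw [← ENNReal.ofReal_mul (by norm_num), ← ENNReal.ofReal_one, ← ENNReal.ofReal_sub _ h0,
    ← ENNReal.ofReal_sub _ (by linarith), ← ENNReal.ofReal_inv_of_pos (by linarith),
    ← ENNReal.ofReal_mul (by linarith)]
  apply ENNReal.ofReal_le_ofReal
  have h2 : (1 - x) * (1 - 5/4 * x)⁻¹ ≤ 1 + (x/4 + x^2) := by
    rw [← div_eq_mul_inv, div_le_iff₀ (by linarith)]
    nlinarith [mul_nonneg h0 h0, mul_nonneg (mul_nonneg h0 h0) (sub_nonneg.mpr h1)]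
  have h3 := Real.add_one_le_exp (x/4 + x^2)
  linarith

theorem zp_real_bounds {σ : ℝ} (hσ : 1 < σ) {p : ℕ} (hp : p.Prime) :
    0 ≤ (p : ℝ) ^ (-σ) ∧ (p : ℝ) ^ (-σ) ≤ (p:ℝ)⁻¹ ∧ (p : ℝ) ^ (-σ) ≤ 1/2 := by
  have h2 : (2:ℝ) ≤ p := by exact_mod_cast hp.two_le
  have h3 : (p : ℝ) ^ (-σ) ≤ (p:ℝ)⁻¹ := by
    rw [← Real.rpow_neg_one]
    apply Real.rpow_le_rpow_of_exponent_le
    · linarith
    · linarith
  refine ⟨by positivity, h3, h3.trans ?_⟩
  rw [one_div]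
  exact inv_anti₀ (by norm_num) h2

theorem WS_half_le {σ : ℝ} (hσ : 1 < σ) (s : Finset ℕ) (hs : ∀ q ∈ s, q.Prime) :
    WS σ s (ENNReal.ofReal (1/2)) ≤
      ZZ σ * ENNReal.ofReal (Real.exp (-(1/2) * ∑ q ∈ s, (q : ℝ) ^ (-σ))) := by
  have h := WS_le (θ := ENNReal.ofReal (1/2)) hσ (fun q => -((q : ℝ) ^ (-σ)/2)) s hs ?_ ?_
  · refine h.trans (le_of_eq ?_)
    congr 3
    rw [Finset.mul_sum]
    apply Finset.sum_congr rfl
    intro q _
    ring
  · intro q hq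
    obtain ⟨h0, h1, h2⟩ := zp_real_bounds hσ (hs q hq)
    rw [real_zp, ← ENNReal.ofReal_mul (by norm_num), ← ENNReal.ofReal_one]
    apply (ENNReal.ofReal_lt_ofReal_iff (by norm_num)).mpr
    linarith
  · intro q hq
    obtain ⟨h0, h1, h2⟩ := zp_real_bounds hσ (hs q hq)
    exact local_half h0 h2

theorem WS_five_four_le {σ : ℝ} (hσ : 1 < σ) (s : Finset ℕ) (hs : ∀ q ∈ s, q.Prime) :
    WS σ s (ENNReal.ofReal (5/4)) ≤
      ZZ σ * ENNReal.ofReal (Real.exp (1/4 * ∑ q ∈ s, (q : ℝ)⁻¹ + ∑ q ∈ s, ((q:ℝ)⁻¹)^2)) := by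
  have h := WS_le (θ := ENNReal.ofReal (5/4)) hσ (fun q => ((q : ℝ)⁻¹/4 + ((q:ℝ)⁻¹)^2)) s hs ?_ ?_
  · refine h.trans (le_of_eq ?_)
    congr 3
    rw [Finset.mul_sum, ← Finset.sum_add_distrib]
    apply Finset.sum_congr rfl
    intro q _
    ring
  · intro q hq
    obtain ⟨h0, h1, h2⟩ := zp_real_bounds hσ (hs q hq)
    rw [real_zp, ← ENNReal.ofReal_mul (by norm_num), ← ENNReal.ofReal_one]
    apply (ENNReal.ofReal_lt_ofReal_iff (by norm_num)).mpr
    linarith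
  · intro q hq
    obtain ⟨h0, h1, h2⟩ := zp_real_bounds hσ (hs q hq)
    refine (local_five_four h0 h2).trans ?_
    apply ENNReal.ofReal_le_ofReal
    apply Real.exp_le_exp.mpr
    have : ((q : ℝ) ^ (-σ))^2 ≤ ((q:ℝ)⁻¹)^2 := by gcongr
    linarith

end Pool.Agent.Erdos456
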