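import Mathlib
import Pool.Agent.Erdos456.Frec3
import Pool.Agent.Erdos456.Mult2

set_option autoImplicit false

open scoped ENNReal

namespace Pool.Agent.Erdos456

/-- primes up to `2 ^ j` -/
def PP (j : ℕ) : Finset ℕ := Nat.primesBelow (2 ^ j + 1)

theorem mem_PP {j p : ℕ} : p ∈ PP j ↔ p.Prime ∧ p ≤ 2 ^ j := by
  unfold PP
  rw [Nat.mem_primesBelow]
  constructor
  · rintro ⟨h1, h2⟩; exact ⟨h2, by omega⟩
  · rintro ⟨h1, h2⟩; exact ⟨by omega, h1⟩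

theorem PP_mono {i j : ℕ} (h : i ≤ j) : PP i ⊆ PP j := by
  intro p hp
  rw [mem_PP] at hp ⊢
  exact ⟨hp.1, hp.2.trans (Nat.pow_le_pow_right (by norm_num) h)⟩

theorem vs_smooth {j d : ℕ} (hd : d ∈ Sm j) : vs (PP j) d = ArithmeticFunction.cardFactors d := by
  rw [ArithmeticFunction.cardFactors_eq_sum_factorization]
  unfold vs
  rw [Finsupp.sum]
  symm
  apply Finset.sum_subset
  · intro p hp
    rw [Nat.support_factorization, Nat.mem_primeFactors] at hp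
    rw [mem_PP]
    exact ⟨hp.1, (mem_Sm.mp hd).2 p hp.1 hp.2.1⟩
  · intro p _ hp
    rw [Finsupp.notMem_support_iff] at hp
    exact hp

/-- weight of a set of naturals -/
noncomputable def mu (σ : ℝ) (E : Set ℕ) : ℝ≥0∞ := ∑' n : ℕ, E.indicator (zp σ) n

theorem mu_mono (σ : ℝ) {E F : Set ℕ} (h : E ⊆ F) : mu σ E ≤ mu σ F := by
  unfold mu
  apply ENNReal.tsum_le_tsum
  intro n
  exact Set.indicator_le_indicator_of_subset h (fun _ => zero_le) n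

theorem mu_union_le (σ : ℝ) (E F : Set ℕ) : mu σ (E ∪ F) ≤ mu σ E + mu σ F := by
  unfold mu
  rw [← ENNReal.tsum_add]
  apply ENNReal.tsum_le_tsum
  intro n
  by_cases h1 : n ∈ E
  · refine le_trans ?_ le_self_add
    rw [Set.indicator_of_mem h1, Set.indicator_of_mem (Set.mem_union_left _ h1)]
  · by_cases h2 : n ∈ F
    · refine le_trans ?_ le_add_self
      rw [Set.indicator_of_mem h2, Set.indicator_of_mem (Set.mem_union_right _ h2)]
    · rw [Set.indicator_of_notMem]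
      · exact zero_le
      · rintro (h | h)
        · exact h1 h
        · exact h2 h

theorem mu_le_ZZ (σ : ℝ) (E : Set ℕ) : mu σ E ≤ ZZ σ := by
  unfold mu ZZ
  apply ENNReal.tsum_le_tsum
  intro n
  by_cases h : n ∈ E
  · rw [Set.indicator_of_mem h]
  · rw [Set.indicator_of_notMem h]; exact zero_le

/-- typical integers: number of prime factors up to `2 ^ (2 ^ i)` is at most `B + 7 i / 8` -/
def Typ (B : ℕ) : Set ℕ := {n | ∀ i : ℕ, (vs (PP (2 ^ i)) n : ℝ) ≤ B + 7 / 8 * i}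

/-- Chernoff bound at one scale -/
theorem scale_bound : ∃ C : ℝ, 0 < C ∧ ∀ σ : ℝ, 1 < σ → ∀ (B i : ℕ),
    mu σ {n | (B : ℝ) + 7 / 8 * i < vs (PP (2 ^ i)) n} ≤
      ZZ σ * ENNReal.ofReal (C * (4/5 : ℝ) ^ B * ((2:ℝ) ^ (1/4 : ℝ) * (5/4 : ℝ) ^ (-(7/8) : ℝ)) ^ i) := by
  obtain ⟨C, hC, h⟩ := mertens_upper
  refine ⟨Real.exp (C / 4 + 2), by positivity, ?_⟩
  intro σ hσ B i
  have hW := WS_five_four_le hσ (PP (2 ^ i)) (fun q hq => (mem_PP.mp hq).1)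
  have h1 : 1/4 * ∑ q ∈ PP (2 ^ i), (q : ℝ)⁻¹ + ∑ q ∈ PP (2 ^ i), ((q:ℝ)⁻¹)^2 ≤
      1/4 * (Real.log ((2:ℝ) ^ i)) + (C / 4 + 2) := by
    have h2 := h (2 ^ i) (Nat.one_le_two_pow)
    have h3 := sum_inv_sq_le (PP (2 ^ i)) (fun p hp => (mem_PP.mp hp).1.one_lt.le)
    unfold PP at h3 ⊢
    push_cast at h2
    linarith
  have hW2 : WS σ (PP (2 ^ i)) (ENNReal.ofReal (5/4)) ≤
      ZZ σ * ENNReal.ofReal (Real.exp (C / 4 + 2) * ((2:ℝ) ^ (1/4 : ℝ)) ^ i) := by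
    refine hW.trans ?_
    gcongr
    calc Real.exp (1/4 * ∑ q ∈ PP (2 ^ i), (q : ℝ)⁻¹ + ∑ q ∈ PP (2 ^ i), ((q:ℝ)⁻¹)^2)
        ≤ Real.exp (1/4 * (Real.log ((2:ℝ) ^ i)) + (C / 4 + 2)) := Real.exp_le_exp.mpr h1
      _ = Real.exp (C / 4 + 2) * ((2:ℝ) ^ (1/4 : ℝ)) ^ i := by
          rw [Real.log_pow, ← Real.rpow_natCast, ← Real.rpow_mul (by norm_num), Real.rpow_def_of_pos (by norm_num),
            ← Real.exp_add]
          congr 1
          ring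
  have h5 : mu σ {n | (B : ℝ) + 7 / 8 * i < vs (PP (2 ^ i)) n} ≤
      ENNReal.ofReal ((5/4 : ℝ) ^ (-((B : ℝ) + 7 / 8 * i))) * WS σ (PP (2 ^ i)) (ENNReal.ofReal (5/4)) := by
    unfold mu WS
    rw [← ENNReal.tsum_mul_left]
    apply ENNReal.tsum_le_tsum
    intro n
    by_cases hn : n ∈ {n | (B : ℝ) + 7 / 8 * i < vs (PP (2 ^ i)) n}
    · rw [Set.indicator_of_mem hn]
      have hn' : (B : ℝ) + 7 / 8 * i < vs (PP (2 ^ i)) n := hn
      have h6 : 1 ≤ ENNReal.ofReal ((5/4 : ℝ) ^ (-((B : ℝ) + 7 / 8 * i))) * ENNReal.ofReal (5/4) ^ (vs (PP (2 ^ i)) n) := by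
        rw [← ENNReal.ofReal_pow (by norm_num), ← ENNReal.ofReal_mul (by positivity), ← ENNReal.ofReal_one]
        apply ENNReal.ofReal_le_ofReal
        rw [← Real.rpow_natCast, ← Real.rpow_add (by norm_num)]
        apply Real.one_le_rpow (by norm_num)
        linarith
      calc zp σ n = 1 * zp σ n := (one_mul _).symm
        _ ≤ (ENNReal.ofReal ((5/4 : ℝ) ^ (-((B : ℝ) + 7 / 8 * i))) * ENNReal.ofReal (5/4) ^ (vs (PP (2 ^ i)) n)) * zp σ n := by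
            gcongr
        _ = _ := by ring
    · rw [Set.indicator_of_notMem hn]
      exact zero_le
  refine h5.trans ?_
  calc _ ≤ ENNReal.ofReal ((5/4 : ℝ) ^ (-((B : ℝ) + 7 / 8 * i))) *
        (ZZ σ * ENNReal.ofReal (Real.exp (C / 4 + 2) * ((2:ℝ) ^ (1/4 : ℝ)) ^ i)) := by gcongr
    _ = ZZ σ * (ENNReal.ofReal ((5/4 : ℝ) ^ (-((B : ℝ) + 7 / 8 * i))) *
        ENNReal.ofReal (Real.exp (C / 4 + 2) * ((2:ℝ) ^ (1/4 : ℝ)) ^ i)) := by ring
    _ = _ := by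
        rw [← ENNReal.ofReal_mul (by positivity)]
        congr 2
        have e1 : (5/4 : ℝ) ^ (-((B : ℝ) + 7 / 8 * i)) = (4/5 : ℝ) ^ B * ((5/4 : ℝ) ^ (-(7/8) : ℝ)) ^ i := by
          rw [neg_add, Real.rpow_add (by norm_num)]
          congr 1
          · rw [Real.rpow_neg (by norm_num), Real.rpow_natCast, ← inv_pow]
            norm_num
          · rw [← Real.rpow_natCast, ← Real.rpow_mul (by norm_num)]
            congr 1
            ring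
        rw [e1, mul_pow]
        ring

theorem ratio_lt_one : (2:ℝ) ^ (1/4 : ℝ) * (5/4 : ℝ) ^ (-(7/8) : ℝ) < 1 := by
  have h0 : 0 < (2:ℝ) ^ (1/4 : ℝ) * (5/4 : ℝ) ^ (-(7/8) : ℝ) := by positivity
  by_contra hcon
  push Not at hcon
  have h1 : (1:ℝ) ≤ ((2:ℝ) ^ (1/4 : ℝ) * (5/4 : ℝ) ^ (-(7/8) : ℝ)) ^ 8 := one_le_pow₀ hcon
  rw [mul_pow, ← Real.rpow_natCast, ← Real.rpow_natCast, ← Real.rpow_mul (by norm_num), ← Real.rpow_mul (by norm_num)] at h1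
  norm_num at h1

/-- atypical integers are rare -/
theorem not_typ_bound : ∃ C : ℝ, 0 < C ∧ ∀ σ : ℝ, 1 < σ → ∀ B : ℕ,
    mu σ (Typ B)ᶜ ≤ ZZ σ * ENNReal.ofReal (C * (4/5 : ℝ) ^ B) := by
  obtain ⟨C, hC, h⟩ := scale_bound
  set ρ := (2:ℝ) ^ (1/4 : ℝ) * (5/4 : ℝ) ^ (-(7/8) : ℝ) with hρ
  have hρ0 : 0 < ρ := by positivity
  have hρ1 : ρ < 1 := ratio_lt_one
  refine ⟨C * (1 - ρ)⁻¹, ?_, ?_⟩
  · have : 0 < 1 - ρ := by linarith
    positivity
  intro σ hσ B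
  have h1 : mu σ (Typ B)ᶜ ≤ ∑' i : ℕ, mu σ {n | (B : ℝ) + 7 / 8 * i < vs (PP (2 ^ i)) n} := by
    unfold mu
    rw [ENNReal.tsum_comm]
    apply ENNReal.tsum_le_tsum
    intro n
    by_cases hn : n ∈ (Typ B)ᶜ
    · have hn' : ¬ ∀ i : ℕ, (vs (PP (2 ^ i)) n : ℝ) ≤ B + 7 / 8 * i := hn
      push Not at hn'
      obtain ⟨i, hi⟩ := hn'
      rw [Set.indicator_of_mem hn]
      have h2 : zp σ n = Set.indicator {n | (B : ℝ) + 7 / 8 * i < vs (PP (2 ^ i)) n} (zp σ) n := by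
        rw [Set.indicator_of_mem]
        exact hi
      rw [h2]
      exact ENNReal.le_tsum (f := fun i : ℕ => Set.indicator {n | (B : ℝ) + 7 / 8 * i < vs (PP (2 ^ i)) n} (zp σ) n) i
    · rw [Set.indicator_of_notMem hn]
      exact zero_le
  refine h1.trans ?_
  calc ∑' i : ℕ, mu σ {n | (B : ℝ) + 7 / 8 * i < vs (PP (2 ^ i)) n}
      ≤ ∑' i : ℕ, ZZ σ * ENNReal.ofReal (C * (4/5 : ℝ) ^ B * ρ ^ i) := ENNReal.tsum_le_tsum (fun i => h σ hσ B i)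
    _ = ZZ σ * ENNReal.ofReal (C * (4/5 : ℝ) ^ B * (1 - ρ)⁻¹) := by
        rw [ENNReal.tsum_mul_left]
        congr 1
        have hs := summable_geometric_of_lt_one hρ0.le hρ1
        rw [← ENNReal.ofReal_tsum_of_nonneg (fun i => by positivity) (hs.mul_left _), tsum_mul_left,
          tsum_geometric_of_lt_one hρ0.le hρ1]
    _ = _ := by
        congr 2
        ring

end Pool.Agent.Erdos456
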