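import Mathlib
import Pool.Agent.Erdos456.Prob

set_option autoImplicit false

open scoped ENNReal

namespace Pool.Agent.Erdos456

/-- lower bound for the sum of `p ^ (-σ)` -/
theorem sum_rpow_lower : ∃ C : ℝ, 0 < C ∧ ∀ η : ℝ, 0 < η → η ≤ 1 → ∀ J : ℕ, 1 ≤ J → (J : ℝ) * η ≤ 1 →
    Real.log J - C ≤ ∑ p ∈ PP J, (p : ℝ) ^ (-(1 + η)) := by
  obtain ⟨C1, hC1, h1⟩ := mertens_lower
  obtain ⟨C2, hC2, h2⟩ := mertens_log_upper
  refine ⟨C1 + C2, by positivity, ?_⟩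
  intro η hη hη1 J hJ hJη
  have h3 : ∑ p ∈ PP J, ((p : ℝ)⁻¹ - η * (Real.log p / p)) ≤ ∑ p ∈ PP J, (p : ℝ) ^ (-(1 + η)) := by
    apply Finset.sum_le_sum
    intro p hp
    have hp0 : (0:ℝ) < p := by exact_mod_cast (mem_PP.mp hp).1.pos
    have e1 : (p : ℝ) ^ (-(1 + η)) = (p : ℝ)⁻¹ * (p : ℝ) ^ (-η) := by
      rw [neg_add, Real.rpow_add hp0, Real.rpow_neg_one]
    have e2 : 1 - η * Real.log p ≤ (p : ℝ) ^ (-η) := by
      rw [Real.rpow_def_of_pos hp0]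
      have := Real.add_one_le_exp (Real.log p * -η)
      linarith
    rw [e1]
    calc (p : ℝ)⁻¹ - η * (Real.log p / p) = (p : ℝ)⁻¹ * (1 - η * Real.log p) := by
          field_simp
      _ ≤ _ := by gcongr
  rw [Finset.sum_sub_distrib, ← Finset.mul_sum] at h3
  have h4 := h1 J hJ
  have h5 := h2 J hJ
  have h6 : η * ∑ p ∈ PP J, Real.log p / p ≤ C2 := by
    calc η * ∑ p ∈ PP J, Real.log p / p ≤ η * (C2 * J) := by
          unfold PP
          gcongr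
      _ = C2 * (J * η) := by ring
      _ ≤ C2 * 1 := by gcongr
      _ = C2 := mul_one _
  unfold PP at h3 h6 ⊢
  linarith

/-- decay of the half-weighted zeta sum -/
theorem WS_decay : ∃ C : ℝ, 0 < C ∧ ∀ σ : ℝ, 1 < σ → σ ≤ 2 → ∀ j : ℕ, 1 ≤ j →
    ENNReal.ofReal (((2:ℝ) ^ j) ^ (-(σ - 1))) * WS σ (PP (j + 1)) (ENNReal.ofReal (1/2)) ≤
      ZZ σ * ENNReal.ofReal (C * (j : ℝ) ^ (-(1/2) : ℝ)) := by
  obtain ⟨C, hC, h⟩ := sum_rpow_lower
  refine ⟨Real.exp (C / 2) * 2, by positivity, ?_⟩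
  intro σ hσ hσ2 j hj
  set η := σ - 1 with hη
  have hη0 : 0 < η := by rw [hη]; linarith
  have hη1 : η ≤ 1 := by rw [hη]; linarith
  have hj' : (1:ℝ) ≤ j := by exact_mod_cast hj
  have hj0 : (0:ℝ) < j := by linarith
  -- J' = min (j+1) ⌊1/η⌋
  set J' := min (j + 1) ⌊1/η⌋₊ with hJ'
  have hfl : 1 ≤ ⌊1/η⌋₊ := by
    apply Nat.le_floor
    rw [Nat.cast_one, le_div_iff₀ hη0]
    linarith
  have hJ1 : 1 ≤ J' := le_min (by omega) hfl
  have hJη : (J' : ℝ) * η ≤ 1 := by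
    have h1 : (J' : ℝ) ≤ 1/η := by
      calc (J' : ℝ) ≤ (⌊1/η⌋₊ : ℝ) := by exact_mod_cast min_le_right _ _
        _ ≤ 1/η := Nat.floor_le (by positivity)
    calc (J' : ℝ) * η ≤ (1/η) * η := by gcongr
      _ = 1 := by field_simp
  have h1 := h η hη0 hη1 J' hJ1 hJη
  have h2 : ∑ p ∈ PP J', (p : ℝ) ^ (-(1 + η)) ≤ ∑ p ∈ PP (j + 1), (p : ℝ) ^ (-(1 + η)) := by
    apply Finset.sum_le_sum_of_subset_of_nonneg (PP_mono (min_le_left _ _))
    intro p _ _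
    positivity
  have hW := WS_half_le hσ (PP (j + 1)) (fun q hq => (mem_PP.mp hq).1)
  have hση : σ = 1 + η := by rw [hη]; ring
  have h3 : Real.exp (-(1/2) * ∑ q ∈ PP (j + 1), (q : ℝ) ^ (-σ)) ≤ Real.exp (C / 2) * (J' : ℝ) ^ (-(1/2) : ℝ) := by
    have hJ0 : (0:ℝ) < J' := by exact_mod_cast hJ1
    rw [Real.rpow_def_of_pos hJ0, ← Real.exp_add]
    apply Real.exp_le_exp.mpr
    rw [hση]
    linarith
  have hJ0 : (0:ℝ) < J' := by exact_mod_cast hJ1
  have h4 : ((2:ℝ) ^ j) ^ (-η) * (J' : ℝ) ^ (-(1/2) : ℝ) ≤ 2 * (j : ℝ) ^ (-(1/2) : ℝ) := by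
    rcases le_or_gt (j + 1) ⌊1/η⌋₊ with hc | hc
    · have hJeq : J' = j + 1 := min_eq_left hc
      have h5 : (J' : ℝ) ^ (-(1/2) : ℝ) ≤ (j : ℝ) ^ (-(1/2) : ℝ) := by
        apply Real.rpow_le_rpow_of_nonpos hj0 _ (by norm_num)
        rw [hJeq]; push_cast; linarith
      have h6 : ((2:ℝ) ^ j) ^ (-η) ≤ 1 := by
        apply Real.rpow_le_one_of_one_le_of_nonpos
        · exact one_le_pow₀ (by norm_num)
        · linarith
      calc ((2:ℝ) ^ j) ^ (-η) * (J' : ℝ) ^ (-(1/2) : ℝ) ≤ 1 * (j : ℝ) ^ (-(1/2) : ℝ) := by gcongr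
        _ ≤ _ := by
          have : 0 ≤ (j : ℝ) ^ (-(1/2) : ℝ) := by positivity
          linarith
    · have hJeq : J' = ⌊1/η⌋₊ := min_eq_right hc.le
      -- J' ≥ 1/(2η)
      have h5 : 1 / (2 * η) ≤ J' := by
        rw [hJeq]
        have h6 := Nat.lt_floor_add_one (1/η)
        have h7 : (1:ℝ) ≤ ⌊1/η⌋₊ := by exact_mod_cast hfl
        have h8 : 1 / η ≤ 2 * (⌊1/η⌋₊ : ℝ) := by linarith
        have h9 : 1 / (2 * η) = (1/η) / 2 := by field_simp
        rw [h9]; linarith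
      have h6 : (J' : ℝ) ^ (-(1/2) : ℝ) ≤ (1 / (2 * η)) ^ (-(1/2) : ℝ) := by
        apply Real.rpow_le_rpow_of_nonpos (by positivity) h5 (by norm_num)
      have h7 : (1 / (2 * η)) ^ (-(1/2) : ℝ) = Real.sqrt (2 * η) := by
        rw [Real.rpow_neg (by positivity), ← Real.inv_rpow (by positivity), one_div, inv_inv, Real.sqrt_eq_rpow]
      have h8 : (j : ℝ) ^ (-(1/2) : ℝ) = (Real.sqrt j)⁻¹ := by
        rw [Real.rpow_neg hj0.le, Real.sqrt_eq_rpow]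
      rw [h7] at h6
      rw [h8]
      have h9 : ((2:ℝ) ^ j) ^ (-η) = Real.exp (-(Real.log 2 * (j * η))) := by
        rw [← Real.rpow_natCast, ← Real.rpow_mul (by norm_num), Real.rpow_def_of_pos (by norm_num)]
        congr 1
        ring
      set x := (j : ℝ) * η with hx
      have hx0 : 0 < x := by positivity
      have h10 : Real.exp (-(Real.log 2 * x)) * Real.sqrt (2 * x) ≤ 2 := by
        have h11 : Real.sqrt (2 * x) ≤ 1 + x / 2 + x/2 := by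
          rw [Real.sqrt_le_left (by positivity)]
          nlinarith [sq_nonneg (x - 1), sq_nonneg x]
        have h12 : 1 + x * Real.log 2 ≤ Real.exp (Real.log 2 * x) := by
          have := Real.add_one_le_exp (Real.log 2 * x)
          linarith
        have h13 : (1/2 : ℝ) ≤ Real.log 2 := by
          have := Real.log_two_gt_d9
          linarith
        rw [Real.exp_neg, inv_mul_le_iff₀ (Real.exp_pos _)]
        calc Real.sqrt (2 * x) ≤ 1 + x := by linarith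
          _ ≤ (1 + x * Real.log 2) * 2 := by nlinarith
          _ ≤ _ := by gcongr
      have h14 : Real.sqrt (2 * x) = Real.sqrt (2 * η) * Real.sqrt j := by
        rw [← Real.sqrt_mul (by positivity)]
        congr 1
        rw [hx]; ring
      have hsj : 0 < Real.sqrt j := Real.sqrt_pos.mpr hj0
      rw [h9, ← div_eq_mul_inv, le_div_iff₀ hsj]
      calc Real.exp (-(Real.log 2 * x)) * (J' : ℝ) ^ (-(1/2) : ℝ) * Real.sqrt j
          ≤ Real.exp (-(Real.log 2 * x)) * Real.sqrt (2 * η) * Real.sqrt j := by gcongr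
        _ = Real.exp (-(Real.log 2 * x)) * Real.sqrt (2 * x) := by rw [h14]; ring
        _ ≤ 2 := h10
  calc ENNReal.ofReal (((2:ℝ) ^ j) ^ (-η)) * WS σ (PP (j + 1)) (ENNReal.ofReal (1/2))
      ≤ ENNReal.ofReal (((2:ℝ) ^ j) ^ (-η)) * (ZZ σ * ENNReal.ofReal (Real.exp (C / 2) * (J' : ℝ) ^ (-(1/2) : ℝ))) := by
        gcongr
        exact hW.trans (by gcongr)
    _ = ZZ σ * (ENNReal.ofReal (((2:ℝ) ^ j) ^ (-η)) * ENNReal.ofReal (Real.exp (C / 2) * (J' : ℝ) ^ (-(1/2) : ℝ))) := by ring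
    _ ≤ _ := by
        rw [← ENNReal.ofReal_mul (by positivity)]
        apply mul_le_mul' le_rfl
        apply ENNReal.ofReal_le_ofReal
        calc ((2:ℝ) ^ j) ^ (-η) * (Real.exp (C / 2) * (J' : ℝ) ^ (-(1/2) : ℝ))
            = Real.exp (C / 2) * (((2:ℝ) ^ j) ^ (-η) * (J' : ℝ) ^ (-(1/2) : ℝ)) := by ring
          _ ≤ Real.exp (C / 2) * (2 * (j : ℝ) ^ (-(1/2) : ℝ)) := by gcongr
          _ = _ := by ring

end Pool.Agent.Erdos456
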