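import Mathlib
import Pool.Agent.Erdos456.Prob2

set_option autoImplicit false

open scoped ENNReal

namespace Pool.Agent.Erdos456

/-- divisor sum of `te` -/
noncomputable def hh (n : ℕ) : ℝ≥0∞ := ∑ d ∈ n.divisors, te d

/-- weight inequality for typical integers -/
theorem typ_weight {B n j : ℕ} (hn : n ∈ Typ B) (_hj : 1 ≤ j) :
    1 ≤ ENNReal.ofReal ((2:ℝ) ^ (B + 1) * ((j : ℝ) + 1) ^ (7/8 : ℝ)) * ENNReal.ofReal (1/2) ^ (vs (PP (j + 1)) n) := by
  rw [← ENNReal.ofReal_pow (by norm_num), ← ENNReal.ofReal_mul (by positivity), ← ENNReal.ofReal_one]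
  apply ENNReal.ofReal_le_ofReal
  set i := Nat.clog 2 (j + 1) with hi
  have h1 : j + 1 ≤ 2 ^ i := Nat.le_pow_clog (by norm_num) _
  have h2 : 2 ^ i ≤ 2 * (j + 1) := by
    have h3 : 2 ^ (i - 1) < j + 1 := Nat.pow_pred_clog_lt_self (by norm_num) (by omega)
    have hipos : 0 < i := Nat.clog_pos (by norm_num) (by omega)
    have h4 : 2 ^ i = 2 * 2 ^ (i - 1) := by
      rw [← pow_succ']
      congr 1
      omega
    omega
  have h5 : (vs (PP (j + 1)) n : ℝ) ≤ B + 7 / 8 * i := by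
    have h6 : vs (PP (j + 1)) n ≤ vs (PP (2 ^ i)) n := vs_mono (PP_mono h1) n
    calc (vs (PP (j + 1)) n : ℝ) ≤ vs (PP (2 ^ i)) n := by exact_mod_cast h6
      _ ≤ _ := hn i
  have h7 : ((1:ℝ)/2) ^ (vs (PP (j + 1)) n) = (2:ℝ) ^ (-(vs (PP (j + 1)) n : ℝ)) := by
    rw [Real.rpow_neg (by norm_num), Real.rpow_natCast, one_div, inv_pow]
  have h8 : (2:ℝ) ^ ((B:ℝ) + 7 / 8 * i) ≤ (2:ℝ) ^ (B + 1) * ((j : ℝ) + 1) ^ (7/8 : ℝ) := by
    have e1 : (2:ℝ) ^ ((B:ℝ) + 7 / 8 * i) = (2:ℝ) ^ B * (((2 ^ i : ℕ) : ℝ)) ^ (7/8 : ℝ) := by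
      rw [Real.rpow_add (by norm_num), Real.rpow_natCast]
      congr 1
      push_cast
      rw [← Real.rpow_natCast, ← Real.rpow_mul (by norm_num)]
      congr 1
      ring
    rw [e1]
    have e2 : (((2 ^ i : ℕ) : ℝ)) ^ (7/8 : ℝ) ≤ 2 * ((j : ℝ) + 1) ^ (7/8 : ℝ) := by
      have e3 : ((2 ^ i : ℕ) : ℝ) ≤ 2 * ((j : ℝ) + 1) := by exact_mod_cast h2
      calc (((2 ^ i : ℕ) : ℝ)) ^ (7/8 : ℝ) ≤ (2 * ((j : ℝ) + 1)) ^ (7/8 : ℝ) := by gcongr
        _ = (2:ℝ) ^ (7/8 : ℝ) * ((j : ℝ) + 1) ^ (7/8 : ℝ) := Real.mul_rpow (by norm_num) (by positivity)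
        _ ≤ 2 * ((j : ℝ) + 1) ^ (7/8 : ℝ) := by
            gcongr
            calc (2:ℝ) ^ (7/8 : ℝ) ≤ (2:ℝ) ^ (1 : ℝ) := Real.rpow_le_rpow_of_exponent_le (by norm_num) (by norm_num)
              _ = 2 := Real.rpow_one 2
    calc (2:ℝ) ^ B * (((2 ^ i : ℕ) : ℝ)) ^ (7/8 : ℝ) ≤ (2:ℝ) ^ B * (2 * ((j : ℝ) + 1) ^ (7/8 : ℝ)) := by gcongr
      _ = _ := by rw [pow_succ]; ring
  rw [h7]
  calc (1:ℝ) = (2:ℝ) ^ ((B:ℝ) + 7 / 8 * i) * (2:ℝ) ^ (-((B:ℝ) + 7 / 8 * i)) := by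
        rw [← Real.rpow_add (by norm_num)]; simp
    _ ≤ ((2:ℝ) ^ (B + 1) * ((j : ℝ) + 1) ^ (7/8 : ℝ)) * (2:ℝ) ^ (-(vs (PP (j + 1)) n : ℝ)) := by
        have e4 : (2:ℝ) ^ (-((B:ℝ) + 7 / 8 * i)) ≤ (2:ℝ) ^ (-(vs (PP (j + 1)) n : ℝ)) :=
          Real.rpow_le_rpow_of_exponent_le (by norm_num) (by linarith)
        gcongr

theorem zp_block {σ : ℝ} (hσ : 1 < σ) {j d : ℕ} (hd : d ∈ Sm (j + 1) \ Sm j) :
    zp σ d * ENNReal.ofReal (1/2) ^ (vs (PP (j + 1)) d) ≤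
      ENNReal.ofReal (((2:ℝ) ^ j) ^ (-(σ - 1))) * uu d := by
  obtain ⟨h1, h2⟩ := hd
  have h1' := mem_Sm.mp h1
  have hd0 : 0 < d := Nat.pos_of_ne_zero h1'.1
  have h3 : ∃ p : ℕ, p.Prime ∧ p ∣ d ∧ 2 ^ j < p := by
    by_contra hcon
    push Not at hcon
    exact h2 (mem_Sm.mpr ⟨h1'.1, hcon⟩)
  obtain ⟨p, hp, hpd, hpj⟩ := h3
  have hdj : 2 ^ j ≤ d := hpj.le.trans (Nat.le_of_dvd hd0 hpd)
  rw [vs_smooth h1]
  unfold zp uu
  rw [← ENNReal.ofReal_pow (by norm_num), ← ENNReal.ofReal_mul (by positivity), ← ENNReal.ofReal_mul (by positivity)]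
  apply ENNReal.ofReal_le_ofReal
  have hd0' : (0:ℝ) < d := by exact_mod_cast hd0
  have e1 : (d : ℝ) ^ (-σ) = (d : ℝ)⁻¹ * (d : ℝ) ^ (-(σ - 1)) := by
    rw [← Real.rpow_neg_one, ← Real.rpow_add hd0']
    congr 1
    ring
  have e2 : (d : ℝ) ^ (-(σ - 1)) ≤ ((2:ℝ) ^ j) ^ (-(σ - 1)) := by
    apply Real.rpow_le_rpow_of_nonpos (by positivity) _ (by linarith)
    exact_mod_cast hdj
  rw [e1]
  calc (d : ℝ)⁻¹ * (d : ℝ) ^ (-(σ - 1)) * (1/2) ^ (ArithmeticFunction.cardFactors d)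
      ≤ (d : ℝ)⁻¹ * ((2:ℝ) ^ j) ^ (-(σ - 1)) * (1/2) ^ (ArithmeticFunction.cardFactors d) := by gcongr
    _ = _ := by ring

/-- contribution of one block -/
theorem block_part {σ : ℝ} (hσ : 1 < σ) {B j : ℕ} (hj : 1 ≤ j) :
    ∑' n : ℕ, (Typ B).indicator (fun n => zp σ n * ∑ d ∈ n.divisors, (Sm (j + 1) \ Sm j).indicator te d) n ≤
      ENNReal.ofReal ((2:ℝ) ^ (B + 1) * ((j : ℝ) + 1) ^ (7/8 : ℝ)) *
        (BB j * (ENNReal.ofReal (((2:ℝ) ^ j) ^ (-(σ - 1))) * WS σ (PP (j + 1)) (ENNReal.ofReal (1/2)))) := by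
  set θ := ENNReal.ofReal (1/2) with hθ
  set K := ENNReal.ofReal ((2:ℝ) ^ (B + 1) * ((j : ℝ) + 1) ^ (7/8 : ℝ)) with hK
  have hA : ∀ n : ℕ, (Typ B).indicator (fun n => zp σ n * ∑ d ∈ n.divisors, (Sm (j + 1) \ Sm j).indicator te d) n ≤
      ∑ d ∈ n.divisors, K * (θ ^ (vs (PP (j + 1)) n) * zp σ n * (Sm (j + 1) \ Sm j).indicator te d) := by
    intro n
    by_cases hn : n ∈ Typ B
    · rw [Set.indicator_of_mem hn, ← Finset.mul_sum, ← Finset.mul_sum]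
      have h1 := typ_weight hn hj
      calc zp σ n * ∑ d ∈ n.divisors, (Sm (j + 1) \ Sm j).indicator te d
          = 1 * (zp σ n * ∑ d ∈ n.divisors, (Sm (j + 1) \ Sm j).indicator te d) := (one_mul _).symm
        _ ≤ (K * θ ^ (vs (PP (j + 1)) n)) * (zp σ n * ∑ d ∈ n.divisors, (Sm (j + 1) \ Sm j).indicator te d) := by
            gcongr
        _ = _ := by ring
    · rw [Set.indicator_of_notMem hn]
      exact zero_le
  refine (ENNReal.tsum_le_tsum hA).trans ?_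
  refine (tsum_divisors_le _).trans ?_
  have hB : ∀ d s : ℕ, (if d = 0 then 0 else K * (θ ^ (vs (PP (j + 1)) (d * s)) * zp σ (d * s) * (Sm (j + 1) \ Sm j).indicator te d)) ≤
      K * ((Sm (j + 1) \ Sm j).indicator (fun d => te d * uu d) d * (ENNReal.ofReal (((2:ℝ) ^ j) ^ (-(σ - 1))) * (zp σ s * θ ^ (vs (PP (j + 1)) s)))) := by
    intro d s
    split_ifs with hd0
    · exact zero_le
    · by_cases hd : d ∈ Sm (j + 1) \ Sm j
      · rw [Set.indicator_of_mem hd, Set.indicator_of_mem hd]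
        rcases Nat.eq_zero_or_pos s with rfl | hs
        · rw [mul_zero, zp_zero (by linarith)]
          simp
        · rw [vs_mul _ hd0 hs.ne', zp_mul, pow_add]
          have h1 := zp_block hσ hd
          calc K * (θ ^ (vs (PP (j + 1)) d) * θ ^ (vs (PP (j + 1)) s) * (zp σ d * zp σ s) * te d)
              = K * (te d * (zp σ d * θ ^ (vs (PP (j + 1)) d)) * (zp σ s * θ ^ (vs (PP (j + 1)) s))) := by ring
            _ ≤ K * (te d * (ENNReal.ofReal (((2:ℝ) ^ j) ^ (-(σ - 1))) * uu d) * (zp σ s * θ ^ (vs (PP (j + 1)) s))) := by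
                gcongr
            _ = _ := by ring
      · rw [Set.indicator_of_notMem hd]
        simp
  refine (ENNReal.tsum_le_tsum (fun d => ENNReal.tsum_le_tsum (hB d))).trans ?_
  simp_rw [ENNReal.tsum_mul_left, ENNReal.tsum_mul_right]
  apply le_of_eq
  rfl

/-- every positive integer is in `Sm 1` or in a block -/
theorem block_cover {d : ℕ} (hd : d ≠ 0) : d ∈ Sm 1 ∨ ∃ j : ℕ, d ∈ Sm (j + 1 + 1) \ Sm (j + 1) := by
  classical
  have hex : ∃ j, d ∈ Sm (j + 1) := by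
    refine ⟨d, mem_Sm.mpr ⟨hd, ?_⟩⟩
    intro p hp hpd
    calc p ≤ d := Nat.le_of_dvd (Nat.pos_of_ne_zero hd) hpd
      _ ≤ 2 ^ d := (Nat.lt_two_pow_self).le
      _ ≤ 2 ^ (d + 1) := Nat.pow_le_pow_right (by norm_num) (by omega)
  set j := Nat.find hex with hj
  have h1 : d ∈ Sm (j + 1) := Nat.find_spec hex
  rcases Nat.eq_zero_or_pos j with h0 | h0
  · left; rw [h0] at h1; exact h1
  · right
    refine ⟨j - 1, ?_, ?_⟩
    · rw [show j - 1 + 1 + 1 = j + 1 by omega]; exact h1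
    · have := Nat.find_min hex (m := j - 1) (by omega)
      exact this

theorem Sm_one_sum {σ : ℝ} (hσ : 1 < σ) : ∑' d : ℕ, (Sm 1).indicator (zp σ) d ≤ 2 := by
  have h := tsum_le_of_rel (β := ℕ) (P := fun d => d ∈ Sm 1) (f := zp σ) (H := fun k => ENNReal.ofReal ((1/2 : ℝ) ^ k))
    (R := fun d k => d = 2 ^ k)
    (by
      intro d hd
      have hd' := mem_Sm.mp hd
      have h2 : ∃ k, d = 2 ^ k := by
        refine ⟨d.primeFactorsList.length, ?_⟩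
        apply Nat.eq_prime_pow_of_unique_prime_dvd hd'.1
        intro q hq hqd
        have := hd'.2 q hq hqd
        have := hq.two_le
        omega
      obtain ⟨k, hk⟩ := h2
      refine ⟨k, hk, ?_⟩
      unfold zp
      apply ENNReal.ofReal_le_ofReal
      rw [hk]
      push_cast
      rw [one_div, inv_pow, ← Real.rpow_neg_one (x := (2:ℝ) ^ k)]
      apply Real.rpow_le_rpow_of_exponent_le
      · exact one_le_pow₀ (by norm_num)
      · linarith)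
    (by rintro d d' x h1 h2; rw [h1, h2])
  refine (le_of_eq ?_).trans (h.trans (le_of_eq ?_))
  · rfl
  · rw [← ENNReal.ofReal_tsum_of_nonneg (fun i => by positivity) (summable_geometric_of_lt_one (by norm_num) (by norm_num)),
      tsum_geometric_of_lt_one (by norm_num) (by norm_num)]
    norm_num

/-- the truncated expectation of `hh` -/
theorem hh_typ_bound : ∃ C : ℝ, 0 < C ∧ ∀ σ : ℝ, 1 < σ → σ ≤ 2 → ∀ B : ℕ,
    ∑' n : ℕ, (Typ B).indicator (fun n => zp σ n * hh n) n ≤ ZZ σ * ENNReal.ofReal (C * 2 ^ B) := by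
  obtain ⟨C1, hC1, h1⟩ := BB_le
  obtain ⟨C2, hC2, h2⟩ := WS_decay
  have hsum : Summable (fun j : ℕ => ((j + 1 : ℕ) : ℝ) ^ (-(17/16) : ℝ)) := by
    have := (Real.summable_nat_rpow (p := -(17/16))).mpr (by norm_num)
    exact (summable_nat_add_iff (f := fun j : ℕ => (j : ℝ) ^ (-(17/16) : ℝ)) 1).mpr this
  set S := ∑' j : ℕ, ((j + 1 : ℕ) : ℝ) ^ (-(17/16) : ℝ) with hS
  have hS0 : 0 ≤ S := tsum_nonneg (fun j => by positivity)
  refine ⟨2 + 4 * C1 * C2 * S, by positivity, ?_⟩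
  intro σ hσ hσ2 B
  -- pointwise
  have hP : ∀ n : ℕ, (Typ B).indicator (fun n => zp σ n * hh n) n ≤
      (∑ d ∈ n.divisors, zp σ n * (Sm 1).indicator te d) +
      ∑' j : ℕ, (Typ B).indicator (fun n => zp σ n * ∑ d ∈ n.divisors, (Sm (j + 1 + 1) \ Sm (j + 1)).indicator te d) n := by
    intro n
    by_cases hn : n ∈ Typ B
    · rw [Set.indicator_of_mem hn]
      have e1 : ∑' j : ℕ, (Typ B).indicator (fun n => zp σ n * ∑ d ∈ n.divisors, (Sm (j + 1 + 1) \ Sm (j + 1)).indicator te d) n =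
          zp σ n * ∑ d ∈ n.divisors, ∑' j : ℕ, (Sm (j + 1 + 1) \ Sm (j + 1)).indicator te d := by
        have e2 : ∀ j : ℕ, (Typ B).indicator (fun n => zp σ n * ∑ d ∈ n.divisors, (Sm (j + 1 + 1) \ Sm (j + 1)).indicator te d) n =
            zp σ n * ∑ d ∈ n.divisors, (Sm (j + 1 + 1) \ Sm (j + 1)).indicator te d := fun j => Set.indicator_of_mem hn _
        rw [tsum_congr e2, ENNReal.tsum_mul_left]
        congr 1
        rw [Summable.tsum_finsetSum (fun i _ => ENNReal.summable)]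
      rw [e1, ← Finset.mul_sum, ← mul_add, ← Finset.sum_add_distrib]
      unfold hh
      gcongr with d hd
      have hd0 : d ≠ 0 := (Nat.pos_of_mem_divisors hd).ne'
      rcases block_cover hd0 with h3 | ⟨j, h3⟩
      · refine le_trans ?_ le_self_add
        rw [Set.indicator_of_mem h3]
      · refine le_trans ?_ le_add_self
        calc te d = (Sm (j + 1 + 1) \ Sm (j + 1)).indicator te d := by rw [Set.indicator_of_mem h3]
          _ ≤ _ := ENNReal.le_tsum (f := fun j : ℕ => (Sm (j + 1 + 1) \ Sm (j + 1)).indicator te d) j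
    · rw [Set.indicator_of_notMem hn]
      exact zero_le
  refine (ENNReal.tsum_le_tsum hP).trans ?_
  rw [ENNReal.tsum_add, ENNReal.tsum_comm]
  have hA : ∑' n : ℕ, ∑ d ∈ n.divisors, zp σ n * (Sm 1).indicator te d ≤ ZZ σ * ENNReal.ofReal 2 := by
    refine (tsum_divisors_le _).trans ?_
    have hA1 : ∀ d s : ℕ, (if d = 0 then 0 else zp σ (d * s) * (Sm 1).indicator te d) ≤ (Sm 1).indicator (zp σ) d * zp σ s := by
      intro d s
      split_ifs with hd0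
      · exact zero_le
      · by_cases hd : d ∈ Sm 1
        · rw [Set.indicator_of_mem hd, Set.indicator_of_mem hd, zp_mul]
          calc zp σ d * zp σ s * te d ≤ zp σ d * zp σ s * 1 := by gcongr; exact te_le_one d
            _ = _ := mul_one _
        · rw [Set.indicator_of_notMem hd]
          simp
    refine (ENNReal.tsum_le_tsum (fun d => ENNReal.tsum_le_tsum (hA1 d))).trans ?_
    simp_rw [ENNReal.tsum_mul_left, ENNReal.tsum_mul_right]
    rw [mul_comm]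
    have := Sm_one_sum hσ
    have e : ENNReal.ofReal 2 = 2 := by norm_num
    rw [e]
    exact mul_le_mul' le_rfl this
  have hB : ∀ j : ℕ, ∑' n : ℕ, (Typ B).indicator (fun n => zp σ n * ∑ d ∈ n.divisors, (Sm (j + 1 + 1) \ Sm (j + 1)).indicator te d) n ≤
      ZZ σ * ENNReal.ofReal ((4 * C1 * C2) * 2 ^ B * ((j + 1 : ℕ) : ℝ) ^ (-(17/16) : ℝ)) := by
    intro j
    refine (block_part hσ (by omega)).trans ?_
    have h3 := h1 (j + 1) (by omega)
    have h4 := h2 σ hσ hσ2 (j + 1) (by omega)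
    set x : ℝ := ((j + 1 : ℕ) : ℝ) with hx
    have hx1 : 1 ≤ x := by rw [hx]; exact_mod_cast (by omega : 1 ≤ j + 1)
    have hx0 : 0 < x := by linarith
    calc ENNReal.ofReal ((2:ℝ) ^ (B + 1) * (x + 1) ^ (7/8 : ℝ)) *
        (BB (j + 1) * (ENNReal.ofReal (((2:ℝ) ^ (j + 1)) ^ (-(σ - 1))) * WS σ (PP (j + 1 + 1)) (ENNReal.ofReal (1/2))))
        ≤ ENNReal.ofReal ((2:ℝ) ^ (B + 1) * (x + 1) ^ (7/8 : ℝ)) *
          (ENNReal.ofReal (C1 * x ^ (-(23/16) : ℝ)) * (ZZ σ * ENNReal.ofReal (C2 * x ^ (-(1/2) : ℝ)))) := by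
          gcongr
      _ = ZZ σ * (ENNReal.ofReal ((2:ℝ) ^ (B + 1) * (x + 1) ^ (7/8 : ℝ)) *
          (ENNReal.ofReal (C1 * x ^ (-(23/16) : ℝ)) * ENNReal.ofReal (C2 * x ^ (-(1/2) : ℝ)))) := by ring
      _ ≤ _ := by
          rw [← ENNReal.ofReal_mul (by positivity), ← ENNReal.ofReal_mul (by positivity)]
          apply mul_le_mul' le_rfl
          apply ENNReal.ofReal_le_ofReal
          have e5 : (x + 1) ^ (7/8 : ℝ) ≤ 2 * x ^ (7/8 : ℝ) := by
            calc (x + 1) ^ (7/8 : ℝ) ≤ (2 * x) ^ (7/8 : ℝ) := by gcongr; linarith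
              _ = (2:ℝ) ^ (7/8 : ℝ) * x ^ (7/8 : ℝ) := Real.mul_rpow (by norm_num) (by positivity)
              _ ≤ 2 * x ^ (7/8 : ℝ) := by
                  gcongr
                  calc (2:ℝ) ^ (7/8 : ℝ) ≤ (2:ℝ) ^ (1 : ℝ) := Real.rpow_le_rpow_of_exponent_le (by norm_num) (by norm_num)
                    _ = 2 := Real.rpow_one 2
          have e6 : x ^ (7/8 : ℝ) * (x ^ (-(23/16) : ℝ) * x ^ (-(1/2) : ℝ)) = x ^ (-(17/16) : ℝ) := by
            rw [← Real.rpow_add hx0, ← Real.rpow_add hx0]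
            congr 1
            norm_num
          calc (2:ℝ) ^ (B + 1) * (x + 1) ^ (7/8 : ℝ) * (C1 * x ^ (-(23/16) : ℝ) * (C2 * x ^ (-(1/2) : ℝ)))
              ≤ (2:ℝ) ^ (B + 1) * (2 * x ^ (7/8 : ℝ)) * (C1 * x ^ (-(23/16) : ℝ) * (C2 * x ^ (-(1/2) : ℝ))) := by gcongr
            _ = (4 * C1 * C2) * 2 ^ B * (x ^ (7/8 : ℝ) * (x ^ (-(23/16) : ℝ) * x ^ (-(1/2) : ℝ))) := by rw [pow_succ]; ring
            _ = _ := by rw [e6]
  calc _ ≤ ZZ σ * ENNReal.ofReal 2 + ∑' j : ℕ, ZZ σ * ENNReal.ofReal ((4 * C1 * C2) * 2 ^ B * ((j + 1 : ℕ) : ℝ) ^ (-(17/16) : ℝ)) := by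
        gcongr with j
        exact hB j
    _ = ZZ σ * (ENNReal.ofReal 2 + ENNReal.ofReal ((4 * C1 * C2) * 2 ^ B * S)) := by
        rw [ENNReal.tsum_mul_left, ← mul_add]
        congr 2
        rw [← ENNReal.ofReal_tsum_of_nonneg (fun i => by positivity) (hsum.mul_left _), tsum_mul_left]
    _ ≤ _ := by
        apply mul_le_mul' le_rfl
        rw [← ENNReal.ofReal_add (by norm_num) (by positivity)]
        apply ENNReal.ofReal_le_ofReal
        have : (1:ℝ) ≤ 2 ^ B := one_le_pow₀ (by norm_num)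
        nlinarith

end Pool.Agent.Erdos456
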