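import Mathlib
import Pool.Agent.Erdos456.Prob3

set_option autoImplicit false

open scoped ENNReal

namespace Pool.Agent.Erdos456

/-- Markov's inequality -/
theorem markov_mu (σ : ℝ) (E : Set ℕ) (f : ℕ → ℝ≥0∞) {H : ℝ} (hH : 0 < H) :
    mu σ (E ∩ {n | ENNReal.ofReal H < f n}) ≤ ENNReal.ofReal (H⁻¹) * ∑' n : ℕ, E.indicator (fun n => zp σ n * f n) n := by
  unfold mu
  rw [← ENNReal.tsum_mul_left]
  apply ENNReal.tsum_le_tsum
  intro n
  by_cases hn : n ∈ E ∩ {n | ENNReal.ofReal H < f n}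
  · rw [Set.indicator_of_mem hn, Set.indicator_of_mem hn.1]
    have h1 : ENNReal.ofReal H < f n := hn.2
    calc zp σ n = ENNReal.ofReal (H⁻¹) * (zp σ n * ENNReal.ofReal H) := by
          rw [mul_comm (zp σ n), ← mul_assoc, ← ENNReal.ofReal_mul (by positivity), inv_mul_cancel₀ hH.ne']
          simp
      _ ≤ ENNReal.ofReal (H⁻¹) * (zp σ n * f n) := by gcongr
  · rw [Set.indicator_of_notMem hn]
    exact zero_le

/-- mean of `GG ^ 2` -/
theorem GG_mean : ∃ C : ℝ, 0 < C ∧ ∀ σ : ℝ, 1 < σ →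
    ∑' n : ℕ, zp σ n * ENNReal.ofReal (GG n ^ 2) ≤ ZZ σ * ENNReal.ofReal C := by
  obtain ⟨C1, hC1, h1⟩ := GG_sq_le
  obtain ⟨C3, hC3, h3⟩ := tsum_rpow_fin
  refine ⟨C1 * C3, by positivity, ?_⟩
  intro σ hσ
  have hA : ∀ n : ℕ, zp σ n * ENNReal.ofReal (GG n ^ 2) ≤
      ∑ e ∈ n.divisors, ENNReal.ofReal C1 * (zp σ n * ENNReal.ofReal ((e : ℝ) ^ (-(1/2) : ℝ))) := by
    intro n
    rw [← Finset.mul_sum, ← Finset.mul_sum, ← ENNReal.ofReal_sum_of_nonneg (fun i _ => by positivity)]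
    calc zp σ n * ENNReal.ofReal (GG n ^ 2) ≤ zp σ n * ENNReal.ofReal (C1 * ∑ d ∈ n.divisors, (d : ℝ) ^ (-(1/2) : ℝ)) := by
          gcongr
          exact h1 n
      _ = _ := by
          rw [ENNReal.ofReal_mul hC1.le]
          ring
  refine (ENNReal.tsum_le_tsum hA).trans ?_
  refine (tsum_divisors_le _).trans ?_
  have hB : ∀ e s : ℕ, (if e = 0 then 0 else ENNReal.ofReal C1 * (zp σ (e * s) * ENNReal.ofReal ((e : ℝ) ^ (-(1/2) : ℝ)))) ≤
      ENNReal.ofReal C1 * (ENNReal.ofReal ((e : ℝ)⁻¹ * (e : ℝ) ^ (-(1/2) : ℝ)) * zp σ s) := by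
    intro e s
    split_ifs with he
    · exact zero_le
    · rw [zp_mul]
      have he' : (1:ℝ) ≤ e := by exact_mod_cast Nat.pos_of_ne_zero he
      have h4 : zp σ e ≤ ENNReal.ofReal ((e : ℝ)⁻¹) := by
        unfold zp
        apply ENNReal.ofReal_le_ofReal
        rw [← Real.rpow_neg_one]
        exact Real.rpow_le_rpow_of_exponent_le he' (by linarith)
      rw [ENNReal.ofReal_mul (by positivity)]
      calc ENNReal.ofReal C1 * (zp σ e * zp σ s * ENNReal.ofReal ((e : ℝ) ^ (-(1/2) : ℝ)))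
          ≤ ENNReal.ofReal C1 * (ENNReal.ofReal ((e : ℝ)⁻¹) * zp σ s * ENNReal.ofReal ((e : ℝ) ^ (-(1/2) : ℝ))) := by
            gcongr
        _ = _ := by ring
  refine (ENNReal.tsum_le_tsum (fun d => ENNReal.tsum_le_tsum (hB d))).trans ?_
  simp_rw [ENNReal.tsum_mul_left, ENNReal.tsum_mul_right]
  calc ENNReal.ofReal C1 * ((∑' e : ℕ, ENNReal.ofReal ((e : ℝ)⁻¹ * (e : ℝ) ^ (-(1/2) : ℝ))) * ∑' s : ℕ, zp σ s)
      ≤ ENNReal.ofReal C1 * (ENNReal.ofReal C3 * ∑' s : ℕ, zp σ s) := by gcongr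
    _ = ZZ σ * ENNReal.ofReal (C1 * C3) := by
        rw [ENNReal.ofReal_mul hC1.le]
        unfold ZZ
        ring

/-- the set where `hh * GG ^ 2` is large -/
def Big (H : ℝ) : Set ℕ := {n | ENNReal.ofReal H < hh n * ENNReal.ofReal (GG n ^ 2)}

/-- tightness of `hh * GG ^ 2` -/
theorem tight : ∀ ε : ℝ, 0 < ε → ∃ H : ℝ, 0 < H ∧ ∀ σ : ℝ, 1 < σ → σ ≤ 2 →
    mu σ (Big H) ≤ ZZ σ * ENNReal.ofReal ε := by
  intro ε hε
  obtain ⟨C1, hC1, h1⟩ := not_typ_bound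
  obtain ⟨C2, hC2, h2⟩ := hh_typ_bound
  obtain ⟨C3, hC3, h3⟩ := GG_mean
  obtain ⟨B, hB⟩ : ∃ B : ℕ, (4/5 : ℝ) ^ B < ε / (3 * C1) :=
    exists_pow_lt_of_lt_one (by positivity) (by norm_num)
  set H1 : ℝ := 3 * C2 * 2 ^ B / ε with hH1
  set H2 : ℝ := 3 * C3 / ε with hH2
  have hH1p : 0 < H1 := by positivity
  have hH2p : 0 < H2 := by positivity
  refine ⟨H1 * H2, by positivity, ?_⟩
  intro σ hσ hσ2
  have hsub : Big (H1 * H2) ⊆ (Typ B)ᶜ ∪ ((Typ B ∩ {n | ENNReal.ofReal H1 < hh n}) ∪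
      (Set.univ ∩ {n | ENNReal.ofReal H2 < ENNReal.ofReal (GG n ^ 2)})) := by
    intro n hn
    by_cases ht : n ∈ Typ B
    · right
      by_cases h4 : ENNReal.ofReal H1 < hh n
      · left; exact ⟨ht, h4⟩
      · right
        refine ⟨Set.mem_univ _, ?_⟩
        by_contra h5
        have h5' : ENNReal.ofReal (GG n ^ 2) ≤ ENNReal.ofReal H2 := not_lt.mp h5
        have h4' : hh n ≤ ENNReal.ofReal H1 := not_lt.mp h4
        have h6 : hh n * ENNReal.ofReal (GG n ^ 2) ≤ ENNReal.ofReal (H1 * H2) := by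
          rw [ENNReal.ofReal_mul hH1p.le]
          exact mul_le_mul' h4' h5'
        exact absurd hn (not_lt.mpr h6)
    · left; exact ht
  refine (mu_mono σ hsub).trans ?_
  refine (mu_union_le _ _ _).trans ?_
  have e1 : mu σ (Typ B)ᶜ ≤ ZZ σ * ENNReal.ofReal (ε / 3) := by
    refine (h1 σ hσ B).trans ?_
    gcongr
    rw [lt_div_iff₀ (by positivity)] at hB
    linarith
  have e2 : mu σ (Typ B ∩ {n | ENNReal.ofReal H1 < hh n}) ≤ ZZ σ * ENNReal.ofReal (ε / 3) := by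
    refine (markov_mu σ (Typ B) hh hH1p).trans ?_
    calc ENNReal.ofReal (H1⁻¹) * ∑' n : ℕ, (Typ B).indicator (fun n => zp σ n * hh n) n
        ≤ ENNReal.ofReal (H1⁻¹) * (ZZ σ * ENNReal.ofReal (C2 * 2 ^ B)) := by
          gcongr
          exact h2 σ hσ hσ2 B
      _ = ZZ σ * ENNReal.ofReal (H1⁻¹ * (C2 * 2 ^ B)) := by
          rw [ENNReal.ofReal_mul (p := H1⁻¹) (by positivity)]
          ring
      _ = _ := by
          congr 2
          rw [hH1]
          field_simp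
  have e3 : mu σ (Set.univ ∩ {n | ENNReal.ofReal H2 < ENNReal.ofReal (GG n ^ 2)}) ≤ ZZ σ * ENNReal.ofReal (ε / 3) := by
    refine (markov_mu σ Set.univ (fun n => ENNReal.ofReal (GG n ^ 2)) hH2p).trans ?_
    calc ENNReal.ofReal (H2⁻¹) * ∑' n : ℕ, (Set.univ).indicator (fun n => zp σ n * ENNReal.ofReal (GG n ^ 2)) n
        ≤ ENNReal.ofReal (H2⁻¹) * (ZZ σ * ENNReal.ofReal C3) := by
          gcongr
          simp only [Set.indicator_univ]
          exact h3 σ hσ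
      _ = ZZ σ * ENNReal.ofReal (H2⁻¹ * C3) := by
          rw [ENNReal.ofReal_mul (p := H2⁻¹) (by positivity)]
          ring
      _ = _ := by
          congr 2
          rw [hH2]
          field_simp
  calc mu σ (Typ B)ᶜ + mu σ ((Typ B ∩ {n | ENNReal.ofReal H1 < hh n}) ∪
      (Set.univ ∩ {n | ENNReal.ofReal H2 < ENNReal.ofReal (GG n ^ 2)}))
      ≤ ZZ σ * ENNReal.ofReal (ε / 3) + (ZZ σ * ENNReal.ofReal (ε / 3) + ZZ σ * ENNReal.ofReal (ε / 3)) := by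
        refine add_le_add e1 ((mu_union_le _ _ _).trans (add_le_add e2 e3))
    _ = ZZ σ * ENNReal.ofReal ε := by
        rw [← mul_add, ← mul_add, ← ENNReal.ofReal_add (by positivity) (by positivity),
          ← ENNReal.ofReal_add (by positivity) (by positivity)]
        congr 2
        ring

end Pool.Agent.Erdos456
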