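import Mathlib
import Pool.Agent.Erdos456.Prob4

set_option autoImplicit false

open scoped ENNReal

namespace Pool.Agent.Erdos456

theorem zp_le_inv {σ : ℝ} (hσ : 1 < σ) {n : ℕ} (hn : 1 ≤ n) : zp σ n ≤ ENNReal.ofReal ((n : ℝ)⁻¹) := by
  unfold zp
  apply ENNReal.ofReal_le_ofReal
  rw [← Real.rpow_neg_one]
  exact Real.rpow_le_rpow_of_exponent_le (by exact_mod_cast hn) (by linarith)

/-- the monoid hom `n ↦ 1 / n` -/
noncomputable def invHom : ℕ →* ℝ where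
  toFun n := (n : ℝ)⁻¹
  map_one' := by simp
  map_mul' a b := by
    push_cast
    rw [mul_inv]

/-- sum over smooth numbers -/
theorem mu_Sm_le : ∃ C : ℝ, 0 < C ∧ ∀ σ : ℝ, 1 < σ → ∀ j : ℕ, 1 ≤ j →
    mu σ (Sm j) ≤ ENNReal.ofReal (C * j) := by
  obtain ⟨C, hC, h⟩ := mertens_upper
  refine ⟨Real.exp (C + 4), by positivity, ?_⟩
  intro σ hσ j hj
  have hj' : (0:ℝ) < j := by exact_mod_cast hj
  have hE := EulerProduct.summable_and_hasSum_smoothNumbers_prod_primesBelow_geometric (f := invHom)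
    (fun {p} hp => by
      have h2 : (2:ℝ) ≤ p := by exact_mod_cast hp.two_le
      simp only [invHom, MonoidHom.coe_mk, OneHom.coe_mk]
      rw [Real.norm_of_nonneg (by positivity)]
      exact inv_lt_one_of_one_lt₀ (by linarith)) (2 ^ j + 1)
  obtain ⟨h1, h2⟩ := hE
  have hA : mu σ (Sm j) ≤ ENNReal.ofReal (∏ p ∈ Nat.primesBelow (2 ^ j + 1), (1 - (p : ℝ)⁻¹)⁻¹) := by
    unfold mu
    rw [← tsum_subtype (Sm j) (zp σ)]
    have h4 := h2.tsum_eq
    calc ∑' x : Sm j, zp σ x ≤ ∑' x : Sm j, ENNReal.ofReal (invHom x) := by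
          apply ENNReal.tsum_le_tsum
          intro x
          have hx := (mem_Sm.mp x.2).1
          exact zp_le_inv hσ (Nat.one_le_iff_ne_zero.mpr hx)
      _ = ENNReal.ofReal (∑' x : Sm j, invHom x) := by
          rw [ENNReal.ofReal_tsum_of_nonneg]
          · intro n
            simp only [invHom, MonoidHom.coe_mk, OneHom.coe_mk]
            positivity
          · exact h2.summable
      _ = _ := by
          congr 1
  refine hA.trans (ENNReal.ofReal_le_ofReal ?_)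
  have h3 : ∏ p ∈ Nat.primesBelow (2 ^ j + 1), (1 - (p : ℝ)⁻¹)⁻¹ ≤
      ∏ p ∈ Nat.primesBelow (2 ^ j + 1), Real.exp ((p : ℝ)⁻¹ + 2 * ((p : ℝ)⁻¹) ^ 2) := by
    apply Finset.prod_le_prod
    · intro p hp
      have h2 : (2:ℝ) ≤ p := by exact_mod_cast (Nat.prime_of_mem_primesBelow hp).two_le
      rw [inv_nonneg, sub_nonneg]
      exact inv_le_one_of_one_le₀ (by linarith)
    · intro p hp
      have h2 : (2:ℝ) ≤ p := by exact_mod_cast (Nat.prime_of_mem_primesBelow hp).two_le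
      set x := (p : ℝ)⁻¹ with hx
      have hx0 : 0 < x := by positivity
      have hx1 : x ≤ 1/2 := by rw [hx, one_div]; exact inv_anti₀ (by norm_num) h2
      have h4 : (1 - x)⁻¹ ≤ 1 + (x + 2 * x^2) := by
        rw [inv_le_iff_one_le_mul₀ (by linarith)]
        nlinarith [mul_nonneg hx0.le (mul_nonneg hx0.le (sub_nonneg.mpr hx1))]
      have := Real.add_one_le_exp (x + 2 * x^2)
      linarith
  rw [← Real.exp_sum] at h3
  refine h3.trans ?_
  have h5 : ∑ p ∈ Nat.primesBelow (2 ^ j + 1), ((p : ℝ)⁻¹ + 2 * ((p : ℝ)⁻¹) ^ 2) ≤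
      (Real.log j + C) + 4 := by
    rw [Finset.sum_add_distrib, ← Finset.mul_sum]
    have h6 := h j hj
    have h7 := sum_inv_sq_le (Nat.primesBelow (2 ^ j + 1)) (fun p hp => (Nat.prime_of_mem_primesBelow hp).one_lt.le)
    linarith
  calc Real.exp (∑ p ∈ Nat.primesBelow (2 ^ j + 1), ((p : ℝ)⁻¹ + 2 * ((p : ℝ)⁻¹) ^ 2))
      ≤ Real.exp ((Real.log j + C) + 4) := Real.exp_le_exp.mpr h5
    _ = Real.exp (C + 4) * j := by
        rw [show Real.log j + C + 4 = (C + 4) + Real.log j by ring, Real.exp_add (C + 4), Real.exp_log hj']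

/-- every large prime lies in a dyadic block -/
theorem exists_block {J Q : ℕ} (hQ : 2 ^ J < Q) : ∃ i : ℕ, 2 ^ (J + i) < Q ∧ Q ≤ 2 ^ (J + i + 1) := by
  have h1 : 1 ≤ 2 ^ J := Nat.one_le_two_pow
  set c := Nat.clog 2 Q with hc
  have h2 : Q ≤ 2 ^ c := Nat.le_pow_clog (by norm_num) _
  have h3 : 2 ^ (c - 1) < Q := Nat.pow_pred_clog_lt_self (by norm_num) (by omega)
  have h4 : J < c := by
    by_contra hcon
    push Not at hcon
    have : 2 ^ c ≤ 2 ^ J := Nat.pow_le_pow_right (by norm_num) hcon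
    omega
  refine ⟨c - 1 - J, ?_, ?_⟩
  · rw [show J + (c - 1 - J) = c - 1 by omega]; exact h3
  · rw [show J + (c - 1 - J) + 1 = c by omega]; exact h2

theorem tsum_inv_sq_tail {J : ℕ} (hJ : 1 ≤ J) {A : ℝ} (hA : 0 ≤ A) :
    ∑' i : ℕ, ENNReal.ofReal (A / ((J + i : ℕ) : ℝ) ^ 2) ≤ ENNReal.ofReal (2 * A / J) := by
  apply ENNReal.tsum_le_of_sum_range_le
  intro n
  rw [← ENNReal.ofReal_sum_of_nonneg (fun i _ => by positivity)]
  apply ENNReal.ofReal_le_ofReal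
  have hJ' : (1:ℝ) ≤ J := by exact_mod_cast hJ
  have h : ∀ n : ℕ, ∑ i ∈ Finset.range n, A / ((J + i : ℕ) : ℝ) ^ 2 ≤ 2 * A / J - 2 * A / (J + n) := by
    intro n
    induction n with
    | zero => simp
    | succ n ih =>
      rw [Finset.sum_range_succ]
      have h1 : A / ((J + n : ℕ) : ℝ) ^ 2 ≤ 2 * A / (J + n) - 2 * A / (J + (n + 1 : ℕ)) := by
        push_cast
        have hx : (1:ℝ) ≤ J + n := by
          have : (0:ℝ) ≤ n := by positivity
          linarith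
        set x : ℝ := J + n with hxd
        have e1 : (J : ℝ) + (n + 1) = x + 1 := by rw [hxd]; ring
        rw [e1]
        have e2 : 2 * A / x - 2 * A / (x + 1) = 2 * A / (x * (x + 1)) := by
          have : x ≠ 0 := by positivity
          have : x + 1 ≠ 0 := by positivity
          field_simp
          ring
        rw [e2, div_le_div_iff₀ (by positivity) (by positivity)]
        nlinarith [mul_nonneg hA (mul_nonneg (by linarith : (0:ℝ) ≤ x) (by linarith : (0:ℝ) ≤ x - 1))]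
      linarith
  have h2 : 0 ≤ 2 * A / (J + n) := by positivity
  linarith [h n]

theorem sieve_tail : ∃ C : ℝ, 0 < C ∧ ∀ g J : ℕ, 1 ≤ g → 1 ≤ J →
    ∑' Q : ℕ, (if Q.Prime ∧ 2 ^ J < Q ∧ (g * Q + 1).Prime then ENNReal.ofReal ((Q : ℝ)⁻¹) else 0) ≤
      ENNReal.ofReal (C * GG g ^ 2 / J) := by
  obtain ⟨C, hC, h⟩ := sieve_Q
  refine ⟨2 * C, by positivity, ?_⟩
  intro g J hg hJ
  have hA : ∀ Q : ℕ, (if Q.Prime ∧ 2 ^ J < Q ∧ (g * Q + 1).Prime then ENNReal.ofReal ((Q : ℝ)⁻¹) else 0) ≤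
      ∑' i : ℕ, (if Q.Prime ∧ 2 ^ (J + i) < Q ∧ Q ≤ 2 ^ (J + i + 1) ∧ (g * Q + 1).Prime then ENNReal.ofReal ((Q : ℝ)⁻¹) else 0) := by
    intro Q
    by_cases hQ : Q.Prime ∧ 2 ^ J < Q ∧ (g * Q + 1).Prime
    · rw [if_pos hQ]
      obtain ⟨i, hi1, hi2⟩ := exists_block hQ.2.1
      calc ENNReal.ofReal ((Q : ℝ)⁻¹) =
          (if Q.Prime ∧ 2 ^ (J + i) < Q ∧ Q ≤ 2 ^ (J + i + 1) ∧ (g * Q + 1).Prime then ENNReal.ofReal ((Q : ℝ)⁻¹) else 0) := by
            rw [if_pos ⟨hQ.1, hi1, hi2, hQ.2.2⟩]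
        _ ≤ _ := ENNReal.le_tsum (f := fun i : ℕ => (if Q.Prime ∧ 2 ^ (J + i) < Q ∧ Q ≤ 2 ^ (J + i + 1) ∧ (g * Q + 1).Prime then ENNReal.ofReal ((Q : ℝ)⁻¹) else 0)) i
    · rw [if_neg hQ]; exact zero_le
  refine (ENNReal.tsum_le_tsum hA).trans ?_
  rw [ENNReal.tsum_comm]
  calc _ ≤ ∑' i : ℕ, ENNReal.ofReal (C * GG g ^ 2 / ((J + i : ℕ) : ℝ) ^ 2) := by
        apply ENNReal.tsum_le_tsum
        intro i
        exact h g (J + i) hg (by omega)
    _ ≤ ENNReal.ofReal (2 * (C * GG g ^ 2) / J) := tsum_inv_sq_tail hJ (by positivity)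
    _ = _ := by
        congr 1
        ring

end Pool.Agent.Erdos456
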