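import Mathlib
import Pool.Agent.Erdos456.Bad1

set_option autoImplicit false

open scoped ENNReal

namespace Pool.Agent.Erdos456

/-- divisor indicator -/
noncomputable def dvk (k d : ℕ) : ℝ≥0∞ := if d ∈ k.divisors then 1 else 0

theorem sum_dvk (k : ℕ) (f : ℕ → ℝ≥0∞) : ∑' d : ℕ, dvk k d * f d = ∑ d ∈ k.divisors, f d := by
  unfold dvk
  rw [tsum_eq_sum (s := k.divisors)]
  · apply Finset.sum_congr rfl
    intro d hd
    rw [if_pos hd, one_mul]
  · intro d hd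
    rw [if_neg hd, zero_mul]

/-- indicator of small `b` -/
noncomputable def sml (X : ℝ) (b : ℕ) : ℝ≥0∞ := if 1 ≤ b ∧ (b : ℝ) ≤ X then 1 else 0

/-- indicator of primes -/
noncomputable def sQ (J g Q : ℕ) : ℝ≥0∞ :=
  if Q.Prime ∧ 2 ^ J < Q ∧ (g * Q + 1).Prime then ENNReal.ofReal ((Q : ℝ)⁻¹) else 0

theorem not_Big_of_dvd {H : ℝ} {k n : ℕ} (hn : n ≠ 0) (hkn : k ∣ n) (h : n ∉ Big H) : k ∉ Big H := by
  have h1 : hh k ≤ hh n := by
    unfold hh
    exact Finset.sum_le_sum_of_subset (Nat.divisors_subset_of_dvd hn hkn)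
  have h2 : GG k ≤ GG n := GG_mono_dvd (Nat.pos_of_ne_zero hn) hkn
  intro hk
  apply h
  have hk' : ENNReal.ofReal H < hh k * ENNReal.ofReal (GG k ^ 2) := hk
  refine lt_of_lt_of_le hk' ?_
  have := GG_nonneg k
  gcongr

theorem case_one : ∃ C : ℝ, 0 < C ∧ ∀ σ : ℝ, 1 < σ → ∀ J : ℕ, 1 ≤ J → ∀ H : ℝ, 0 < H → ∀ A : ℝ, 0 ≤ A →
    mu σ {n | n ∉ Big H ∧ ∃ Q r' d' b : ℕ, Q.Prime ∧ 2 ^ J < Q ∧ n = Q * r' * d' ∧ r' ≠ 0 ∧ d' ≠ 0 ∧
      1 ≤ b ∧ (b : ℝ) ≤ A * tt d' ∧ ((r' * b) * Q + 1).Prime} ≤ ZZ σ * ENNReal.ofReal (C * A * H / J) := by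
  obtain ⟨C1, hC1, h1⟩ := sieve_tail
  obtain ⟨C2, hC2, h2⟩ := sum_GG_sq_le
  refine ⟨C1 * C2, by positivity, ?_⟩
  intro σ hσ J hJ H hH A hA0
  have hJ' : (0:ℝ) < J := by exact_mod_cast hJ
  let F : ℕ × ℕ × ℕ × ℕ → ℝ≥0∞ := fun x =>
    (Big H)ᶜ.indicator (zp σ) x.1 * (dvk x.1 x.2.1 * (sml (A * tt x.2.1) x.2.2.1 *
      sQ J (x.1 / x.2.1 * x.2.2.1) x.2.2.2))
  have hA := tsum_le_of_rel (β := ℕ × ℕ × ℕ × ℕ)
    (P := fun n => n ∉ Big H ∧ ∃ Q r' d' b : ℕ, Q.Prime ∧ 2 ^ J < Q ∧ n = Q * r' * d' ∧ r' ≠ 0 ∧ d' ≠ 0 ∧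
      1 ≤ b ∧ (b : ℝ) ≤ A * tt d' ∧ ((r' * b) * Q + 1).Prime)
    (f := zp σ) (H := F)
    (R := fun n x => n = x.2.2.2 * x.1)
    (by
      rintro n ⟨hnB, Q, r', d', b, hQ, hQ1, hn, hr', hd', hb1, hb2, hpr⟩
      refine ⟨(r' * d', d', b, Q), by simp only; rw [hn]; ring, ?_⟩
      simp only [F]
      have hn0 : n ≠ 0 := by
        rw [hn]
        have := hQ.ne_zero
        positivity
      have hk : r' * d' ∉ Big H := not_Big_of_dvd hn0 ⟨Q, by rw [hn]; ring⟩ hnB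
      have hdiv : r' * d' / d' = r' := Nat.mul_div_cancel r' (Nat.pos_of_ne_zero hd')
      have e1 : dvk (r' * d') d' = 1 := if_pos (by
        rw [Nat.mem_divisors]
        exact ⟨Dvd.intro_left r' rfl, by positivity⟩)
      have e2 : sml (A * tt d') b = 1 := if_pos ⟨hb1, hb2⟩
      have e3 : sQ J (r' * b) Q = ENNReal.ofReal ((Q : ℝ)⁻¹) := if_pos ⟨hQ, hQ1, hpr⟩
      rw [Set.indicator_of_mem (show r' * d' ∈ (Big H)ᶜ from hk), hdiv, e1, e2, e3, hn,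
        show Q * r' * d' = Q * (r' * d') by ring, zp_mul, one_mul, one_mul, mul_comm]
      gcongr
      exact zp_le_inv hσ hQ.one_lt.le)
    (by
      rintro n n' x hx hx'
      rw [hx, hx'])
  refine (le_trans (le_of_eq rfl) hA).trans ?_
  rw [ENNReal.tsum_prod' (f := F)]
  have hK : ∀ k : ℕ, ∑' y : ℕ × ℕ × ℕ, F (k, y) ≤ zp σ k * ENNReal.ofReal (C1 * C2 * A * H / J) := by
    intro k
    simp only [F]
    by_cases hk : k ∈ (Big H)ᶜ
    · rw [Set.indicator_of_mem hk, ENNReal.tsum_mul_left]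
      gcongr
      rcases Nat.eq_zero_or_pos k with hk0 | hk0
      · rw [hk0]
        have : ∀ y : ℕ × ℕ × ℕ, dvk 0 y.1 = 0 := fun y => if_neg (by simp)
        simp [this]
      rw [ENNReal.tsum_prod']
      have hD : ∀ d' : ℕ, ∑' z : ℕ × ℕ, dvk k d' * (sml (A * tt d') z.1 * sQ J (k / d' * z.1) z.2) ≤
          dvk k d' * (ENNReal.ofReal (C1 * C2 * A / J) * ENNReal.ofReal (GG k ^ 2) * te d') := by
        intro d'
        rw [ENNReal.tsum_mul_left, ENNReal.tsum_prod']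
        by_cases hd : d' ∈ k.divisors
        · gcongr
          have hdk := Nat.dvd_of_mem_divisors hd
          have hd0 := Nat.pos_of_mem_divisors hd
          have hdd : 1 ≤ k / d' := Nat.div_pos (Nat.le_of_dvd hk0 hdk) hd0
          have hb : ∀ b : ℕ, ∑' Q : ℕ, sml (A * tt d') b * sQ J (k / d' * b) Q ≤
              ENNReal.ofReal (C1 / J) * ENNReal.ofReal (GG k ^ 2) *
              (if 1 ≤ b ∧ (b : ℝ) ≤ A * tt d' then ENNReal.ofReal (GG b ^ 2) else 0) := by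
            intro b
            rw [ENNReal.tsum_mul_left]
            unfold sml
            split_ifs with hb
            · rw [one_mul]
              have hg : 1 ≤ k / d' * b := Nat.mul_pos hdd hb.1
              refine (h1 (k / d' * b) J hg hJ).trans ?_
              rw [← ENNReal.ofReal_mul (by positivity), ← ENNReal.ofReal_mul (by positivity)]
              apply ENNReal.ofReal_le_ofReal
              have h6 := GG_mul_le (k / d') b
              have h6' : GG (k / d') ≤ GG k := GG_mono_dvd hk0 (Nat.div_dvd_of_dvd hdk)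
              have h7 := GG_nonneg (k / d' * b)
              have h7' := GG_nonneg (k / d')
              have h7'' := GG_nonneg b
              have h8 : GG (k / d' * b) ^ 2 ≤ (GG k * GG b) ^ 2 := by
                gcongr
                exact h6.trans (by gcongr)
              calc C1 * GG (k / d' * b) ^ 2 / J ≤ C1 * (GG k * GG b) ^ 2 / J := by gcongr
                _ = _ := by ring
            · simp
          refine (ENNReal.tsum_le_tsum hb).trans ?_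
          rw [ENNReal.tsum_mul_left]
          have htt := tt_nonneg d'
          calc ENNReal.ofReal (C1 / J) * ENNReal.ofReal (GG k ^ 2) *
              ∑' b : ℕ, (if 1 ≤ b ∧ (b : ℝ) ≤ A * tt d' then ENNReal.ofReal (GG b ^ 2) else 0)
              ≤ ENNReal.ofReal (C1 / J) * ENNReal.ofReal (GG k ^ 2) * ENNReal.ofReal (C2 * (A * tt d')) := by
                gcongr
                exact h2 _ (by positivity)
            _ = _ := by
                unfold te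
                rw [show C1 * C2 * A / J = (C1 / J) * (C2 * A) by ring, ENNReal.ofReal_mul (p := C1 / J) (by positivity),
                  ← mul_assoc C2, ENNReal.ofReal_mul (p := C2 * A) (by positivity)]
                ring
        · have e0 : dvk k d' = 0 := if_neg hd
          rw [e0]; simp
      refine (ENNReal.tsum_le_tsum hD).trans ?_
      rw [sum_dvk, ← Finset.mul_sum]
      have hkH : hh k * ENNReal.ofReal (GG k ^ 2) ≤ ENNReal.ofReal H := not_lt.mp hk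
      calc ENNReal.ofReal (C1 * C2 * A / J) * ENNReal.ofReal (GG k ^ 2) * ∑ d ∈ k.divisors, te d
          = ENNReal.ofReal (C1 * C2 * A / J) * (hh k * ENNReal.ofReal (GG k ^ 2)) := by unfold hh; ring
        _ ≤ ENNReal.ofReal (C1 * C2 * A / J) * ENNReal.ofReal H := by gcongr
        _ = _ := by
            rw [← ENNReal.ofReal_mul (by positivity)]
            congr 1
            ring
    · rw [Set.indicator_of_notMem hk]
      simp
  refine (ENNReal.tsum_le_tsum hK).trans ?_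
  rw [ENNReal.tsum_mul_right]
  exact le_rfl

/-- geometric series for the square-divisible part -/
noncomputable def gq (Q f : ℕ) : ℝ≥0∞ := if 1 ≤ f then ENNReal.ofReal ((Q : ℝ)⁻¹) ^ f else 0

theorem geom_gq {Q : ℕ} (hQ : Q.Prime) : ∑' f : ℕ, gq Q f ≤ ENNReal.ofReal (2 * (Q : ℝ)⁻¹) := by
  unfold gq
  have h2 : (2:ℝ) ≤ Q := by exact_mod_cast hQ.two_le
  set x := ENNReal.ofReal ((Q : ℝ)⁻¹) with hx
  have h1 : x ≤ 2⁻¹ := by
    rw [hx, show (2⁻¹ : ℝ≥0∞) = ENNReal.ofReal (2⁻¹) by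
      rw [ENNReal.ofReal_inv_of_pos (by norm_num)]; norm_num]
    exact ENNReal.ofReal_le_ofReal (inv_anti₀ (by norm_num) h2)
  have h3 : ∑' f : ℕ, (if 1 ≤ f then x ^ f else 0) = x * ∑' f : ℕ, x ^ f := by
    rw [tsum_eq_zero_add' ENNReal.summable]
    simp only [show ¬ (1 ≤ 0) by norm_num, if_false, zero_add]
    rw [← ENNReal.tsum_mul_left]
    apply tsum_congr
    intro f
    rw [if_pos (by omega), pow_succ]
    ring
  rw [h3, ENNReal.tsum_geometric]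
  have h4 : (1 - x)⁻¹ ≤ 2 := by
    rw [ENNReal.inv_le_iff_inv_le]
    calc (2⁻¹ : ℝ≥0∞) = 1 - 2⁻¹ := by rw [ENNReal.one_sub_inv_two]
      _ ≤ 1 - x := by gcongr
  calc x * (1 - x)⁻¹ ≤ x * 2 := by gcongr
    _ = _ := by
        rw [hx, show (2 : ℝ≥0∞) = ENNReal.ofReal 2 by norm_num, ← ENNReal.ofReal_mul (by positivity)]
        congr 1
        ring

theorem tsum_rpow_five : ∃ C : ℝ, 0 < C ∧
    ∑' n : ℕ, ENNReal.ofReal ((n : ℝ) ^ (-(5/4) : ℝ)) ≤ ENNReal.ofReal C := by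
  have hs : Summable (fun n : ℕ => (n : ℝ) ^ (-(5/4) : ℝ)) := Real.summable_nat_rpow.mpr (by norm_num)
  refine ⟨(∑' n : ℕ, (n : ℝ) ^ (-(5/4) : ℝ)) + 1, ?_, ?_⟩
  · have : 0 ≤ ∑' n : ℕ, (n : ℝ) ^ (-(5/4) : ℝ) := tsum_nonneg (fun n => by positivity)
    linarith
  · rw [← ENNReal.ofReal_tsum_of_nonneg (fun n => by positivity) hs]
    apply ENNReal.ofReal_le_ofReal
    linarith

/-- prime indicator -/
noncomputable def prI (J Q : ℕ) : ℝ≥0∞ := if Q.Prime ∧ 2 ^ J < Q then 1 else 0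

theorem case_two : ∃ C : ℝ, 0 < C ∧ ∀ σ : ℝ, 1 < σ → ∀ J : ℕ, ∀ A : ℝ, 0 ≤ A →
    mu σ {n | ∃ Q r₁ d' f : ℕ, Q.Prime ∧ 2 ^ J < Q ∧ n = Q ^ f * r₁ * d' ∧ 1 ≤ f ∧ r₁ ∣ Q - 1 ∧ 1 ≤ r₁ ∧
      1 ≤ A * ((r₁ : ℝ) / Q)} ≤ ZZ σ * ENNReal.ofReal (C * A * ((2:ℝ) ^ J) ^ (-(1/4) : ℝ)) := by
  obtain ⟨C5, hC5, h5⟩ := tsum_rpow_five
  refine ⟨4 * C5, by positivity, ?_⟩
  intro σ hσ J A hA0
  let F : ℕ × ℕ × ℕ × ℕ → ℝ≥0∞ := fun x =>
    (prI J x.1 * ENNReal.ofReal (A / x.1)) * (dvi x.1 x.2.1 * (gq x.1 x.2.2.1 * zp σ x.2.2.2))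
  have hA := tsum_le_of_rel (β := ℕ × ℕ × ℕ × ℕ)
    (P := fun n => ∃ Q r₁ d' f : ℕ, Q.Prime ∧ 2 ^ J < Q ∧ n = Q ^ f * r₁ * d' ∧ 1 ≤ f ∧ r₁ ∣ Q - 1 ∧ 1 ≤ r₁ ∧
      1 ≤ A * ((r₁ : ℝ) / Q))
    (f := zp σ) (H := F)
    (R := fun n x => n = x.1 ^ x.2.2.1 * x.2.1 * x.2.2.2)
    (by
      rintro n ⟨Q, r₁, d', f, hQ, hQ1, hn, hf, hr, hr1, ht⟩
      refine ⟨(Q, r₁, f, d'), hn, ?_⟩
      simp only [F]
      have hQ0 : (0:ℝ) < Q := by exact_mod_cast hQ.pos
      have hr0 : (0:ℝ) < r₁ := by exact_mod_cast hr1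
      have hmem : r₁ ∈ (Q - 1).divisors := by
        rw [Nat.mem_divisors]
        refine ⟨hr, ?_⟩
        have := hQ.two_le
        omega
      have e1 : prI J Q = 1 := if_pos ⟨hQ, hQ1⟩
      have e2 : dvi Q r₁ = 1 := if_pos hmem
      have e3 : gq Q f = ENNReal.ofReal ((Q : ℝ)⁻¹) ^ f := if_pos hf
      rw [e1, e2, e3, one_mul, one_mul, hn, zp_mul, zp_mul, zp_pow]
      have h6 : zp σ Q ≤ ENNReal.ofReal ((Q : ℝ)⁻¹) := zp_le_inv hσ hQ.one_lt.le
      have h7 : zp σ r₁ ≤ ENNReal.ofReal (A / Q) := by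
        refine (zp_le_inv hσ hr1).trans (ENNReal.ofReal_le_ofReal ?_)
        rw [inv_le_iff_one_le_mul₀ hr0]
        calc (1:ℝ) ≤ A * ((r₁ : ℝ) / Q) := ht
          _ = A / Q * r₁ := by ring
      calc zp σ Q ^ f * zp σ r₁ * zp σ d' ≤ ENNReal.ofReal ((Q : ℝ)⁻¹) ^ f * ENNReal.ofReal (A / Q) * zp σ d' := by
            gcongr
        _ = _ := by ring)
    (by
      rintro n n' x hx hx'
      rw [hx, hx'])
  refine (le_trans (le_of_eq rfl) hA).trans ?_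
  rw [ENNReal.tsum_prod' (f := F)]
  have hQs : ∀ Q : ℕ, ∑' y : ℕ × ℕ × ℕ, F (Q, y) ≤
      ENNReal.ofReal ((Q : ℝ) ^ (-(5/4) : ℝ)) * (ZZ σ * ENNReal.ofReal (4 * A * ((2:ℝ) ^ J) ^ (-(1/4) : ℝ))) := by
    intro Q
    by_cases hQ : Q.Prime ∧ 2 ^ J < Q
    · have e1 : prI J Q = 1 := if_pos hQ
      simp only [F]
      rw [e1, one_mul, ENNReal.tsum_mul_left, ENNReal.tsum_prod']
      simp_rw [ENNReal.tsum_mul_left, ENNReal.tsum_prod']
      simp_rw [ENNReal.tsum_mul_left, ENNReal.tsum_mul_right]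
      have hQ0 : (0:ℝ) < Q := by exact_mod_cast hQ.1.pos
      have hc : ∑' r₁ : ℕ, dvi Q r₁ ≤ ENNReal.ofReal (2 * Real.sqrt Q) := by
        unfold dvi
        rw [tsum_eq_sum (s := (Q - 1).divisors)]
        · rw [Finset.sum_congr rfl (g := fun _ => (1 : ℝ≥0∞))]
          · rw [Finset.sum_const, nsmul_eq_mul, mul_one, ← ENNReal.ofReal_natCast]
            apply ENNReal.ofReal_le_ofReal
            refine (card_divisors_le_two_sqrt (Q - 1)).trans ?_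
            gcongr
            omega
          · intro r hr
            rw [if_pos hr]
        · intro r hr
          rw [if_neg hr]
      have hf := geom_gq hQ.1
      calc ENNReal.ofReal (A / Q) * ((∑' r₁ : ℕ, dvi Q r₁) *
            ((∑' f : ℕ, gq Q f) * ∑' d' : ℕ, zp σ d'))
          ≤ ENNReal.ofReal (A / Q) * (ENNReal.ofReal (2 * Real.sqrt Q) * (ENNReal.ofReal (2 * (Q : ℝ)⁻¹) * ZZ σ)) := by
            gcongr
            exact le_of_eq rfl
        _ = (ENNReal.ofReal (A / Q) * (ENNReal.ofReal (2 * Real.sqrt Q) * ENNReal.ofReal (2 * (Q : ℝ)⁻¹))) * ZZ σ := by ring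
        _ ≤ (ENNReal.ofReal ((Q : ℝ) ^ (-(5/4) : ℝ)) * ENNReal.ofReal (4 * A * ((2:ℝ) ^ J) ^ (-(1/4) : ℝ))) * ZZ σ := by
            refine mul_le_mul' ?_ le_rfl
            rw [← ENNReal.ofReal_mul (by positivity), ← ENNReal.ofReal_mul (by positivity), ← ENNReal.ofReal_mul (by positivity)]
            apply ENNReal.ofReal_le_ofReal
            have hle : (2:ℝ) ^ J ≤ Q := by exact_mod_cast hQ.2.le
            have e4 : Real.sqrt Q = (Q : ℝ) ^ (1/2 : ℝ) := Real.sqrt_eq_rpow _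
            have e5 : A / Q * (2 * Real.sqrt Q * (2 * (Q : ℝ)⁻¹)) = 4 * A * ((Q : ℝ) ^ (-(5/4) : ℝ) * (Q : ℝ) ^ (-(1/4) : ℝ)) := by
              rw [e4, ← Real.rpow_add hQ0, div_eq_mul_inv, ← Real.rpow_neg_one]
              have : (Q : ℝ) ^ (-1 : ℝ) * (Q : ℝ) ^ (1/2 : ℝ) * (Q : ℝ) ^ (-1 : ℝ) = (Q : ℝ) ^ (-(5/4) + -(1/4) : ℝ) := by
                rw [← Real.rpow_add hQ0, ← Real.rpow_add hQ0]
                congr 1
                norm_num
              calc _ = 4 * A * ((Q : ℝ) ^ (-1 : ℝ) * (Q : ℝ) ^ (1/2 : ℝ) * (Q : ℝ) ^ (-1 : ℝ)) := by ring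
                _ = _ := by rw [this]
            rw [e5]
            have e6 : (Q : ℝ) ^ (-(1/4) : ℝ) ≤ ((2:ℝ) ^ J) ^ (-(1/4) : ℝ) :=
              Real.rpow_le_rpow_of_nonpos (by positivity) hle (by norm_num)
            calc 4 * A * ((Q : ℝ) ^ (-(5/4) : ℝ) * (Q : ℝ) ^ (-(1/4) : ℝ)) ≤ 4 * A * ((Q : ℝ) ^ (-(5/4) : ℝ) * ((2:ℝ) ^ J) ^ (-(1/4) : ℝ)) := by
                  gcongr
              _ = _ := by ring
        _ = _ := by ring
    · have e1 : prI J Q = 0 := if_neg hQ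
      simp only [F]
      rw [e1]
      simp
  refine (ENNReal.tsum_le_tsum hQs).trans ?_
  rw [ENNReal.tsum_mul_right]
  calc _ ≤ ENNReal.ofReal C5 * (ZZ σ * ENNReal.ofReal (4 * A * ((2:ℝ) ^ J) ^ (-(1/4) : ℝ))) := by gcongr
    _ = ZZ σ * (ENNReal.ofReal C5 * ENNReal.ofReal (4 * A * ((2:ℝ) ^ J) ^ (-(1/4) : ℝ))) := by ring
    _ = _ := by
        rw [← ENNReal.ofReal_mul (by positivity)]
        congr 2
        ring

end Pool.Agent.Erdos456
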