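import Mathlib
import Pool.Agent.Erdos456.Bad2

set_option autoImplicit false

open scoped ENNReal

namespace Pool.Agent.Erdos456

theorem decay_J (J : ℕ) : (J : ℝ) * ((2:ℝ) ^ J) ^ (-(1/4) : ℝ) ≤ 8 := by
  have h1 : ((2:ℝ) ^ J) ^ (-(1/4) : ℝ) = (((2:ℝ) ^ (1/4 : ℝ)) ^ J)⁻¹ := by
    rw [Real.rpow_neg (by positivity), ← Real.rpow_natCast, ← Real.rpow_natCast, ← Real.rpow_mul (by norm_num),
      ← Real.rpow_mul (by norm_num)]
    congr 2
    ring
  have h2 : (9/8 : ℝ) ≤ (2:ℝ) ^ (1/4 : ℝ) := by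
    by_contra hcon
    push Not at hcon
    have h3 : ((2:ℝ) ^ (1/4 : ℝ)) ^ 4 < (9/8 : ℝ) ^ 4 := by
      apply pow_lt_pow_left₀ hcon (by positivity) (by norm_num)
    rw [← Real.rpow_natCast, ← Real.rpow_mul (by norm_num)] at h3
    norm_num at h3
  have h3 : (1:ℝ) + J * (1/8) ≤ (9/8 : ℝ) ^ J := by
    have := one_add_mul_le_pow (a := (1/8 : ℝ)) (by norm_num) J
    calc (1:ℝ) + J * (1/8) ≤ (1 + 1/8) ^ J := this
      _ = _ := by norm_num
  have h4 : (9/8 : ℝ) ^ J ≤ ((2:ℝ) ^ (1/4 : ℝ)) ^ J := pow_le_pow_left₀ (by norm_num) h2 J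
  rw [h1, ← div_eq_mul_inv, div_le_iff₀ (by positivity)]
  linarith

/-- structure of an integer with a large prime factor -/
theorem big_struct {J n : ℕ} (hn0 : n ≠ 0) (hJ : 1 ≤ J) (hn : n ∉ Sm J) :
    ∃ Q : ℕ, Q.Prime ∧ 2 ^ J < Q ∧
    ((∃ r' d' b : ℕ, n = Q * r' * d' ∧ 1 ≤ b ∧
      ((r' * b) * Q + 1).Prime ∧ (b : ℝ) * tt n ≤ tt d') ∨
    (∃ r₁ d' f : ℕ, n = Q ^ f * r₁ * d' ∧ 1 ≤ f ∧ r₁ ∣ Q - 1 ∧ 1 ≤ r₁ ∧
      tt n ≤ ((r₁ : ℝ) / Q) * tt d')) := by
  rcases block_cover hn0 with h | ⟨j, hj⟩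
  · exact absurd (Sm_mono hJ h) hn
  · have h1 : J ≤ j + 1 := by
      by_contra hcon
      push Not at hcon
      exact hn (Sm_mono (show j + 1 + 1 ≤ J by omega) hj.1)
    obtain ⟨Q, hQ, hQ1, _, hQ3⟩ := block_struct hj
    refine ⟨Q, hQ, lt_of_le_of_lt (Nat.pow_le_pow_right (by norm_num) h1) hQ1, ?_⟩
    rcases hQ3 with ⟨r', d', b, a1, _, _, a4, a5, a6⟩ | ⟨r₁, d', f, a1, _, a3, a4, a5, a6⟩
    · left; exact ⟨r', d', b, a1, a4, a5, a6⟩
    · right; exact ⟨r₁, d', f, a1, a3, a4, a5, a6⟩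

/-- the set of integers with small `mm n` -/
def Bd (c L : ℝ) : Set ℕ := {n | 1 ≤ n ∧ (mm n : ℝ) ≤ c * n * L}

theorem bad_set : ∀ κ : ℝ, 0 < κ → ∃ c : ℝ, 0 < c ∧ ∃ L₀ : ℝ, 1 ≤ L₀ ∧ ∀ L : ℝ, L₀ ≤ L →
    mu (1 + 1 / (2 * L)) (Bd c L) ≤ ENNReal.ofReal (κ * L) := by
  intro κ hκ
  obtain ⟨C1, hC1, h1⟩ := mu_Sm_le
  obtain ⟨C2, hC2, h2⟩ := case_one
  obtain ⟨C3, hC3, h3⟩ := case_two
  obtain ⟨H, hH, h4⟩ := tight (κ / 12) (by positivity)
  set δ : ℝ := κ / (8 * C1) with hδ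
  have hδ0 : 0 < δ := by positivity
  set c : ℝ := min (κ * δ / (12 * C2 * H)) (κ * δ / (96 * C3)) with hc
  have hc0 : 0 < c := by
    rw [hc]
    apply lt_min <;> positivity
  refine ⟨c, hc0, max 1 (1 / δ), le_max_left _ _, ?_⟩
  intro L hL
  have hL1 : 1 ≤ L := (le_max_left _ _).trans hL
  have hLδ : 1 / δ ≤ L := (le_max_right _ _).trans hL
  have hL0 : 0 < L := by linarith
  have hδL : 1 ≤ δ * L := by
    rw [div_le_iff₀ hδ0] at hLδ
    linarith
  set σ : ℝ := 1 + 1 / (2 * L) with hσd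
  have hσ : 1 < σ := by
    have : 0 < 1 / (2 * L) := by positivity
    linarith
  have hσ2 : σ ≤ 2 := by
    have : 1 / (2 * L) ≤ 1 := by
      rw [div_le_one (by positivity)]
      linarith
    linarith
  have hZ : ZZ σ ≤ ENNReal.ofReal (3 * L) := by
    refine (ZZ_le hσ).trans (ENNReal.ofReal_le_ofReal ?_)
    have : 1 / (σ - 1) = 2 * L := by
      rw [hσd]
      field_simp
      ring
    rw [this]
    linarith
  set J : ℕ := ⌈δ * L⌉₊ with hJd
  have hJ1 : δ * L ≤ J := Nat.le_ceil _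
  have hJ2 : (J : ℝ) ≤ 2 * (δ * L) := by
    have := Nat.ceil_lt_add_one (show 0 ≤ δ * L by positivity)
    linarith
  have hJ : 1 ≤ J := by
    have : (1:ℝ) ≤ J := le_trans hδL hJ1
    exact_mod_cast this
  have hJ' : (0:ℝ) < J := by exact_mod_cast hJ
  set A : ℝ := c * L with hAd
  have hA0 : 0 < A := by positivity
  set S1 : Set ℕ := {n | n ∉ Big H ∧ ∃ Q r' d' b : ℕ, Q.Prime ∧ 2 ^ J < Q ∧ n = Q * r' * d' ∧ r' ≠ 0 ∧ d' ≠ 0 ∧
      1 ≤ b ∧ (b : ℝ) ≤ A * tt d' ∧ ((r' * b) * Q + 1).Prime} with hS1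
  set S2 : Set ℕ := {n | ∃ Q r₁ d' f : ℕ, Q.Prime ∧ 2 ^ J < Q ∧ n = Q ^ f * r₁ * d' ∧ 1 ≤ f ∧ r₁ ∣ Q - 1 ∧ 1 ≤ r₁ ∧
      1 ≤ A * ((r₁ : ℝ) / Q)} with hS2
  have hsub : Bd c L ⊆ Sm J ∪ (Big H ∪ (S1 ∪ S2)) := by
    rintro n ⟨hn1, hn2⟩
    have hn0 : n ≠ 0 := by omega
    have hm0 : (0:ℝ) < mm n := by exact_mod_cast mm_pos hn1
    have hAt : 1 ≤ A * tt n := by
      unfold tt
      rw [← mul_div_assoc, le_div_iff₀ hm0]
      calc 1 * (mm n : ℝ) = mm n := one_mul _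
        _ ≤ c * n * L := hn2
        _ = A * n := by rw [hAd]; ring
    by_cases hs : n ∈ Sm J
    · left; exact hs
    right
    by_cases hB : n ∈ Big H
    · left; exact hB
    right
    obtain ⟨Q, hQ, hQ1, hQ3⟩ := big_struct hn0 hJ hs
    rcases hQ3 with ⟨r', d', b, a1, a4, a5, a6⟩ | ⟨r₁, d', f, a1, a3, a4, a5, a6⟩
    · left
      refine ⟨hB, Q, r', d', b, hQ, hQ1, a1, ?_, ?_, a4, ?_, a5⟩
      · rintro rfl; simp at a1; exact hn0 a1
      · rintro rfl; simp at a1; exact hn0 a1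
      · calc (b : ℝ) = b * 1 := (mul_one _).symm
          _ ≤ b * (A * tt n) := by gcongr
          _ = A * (b * tt n) := by ring
          _ ≤ A * tt d' := by gcongr
    · right
      refine ⟨Q, r₁, d', f, hQ, hQ1, a1, a3, a4, a5, ?_⟩
      calc (1:ℝ) ≤ A * tt n := hAt
        _ ≤ A * (((r₁ : ℝ) / Q) * tt d') := by gcongr
        _ ≤ A * (((r₁ : ℝ) / Q) * 1) := by
            gcongr
            exact tt_le_one d'
        _ = _ := by rw [mul_one]
  have b1 : mu σ (Sm J) ≤ ENNReal.ofReal (κ * L / 4) := by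
    refine (h1 σ hσ J hJ).trans (ENNReal.ofReal_le_ofReal ?_)
    calc C1 * J ≤ C1 * (2 * (δ * L)) := by gcongr
      _ = κ * L / 4 := by rw [hδ]; field_simp; ring
  have b2 : mu σ (Big H) ≤ ENNReal.ofReal (κ * L / 4) := by
    calc mu σ (Big H) ≤ ZZ σ * ENNReal.ofReal (κ / 12) := h4 σ hσ hσ2
      _ ≤ ENNReal.ofReal (3 * L) * ENNReal.ofReal (κ / 12) := by gcongr
      _ = ENNReal.ofReal (κ * L / 4) := by
          rw [← ENNReal.ofReal_mul (by positivity)]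
          congr 1
          ring
  have b3 : mu σ S1 ≤ ENNReal.ofReal (κ * L / 4) := by
    calc mu σ S1 ≤ ZZ σ * ENNReal.ofReal (C2 * A * H / J) := h2 σ hσ J hJ H hH A hA0.le
      _ ≤ ENNReal.ofReal (3 * L) * ENNReal.ofReal (C2 * A * H / J) := by gcongr
      _ ≤ ENNReal.ofReal (κ * L / 4) := by
          rw [← ENNReal.ofReal_mul (by positivity)]
          apply ENNReal.ofReal_le_ofReal
          have hc1 : c ≤ κ * δ / (12 * C2 * H) := min_le_left _ _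
          calc 3 * L * (C2 * A * H / J) ≤ 3 * L * (C2 * A * H / (δ * L)) := by gcongr
            _ = (3 * C2 * H / δ * L) * c := by
                rw [hAd]
                field_simp
            _ ≤ (3 * C2 * H / δ * L) * (κ * δ / (12 * C2 * H)) := by gcongr
            _ = κ * L / 4 := by
                field_simp
                ring
  have b4 : mu σ S2 ≤ ENNReal.ofReal (κ * L / 4) := by
    calc mu σ S2 ≤ ZZ σ * ENNReal.ofReal (C3 * A * ((2:ℝ) ^ J) ^ (-(1/4) : ℝ)) := h3 σ hσ J A hA0.le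
      _ ≤ ENNReal.ofReal (3 * L) * ENNReal.ofReal (C3 * A * ((2:ℝ) ^ J) ^ (-(1/4) : ℝ)) := by gcongr
      _ ≤ ENNReal.ofReal (κ * L / 4) := by
          rw [← ENNReal.ofReal_mul (by positivity)]
          apply ENNReal.ofReal_le_ofReal
          have hc1 : c ≤ κ * δ / (96 * C3) := min_le_right _ _
          have hd := decay_J J
          set y := ((2:ℝ) ^ J) ^ (-(1/4) : ℝ) with hy
          have hy0 : 0 ≤ y := by positivity
          have hLJ : L ≤ J / δ := by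
            rw [le_div_iff₀ hδ0]
            linarith
          calc 3 * L * (C3 * A * y) = (3 * C3 * c * L) * (L * y) := by rw [hAd]; ring
            _ ≤ (3 * C3 * c * L) * ((J / δ) * y) := by gcongr
            _ = (3 * C3 * c * L) / δ * (J * y) := by ring
            _ ≤ (3 * C3 * c * L) / δ * 8 := by gcongr
            _ = (24 * C3 * L / δ) * c := by ring
            _ ≤ (24 * C3 * L / δ) * (κ * δ / (96 * C3)) := by gcongr
            _ = κ * L / 4 := by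
                field_simp
                ring
  calc mu σ (Bd c L) ≤ mu σ (Sm J ∪ (Big H ∪ (S1 ∪ S2))) := mu_mono σ hsub
    _ ≤ mu σ (Sm J) + (mu σ (Big H) + (mu σ S1 + mu σ S2)) := by
        refine (mu_union_le _ _ _).trans (add_le_add le_rfl ?_)
        refine (mu_union_le _ _ _).trans (add_le_add le_rfl ?_)
        exact mu_union_le _ _ _
    _ ≤ ENNReal.ofReal (κ * L / 4) + (ENNReal.ofReal (κ * L / 4) + (ENNReal.ofReal (κ * L / 4) + ENNReal.ofReal (κ * L / 4))) := by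
        gcongr
    _ = ENNReal.ofReal (κ * L) := by
        rw [← ENNReal.ofReal_add (by positivity) (by positivity), ← ENNReal.ofReal_add (by positivity) (by positivity),
          ← ENNReal.ofReal_add (by positivity) (by positivity)]
        congr 1
        ring

end Pool.Agent.Erdos456
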