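import Mathlib
import Pool.Agent.Erdos456.Bad3

set_option autoImplicit false

open scoped ENNReal
open Filter Topology

namespace Pool.Agent.Erdos456

theorem zp_le_one {σ : ℝ} (hσ : 1 < σ) (n : ℕ) : zp σ n ≤ 1 := by
  rcases Nat.eq_zero_or_pos n with rfl | hn
  · rw [zp_zero (by linarith)]; exact zero_le
  · refine (zp_le_inv hσ hn).trans ?_
    rw [← ENNReal.ofReal_one]
    apply ENNReal.ofReal_le_ofReal
    exact inv_le_one_of_one_le₀ (by exact_mod_cast hn)

theorem mu_Iio_le {σ : ℝ} (hσ : 1 < σ) (N : ℕ) : mu σ (Set.Iio N) ≤ ENNReal.ofReal N := by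
  unfold mu
  rw [tsum_eq_sum (s := Finset.range N)]
  · calc ∑ n ∈ Finset.range N, (Set.Iio N).indicator (zp σ) n ≤ ∑ n ∈ Finset.range N, (1 : ℝ≥0∞) := by
          apply Finset.sum_le_sum
          intro n hn
          rw [Set.indicator_of_mem (by simpa using hn)]
          exact zp_le_one hσ n
      _ = _ := by simp
  · intro n hn
    rw [Set.indicator_of_notMem]
    simpa using hn

theorem mu_tsum_union_le (σ : ℝ) (E : Set ℕ) (F : ℕ → Set ℕ) (h : E ⊆ ⋃ k, F k) : mu σ E ≤ ∑' k, mu σ (F k) := by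
  unfold mu
  rw [ENNReal.tsum_comm]
  apply ENNReal.tsum_le_tsum
  intro n
  by_cases hn : n ∈ E
  · rw [Set.indicator_of_mem hn]
    obtain ⟨k, hk⟩ := Set.mem_iUnion.mp (h hn)
    calc zp σ n = (F k).indicator (zp σ) n := by rw [Set.indicator_of_mem hk]
      _ ≤ _ := ENNReal.le_tsum (f := fun k => (F k).indicator (zp σ) n) k
  · rw [Set.indicator_of_notMem hn]; exact zero_le

/-- sets of density zero are negligible -/
theorem mu_density_zero {T : Set ℕ}
    (hT : Tendsto (fun N : ℕ => ((T ∩ Set.Iio N).ncard : ℝ) / (N : ℝ)) atTop (𝓝 0)) :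
    ∀ ε : ℝ, 0 < ε → ∃ K : ℝ, 0 < K ∧ ∀ L : ℝ, 1 ≤ L → mu (1 + 1 / (2 * L)) T ≤ ENNReal.ofReal (K + ε * L) := by
  intro ε hε
  have h1 : ∀ᶠ N : ℕ in atTop, ((T ∩ Set.Iio N).ncard : ℝ) / (N : ℝ) < ε / 8 :=
    hT.eventually (gt_mem_nhds (by positivity))
  obtain ⟨N0, hN0⟩ := eventually_atTop.mp h1
  refine ⟨N0 + 1, by positivity, ?_⟩
  intro L hL
  have hL0 : 0 < L := by linarith
  set σ : ℝ := 1 + 1 / (2 * L) with hσd
  have hσ : 1 < σ := by
    have : 0 < 1 / (2 * L) := by positivity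
    linarith
  -- cover
  have hcov : T ⊆ Set.Iio (N0 + 1) ∪ (⋃ k : ℕ, {n | n ∈ T ∧ N0 ≤ 2 ^ (k + 1) ∧ 2 ^ k ≤ n ∧ n < 2 ^ (k + 1)}) := by
    intro n hn
    by_cases hn0 : n < N0 + 1
    · left; exact hn0
    · right
      push Not at hn0
      rw [Set.mem_iUnion]
      refine ⟨Nat.log 2 n, hn, ?_, ?_, ?_⟩
      · have := Nat.lt_pow_succ_log_self (b := 2) (by norm_num) n
        simp only [Nat.succ_eq_add_one] at this
        omega
      · exact Nat.pow_log_le_self 2 (by omega)
      · exact Nat.lt_pow_succ_log_self (by norm_num) n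
  refine (mu_mono σ hcov).trans ((mu_union_le _ _ _).trans ?_)
  have hA := mu_Iio_le hσ (N0 + 1)
  have hB : mu σ (⋃ k : ℕ, {n | n ∈ T ∧ N0 ≤ 2 ^ (k + 1) ∧ 2 ^ k ≤ n ∧ n < 2 ^ (k + 1)}) ≤
      ENNReal.ofReal (ε * L) := by
    refine (mu_tsum_union_le σ _ _ subset_rfl).trans ?_
    have hx0 : 0 < (2:ℝ) ^ (-(1 / (2 * L))) := by positivity
    have hx1 : (2:ℝ) ^ (-(1 / (2 * L))) < 1 := by
      apply Real.rpow_lt_one_of_one_lt_of_neg (by norm_num)
      have : 0 < 1 / (2 * L) := by positivity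
      linarith
    set x := (2:ℝ) ^ (-(1 / (2 * L))) with hx
    have hk : ∀ k : ℕ, mu σ {n | n ∈ T ∧ N0 ≤ 2 ^ (k + 1) ∧ 2 ^ k ≤ n ∧ n < 2 ^ (k + 1)} ≤
        ENNReal.ofReal (ε / 4 * x ^ k) := by
      intro k
      by_cases hk : N0 ≤ 2 ^ (k + 1)
      · have h2 := hN0 (2 ^ (k + 1)) hk
        rw [div_lt_iff₀ (by positivity)] at h2
        have hfin : (T ∩ Set.Iio (2 ^ (k + 1))).Finite := Set.Finite.inter_of_right (Set.finite_Iio _) _
        unfold mu
        rw [tsum_eq_sum (s := hfin.toFinset)]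
        · calc ∑ n ∈ hfin.toFinset, {n | n ∈ T ∧ N0 ≤ 2 ^ (k + 1) ∧ 2 ^ k ≤ n ∧ n < 2 ^ (k + 1)}.indicator (zp σ) n
              ≤ ∑ n ∈ hfin.toFinset, ENNReal.ofReal (((2:ℝ) ^ k) ^ (-σ)) := by
                apply Finset.sum_le_sum
                intro n _
                by_cases hn : n ∈ {n | n ∈ T ∧ N0 ≤ 2 ^ (k + 1) ∧ 2 ^ k ≤ n ∧ n < 2 ^ (k + 1)}
                · rw [Set.indicator_of_mem hn]
                  unfold zp
                  apply ENNReal.ofReal_le_ofReal
                  apply Real.rpow_le_rpow_of_nonpos (by positivity) _ (by linarith)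
                  exact_mod_cast hn.2.2.1
                · rw [Set.indicator_of_notMem hn]
                  exact zero_le
            _ = ENNReal.ofReal (((T ∩ Set.Iio (2 ^ (k + 1))).ncard : ℝ) * ((2:ℝ) ^ k) ^ (-σ)) := by
                rw [Finset.sum_const, nsmul_eq_mul, ENNReal.ofReal_mul (by positivity), ENNReal.ofReal_natCast,
                  Set.ncard_eq_toFinset_card _ hfin]
            _ ≤ _ := by
                apply ENNReal.ofReal_le_ofReal
                have e1 : ((2:ℝ) ^ k) ^ (-σ) = ((2:ℝ) ^ k)⁻¹ * x ^ k := by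
                  rw [hσd, hx, neg_add, Real.rpow_add (by positivity), Real.rpow_neg_one, ← Real.rpow_natCast,
                    ← Real.rpow_mul (by norm_num), ← Real.rpow_natCast, ← Real.rpow_mul (by norm_num)]
                  congr 2
                  ring
                rw [e1]
                push_cast at h2
                calc ((T ∩ Set.Iio (2 ^ (k + 1))).ncard : ℝ) * (((2:ℝ) ^ k)⁻¹ * x ^ k)
                    ≤ (ε / 8 * 2 ^ (k + 1)) * (((2:ℝ) ^ k)⁻¹ * x ^ k) := by
                      gcongr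
                  _ = ε / 4 * x ^ k := by
                      rw [pow_succ]
                      field_simp
                      ring
        · intro n hn
          rw [Set.indicator_of_notMem]
          intro hn'
          apply hn
          rw [Set.Finite.mem_toFinset]
          exact ⟨hn'.1, hn'.2.2.2⟩
      · have : {n | n ∈ T ∧ N0 ≤ 2 ^ (k + 1) ∧ 2 ^ k ≤ n ∧ n < 2 ^ (k + 1)} = (∅ : Set ℕ) := by
          ext n
          simp only [Set.mem_ofPred_eq, Set.mem_empty_iff_false, iff_false]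
          rintro ⟨_, h, _⟩
          exact hk h
        rw [this]
        unfold mu
        simp
    refine (ENNReal.tsum_le_tsum hk).trans ?_
    have hs := summable_geometric_of_lt_one hx0.le hx1
    rw [← ENNReal.ofReal_tsum_of_nonneg (fun i => by positivity) (hs.mul_left _), tsum_mul_left,
      tsum_geometric_of_lt_one hx0.le hx1]
    apply ENNReal.ofReal_le_ofReal
    -- (1 - x)⁻¹ ≤ 4 L
    have h4 : (1 - x)⁻¹ ≤ 4 * L := by
      rw [inv_le_iff_one_le_mul₀ (by linarith)]
      -- x ≤ 1 - 1/(4L)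
      have h5 : x ≤ 1 - 1 / (4 * L) := by
        have h6 : x = Real.exp (-(Real.log 2 / (2 * L))) := by
          rw [hx, Real.rpow_def_of_pos (by norm_num)]
          congr 1
          ring
        set y := Real.log 2 / (2 * L) with hy
        have hl := Real.log_two_gt_d9
        have hl' := Real.log_two_lt_d9
        have hy0 : 0 ≤ y := by positivity
        have hy1 : y ≤ 1 := by
          rw [hy, div_le_one (by positivity)]
          linarith
        have h7 : Real.exp (-y) ≤ 1 - y + y ^ 2 / 2 := by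
          have h8 := Real.exp_bound_div_one_sub_of_interval hy0 (x := y)
          have h9 : Real.exp (-y) * Real.exp y = 1 := by rw [← Real.exp_add]; simp
          have h10 : 1 + y + y ^ 2 / 2 ≤ Real.exp y := Real.quadratic_le_exp_of_nonneg hy0
          have h11 : 0 < Real.exp (-y) := Real.exp_pos _
          have h12 : Real.exp (-y) ≤ (1 + y + y ^ 2 / 2)⁻¹ := by
            rw [Real.exp_neg]
            exact inv_anti₀ (by positivity) h10
          refine h12.trans ?_
          rw [inv_le_iff_one_le_mul₀ (by positivity)]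
          nlinarith [pow_nonneg hy0 4, pow_nonneg hy0 3, pow_nonneg hy0 2]
        rw [h6]
        have h13 : y = Real.log 2 / 2 * (1 / L) := by rw [hy]; field_simp
        have h14 : 1 / (4 * L) = 1 / 4 * (1 / L) := by field_simp
        have h15 : 0 < 1 / L := by positivity
        have h16 : 1 / L ≤ 1 := by rw [div_le_one hL0]; exact hL
        have h17 : y ≤ 0.35 := by
          rw [h13]
          nlinarith
        rw [h14]
        nlinarith
      have h6 : 1 / (4 * L) ≤ 1 - x := by linarith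
      calc (1:ℝ) = 4 * L * (1 / (4 * L)) := by field_simp
        _ ≤ 4 * L * (1 - x) := by gcongr
    calc ε / 4 * (1 - x)⁻¹ ≤ ε / 4 * (4 * L) := by gcongr
      _ = ε * L := by ring
  calc mu σ (Set.Iio (N0 + 1)) + mu σ (⋃ k : ℕ, {n | n ∈ T ∧ N0 ≤ 2 ^ (k + 1) ∧ 2 ^ k ≤ n ∧ n < 2 ^ (k + 1)})
      ≤ ENNReal.ofReal ((N0 + 1 : ℕ) : ℝ) + ENNReal.ofReal (ε * L) := add_le_add hA hB
    _ = _ := by
        rw [← ENNReal.ofReal_add (by positivity) (by positivity)]
        push_cast
        rfl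

/-- complement of a set of density one -/
theorem compl_density {S : Set ℕ}
    (hS : Tendsto (fun N : ℕ => ((S ∩ Set.Iio N).ncard : ℝ) / (N : ℝ)) atTop (𝓝 1)) :
    Tendsto (fun N : ℕ => ((Sᶜ ∩ Set.Iio N).ncard : ℝ) / (N : ℝ)) atTop (𝓝 0) := by
  have h1 : Tendsto (fun N : ℕ => 1 - ((S ∩ Set.Iio N).ncard : ℝ) / (N : ℝ)) atTop (𝓝 (1 - 1)) :=
    tendsto_const_nhds.sub hS
  rw [sub_self] at h1
  refine h1.congr' ?_
  filter_upwards [eventually_ge_atTop 1] with N hN
  have hN' : (0:ℝ) < N := by exact_mod_cast hN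
  have h2 : (S ∩ Set.Iio N).ncard + (Sᶜ ∩ Set.Iio N).ncard = N := by
    have h3 := Set.ncard_inter_add_ncard_sdiff_eq_ncard (Set.Iio N) S (Set.finite_Iio N)
    have h4 : (Set.Iio N).ncard = N := by
      rw [Set.ncard_eq_toFinset_card' , Set.toFinset_Iio, Nat.card_Iio]
    rw [h4, Set.inter_comm] at h3
    have h5 : Set.Iio N \ S = Sᶜ ∩ Set.Iio N := by
      ext n
      simp only [Set.mem_sdiff, Set.mem_inter_iff, Set.mem_compl_iff]
      tauto
    rw [h5] at h3
    exact h3
  have h6 : ((S ∩ Set.Iio N).ncard : ℝ) + ((Sᶜ ∩ Set.Iio N).ncard : ℝ) = N := by exact_mod_cast h2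
  rw [eq_comm, div_eq_iff hN'.ne', sub_mul, one_mul, div_mul_cancel₀ _ hN'.ne']
  linarith

end Pool.Agent.Erdos456
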