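import Mathlib
import Pool.Agent.Erdos456.Final1

set_option autoImplicit false

open scoped ENNReal
open Filter Topology

namespace Pool.Agent.Erdos456

/-- the set of `n` having a small prime `a n + 1` -/
def Gd (L : ℝ) : Set ℕ := {n | 1 ≤ n ∧ ∃ a : ℕ, 1 ≤ a ∧ (a : ℝ) ≤ L ∧ (a * n + 1).Prime}

/-- real and extended versions of the weight of `Gd` -/
theorem mu_of_tsum {σ : ℝ} (hσ : 1 < σ) (E : Set ℕ) :
    mu σ E = ENNReal.ofReal (∑' n : ℕ, E.indicator (fun n : ℕ => (n : ℝ) ^ (-σ)) n) := by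
  have hs : Summable (fun n : ℕ => (n : ℝ) ^ (-σ)) := Real.summable_nat_rpow.mpr (by linarith)
  unfold mu
  rw [ENNReal.ofReal_tsum_of_nonneg (fun n => Set.indicator_nonneg (fun _ _ => by positivity) n) (hs.indicator E)]
  apply tsum_congr
  intro n
  by_cases hn : n ∈ E
  · rw [Set.indicator_of_mem hn, Set.indicator_of_mem hn]; rfl
  · rw [Set.indicator_of_notMem hn, Set.indicator_of_notMem hn]; simp

/-- the final contradiction -/
theorem final_core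
    (hM : ∃ κ : ℝ, 0 < κ ∧ ∃ L₀ : ℝ, ∀ L : ℝ, L₀ ≤ L → ENNReal.ofReal (κ * L) ≤ mu (1 + 1 / (2 * L)) (Gd L)) :
    ¬ (∃ S : Set ℕ,
      Tendsto (fun N : ℕ => ((S ∩ Set.Iio N).ncard : ℝ) / (N : ℝ)) atTop (𝓝 1) ∧
      Tendsto
        (fun n : ℕ =>
          ((sInf {p : ℕ | p.Prime ∧ p ≡ 1 [MOD n]} : ℕ) : ℝ) /
            ((sInf {m : ℕ | 0 < m ∧ n ∣ Nat.totient m} : ℕ) : ℝ))
        (atTop ⊓ 𝓟 S) atTop) := by
  rintro ⟨S, hS, hT⟩
  obtain ⟨κ, hκ, L₀, hκL⟩ := hM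
  obtain ⟨c, hc, L₁, hL₁, hbad⟩ := bad_set (κ / 4) (by positivity)
  obtain ⟨K, hK, hcompl⟩ := mu_density_zero (compl_density hS) (κ / 4) (by positivity)
  have h1 := hT.eventually (eventually_gt_atTop (2 / c))
  rw [eventually_inf_principal] at h1
  obtain ⟨N0, hN0⟩ := eventually_atTop.mp h1
  set L : ℝ := max (max L₀ L₁) (4 * (K + N0 + 1) / κ) with hL
  have hLa : L₀ ≤ L := (le_max_left _ _).trans (le_max_left _ _)
  have hLb : L₁ ≤ L := (le_max_right _ _).trans (le_max_left _ _)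
  have hLc : 4 * (K + N0 + 1) / κ ≤ L := le_max_right _ _
  have hL1 : 1 ≤ L := hL₁.trans hLb
  have hL0 : 0 < L := by linarith
  set σ : ℝ := 1 + 1 / (2 * L) with hσd
  have hσ : 1 < σ := by
    have : 0 < 1 / (2 * L) := by positivity
    linarith
  have hsub : Gd L ⊆ Bd c L ∪ (Set.Iio N0 ∪ Sᶜ) := by
    rintro n ⟨hn1, a, ha1, ha2, hap⟩
    by_cases hB : n ∈ Bd c L
    · left; exact hB
    right
    by_cases hn0 : n < N0
    · left; exact hn0
    right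
    intro hnS
    push Not at hn0
    have h2 := hN0 n hn0 hnS
    have hm : c * n * L < mm n := by
      by_contra hcon
      push Not at hcon
      exact hB ⟨hn1, hcon⟩
    have hn' : (1:ℝ) ≤ n := by exact_mod_cast hn1
    have hm0 : (0:ℝ) < mm n := lt_trans (by positivity) hm
    have hp : sInf {p : ℕ | p.Prime ∧ p ≡ 1 [MOD n]} ≤ a * n + 1 := by
      apply Nat.sInf_le
      refine ⟨hap, ?_⟩
      unfold Nat.ModEq
      rw [Nat.add_mod, Nat.mul_mod_left, zero_add, Nat.mod_mod]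
    have hp' : ((sInf {p : ℕ | p.Prime ∧ p ≡ 1 [MOD n]} : ℕ) : ℝ) ≤ 2 * L * n := by
      calc ((sInf {p : ℕ | p.Prime ∧ p ≡ 1 [MOD n]} : ℕ) : ℝ) ≤ ((a * n + 1 : ℕ) : ℝ) := by exact_mod_cast hp
        _ = a * n + 1 := by push_cast; ring
        _ ≤ L * n + L * n := by
            have h3 : (a : ℝ) * n ≤ L * n := by gcongr
            have h4 : (1:ℝ) ≤ L * n := by nlinarith
            linarith
        _ = 2 * L * n := by ring
    have h3 : ((sInf {p : ℕ | p.Prime ∧ p ≡ 1 [MOD n]} : ℕ) : ℝ) / (mm n : ℝ) ≤ 2 / c := by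
      rw [div_le_div_iff₀ hm0 hc]
      calc ((sInf {p : ℕ | p.Prime ∧ p ≡ 1 [MOD n]} : ℕ) : ℝ) * c ≤ 2 * L * n * c := by gcongr
        _ = 2 * (c * n * L) := by ring
        _ ≤ 2 * mm n := by linarith
    exact absurd h2 (not_lt.mpr h3)
  have h2 : ENNReal.ofReal (κ * L) ≤ ENNReal.ofReal (κ / 4 * L) + (ENNReal.ofReal N0 + ENNReal.ofReal (K + κ / 4 * L)) := by
    calc ENNReal.ofReal (κ * L) ≤ mu σ (Gd L) := hκL L hLa
      _ ≤ mu σ (Bd c L ∪ (Set.Iio N0 ∪ Sᶜ)) := mu_mono σ hsub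
      _ ≤ mu σ (Bd c L) + (mu σ (Set.Iio N0) + mu σ Sᶜ) := by
          refine (mu_union_le _ _ _).trans (add_le_add le_rfl (mu_union_le _ _ _))
      _ ≤ _ := add_le_add (hbad L hLb) (add_le_add (mu_Iio_le hσ N0) (hcompl L hL1))
  rw [← ENNReal.ofReal_add (by positivity) (by positivity), ← ENNReal.ofReal_add (by positivity) (by positivity),
    ENNReal.ofReal_le_ofReal_iff (by positivity)] at h2
  rw [div_le_iff₀ hκ] at hLc
  have hN0' : (0:ℝ) ≤ N0 := by positivity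
  nlinarith

/-- conversion from the real-valued second moment statement -/
theorem many_conv
    (hM : ∃ κ : ℝ, 0 < κ ∧ ∃ L₀ : ℝ, ∀ L : ℝ, L₀ ≤ L → κ * L ≤ ∑' n : ℕ,
      (open Classical in if (1 ≤ n ∧ ∃ a : ℕ, 1 ≤ a ∧ (a : ℝ) ≤ L ∧ (a * n + 1).Prime) then (n : ℝ) ^ (-(1 + 1 / (2 * L))) else 0)) :
    ∃ κ : ℝ, 0 < κ ∧ ∃ L₀ : ℝ, ∀ L : ℝ, L₀ ≤ L → ENNReal.ofReal (κ * L) ≤ mu (1 + 1 / (2 * L)) (Gd L) := by
  obtain ⟨κ, hκ, L₀, h⟩ := hM
  refine ⟨κ, hκ, max L₀ 1, ?_⟩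
  intro L hL
  have hL1 : 1 ≤ L := (le_max_right _ _).trans hL
  have hσ : 1 < 1 + 1 / (2 * L) := by
    have : 0 < 1 / (2 * L) := by positivity
    linarith
  rw [mu_of_tsum hσ]
  apply ENNReal.ofReal_le_ofReal
  refine (h L ((le_max_left _ _).trans hL)).trans (le_of_eq ?_)
  apply tsum_congr
  intro n
  by_cases hn : n ∈ Gd L
  · rw [Set.indicator_of_mem hn, if_pos]
    exact hn
  · rw [Set.indicator_of_notMem hn, if_neg]
    exact hn

end Pool.Agent.Erdos456
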