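import Mathlib
import Pool.Agent.Erdos456.Bad1

set_option autoImplicit false

open scoped ENNReal

namespace Pool.Agent.Erdos456

/-- primes in `(2 ^ Z, 2 ^ j]` -/
def QQ (Z j : ℕ) : Finset ℕ := PP j \ PP Z

theorem mem_QQ {Z j p : ℕ} : p ∈ QQ Z j ↔ p.Prime ∧ p ≤ 2 ^ j ∧ 2 ^ Z < p := by
  unfold QQ
  rw [Finset.mem_sdiff, mem_PP, mem_PP]
  constructor
  · rintro ⟨⟨h1, h2⟩, h3⟩
    refine ⟨h1, h2, ?_⟩
    by_contra h
    exact h3 ⟨h1, not_lt.mp h⟩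
  · rintro ⟨h1, h2, h3⟩
    exact ⟨⟨h1, h2⟩, fun h => absurd h.2 (not_le.mpr h3)⟩

theorem mertens_QQ : ∃ C : ℝ, 0 < C ∧ ∀ Z j : ℕ, 1 ≤ Z → Z ≤ j →
    ∑ p ∈ QQ Z j, (p : ℝ)⁻¹ ≤ Real.log ((j : ℝ) / Z) + C := by
  obtain ⟨C1, hC1, h1⟩ := mertens_upper
  obtain ⟨C2, hC2, h2⟩ := mertens_lower
  refine ⟨C1 + C2, by positivity, ?_⟩
  intro Z j hZ hj
  have hZ' : (0:ℝ) < Z := by exact_mod_cast hZ
  have hj' : (0:ℝ) < j := by exact_mod_cast (by omega : 0 < j)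
  have h3 := h1 j (by omega)
  have h4 := h2 Z hZ
  have h5 : ∑ p ∈ QQ Z j, (p : ℝ)⁻¹ + ∑ p ∈ PP Z, (p : ℝ)⁻¹ = ∑ p ∈ PP j, (p : ℝ)⁻¹ := by
    unfold QQ
    exact Finset.sum_sdiff (PP_mono hj)
  rw [Real.log_div hj'.ne' hZ'.ne']
  unfold PP at h5
  linarith

/-- rough numbers -/
def Rg (Z : ℕ) : Set ℕ := {n | n ≠ 0 ∧ ∀ p : ℕ, p.Prime → p ∣ n → 2 ^ Z < p}

/-- smooth and rough numbers -/
def SR (Z j : ℕ) : Set ℕ := {n | n ∈ Sm j ∧ n ∈ Rg Z}

theorem Rg_dvd {Z m n : ℕ} (h : n ∈ Rg Z) (hmn : m ∣ n) : m ∈ Rg Z := by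
  refine ⟨fun h0 => h.1 (by rw [h0] at hmn; exact Nat.eq_zero_of_zero_dvd hmn), ?_⟩
  intro p hp hpm
  exact h.2 p hp (hpm.trans hmn)

theorem Rg_mul {Z m n : ℕ} (hm : m ∈ Rg Z) (hn : n ∈ Rg Z) : m * n ∈ Rg Z := by
  refine ⟨mul_ne_zero hm.1 hn.1, ?_⟩
  intro p hp hpm
  rcases hp.dvd_mul.mp hpm with h | h
  · exact hm.2 p hp h
  · exact hn.2 p hp h

theorem Rg_prime {Z Q : ℕ} (hQ : Q.Prime) (h : 2 ^ Z < Q) : Q ∈ Rg Z := by
  refine ⟨hQ.ne_zero, ?_⟩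
  intro p hp hpQ
  rw [(Nat.prime_dvd_prime_iff_eq hp hQ).mp hpQ]
  exact h

theorem SR_dvd {Z j m n : ℕ} (h : n ∈ SR Z j) (hmn : m ∣ n) : m ∈ SR Z j :=
  ⟨Sm_dvd h.1 hmn, Rg_dvd h.2 hmn⟩

theorem SR_eq {Z j : ℕ} : SR Z j = Nat.factoredNumbers (QQ Z j) := by
  ext n
  rw [Nat.mem_factoredNumbers_iff_primeFactors_subset]
  constructor
  · rintro ⟨h1, h2⟩
    refine ⟨h2.1, ?_⟩
    intro p hp
    rw [Nat.mem_primeFactors] at hp
    rw [mem_QQ]
    exact ⟨hp.1, (mem_Sm.mp h1).2 p hp.1 hp.2.1, h2.2 p hp.1 hp.2.1⟩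
  · rintro ⟨h1, h2⟩
    refine ⟨mem_Sm.mpr ⟨h1, ?_⟩, h1, ?_⟩
    · intro p hp hpn
      exact (mem_QQ.mp (h2 (Nat.mem_primeFactors.mpr ⟨hp, hpn, h1⟩))).2.1
    · intro p hp hpn
      exact (mem_QQ.mp (h2 (Nat.mem_primeFactors.mpr ⟨hp, hpn, h1⟩))).2.2

theorem QQ_filter (Z j : ℕ) : (QQ Z j).filter (fun p => p.Prime) = QQ Z j := by
  apply Finset.filter_true_of_mem
  intro p hp
  exact (mem_QQ.mp hp).1

/-- sum of `uu` over smooth rough numbers -/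
noncomputable def UUR (Z j : ℕ) : ℝ≥0∞ := ∑' n : ℕ, (SR Z j).indicator uu n

theorem UUR_le : ∃ C : ℝ, 0 < C ∧ ∀ Z j : ℕ, 1 ≤ Z → Z ≤ j →
    UUR Z j ≤ ENNReal.ofReal (C * Real.sqrt ((j : ℝ) / Z)) := by
  obtain ⟨C, hC, h⟩ := mertens_QQ
  refine ⟨Real.exp (C / 2 + 2), by positivity, ?_⟩
  intro Z j hZ hj
  have hZ' : (0:ℝ) < Z := by exact_mod_cast hZ
  have hj' : (0:ℝ) < j := by exact_mod_cast (by omega : 0 < j)
  have hE := EulerProduct.summable_and_hasSum_factoredNumbers_prod_filter_prime_geometric (f := uuHom)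
    (fun {p} hp => by
      have h2 : (2:ℝ) ≤ p := by exact_mod_cast hp.two_le
      simp only [uuHom, MonoidHom.coe_mk, OneHom.coe_mk, ArithmeticFunction.cardFactors_apply_prime hp, pow_one]
      rw [Real.norm_of_nonneg (by positivity), div_lt_one (by positivity)]
      linarith) (QQ Z j)
  obtain ⟨_, h2⟩ := hE
  have hA : UUR Z j = ENNReal.ofReal (∏ p ∈ QQ Z j, (1 - (1/2 : ℝ) / p)⁻¹) := by
    unfold UUR
    rw [SR_eq, ← tsum_subtype (Nat.factoredNumbers (QQ Z j)) uu]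
    have h3 : ∀ x : Nat.factoredNumbers (QQ Z j), uu x = ENNReal.ofReal (uuHom x) := fun x => rfl
    rw [tsum_congr h3, ← ENNReal.ofReal_tsum_of_nonneg]
    · congr 1
      rw [h2.tsum_eq, QQ_filter]
      apply Finset.prod_congr rfl
      intro p hp
      have hp' := (mem_QQ.mp hp).1
      simp only [uuHom, MonoidHom.coe_mk, OneHom.coe_mk, ArithmeticFunction.cardFactors_apply_prime hp', pow_one]
    · intro n
      simp only [uuHom, MonoidHom.coe_mk, OneHom.coe_mk]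
      positivity
    · exact h2.summable
  rw [hA]
  apply ENNReal.ofReal_le_ofReal
  have h1 : ∏ p ∈ QQ Z j, (1 - (1/2 : ℝ) / p)⁻¹ ≤
      ∏ p ∈ QQ Z j, Real.exp (1/2 * (p : ℝ)⁻¹ + ((p : ℝ)⁻¹) ^ 2) := by
    apply Finset.prod_le_prod
    · intro p hp
      have h2 : (2:ℝ) ≤ p := by exact_mod_cast (mem_QQ.mp hp).1.two_le
      rw [inv_nonneg, sub_nonneg, div_le_one (by positivity)]
      linarith
    · intro p hp
      have h2 : (2:ℝ) ≤ p := by exact_mod_cast (mem_QQ.mp hp).1.two_le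
      set x := (p : ℝ)⁻¹ with hx
      have hx0 : 0 < x := by positivity
      have hx1 : x ≤ 1/2 := by rw [hx, one_div]; exact inv_anti₀ (by norm_num) h2
      have h3 : (1/2 : ℝ) / p = x / 2 := by rw [hx]; ring
      rw [h3]
      have h4 : (1 - x/2)⁻¹ ≤ 1 + (1/2 * x + x^2) := by
        rw [inv_le_iff_one_le_mul₀ (by linarith)]
        nlinarith
      have := Real.add_one_le_exp (1/2 * x + x^2)
      linarith
  rw [← Real.exp_sum] at h1
  refine h1.trans ?_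
  have h5 : ∑ p ∈ QQ Z j, (1/2 * (p : ℝ)⁻¹ + ((p : ℝ)⁻¹) ^ 2) ≤
      1/2 * (Real.log ((j : ℝ) / Z) + C) + 2 := by
    rw [Finset.sum_add_distrib, ← Finset.mul_sum]
    have h6 := h Z j hZ hj
    have h7 := sum_inv_sq_le (QQ Z j) (fun p hp => (mem_QQ.mp hp).1.one_lt.le)
    linarith
  calc Real.exp (∑ p ∈ QQ Z j, (1/2 * (p : ℝ)⁻¹ + ((p : ℝ)⁻¹) ^ 2))
      ≤ Real.exp (1/2 * (Real.log ((j : ℝ) / Z) + C) + 2) := Real.exp_le_exp.mpr h5
    _ = Real.exp (C/2 + 2) * Real.sqrt ((j : ℝ) / Z) := by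
        rw [Real.sqrt_eq_rpow, Real.rpow_def_of_pos (by positivity), ← Real.exp_add]
        congr 1
        ring

/-- weighted sum over smooth rough numbers -/
theorem UU2R_le : ∃ C : ℝ, 0 < C ∧ ∀ Z j : ℕ, 1 ≤ Z → Z ≤ j →
    ∑' r : ℕ, (SR Z j).indicator (fun r => ENNReal.ofReal (GG r ^ 2) * uu r) r ≤
      ENNReal.ofReal (C * Real.sqrt ((j : ℝ) / Z)) := by
  obtain ⟨C1, hC1, h1⟩ := GG_sq_le
  obtain ⟨C2, hC2, h2⟩ := UUR_le
  obtain ⟨C3, hC3, h3⟩ := tsum_rpow_fin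
  refine ⟨C1 * C3 * C2, by positivity, ?_⟩
  intro Z j hZ hj
  have hA : ∀ r : ℕ, (SR Z j).indicator (fun r => ENNReal.ofReal (GG r ^ 2) * uu r) r ≤
      ∑ e ∈ r.divisors, ENNReal.ofReal C1 * ((SR Z j).indicator uu r * ENNReal.ofReal ((e : ℝ) ^ (-(1/2) : ℝ))) := by
    intro r
    by_cases hr : r ∈ SR Z j
    · rw [Set.indicator_of_mem hr, Set.indicator_of_mem hr, ← Finset.mul_sum, ← Finset.mul_sum,
        ← ENNReal.ofReal_sum_of_nonneg (fun i _ => by positivity)]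
      calc ENNReal.ofReal (GG r ^ 2) * uu r
          ≤ ENNReal.ofReal (C1 * ∑ d ∈ r.divisors, (d : ℝ) ^ (-(1/2) : ℝ)) * uu r := by
            gcongr
            exact h1 r
        _ = _ := by
            rw [ENNReal.ofReal_mul hC1.le]
            ring
    · rw [Set.indicator_of_notMem hr]
      exact zero_le
  calc ∑' r : ℕ, (SR Z j).indicator (fun r => ENNReal.ofReal (GG r ^ 2) * uu r) r
      ≤ ∑' r : ℕ, ∑ e ∈ r.divisors, ENNReal.ofReal C1 * ((SR Z j).indicator uu r * ENNReal.ofReal ((e : ℝ) ^ (-(1/2) : ℝ))) :=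
        ENNReal.tsum_le_tsum hA
    _ ≤ ∑' e : ℕ, ∑' s : ℕ, if e = 0 then 0 else ENNReal.ofReal C1 * ((SR Z j).indicator uu (e * s) * ENNReal.ofReal ((e : ℝ) ^ (-(1/2) : ℝ))) :=
        tsum_divisors_le _
    _ ≤ ∑' e : ℕ, ∑' s : ℕ, ENNReal.ofReal C1 * (ENNReal.ofReal ((e : ℝ)⁻¹ * (e : ℝ) ^ (-(1/2) : ℝ)) * (SR Z j).indicator uu s) := by
        apply ENNReal.tsum_le_tsum
        intro e
        apply ENNReal.tsum_le_tsum
        intro s
        split_ifs with he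
        · exact zero_le
        · by_cases hes : e * s ∈ SR Z j
          · have hs : s ∈ SR Z j := SR_dvd hes (Dvd.intro_left _ rfl)
            rw [Set.indicator_of_mem hes, Set.indicator_of_mem hs, uu_mul, ENNReal.ofReal_mul (by positivity)]
            calc ENNReal.ofReal C1 * (uu e * uu s * ENNReal.ofReal ((e : ℝ) ^ (-(1/2) : ℝ)))
                ≤ ENNReal.ofReal C1 * (ENNReal.ofReal ((e : ℝ)⁻¹) * uu s * ENNReal.ofReal ((e : ℝ) ^ (-(1/2) : ℝ))) := by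
                  gcongr
                  exact uu_le e
              _ = _ := by ring
          · rw [Set.indicator_of_notMem hes]
            simp
    _ = ENNReal.ofReal C1 * ((∑' e : ℕ, ENNReal.ofReal ((e : ℝ)⁻¹ * (e : ℝ) ^ (-(1/2) : ℝ))) * UUR Z j) := by
        simp_rw [ENNReal.tsum_mul_left, ENNReal.tsum_mul_right]
        rfl
    _ ≤ ENNReal.ofReal C1 * (ENNReal.ofReal C3 * ENNReal.ofReal (C2 * Real.sqrt ((j : ℝ) / Z))) := by
        gcongr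
        exact h2 Z j hZ hj
    _ = ENNReal.ofReal (C1 * C3 * C2 * Real.sqrt ((j : ℝ) / Z)) := by
        rw [← ENNReal.ofReal_mul hC3.le, ← ENNReal.ofReal_mul hC1.le]
        congr 1
        ring

/-- weight of smooth rough numbers -/
theorem mu_SR_le : ∃ C : ℝ, 0 < C ∧ ∀ σ : ℝ, 1 < σ → ∀ Z j : ℕ, 1 ≤ Z → Z ≤ j →
    mu σ (SR Z j) ≤ ENNReal.ofReal (C * ((j : ℝ) / Z)) := by
  obtain ⟨C, hC, h⟩ := mertens_QQ
  refine ⟨Real.exp (C + 4), by positivity, ?_⟩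
  intro σ hσ Z j hZ hj
  have hZ' : (0:ℝ) < Z := by exact_mod_cast hZ
  have hj' : (0:ℝ) < j := by exact_mod_cast (by omega : 0 < j)
  have hE := EulerProduct.summable_and_hasSum_factoredNumbers_prod_filter_prime_geometric (f := invHom)
    (fun {p} hp => by
      have h2 : (2:ℝ) ≤ p := by exact_mod_cast hp.two_le
      simp only [invHom, MonoidHom.coe_mk, OneHom.coe_mk]
      rw [Real.norm_of_nonneg (by positivity)]
      exact inv_lt_one_of_one_lt₀ (by linarith)) (QQ Z j)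
  obtain ⟨h1, h2⟩ := hE
  have hA : mu σ (SR Z j) ≤ ENNReal.ofReal (∏ p ∈ QQ Z j, (1 - (p : ℝ)⁻¹)⁻¹) := by
    unfold mu
    rw [SR_eq, ← tsum_subtype (Nat.factoredNumbers (QQ Z j)) (zp σ)]
    calc ∑' x : Nat.factoredNumbers (QQ Z j), zp σ x ≤ ∑' x : Nat.factoredNumbers (QQ Z j), ENNReal.ofReal (invHom x) := by
          apply ENNReal.tsum_le_tsum
          intro x
          have hx := Nat.ne_zero_of_mem_factoredNumbers x.2
          exact zp_le_inv hσ (Nat.one_le_iff_ne_zero.mpr hx)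
      _ = ENNReal.ofReal (∑' x : Nat.factoredNumbers (QQ Z j), invHom x) := by
          rw [ENNReal.ofReal_tsum_of_nonneg]
          · intro n
            simp only [invHom, MonoidHom.coe_mk, OneHom.coe_mk]
            positivity
          · exact h2.summable
      _ = _ := by
          congr 1
          rw [h2.tsum_eq, QQ_filter]
          rfl
  refine hA.trans (ENNReal.ofReal_le_ofReal ?_)
  have h3 : ∏ p ∈ QQ Z j, (1 - (p : ℝ)⁻¹)⁻¹ ≤
      ∏ p ∈ QQ Z j, Real.exp ((p : ℝ)⁻¹ + 2 * ((p : ℝ)⁻¹) ^ 2) := by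
    apply Finset.prod_le_prod
    · intro p hp
      have h2 : (2:ℝ) ≤ p := by exact_mod_cast (mem_QQ.mp hp).1.two_le
      rw [inv_nonneg, sub_nonneg]
      exact inv_le_one_of_one_le₀ (by linarith)
    · intro p hp
      have h2 : (2:ℝ) ≤ p := by exact_mod_cast (mem_QQ.mp hp).1.two_le
      set x := (p : ℝ)⁻¹ with hx
      have hx0 : 0 < x := by positivity
      have hx1 : x ≤ 1/2 := by rw [hx, one_div]; exact inv_anti₀ (by norm_num) h2
      have h4 : (1 - x)⁻¹ ≤ 1 + (x + 2 * x^2) := by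
        rw [inv_le_iff_one_le_mul₀ (by linarith)]
        nlinarith [mul_nonneg hx0.le (mul_nonneg hx0.le (sub_nonneg.mpr hx1))]
      have := Real.add_one_le_exp (x + 2 * x^2)
      linarith
  rw [← Real.exp_sum] at h3
  refine h3.trans ?_
  have h5 : ∑ p ∈ QQ Z j, ((p : ℝ)⁻¹ + 2 * ((p : ℝ)⁻¹) ^ 2) ≤
      (Real.log ((j : ℝ) / Z) + C) + 4 := by
    rw [Finset.sum_add_distrib, ← Finset.mul_sum]
    have h6 := h Z j hZ hj
    have h7 := sum_inv_sq_le (QQ Z j) (fun p hp => (mem_QQ.mp hp).1.one_lt.le)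
    linarith
  calc Real.exp (∑ p ∈ QQ Z j, ((p : ℝ)⁻¹ + 2 * ((p : ℝ)⁻¹) ^ 2))
      ≤ Real.exp ((Real.log ((j : ℝ) / Z) + C) + 4) := Real.exp_le_exp.mpr h5
    _ = Real.exp (C + 4) * ((j : ℝ) / Z) := by
        rw [show Real.log ((j : ℝ) / Z) + C + 4 = (C + 4) + Real.log ((j : ℝ) / Z) by ring, Real.exp_add (C + 4),
          Real.exp_log (by positivity)]

end Pool.Agent.Erdos456
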