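import Mathlib
import Pool.Agent.Erdos456.R1

set_option autoImplicit false

open scoped ENNReal

namespace Pool.Agent.Erdos456

/-- first type: small `b`, general set -/
theorem block_one_gen : ∃ C : ℝ, 0 < C ∧ ∀ j : ℕ, 1 ≤ j → ∀ T : Set ℕ, T ⊆ Sm (j + 1) → ∀ U : ℝ, 0 ≤ U →
    ∑' r : ℕ, T.indicator (fun r => ENNReal.ofReal (GG r ^ 2) * uu r) r ≤ ENNReal.ofReal U →
    ∑' d : ℕ, Set.indicator {d | ∃ Q r' d' b : ℕ, Q.Prime ∧ 2 ^ j < Q ∧ Q ≤ 2 ^ (j + 1) ∧ d = Q * r' * d' ∧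
      r' ∈ T ∧ d' ∈ Sm (j + 1) ∧ 1 ≤ b ∧ b ≤ j ∧
      ((r' * b) * Q + 1).Prime ∧ (b : ℝ) * tt d ≤ tt d'} (fun d => te d * uu d) d ≤
    ENNReal.ofReal (C * (1 + Real.log j) * U / (j : ℝ) ^ 2) * FF (j + 1) := by
  obtain ⟨C1, hC1, h1⟩ := sieve_Q
  obtain ⟨C3, hC3, h3⟩ := sum_GG_sq_div_le
  refine ⟨C1 * C3, by positivity, ?_⟩
  intro j hj T hT U hU hTU
  have hj' : (0:ℝ) < j := by exact_mod_cast hj
  have hlog : 0 ≤ Real.log j := Real.log_nonneg (by exact_mod_cast hj)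
  -- the comparison function on tuples (b, r', d', Q)
  let H : ℕ × ℕ × ℕ × ℕ → ℝ≥0∞ := fun x =>
    (if 1 ≤ x.1 ∧ x.1 ≤ j then ENNReal.ofReal ((x.1 : ℝ)⁻¹) else 0) *
    (T.indicator uu x.2.1 * ((Sm (j + 1)).indicator (fun d => te d * uu d) x.2.2.1 *
      (if x.2.2.2.Prime ∧ 2 ^ j < x.2.2.2 ∧ x.2.2.2 ≤ 2 ^ (j + 1) ∧ ((x.2.1 * x.1) * x.2.2.2 + 1).Prime then
        ENNReal.ofReal ((x.2.2.2 : ℝ)⁻¹) else 0)))
  have hA := tsum_le_of_rel (β := ℕ × ℕ × ℕ × ℕ)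
    (P := fun d => ∃ Q r' d' b : ℕ, Q.Prime ∧ 2 ^ j < Q ∧ Q ≤ 2 ^ (j + 1) ∧ d = Q * r' * d' ∧
      r' ∈ T ∧ d' ∈ Sm (j + 1) ∧ 1 ≤ b ∧ b ≤ j ∧
      ((r' * b) * Q + 1).Prime ∧ (b : ℝ) * tt d ≤ tt d')
    (f := fun d => te d * uu d) (H := H)
    (R := fun d x => d = x.2.2.2 * x.2.1 * x.2.2.1)
    (by
      rintro d ⟨Q, r', d', b, hQ, hQ1, hQ2, hd, hr', hd', hb1, hb2, hpr, ht⟩
      refine ⟨(b, r', d', Q), hd, ?_⟩
      simp only [H]
      rw [if_pos ⟨hb1, hb2⟩, Set.indicator_of_mem hr', Set.indicator_of_mem hd', if_pos ⟨hQ, hQ1, hQ2, hpr⟩]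
      have hb0 : (0:ℝ) < b := by exact_mod_cast hb1
      have hte : te d ≤ ENNReal.ofReal ((b : ℝ)⁻¹) * te d' := by
        unfold te
        rw [← ENNReal.ofReal_mul (by positivity)]
        apply ENNReal.ofReal_le_ofReal
        rw [inv_mul_eq_div, le_div_iff₀ hb0]
        linarith
      have huu : uu d ≤ ENNReal.ofReal ((Q : ℝ)⁻¹) * uu r' * uu d' := by
        rw [hd, uu_mul, uu_mul]
        gcongr
        exact uu_le Q
      calc te d * uu d ≤ (ENNReal.ofReal ((b : ℝ)⁻¹) * te d') * (ENNReal.ofReal ((Q : ℝ)⁻¹) * uu r' * uu d') := by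
            gcongr
        _ = _ := by ring)
    (by
      rintro d d' x hx hx'
      rw [hx, hx'])
  refine hA.trans ?_
  -- evaluate
  rw [ENNReal.tsum_prod' (f := H)]
  have hB : ∀ b : ℕ, ∑' y : ℕ × ℕ × ℕ, H (b, y) ≤
      (if 1 ≤ b ∧ b ≤ j then ENNReal.ofReal (GG b ^ 2 * (b : ℝ)⁻¹) else 0) *
        (ENNReal.ofReal (C1 / (j : ℝ) ^ 2) * (ENNReal.ofReal U * FF (j + 1))) := by
    intro b
    by_cases hb : 1 ≤ b ∧ b ≤ j
    · simp only [H, if_pos hb]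
      rw [ENNReal.tsum_mul_left, ENNReal.tsum_prod']
      have hC : ∀ r' : ℕ, ∑' z : ℕ × ℕ, T.indicator uu r' * ((Sm (j + 1)).indicator (fun d => te d * uu d) z.1 *
          (if z.2.Prime ∧ 2 ^ j < z.2 ∧ z.2 ≤ 2 ^ (j + 1) ∧ ((r' * b) * z.2 + 1).Prime then
            ENNReal.ofReal ((z.2 : ℝ)⁻¹) else 0)) ≤
          (ENNReal.ofReal (GG b ^ 2) * ENNReal.ofReal (C1 / (j : ℝ) ^ 2) * FF (j + 1)) *
            T.indicator (fun r => ENNReal.ofReal (GG r ^ 2) * uu r) r' := by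
        intro r'
        by_cases hr' : r' ∈ T
        · rw [Set.indicator_of_mem hr', Set.indicator_of_mem hr', ENNReal.tsum_mul_left, ENNReal.tsum_prod']
          simp_rw [ENNReal.tsum_mul_left, ENNReal.tsum_mul_right]
          have hr0 : 1 ≤ r' := Nat.one_le_iff_ne_zero.mpr (mem_Sm.mp (hT hr')).1
          have hg : 1 ≤ r' * b := Nat.one_le_iff_ne_zero.mpr (by
            have := hb.1
            positivity)
          have h4 := h1 (r' * b) j hg hj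
          have h5 : ENNReal.ofReal (C1 * GG (r' * b) ^ 2 / (j : ℝ) ^ 2) ≤
              ENNReal.ofReal (C1 / (j : ℝ) ^ 2) * (ENNReal.ofReal (GG r' ^ 2) * ENNReal.ofReal (GG b ^ 2)) := by
            rw [← ENNReal.ofReal_mul (by positivity), ← ENNReal.ofReal_mul (by positivity)]
            apply ENNReal.ofReal_le_ofReal
            have h6 := GG_mul_le r' b
            have h7 := GG_nonneg (r' * b)
            have h8 : GG (r' * b) ^ 2 ≤ (GG r' * GG b) ^ 2 := by gcongr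
            calc C1 * GG (r' * b) ^ 2 / (j : ℝ) ^ 2 ≤ C1 * (GG r' * GG b) ^ 2 / (j : ℝ) ^ 2 := by gcongr
              _ = _ := by ring
          calc uu r' * ((∑' d', (Sm (j + 1)).indicator (fun d => te d * uu d) d') *
                ∑' Q : ℕ, (if Q.Prime ∧ 2 ^ j < Q ∧ Q ≤ 2 ^ (j + 1) ∧ ((r' * b) * Q + 1).Prime then
                ENNReal.ofReal ((Q : ℝ)⁻¹) else 0))
              ≤ uu r' * (FF (j + 1) * (ENNReal.ofReal (C1 / (j : ℝ) ^ 2) * (ENNReal.ofReal (GG r' ^ 2) * ENNReal.ofReal (GG b ^ 2)))) := by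
                gcongr
                · exact le_of_eq rfl
                · exact h4.trans h5
            _ = _ := by ring
        · rw [Set.indicator_of_notMem hr', Set.indicator_of_notMem hr']
          simp
      calc ENNReal.ofReal ((b : ℝ)⁻¹) * ∑' (r' : ℕ), ∑' z : ℕ × ℕ, T.indicator uu r' * ((Sm (j + 1)).indicator (fun d => te d * uu d) z.1 *
          (if z.2.Prime ∧ 2 ^ j < z.2 ∧ z.2 ≤ 2 ^ (j + 1) ∧ ((r' * b) * z.2 + 1).Prime then
            ENNReal.ofReal ((z.2 : ℝ)⁻¹) else 0))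
          ≤ ENNReal.ofReal ((b : ℝ)⁻¹) * ∑' (r' : ℕ), (ENNReal.ofReal (GG b ^ 2) * ENNReal.ofReal (C1 / (j : ℝ) ^ 2) * FF (j + 1)) *
            T.indicator (fun r => ENNReal.ofReal (GG r ^ 2) * uu r) r' := by
            gcongr with r'
            exact hC r'
        _ ≤ ENNReal.ofReal ((b : ℝ)⁻¹) * ((ENNReal.ofReal (GG b ^ 2) * ENNReal.ofReal (C1 / (j : ℝ) ^ 2) * FF (j + 1)) *
            ENNReal.ofReal U) := by
            rw [ENNReal.tsum_mul_left]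
            gcongr
        _ = _ := by
            rw [ENNReal.ofReal_mul (p := GG b ^ 2) (by positivity)]
            ring
    · simp only [H, if_neg hb]
      simp
  calc ∑' b : ℕ, ∑' y : ℕ × ℕ × ℕ, H (b, y)
      ≤ ∑' b : ℕ, (if 1 ≤ b ∧ b ≤ j then ENNReal.ofReal (GG b ^ 2 * (b : ℝ)⁻¹) else 0) *
        (ENNReal.ofReal (C1 / (j : ℝ) ^ 2) * (ENNReal.ofReal U * FF (j + 1))) :=
        ENNReal.tsum_le_tsum hB
    _ ≤ ENNReal.ofReal (C3 * (1 + Real.log j)) *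
        (ENNReal.ofReal (C1 / (j : ℝ) ^ 2) * (ENNReal.ofReal U * FF (j + 1))) := by
        rw [ENNReal.tsum_mul_right]
        gcongr
        exact h3 j
    _ = _ := by
        rw [← mul_assoc (ENNReal.ofReal (C1 / (j : ℝ) ^ 2)), ← mul_assoc (ENNReal.ofReal (C3 * (1 + Real.log j))),
          ← ENNReal.ofReal_mul (by positivity), ← ENNReal.ofReal_mul (by positivity)]
        congr 2
        ring

/-- second type: large `b`, general set -/
theorem block_two_gen : ∃ C : ℝ, 0 < C ∧ ∀ j : ℕ, 1 ≤ j → ∀ T : Set ℕ, ∀ U : ℝ, 0 ≤ U →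
    ∑' r : ℕ, T.indicator uu r ≤ ENNReal.ofReal U →
    ∑' d : ℕ, Set.indicator {d | ∃ Q r' d' : ℕ, Q.Prime ∧ 2 ^ j < Q ∧ Q ≤ 2 ^ (j + 1) ∧ d = Q * r' * d' ∧
      r' ∈ T ∧ d' ∈ Sm (j + 1) ∧ (j : ℝ) * tt d ≤ tt d'} (fun d => te d * uu d) d ≤
    ENNReal.ofReal (C * U / (j : ℝ) ^ 2) * FF (j + 1) := by
  obtain ⟨C1, hC1, h1⟩ := cheb_Q
  refine ⟨C1, by positivity, ?_⟩
  intro j hj T U hU hTU
  have hj' : (0:ℝ) < j := by exact_mod_cast hj
  let H : ℕ × ℕ × ℕ → ℝ≥0∞ := fun x =>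
    ENNReal.ofReal ((j : ℝ)⁻¹) * (T.indicator uu x.1 * ((Sm (j + 1)).indicator (fun d => te d * uu d) x.2.1 *
      (if x.2.2.Prime ∧ 2 ^ j < x.2.2 ∧ x.2.2 ≤ 2 ^ (j + 1) then uu x.2.2 else 0)))
  have hA := tsum_le_of_rel (β := ℕ × ℕ × ℕ)
    (P := fun d => ∃ Q r' d' : ℕ, Q.Prime ∧ 2 ^ j < Q ∧ Q ≤ 2 ^ (j + 1) ∧ d = Q * r' * d' ∧
      r' ∈ T ∧ d' ∈ Sm (j + 1) ∧ (j : ℝ) * tt d ≤ tt d')
    (f := fun d => te d * uu d) (H := H)
    (R := fun d x => d = x.2.2 * x.1 * x.2.1)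
    (by
      rintro d ⟨Q, r', d', hQ, hQ1, hQ2, hd, hr', hd', ht⟩
      refine ⟨(r', d', Q), hd, ?_⟩
      simp only [H]
      rw [Set.indicator_of_mem hr', Set.indicator_of_mem hd', if_pos ⟨hQ, hQ1, hQ2⟩]
      have hte : te d ≤ ENNReal.ofReal ((j : ℝ)⁻¹) * te d' := by
        unfold te
        rw [← ENNReal.ofReal_mul (by positivity)]
        apply ENNReal.ofReal_le_ofReal
        rw [inv_mul_eq_div, le_div_iff₀ hj']
        linarith
      calc te d * uu d ≤ (ENNReal.ofReal ((j : ℝ)⁻¹) * te d') * (uu Q * uu r' * uu d') := by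
            rw [hd, uu_mul, uu_mul, ← hd]
            gcongr
        _ = _ := by ring)
    (by
      rintro d d' x hx hx'
      rw [hx, hx'])
  refine hA.trans ?_
  have hE : ∑' x, H x = ENNReal.ofReal ((j : ℝ)⁻¹) * ((∑' r : ℕ, T.indicator uu r) * (FF (j + 1) *
      ∑' Q : ℕ, (if Q.Prime ∧ 2 ^ j < Q ∧ Q ≤ 2 ^ (j + 1) then uu Q else 0))) := by
    rw [ENNReal.tsum_prod' (f := H)]
    simp only [H]
    simp_rw [ENNReal.tsum_mul_left, ENNReal.tsum_prod', ENNReal.tsum_mul_left, ENNReal.tsum_mul_right]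
    rfl
  rw [hE]
  calc _ ≤ ENNReal.ofReal ((j : ℝ)⁻¹) * (ENNReal.ofReal U * (FF (j + 1) * ENNReal.ofReal (C1 / j))) := by
        gcongr
        exact h1 j hj
    _ = (ENNReal.ofReal ((j : ℝ)⁻¹) * (ENNReal.ofReal U * ENNReal.ofReal (C1 / j))) * FF (j + 1) := by ring
    _ = _ := by
        rw [← ENNReal.ofReal_mul (by positivity), ← ENNReal.ofReal_mul (by positivity)]
        congr 2
        field_simp

end Pool.Agent.Erdos456
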