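import Mathlib
import Pool.Agent.Erdos456.R2

set_option autoImplicit false

open scoped ENNReal

namespace Pool.Agent.Erdos456

/-- weighted sum over a rough block -/
noncomputable def BBR (Z j : ℕ) : ℝ≥0∞ := ∑' d : ℕ, (SR Z (j + 1) \ Sm j).indicator (fun d => te d * uu d) d

theorem BBR_le_sum (Z j : ℕ) : BBR Z j ≤
    ∑' d : ℕ, Set.indicator {d | ∃ Q r' d' b : ℕ, Q.Prime ∧ 2 ^ j < Q ∧ Q ≤ 2 ^ (j + 1) ∧ d = Q * r' * d' ∧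
      r' ∈ SR Z (j + 1) ∧ d' ∈ Sm (j + 1) ∧ 1 ≤ b ∧ b ≤ j ∧
      ((r' * b) * Q + 1).Prime ∧ (b : ℝ) * tt d ≤ tt d'} (fun d => te d * uu d) d +
    (∑' d : ℕ, Set.indicator {d | ∃ Q r' d' : ℕ, Q.Prime ∧ 2 ^ j < Q ∧ Q ≤ 2 ^ (j + 1) ∧ d = Q * r' * d' ∧
      r' ∈ SR Z (j + 1) ∧ d' ∈ Sm (j + 1) ∧ (j : ℝ) * tt d ≤ tt d'} (fun d => te d * uu d) d +
    ∑' d : ℕ, Set.indicator {d | ∃ Q r₁ d' f : ℕ, Q.Prime ∧ 2 ^ j < Q ∧ Q ≤ 2 ^ (j + 1) ∧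
      d = Q ^ f * r₁ * d' ∧ d' ∈ Sm (j + 1) ∧ 1 ≤ f ∧ r₁ ∣ Q - 1 ∧ 1 ≤ r₁ ∧
      tt d ≤ ((r₁ : ℝ) / Q) * tt d'} (fun d => te d * uu d) d) := by
  unfold BBR
  rw [← ENNReal.tsum_add, ← ENNReal.tsum_add]
  apply ENNReal.tsum_le_tsum
  intro d
  by_cases hd : d ∈ SR Z (j + 1) \ Sm j
  · rw [Set.indicator_of_mem hd]
    obtain ⟨Q, hQ, hQ1, hQ2, h⟩ := block_struct (show d ∈ Sm (j + 1) \ Sm j from ⟨hd.1.1, hd.2⟩)
    rcases h with ⟨r', d', b, h1, h2, h3, h4, h5, h6⟩ | ⟨r₁, d', f, h1, h2, h3, h4, h5, h6⟩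
    · have hr' : r' ∈ SR Z (j + 1) := SR_dvd hd.1 ⟨Q * d', by rw [h1]; ring⟩
      by_cases hb : b ≤ j
      · refine le_trans ?_ le_self_add
        rw [Set.indicator_of_mem]
        exact ⟨Q, r', d', b, hQ, hQ1, hQ2, h1, hr', h3, h4, hb, h5, h6⟩
      · refine le_trans ?_ le_add_self
        refine le_trans ?_ le_self_add
        rw [Set.indicator_of_mem]
        refine ⟨Q, r', d', hQ, hQ1, hQ2, h1, hr', h3, ?_⟩
        have hb' : (j : ℝ) ≤ b := by exact_mod_cast (by omega : j ≤ b)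
        have := tt_nonneg d
        nlinarith
    · refine le_trans ?_ le_add_self
      refine le_trans ?_ le_add_self
      rw [Set.indicator_of_mem]
      exact ⟨Q, r₁, d', f, hQ, hQ1, hQ2, h1, h2, h3, h4, h5, h6⟩
  · rw [Set.indicator_of_notMem hd]
    exact zero_le

theorem exp_decay_two : ∃ C : ℝ, 0 < C ∧ ∀ j : ℕ, 1 ≤ j → 2 / Real.sqrt (2 ^ j) ≤ C * (j : ℝ) ^ (-2 : ℝ) := by
  have h := tendsto_pow_const_mul_const_pow_of_lt_one 2 (r := (Real.sqrt 2)⁻¹) (by positivity) (by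
    apply inv_lt_one_of_one_lt₀
    rw [show (1:ℝ) = Real.sqrt 1 by simp]
    exact Real.sqrt_lt_sqrt (by norm_num) (by norm_num))
  obtain ⟨M, hM⟩ := h.bddAbove_range
  refine ⟨2 * (|M| + 1), by positivity, ?_⟩
  intro j hj
  have hj' : (1:ℝ) ≤ j := by exact_mod_cast hj
  have h1 : (j : ℝ) ^ 2 * ((Real.sqrt 2)⁻¹) ^ j ≤ M := hM ⟨j, rfl⟩
  have h2 : Real.sqrt (2 ^ j) = (Real.sqrt 2) ^ j := by
    rw [Real.sqrt_eq_rpow, Real.sqrt_eq_rpow, ← Real.rpow_natCast, ← Real.rpow_natCast, ← Real.rpow_mul (by norm_num),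
      ← Real.rpow_mul (by norm_num)]
    congr 1
    ring
  rw [h2]
  have h3 : (2:ℝ) / (Real.sqrt 2) ^ j = 2 * ((Real.sqrt 2)⁻¹) ^ j := by rw [inv_pow]; rfl
  rw [h3]
  have h4 : ((Real.sqrt 2)⁻¹) ^ j ≤ M / (j : ℝ) ^ 2 := by
    rw [le_div_iff₀ (by positivity)]
    linarith
  have h5 : M / (j : ℝ) ^ 2 ≤ (|M| + 1) * (j : ℝ) ^ (-2 : ℝ) := by
    have h6 : ((j : ℝ) ^ 2)⁻¹ = (j : ℝ) ^ (-2 : ℝ) := by
      rw [Real.rpow_neg (by positivity)]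
      norm_num
    have h7 : M ≤ |M| + 1 := by linarith [le_abs_self M]
    rw [div_eq_mul_inv, ← h6]
    gcongr
  linarith

theorem BBR_le : ∃ C : ℝ, 0 < C ∧ ∀ Z j : ℕ, 1 ≤ Z → Z ≤ j →
    BBR Z j ≤ ENNReal.ofReal (C * ((Z : ℝ) ^ (-(1/2) : ℝ) * (j : ℝ) ^ (-(23/16) : ℝ))) := by
  obtain ⟨C1, hC1, h1⟩ := block_one_gen
  obtain ⟨C2, hC2, h2⟩ := block_two_gen
  obtain ⟨C3, hC3, h3⟩ := exp_decay_two
  obtain ⟨C4, hC4, h4⟩ := UU2R_le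
  obtain ⟨C5, hC5, h5⟩ := UUR_le
  obtain ⟨C6, hC6, h6⟩ := FF_bounded
  refine ⟨(C1 * C4 * 34 + C2 * C5 * 2 + C3) * C6, by positivity, ?_⟩
  intro Z j hZ hZj
  have hj : 1 ≤ j := hZ.trans hZj
  have hj' : (1:ℝ) ≤ j := by exact_mod_cast hj
  have hj0 : (0:ℝ) < j := by linarith
  have hZ' : (0:ℝ) < Z := by exact_mod_cast hZ
  have hZj' : (Z:ℝ) ≤ j := by exact_mod_cast hZj
  set zi : ℝ := (Z : ℝ) ^ (-(1/2) : ℝ) with hzi
  have hzi0 : 0 < zi := by positivity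
  set S : ℝ := Real.sqrt (((j + 1 : ℕ) : ℝ) / Z) with hS
  have hlog : Real.log j ≤ 16 * (j : ℝ) ^ (1/16 : ℝ) := by
    have := Real.log_le_rpow_div hj0.le (by norm_num : (0:ℝ) < 1/16)
    linarith
  have hlog0 : 0 ≤ Real.log j := Real.log_nonneg hj'
  have hpow1 : (1:ℝ) ≤ (j : ℝ) ^ (1/16 : ℝ) := Real.one_le_rpow hj' (by norm_num)
  have hsq : S ≤ 2 * (j : ℝ) ^ (1/2 : ℝ) * zi := by
    have e0 : S ≤ Real.sqrt (4 * (j * (Z : ℝ)⁻¹)) := by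
      rw [hS]
      apply Real.sqrt_le_sqrt
      push_cast
      rw [div_eq_mul_inv, ← mul_assoc]
      gcongr
      linarith
    rw [Real.sqrt_mul (by norm_num), show Real.sqrt 4 = 2 by
      rw [show (4:ℝ) = 2^2 by norm_num]; exact Real.sqrt_sq (by norm_num), Real.sqrt_mul (by positivity),
      Real.sqrt_eq_rpow, Real.sqrt_eq_rpow] at e0
    have e1 : ((Z : ℝ)⁻¹) ^ (1/2 : ℝ) = zi := by
      rw [hzi, Real.rpow_neg hZ'.le, Real.inv_rpow hZ'.le]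
    rw [e1] at e0
    linarith
  have hS0 : 0 ≤ S := Real.sqrt_nonneg _
  have t1 := h1 j hj (SR Z (j + 1)) (fun x hx => hx.1) (C4 * S) (by positivity) (h4 Z (j + 1) hZ (by omega))
  have t2 := h2 j hj (SR Z (j + 1)) (C5 * S) (by positivity) (h5 Z (j + 1) hZ (by omega))
  have t3 := block_three j hj
  refine (BBR_le_sum Z j).trans ?_
  refine (add_le_add t1 (add_le_add t2 t3)).trans ?_
  rw [← add_mul, ← add_mul, ← ENNReal.ofReal_add (by positivity) (by positivity), ← ENNReal.ofReal_add (by positivity) (by positivity)]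
  have e3 := h3 j hj
  have hmain : C1 * (1 + Real.log j) * (C4 * S) / (j : ℝ) ^ 2 + (C2 * (C5 * S) / (j : ℝ) ^ 2 + 2 / Real.sqrt (2 ^ j)) ≤
      (C1 * C4 * 34 + C2 * C5 * 2 + C3) * (zi * (j : ℝ) ^ (-(23/16) : ℝ)) := by
    have e1 : (1 + Real.log j) * S / (j : ℝ) ^ 2 ≤ 34 * (zi * (j : ℝ) ^ (-(23/16) : ℝ)) := by
      have h4 : (1 + Real.log j) * S ≤ (17 * (j : ℝ) ^ (1/16 : ℝ)) * (2 * (j : ℝ) ^ (1/2 : ℝ) * zi) := by
        gcongr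
        linarith
      have h5 : (j : ℝ) ^ (-(23/16) : ℝ) = (j : ℝ) ^ (1/16 : ℝ) * (j : ℝ) ^ (1/2 : ℝ) / (j : ℝ) ^ 2 := by
        rw [← Real.rpow_add hj0, ← Real.rpow_natCast, ← Real.rpow_sub hj0]
        congr 1
        norm_num
      rw [h5, ← mul_div_assoc, ← mul_div_assoc]
      apply div_le_div_of_nonneg_right _ (by positivity)
      linarith
    have e2 : S / (j : ℝ) ^ 2 ≤ 2 * (zi * (j : ℝ) ^ (-(23/16) : ℝ)) := by
      have h5 : (j : ℝ) ^ (1/2 : ℝ) / (j : ℝ) ^ 2 ≤ (j : ℝ) ^ (-(23/16) : ℝ) := by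
        rw [← Real.rpow_natCast, ← Real.rpow_sub hj0]
        apply Real.rpow_le_rpow_of_exponent_le hj'
        norm_num
      calc S / (j : ℝ) ^ 2 ≤ (2 * (j : ℝ) ^ (1/2 : ℝ) * zi) / (j : ℝ) ^ 2 := by gcongr
        _ = 2 * (zi * ((j : ℝ) ^ (1/2 : ℝ) / (j : ℝ) ^ 2)) := by ring
        _ ≤ _ := by gcongr
    have e4 : (j : ℝ) ^ (-2 : ℝ) ≤ zi * (j : ℝ) ^ (-(23/16) : ℝ) := by
      have h7 : (j : ℝ) ^ (-(1/2) : ℝ) ≤ zi := Real.rpow_le_rpow_of_nonpos hZ' hZj' (by norm_num)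
      calc (j : ℝ) ^ (-2 : ℝ) ≤ (j : ℝ) ^ (-(1/2) + -(23/16) : ℝ) :=
            Real.rpow_le_rpow_of_exponent_le hj' (by norm_num)
        _ = (j : ℝ) ^ (-(1/2) : ℝ) * (j : ℝ) ^ (-(23/16) : ℝ) := Real.rpow_add hj0 _ _
        _ ≤ _ := by gcongr
    calc C1 * (1 + Real.log j) * (C4 * S) / (j : ℝ) ^ 2 + (C2 * (C5 * S) / (j : ℝ) ^ 2 + 2 / Real.sqrt (2 ^ j))
        = C1 * C4 * ((1 + Real.log j) * S / (j : ℝ) ^ 2) + (C2 * C5 * (S / (j : ℝ) ^ 2) + 2 / Real.sqrt (2 ^ j)) := by ring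
      _ ≤ C1 * C4 * (34 * (zi * (j : ℝ) ^ (-(23/16) : ℝ))) + (C2 * C5 * (2 * (zi * (j : ℝ) ^ (-(23/16) : ℝ))) + C3 * (zi * (j : ℝ) ^ (-(23/16) : ℝ))) := by
          gcongr
          exact e3.trans (by gcongr)
      _ = _ := by ring
  calc _ ≤ ENNReal.ofReal ((C1 * C4 * 34 + C2 * C5 * 2 + C3) * (zi * (j : ℝ) ^ (-(23/16) : ℝ))) * ENNReal.ofReal C6 := by
        gcongr
        exact h6 (j + 1)
    _ = _ := by
        rw [← ENNReal.ofReal_mul (by positivity)]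
        congr 1
        ring

end Pool.Agent.Erdos456
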