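import Mathlib
import Pool.Agent.Erdos456.R3

set_option autoImplicit false

open scoped ENNReal

namespace Pool.Agent.Erdos456

theorem mu_tsum_union_le' (σ : ℝ) (E : Set ℕ) (F : ℕ → Set ℕ) (h : E ⊆ ⋃ k, F k) : mu σ E ≤ ∑' k, mu σ (F k) := by
  unfold mu
  rw [ENNReal.tsum_comm]
  apply ENNReal.tsum_le_tsum
  intro n
  by_cases hn : n ∈ E
  · rw [Set.indicator_of_mem hn]
    obtain ⟨k, hk⟩ := Set.mem_iUnion.mp (h hn)
    calc zp σ n = (F k).indicator (zp σ) n := by rw [Set.indicator_of_mem hk]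
      _ ≤ _ := ENNReal.le_tsum (f := fun k => (F k).indicator (zp σ) n) k
  · rw [Set.indicator_of_notMem hn]; exact zero_le

/-- general weighted zeta sum -/
noncomputable def WG (σ : ℝ) (s : Finset ℕ) (θ : ℕ → ℝ≥0∞) : ℝ≥0∞ :=
  ∑' n : ℕ, zp σ n * ∏ p ∈ s, θ p ^ (n.factorization p)

theorem WG_empty (σ : ℝ) (θ : ℕ → ℝ≥0∞) : WG σ ∅ θ = ZZ σ := by
  simp [WG, ZZ]

theorem WG_insert {σ : ℝ} (hσ : 0 < σ) {s : Finset ℕ} {p : ℕ} (hp : p.Prime) (hps : p ∉ s)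
    {θ : ℕ → ℝ≥0∞} (h1 : zp σ p < 1) :
    WG σ (insert p s) θ = WG σ s θ * (1 - zp σ p) * (1 - θ p * zp σ p)⁻¹ := by
  set x := zp σ p with hx
  set pr : ℕ → ℝ≥0∞ := fun m => ∏ q ∈ s, θ q ^ (m.factorization q) with hpr
  set A : ℝ≥0∞ := ∑' m : ℕ, if p ∣ m then 0 else zp σ m * pr m with hA
  have hvs : ∀ e m : ℕ, m ≠ 0 → ¬ p ∣ m → pr (p ^ e * m) = pr m := by
    intro e m hm hpm
    simp only [hpr]
    apply Finset.prod_congr rfl
    intro q hq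
    have hpq : p ≠ q := fun h => hps (h ▸ hq)
    congr 1
    rw [Nat.factorization_mul (pow_ne_zero _ hp.ne_zero) hm, hp.factorization_pow]
    simp [hpq]
  have hvi : ∀ e m : ℕ, m ≠ 0 → ¬ p ∣ m →
      (∏ q ∈ insert p s, θ q ^ ((p ^ e * m).factorization q)) = θ p ^ e * pr m := by
    intro e m hm hpm
    rw [Finset.prod_insert hps]
    have h3 := hvs e m hm hpm
    simp only [hpr] at h3 ⊢
    rw [h3]
    congr 2
    rw [Nat.factorization_mul (pow_ne_zero _ hp.ne_zero) hm]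
    simp [hp.factorization_pow, Nat.factorization_eq_zero_of_not_dvd hpm]
  have hW1 : WG σ s θ = (1 - x)⁻¹ * A := by
    unfold WG
    rw [tsum_split hp _ (by simp [zp_zero hσ])]
    rw [← ENNReal.tsum_geometric, ← ENNReal.tsum_mul_right]
    apply tsum_congr
    intro e
    rw [hA, ← ENNReal.tsum_mul_left]
    apply tsum_congr
    intro m
    split_ifs with hpm
    · simp
    · rcases Nat.eq_zero_or_pos m with rfl | hm
      · simp at hpm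
      · have h3 := hvs e m hm.ne' hpm
        simp only [hpr] at h3 ⊢
        rw [h3, zp_mul, zp_pow, ← hx]
        ring
  have hW2 : WG σ (insert p s) θ = (1 - θ p * x)⁻¹ * A := by
    unfold WG
    rw [tsum_split hp _ (by simp [zp_zero hσ])]
    rw [← ENNReal.tsum_geometric, ← ENNReal.tsum_mul_right]
    apply tsum_congr
    intro e
    rw [hA, ← ENNReal.tsum_mul_left]
    apply tsum_congr
    intro m
    split_ifs with hpm
    · simp
    · rcases Nat.eq_zero_or_pos m with rfl | hm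
      · simp at hpm
      · rw [hvi e m hm.ne' hpm, zp_mul, zp_pow, ← hx, mul_pow]
        ring
  rw [hW2, hW1]
  have h3 : (1 - x)⁻¹ * A * (1 - x) = A := by
    rw [mul_comm ((1 - x)⁻¹) A, mul_assoc, ENNReal.inv_mul_cancel, mul_one]
    · exact (tsub_pos_of_lt h1).ne'
    · exact ne_top_of_le_ne_top ENNReal.one_ne_top tsub_le_self
  rw [h3, mul_comm]

/-- general bound: if each local factor is at most `exp (g p)` -/
theorem WG_le {σ : ℝ} (hσ : 1 < σ) {θ : ℕ → ℝ≥0∞} (g : ℕ → ℝ) (s : Finset ℕ) (hs : ∀ q ∈ s, q.Prime)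
    (hg : ∀ q ∈ s, (1 - zp σ q) * (1 - θ q * zp σ q)⁻¹ ≤ ENNReal.ofReal (Real.exp (g q))) :
    WG σ s θ ≤ ZZ σ * ENNReal.ofReal (Real.exp (∑ q ∈ s, g q)) := by
  induction s using Finset.induction_on with
  | empty => simp [WG_empty]
  | insert p s hps ih =>
    have hp : p.Prime := hs p (Finset.mem_insert_self _ _)
    have hs' : ∀ q ∈ s, q.Prime := fun q hq => hs q (Finset.mem_insert_of_mem hq)
    have h1 : zp σ p < 1 := by
      refine (zp_prime_le hσ hp).trans_lt ?_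
      rw [← ENNReal.ofReal_one]
      apply (ENNReal.ofReal_lt_ofReal_iff (by norm_num)).mpr
      have h2 : (2:ℝ) ≤ p := by exact_mod_cast hp.two_le
      exact inv_lt_one_of_one_lt₀ (by linarith)
    rw [WG_insert (by linarith) hp hps h1]
    rw [Finset.sum_insert hps, Real.exp_add, ENNReal.ofReal_mul (Real.exp_pos _).le]
    have h3 := ih hs' (fun q hq => hg q (Finset.mem_insert_of_mem hq))
    have h4 := hg p (Finset.mem_insert_self _ _)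
    calc WG σ s θ * (1 - zp σ p) * (1 - θ p * zp σ p)⁻¹
        = WG σ s θ * ((1 - zp σ p) * (1 - θ p * zp σ p)⁻¹) := by ring
      _ ≤ (ZZ σ * ENNReal.ofReal (Real.exp (∑ q ∈ s, g q))) * ENNReal.ofReal (Real.exp (g p)) := by
          gcongr
      _ = _ := by ring

theorem local_zero {x : ℝ} (h0 : 0 ≤ x) :
    (1 - ENNReal.ofReal x) * (1 - 0 * ENNReal.ofReal x)⁻¹ ≤
      ENNReal.ofReal (Real.exp (-x)) := by
  rw [zero_mul, tsub_zero, inv_one, mul_one, ← ENNReal.ofReal_one, ← ENNReal.ofReal_sub _ h0]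
  apply ENNReal.ofReal_le_ofReal
  have := Real.add_one_le_exp (-x)
  linarith

/-- weighted sum over rough numbers -/
noncomputable def WR (σ : ℝ) (Z j : ℕ) (ϑ : ℝ≥0∞) : ℝ≥0∞ :=
  ∑' n : ℕ, (Rg Z).indicator (fun n => zp σ n * ϑ ^ (vs (QQ Z j) n)) n

theorem WR_le {σ : ℝ} (hσ : 1 < σ) {Z j : ℕ} (hZj : Z ≤ j) {ϑ : ℝ≥0∞} (g : ℕ → ℝ)
    (hg : ∀ q : ℕ, q.Prime → (1 - zp σ q) * (1 - ϑ * zp σ q)⁻¹ ≤ ENNReal.ofReal (Real.exp (g q))) :
    WR σ Z j ϑ ≤ ZZ σ * ENNReal.ofReal (Real.exp (-(∑ p ∈ PP Z, (p : ℝ) ^ (-σ)) + ∑ q ∈ QQ Z j, g q)) := by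
  set θ : ℕ → ℝ≥0∞ := fun p => if p ≤ 2 ^ Z then 0 else ϑ with hθ
  have h1 : WR σ Z j ϑ ≤ WG σ (PP j) θ := by
    unfold WR WG
    apply ENNReal.tsum_le_tsum
    intro n
    by_cases hn : n ∈ Rg Z
    · rw [Set.indicator_of_mem hn]
      apply mul_le_mul' le_rfl
      apply le_of_eq
      have h2 : ∏ p ∈ PP j, θ p ^ (n.factorization p) = ∏ p ∈ QQ Z j, θ p ^ (n.factorization p) := by
        symm
        apply Finset.prod_subset
        · unfold QQ; exact Finset.sdiff_subset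
        · intro p hp hpQ
          have hp' := mem_PP.mp hp
          have h3 : ¬ p ∣ n := by
            intro hpn
            exact hpQ (mem_QQ.mpr ⟨hp'.1, hp'.2, hn.2 p hp'.1 hpn⟩)
          rw [Nat.factorization_eq_zero_of_not_dvd h3, pow_zero]
      rw [h2]
      unfold vs
      rw [← Finset.prod_pow_eq_pow_sum]
      apply Finset.prod_congr rfl
      intro p hp
      have : ¬ p ≤ 2 ^ Z := not_le.mpr (mem_QQ.mp hp).2.2
      simp only [hθ, if_neg this]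
    · rw [Set.indicator_of_notMem hn]
      exact zero_le
  refine h1.trans ?_
  have h2 := WG_le (θ := θ) hσ (fun p => if p ≤ 2 ^ Z then -((p : ℝ) ^ (-σ)) else g p) (PP j)
    (fun q hq => (mem_PP.mp hq).1) (by
      intro q hq
      have hq' := (mem_PP.mp hq).1
      by_cases hqZ : q ≤ 2 ^ Z
      · simp only [hθ, if_pos hqZ]
        exact local_zero (by positivity)
      · simp only [hθ, if_neg hqZ]
        exact hg q hq')
  refine h2.trans (le_of_eq ?_)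
  congr 3
  have h3 : PP Z ∪ QQ Z j = PP j := by
    unfold QQ
    exact Finset.union_sdiff_of_subset (PP_mono hZj)
  rw [← h3, Finset.sum_union (by unfold QQ; exact Finset.disjoint_sdiff)]
  congr 1
  · rw [← Finset.sum_neg_distrib]
    apply Finset.sum_congr rfl
    intro p hp
    rw [if_pos (mem_PP.mp hp).2]
  · apply Finset.sum_congr rfl
    intro p hp
    rw [if_neg (not_le.mpr (mem_QQ.mp hp).2.2)]

/-- mass of rough numbers -/
theorem mu_Rg_le : ∃ C : ℝ, 0 < C ∧ ∀ σ : ℝ, 1 < σ → σ ≤ 2 → ∀ Z : ℕ, 1 ≤ Z → (Z : ℝ) * (σ - 1) ≤ 1 →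
    mu σ (Rg Z) ≤ ZZ σ * ENNReal.ofReal (C / Z) := by
  obtain ⟨C, hC, h⟩ := sum_rpow_lower
  refine ⟨Real.exp C, by positivity, ?_⟩
  intro σ hσ hσ2 Z hZ hZσ
  have hZ' : (0:ℝ) < Z := by exact_mod_cast hZ
  have h1 := WR_le hσ (le_refl Z) (ϑ := 1) (fun _ => 0) (by
    intro q hq
    obtain ⟨h0, h1, h2⟩ := zp_real_bounds hσ hq
    rw [one_mul, Real.exp_zero, ENNReal.ofReal_one]
    exact ENNReal.mul_inv_le_one _)
  have h2 : mu σ (Rg Z) = WR σ Z Z 1 := by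
    unfold mu WR
    apply tsum_congr
    intro n
    congr 1
    funext n
    rw [one_pow, mul_one]
  rw [h2]
  refine h1.trans ?_
  apply mul_le_mul' le_rfl
  apply ENNReal.ofReal_le_ofReal
  have h3 := h (σ - 1) (by linarith) (by linarith) Z hZ hZσ
  rw [show 1 + (σ - 1) = σ by ring] at h3
  calc Real.exp (-(∑ p ∈ PP Z, (p : ℝ) ^ (-σ)) + ∑ q ∈ QQ Z Z, (0:ℝ)) ≤ Real.exp (C - Real.log Z) := by
        apply Real.exp_le_exp.mpr
        rw [Finset.sum_const_zero]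
        linarith
    _ = Real.exp C / Z := by rw [Real.exp_sub, Real.exp_log hZ']

/-- typical rough integers -/
def TypR (Z B : ℕ) : Set ℕ := {n | ∀ i : ℕ, (vs (QQ Z (Z * 2 ^ i)) n : ℝ) ≤ B + 7 / 8 * i}

/-- Chernoff bound at one scale -/
theorem scaleR_bound : ∃ C : ℝ, 0 < C ∧ ∀ σ : ℝ, 1 < σ → σ ≤ 2 → ∀ Z : ℕ, 1 ≤ Z → (Z : ℝ) * (σ - 1) ≤ 1 →
    ∀ (B i : ℕ),
    mu σ {n | n ∈ Rg Z ∧ (B : ℝ) + 7 / 8 * i < vs (QQ Z (Z * 2 ^ i)) n} ≤
      ZZ σ * ENNReal.ofReal (C / Z * (4/5 : ℝ) ^ B * ((2:ℝ) ^ (1/4 : ℝ) * (5/4 : ℝ) ^ (-(7/8) : ℝ)) ^ i) := by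
  obtain ⟨C, hC, h⟩ := mertens_QQ
  obtain ⟨C', hC', h'⟩ := sum_rpow_lower
  refine ⟨Real.exp (C' + C / 4 + 2), by positivity, ?_⟩
  intro σ hσ hσ2 Z hZ hZσ B i
  have hZ' : (0:ℝ) < Z := by exact_mod_cast hZ
  have hZi : Z ≤ Z * 2 ^ i := Nat.le_mul_of_pos_right Z (by positivity)
  have hW := WR_le hσ hZi (ϑ := ENNReal.ofReal (5/4)) (fun q => ((q : ℝ)⁻¹/4 + ((q:ℝ)⁻¹)^2)) (by
    intro q hq
    obtain ⟨h0, h1, h2⟩ := zp_real_bounds hσ hq
    refine (local_five_four h0 h2).trans ?_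
    apply ENNReal.ofReal_le_ofReal
    apply Real.exp_le_exp.mpr
    have : ((q : ℝ) ^ (-σ))^2 ≤ ((q:ℝ)⁻¹)^2 := by gcongr
    linarith)
  have h1 : -(∑ p ∈ PP Z, (p : ℝ) ^ (-σ)) + ∑ q ∈ QQ Z (Z * 2 ^ i), ((q : ℝ)⁻¹/4 + ((q:ℝ)⁻¹)^2) ≤
      (C' + C / 4 + 2) - Real.log Z + 1/4 * (Real.log ((2:ℝ) ^ i)) := by
    have h2 := h Z (Z * 2 ^ i) hZ hZi
    have h3 := sum_inv_sq_le (QQ Z (Z * 2 ^ i)) (fun p hp => (mem_QQ.mp hp).1.one_lt.le)
    have h4 := h' (σ - 1) (by linarith) (by linarith) Z hZ hZσ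
    rw [show 1 + (σ - 1) = σ by ring] at h4
    rw [Finset.sum_add_distrib, ← Finset.sum_div]
    have h5 : ((Z * 2 ^ i : ℕ) : ℝ) / Z = (2:ℝ) ^ i := by
      push_cast
      field_simp
    rw [h5] at h2
    linarith
  have hW2 : WR σ Z (Z * 2 ^ i) (ENNReal.ofReal (5/4)) ≤
      ZZ σ * ENNReal.ofReal (Real.exp (C' + C / 4 + 2) / Z * ((2:ℝ) ^ (1/4 : ℝ)) ^ i) := by
    refine hW.trans ?_
    apply mul_le_mul' le_rfl
    apply ENNReal.ofReal_le_ofReal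
    calc _ ≤ Real.exp ((C' + C / 4 + 2) - Real.log Z + 1/4 * (Real.log ((2:ℝ) ^ i))) := Real.exp_le_exp.mpr h1
      _ = Real.exp (C' + C / 4 + 2) / Z * ((2:ℝ) ^ (1/4 : ℝ)) ^ i := by
          rw [Real.exp_add, Real.exp_sub, Real.exp_log hZ']
          congr 1
          rw [Real.log_pow, ← Real.rpow_natCast, ← Real.rpow_mul (by norm_num), Real.rpow_def_of_pos (by norm_num)]
          congr 1
          ring
  have h5 : mu σ {n | n ∈ Rg Z ∧ (B : ℝ) + 7 / 8 * i < vs (QQ Z (Z * 2 ^ i)) n} ≤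
      ENNReal.ofReal ((5/4 : ℝ) ^ (-((B : ℝ) + 7 / 8 * i))) * WR σ Z (Z * 2 ^ i) (ENNReal.ofReal (5/4)) := by
    unfold mu WR
    rw [← ENNReal.tsum_mul_left]
    apply ENNReal.tsum_le_tsum
    intro n
    by_cases hn : n ∈ {n | n ∈ Rg Z ∧ (B : ℝ) + 7 / 8 * i < vs (QQ Z (Z * 2 ^ i)) n}
    · rw [Set.indicator_of_mem hn, Set.indicator_of_mem hn.1]
      have hn' : (B : ℝ) + 7 / 8 * i < vs (QQ Z (Z * 2 ^ i)) n := hn.2
      have h6 : 1 ≤ ENNReal.ofReal ((5/4 : ℝ) ^ (-((B : ℝ) + 7 / 8 * i))) * ENNReal.ofReal (5/4) ^ (vs (QQ Z (Z * 2 ^ i)) n) := by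
        rw [← ENNReal.ofReal_pow (by norm_num), ← ENNReal.ofReal_mul (by positivity), ← ENNReal.ofReal_one]
        apply ENNReal.ofReal_le_ofReal
        rw [← Real.rpow_natCast, ← Real.rpow_add (by norm_num)]
        apply Real.one_le_rpow (by norm_num)
        linarith
      calc zp σ n = 1 * zp σ n := (one_mul _).symm
        _ ≤ (ENNReal.ofReal ((5/4 : ℝ) ^ (-((B : ℝ) + 7 / 8 * i))) * ENNReal.ofReal (5/4) ^ (vs (QQ Z (Z * 2 ^ i)) n)) * zp σ n := by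
            gcongr
        _ = _ := by ring
    · rw [Set.indicator_of_notMem hn]
      exact zero_le
  refine h5.trans ?_
  calc _ ≤ ENNReal.ofReal ((5/4 : ℝ) ^ (-((B : ℝ) + 7 / 8 * i))) *
        (ZZ σ * ENNReal.ofReal (Real.exp (C' + C / 4 + 2) / Z * ((2:ℝ) ^ (1/4 : ℝ)) ^ i)) := by gcongr
    _ = ZZ σ * (ENNReal.ofReal ((5/4 : ℝ) ^ (-((B : ℝ) + 7 / 8 * i))) *
        ENNReal.ofReal (Real.exp (C' + C / 4 + 2) / Z * ((2:ℝ) ^ (1/4 : ℝ)) ^ i)) := by ring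
    _ = _ := by
        rw [← ENNReal.ofReal_mul (by positivity)]
        congr 2
        have e1 : (5/4 : ℝ) ^ (-((B : ℝ) + 7 / 8 * i)) = (4/5 : ℝ) ^ B * ((5/4 : ℝ) ^ (-(7/8) : ℝ)) ^ i := by
          rw [neg_add, Real.rpow_add (by norm_num)]
          congr 1
          · rw [Real.rpow_neg (by norm_num), Real.rpow_natCast, ← inv_pow]
            norm_num
          · rw [← Real.rpow_natCast, ← Real.rpow_mul (by norm_num)]
            congr 1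
            ring
        rw [e1, mul_pow]
        ring

/-- atypical rough integers are rare -/
theorem not_typR_bound : ∃ C : ℝ, 0 < C ∧ ∀ σ : ℝ, 1 < σ → σ ≤ 2 → ∀ Z : ℕ, 1 ≤ Z → (Z : ℝ) * (σ - 1) ≤ 1 →
    ∀ B : ℕ, mu σ {n | n ∈ Rg Z ∧ n ∉ TypR Z B} ≤ ZZ σ * ENNReal.ofReal (C / Z * (4/5 : ℝ) ^ B) := by
  obtain ⟨C, hC, h⟩ := scaleR_bound
  set ρ := (2:ℝ) ^ (1/4 : ℝ) * (5/4 : ℝ) ^ (-(7/8) : ℝ) with hρ
  have hρ0 : 0 < ρ := by positivity
  have hρ1 : ρ < 1 := ratio_lt_one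
  refine ⟨C * (1 - ρ)⁻¹, ?_, ?_⟩
  · have : 0 < 1 - ρ := by linarith
    positivity
  intro σ hσ hσ2 Z hZ hZσ B
  have hZ' : (0:ℝ) < Z := by exact_mod_cast hZ
  have h1 : mu σ {n | n ∈ Rg Z ∧ n ∉ TypR Z B} ≤ ∑' i : ℕ, mu σ {n | n ∈ Rg Z ∧ (B : ℝ) + 7 / 8 * i < vs (QQ Z (Z * 2 ^ i)) n} := by
    apply mu_tsum_union_le'
    rintro n ⟨hn1, hn2⟩
    have hn' : ¬ ∀ i : ℕ, (vs (QQ Z (Z * 2 ^ i)) n : ℝ) ≤ B + 7 / 8 * i := hn2
    push Not at hn'
    obtain ⟨i, hi⟩ := hn'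
    exact Set.mem_iUnion.mpr ⟨i, hn1, hi⟩
  refine h1.trans ?_
  calc ∑' i : ℕ, mu σ {n | n ∈ Rg Z ∧ (B : ℝ) + 7 / 8 * i < vs (QQ Z (Z * 2 ^ i)) n}
      ≤ ∑' i : ℕ, ZZ σ * ENNReal.ofReal (C / Z * (4/5 : ℝ) ^ B * ρ ^ i) := ENNReal.tsum_le_tsum (fun i => h σ hσ hσ2 Z hZ hZσ B i)
    _ = ZZ σ * ENNReal.ofReal (C / Z * (4/5 : ℝ) ^ B * (1 - ρ)⁻¹) := by
        rw [ENNReal.tsum_mul_left]
        congr 1
        have hs := summable_geometric_of_lt_one hρ0.le hρ1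
        rw [← ENNReal.ofReal_tsum_of_nonneg (fun i => by positivity) (hs.mul_left _), tsum_mul_left,
          tsum_geometric_of_lt_one hρ0.le hρ1]
    _ = _ := by
        congr 2
        ring

end Pool.Agent.Erdos456
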