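import Mathlib
import Pool.Agent.Erdos456.R4

set_option autoImplicit false

open scoped ENNReal

namespace Pool.Agent.Erdos456

/-- decay of the half-weighted product -/
theorem decay_real : ∃ C : ℝ, 0 < C ∧ ∀ σ : ℝ, 1 < σ → σ ≤ 2 → ∀ j : ℕ, 1 ≤ j →
    ((2:ℝ) ^ j) ^ (-(σ - 1)) * Real.exp (-(1/2) * ∑ q ∈ PP (j + 1), (q : ℝ) ^ (-σ)) ≤
      C * (j : ℝ) ^ (-(1/2) : ℝ) := by
  obtain ⟨C, hC, h⟩ := sum_rpow_lower
  refine ⟨Real.exp (C / 2) * 2, by positivity, ?_⟩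
  intro σ hσ hσ2 j hj
  set η := σ - 1 with hη
  have hη0 : 0 < η := by rw [hη]; linarith
  have hη1 : η ≤ 1 := by rw [hη]; linarith
  have hj' : (1:ℝ) ≤ j := by exact_mod_cast hj
  have hj0 : (0:ℝ) < j := by linarith
  -- J' = min (j+1) ⌊1/η⌋
  set J' := min (j + 1) ⌊1/η⌋₊ with hJ'
  have hfl : 1 ≤ ⌊1/η⌋₊ := by
    apply Nat.le_floor
    rw [Nat.cast_one, le_div_iff₀ hη0]
    linarith
  have hJ1 : 1 ≤ J' := le_min (by omega) hfl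
  have hJη : (J' : ℝ) * η ≤ 1 := by
    have h1 : (J' : ℝ) ≤ 1/η := by
      calc (J' : ℝ) ≤ (⌊1/η⌋₊ : ℝ) := by exact_mod_cast min_le_right _ _
        _ ≤ 1/η := Nat.floor_le (by positivity)
    calc (J' : ℝ) * η ≤ (1/η) * η := by gcongr
      _ = 1 := by field_simp
  have h1 := h η hη0 hη1 J' hJ1 hJη
  have h2 : ∑ p ∈ PP J', (p : ℝ) ^ (-(1 + η)) ≤ ∑ p ∈ PP (j + 1), (p : ℝ) ^ (-(1 + η)) := by
    apply Finset.sum_le_sum_of_subset_of_nonneg (PP_mono (min_le_left _ _))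
    intro p _ _
    positivity
  have hση : σ = 1 + η := by rw [hη]; ring
  have h3 : Real.exp (-(1/2) * ∑ q ∈ PP (j + 1), (q : ℝ) ^ (-σ)) ≤ Real.exp (C / 2) * (J' : ℝ) ^ (-(1/2) : ℝ) := by
    have hJ0 : (0:ℝ) < J' := by exact_mod_cast hJ1
    rw [Real.rpow_def_of_pos hJ0, ← Real.exp_add]
    apply Real.exp_le_exp.mpr
    rw [hση]
    linarith
  have hJ0 : (0:ℝ) < J' := by exact_mod_cast hJ1
  have h4 : ((2:ℝ) ^ j) ^ (-η) * (J' : ℝ) ^ (-(1/2) : ℝ) ≤ 2 * (j : ℝ) ^ (-(1/2) : ℝ) := by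
    rcases le_or_gt (j + 1) ⌊1/η⌋₊ with hc | hc
    · have hJeq : J' = j + 1 := min_eq_left hc
      have h5 : (J' : ℝ) ^ (-(1/2) : ℝ) ≤ (j : ℝ) ^ (-(1/2) : ℝ) := by
        apply Real.rpow_le_rpow_of_nonpos hj0 _ (by norm_num)
        rw [hJeq]; push_cast; linarith
      have h6 : ((2:ℝ) ^ j) ^ (-η) ≤ 1 := by
        apply Real.rpow_le_one_of_one_le_of_nonpos
        · exact one_le_pow₀ (by norm_num)
        · linarith
      calc ((2:ℝ) ^ j) ^ (-η) * (J' : ℝ) ^ (-(1/2) : ℝ) ≤ 1 * (j : ℝ) ^ (-(1/2) : ℝ) := by gcongr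
        _ ≤ _ := by
          have : 0 ≤ (j : ℝ) ^ (-(1/2) : ℝ) := by positivity
          linarith
    · have hJeq : J' = ⌊1/η⌋₊ := min_eq_right hc.le
      -- J' ≥ 1/(2η)
      have h5 : 1 / (2 * η) ≤ J' := by
        rw [hJeq]
        have h6 := Nat.lt_floor_add_one (1/η)
        have h7 : (1:ℝ) ≤ ⌊1/η⌋₊ := by exact_mod_cast hfl
        have h8 : 1 / η ≤ 2 * (⌊1/η⌋₊ : ℝ) := by linarith
        have h9 : 1 / (2 * η) = (1/η) / 2 := by field_simp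
        rw [h9]; linarith
      have h6 : (J' : ℝ) ^ (-(1/2) : ℝ) ≤ (1 / (2 * η)) ^ (-(1/2) : ℝ) := by
        apply Real.rpow_le_rpow_of_nonpos (by positivity) h5 (by norm_num)
      have h7 : (1 / (2 * η)) ^ (-(1/2) : ℝ) = Real.sqrt (2 * η) := by
        rw [Real.rpow_neg (by positivity), ← Real.inv_rpow (by positivity), one_div, inv_inv, Real.sqrt_eq_rpow]
      have h8 : (j : ℝ) ^ (-(1/2) : ℝ) = (Real.sqrt j)⁻¹ := by
        rw [Real.rpow_neg hj0.le, Real.sqrt_eq_rpow]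
      rw [h7] at h6
      rw [h8]
      have h9 : ((2:ℝ) ^ j) ^ (-η) = Real.exp (-(Real.log 2 * (j * η))) := by
        rw [← Real.rpow_natCast, ← Real.rpow_mul (by norm_num), Real.rpow_def_of_pos (by norm_num)]
        congr 1
        ring
      set x := (j : ℝ) * η with hx
      have hx0 : 0 < x := by positivity
      have h10 : Real.exp (-(Real.log 2 * x)) * Real.sqrt (2 * x) ≤ 2 := by
        have h11 : Real.sqrt (2 * x) ≤ 1 + x / 2 + x/2 := by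
          rw [Real.sqrt_le_left (by positivity)]
          nlinarith [sq_nonneg (x - 1), sq_nonneg x]
        have h12 : 1 + x * Real.log 2 ≤ Real.exp (Real.log 2 * x) := by
          have := Real.add_one_le_exp (Real.log 2 * x)
          linarith
        have h13 : (1/2 : ℝ) ≤ Real.log 2 := by
          have := Real.log_two_gt_d9
          linarith
        rw [Real.exp_neg, inv_mul_le_iff₀ (Real.exp_pos _)]
        calc Real.sqrt (2 * x) ≤ 1 + x := by linarith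
          _ ≤ (1 + x * Real.log 2) * 2 := by nlinarith
          _ ≤ _ := by gcongr
      have h14 : Real.sqrt (2 * x) = Real.sqrt (2 * η) * Real.sqrt j := by
        rw [← Real.sqrt_mul (by positivity)]
        congr 1
        rw [hx]; ring
      have hsj : 0 < Real.sqrt j := Real.sqrt_pos.mpr hj0
      rw [h9, ← div_eq_mul_inv, le_div_iff₀ hsj]
      calc Real.exp (-(Real.log 2 * x)) * (J' : ℝ) ^ (-(1/2) : ℝ) * Real.sqrt j
          ≤ Real.exp (-(Real.log 2 * x)) * Real.sqrt (2 * η) * Real.sqrt j := by gcongr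
        _ = Real.exp (-(Real.log 2 * x)) * Real.sqrt (2 * x) := by rw [h14]; ring
        _ ≤ 2 := h10
  calc ((2:ℝ) ^ j) ^ (-η) * Real.exp (-(1/2) * ∑ q ∈ PP (j + 1), (q : ℝ) ^ (-σ))
      ≤ ((2:ℝ) ^ j) ^ (-η) * (Real.exp (C / 2) * (J' : ℝ) ^ (-(1/2) : ℝ)) := by gcongr
    _ = Real.exp (C / 2) * (((2:ℝ) ^ j) ^ (-η) * (J' : ℝ) ^ (-(1/2) : ℝ)) := by ring
    _ ≤ Real.exp (C / 2) * (2 * (j : ℝ) ^ (-(1/2) : ℝ)) := by gcongr
    _ = _ := by ring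

theorem WR_half : ∃ C : ℝ, 0 < C ∧ ∀ σ : ℝ, 1 < σ → σ ≤ 2 → ∀ Z : ℕ, 1 ≤ Z → (Z : ℝ) * (σ - 1) ≤ 1 →
    ∀ j : ℕ, Z ≤ j →
    ENNReal.ofReal (((2:ℝ) ^ j) ^ (-(σ - 1))) * WR σ Z (j + 1) (ENNReal.ofReal (1/2)) ≤
      ZZ σ * ENNReal.ofReal (C * ((Z : ℝ) ^ (-(1/2) : ℝ) * (j : ℝ) ^ (-(1/2) : ℝ))) := by
  obtain ⟨C1, hC1, h1⟩ := decay_real
  obtain ⟨C2, hC2, h2⟩ := sum_rpow_lower
  refine ⟨C1 * Real.exp (C2 / 2), by positivity, ?_⟩
  intro σ hσ hσ2 Z hZ hZσ j hj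
  have hZ' : (0:ℝ) < Z := by exact_mod_cast hZ
  have hW := WR_le hσ (show Z ≤ j + 1 by omega) (ϑ := ENNReal.ofReal (1/2)) (fun q => -((q : ℝ) ^ (-σ)/2)) (by
    intro q hq
    obtain ⟨h0, h1, h2⟩ := zp_real_bounds hσ hq
    exact local_half h0 h2)
  have h3 := h2 (σ - 1) (by linarith) (by linarith) Z hZ hZσ
  rw [show 1 + (σ - 1) = σ by ring] at h3
  have h4 := h1 σ hσ hσ2 j (by omega)
  have h5 : ∑ p ∈ PP (j + 1), (p : ℝ) ^ (-σ) = ∑ p ∈ PP Z, (p : ℝ) ^ (-σ) + ∑ p ∈ QQ Z (j + 1), (p : ℝ) ^ (-σ) := by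
    have h6 := Finset.sum_sdiff (f := fun p : ℕ => (p : ℝ) ^ (-σ)) (PP_mono (show Z ≤ j + 1 by omega))
    unfold QQ
    rw [← h6, add_comm]
  have h6 : Real.exp (-(∑ p ∈ PP Z, (p : ℝ) ^ (-σ)) + ∑ q ∈ QQ Z (j + 1), -((q : ℝ) ^ (-σ)/2)) ≤
      (Real.exp (C2 / 2) * (Z : ℝ) ^ (-(1/2) : ℝ)) * Real.exp (-(1/2) * ∑ q ∈ PP (j + 1), (q : ℝ) ^ (-σ)) := by
    rw [Real.rpow_def_of_pos hZ', ← Real.exp_add, ← Real.exp_add]
    apply Real.exp_le_exp.mpr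
    rw [h5, Finset.sum_neg_distrib, ← Finset.sum_div]
    linarith
  calc ENNReal.ofReal (((2:ℝ) ^ j) ^ (-(σ - 1))) * WR σ Z (j + 1) (ENNReal.ofReal (1/2))
      ≤ ENNReal.ofReal (((2:ℝ) ^ j) ^ (-(σ - 1))) * (ZZ σ * ENNReal.ofReal ((Real.exp (C2 / 2) * (Z : ℝ) ^ (-(1/2) : ℝ)) * Real.exp (-(1/2) * ∑ q ∈ PP (j + 1), (q : ℝ) ^ (-σ)))) := by
        gcongr
        exact hW.trans (by gcongr)
    _ = ZZ σ * ENNReal.ofReal (((2:ℝ) ^ j) ^ (-(σ - 1)) * ((Real.exp (C2 / 2) * (Z : ℝ) ^ (-(1/2) : ℝ)) * Real.exp (-(1/2) * ∑ q ∈ PP (j + 1), (q : ℝ) ^ (-σ)))) := by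
        rw [ENNReal.ofReal_mul (p := ((2:ℝ) ^ j) ^ (-(σ - 1))) (by positivity)]
        ring
    _ ≤ _ := by
        apply mul_le_mul' le_rfl
        apply ENNReal.ofReal_le_ofReal
        calc ((2:ℝ) ^ j) ^ (-(σ - 1)) * ((Real.exp (C2 / 2) * (Z : ℝ) ^ (-(1/2) : ℝ)) * Real.exp (-(1/2) * ∑ q ∈ PP (j + 1), (q : ℝ) ^ (-σ)))
            = (Real.exp (C2 / 2) * (Z : ℝ) ^ (-(1/2) : ℝ)) * (((2:ℝ) ^ j) ^ (-(σ - 1)) * Real.exp (-(1/2) * ∑ q ∈ PP (j + 1), (q : ℝ) ^ (-σ))) := by ring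
          _ ≤ (Real.exp (C2 / 2) * (Z : ℝ) ^ (-(1/2) : ℝ)) * (C1 * (j : ℝ) ^ (-(1/2) : ℝ)) := by gcongr
          _ = _ := by ring

/-- divisor sum of `te` over divisors other than one -/
noncomputable def hr (n : ℕ) : ℝ≥0∞ := ∑ d ∈ n.divisors.erase 1, te d

theorem QQ_mono {Z i j : ℕ} (h : i ≤ j) : QQ Z i ⊆ QQ Z j := by
  intro p hp
  rw [mem_QQ] at hp ⊢
  exact ⟨hp.1, hp.2.1.trans (Nat.pow_le_pow_right (by norm_num) h), hp.2.2⟩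

/-- weight inequality for typical rough integers -/
theorem typR_weight {Z B n j : ℕ} (hZ : 1 ≤ Z) (hn : n ∈ TypR Z B) (hj : Z ≤ j) :
    1 ≤ ENNReal.ofReal ((2:ℝ) ^ (B + 1) * (((j : ℝ) + 1) / Z) ^ (7/8 : ℝ)) * ENNReal.ofReal (1/2) ^ (vs (QQ Z (j + 1)) n) := by
  rw [← ENNReal.ofReal_pow (by norm_num), ← ENNReal.ofReal_mul (by positivity), ← ENNReal.ofReal_one]
  apply ENNReal.ofReal_le_ofReal
  have hZ' : (0:ℝ) < Z := by exact_mod_cast hZ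
  obtain ⟨i, h1, h2⟩ : ∃ i : ℕ, j + 1 ≤ Z * 2 ^ i ∧ Z * 2 ^ i ≤ 2 * (j + 1) := by
    have hex : ∃ i : ℕ, j + 1 ≤ Z * 2 ^ i := by
      refine ⟨j + 1, ?_⟩
      calc j + 1 ≤ 2 ^ (j + 1) := (Nat.lt_two_pow_self).le
        _ = 1 * 2 ^ (j + 1) := (one_mul _).symm
        _ ≤ Z * 2 ^ (j + 1) := Nat.mul_le_mul_right _ hZ
    classical
    refine ⟨Nat.find hex, Nat.find_spec hex, ?_⟩
    have hpos : 0 < Nat.find hex := by
      rw [Nat.find_pos]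
      simp only [pow_zero, mul_one]
      omega
    have h3 := Nat.find_min hex (m := Nat.find hex - 1) (by omega)
    push Not at h3
    have h4 : 2 ^ (Nat.find hex) = 2 * 2 ^ (Nat.find hex - 1) := by
      rw [← pow_succ']
      congr 1
      omega
    rw [h4]
    calc Z * (2 * 2 ^ (Nat.find hex - 1)) = 2 * (Z * 2 ^ (Nat.find hex - 1)) := by ring
      _ ≤ 2 * (j + 1) := by omega
  have h5 : (vs (QQ Z (j + 1)) n : ℝ) ≤ B + 7 / 8 * i := by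
    have h6 : vs (QQ Z (j + 1)) n ≤ vs (QQ Z (Z * 2 ^ i)) n := vs_mono (QQ_mono h1) n
    calc (vs (QQ Z (j + 1)) n : ℝ) ≤ vs (QQ Z (Z * 2 ^ i)) n := by exact_mod_cast h6
      _ ≤ _ := hn i
  have h7 : ((1:ℝ)/2) ^ (vs (QQ Z (j + 1)) n) = (2:ℝ) ^ (-(vs (QQ Z (j + 1)) n : ℝ)) := by
    rw [Real.rpow_neg (by norm_num), Real.rpow_natCast, one_div, inv_pow]
  have h8 : (2:ℝ) ^ ((B:ℝ) + 7 / 8 * i) ≤ (2:ℝ) ^ (B + 1) * (((j : ℝ) + 1) / Z) ^ (7/8 : ℝ) := by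
    have e1 : (2:ℝ) ^ ((B:ℝ) + 7 / 8 * i) = (2:ℝ) ^ B * (((2 ^ i : ℕ) : ℝ)) ^ (7/8 : ℝ) := by
      rw [Real.rpow_add (by norm_num), Real.rpow_natCast]
      congr 1
      push_cast
      rw [← Real.rpow_natCast, ← Real.rpow_mul (by norm_num)]
      congr 1
      ring
    rw [e1]
    have e2 : (((2 ^ i : ℕ) : ℝ)) ^ (7/8 : ℝ) ≤ 2 * (((j : ℝ) + 1) / Z) ^ (7/8 : ℝ) := by
      have e3 : ((2 ^ i : ℕ) : ℝ) ≤ 2 * (((j : ℝ) + 1) / Z) := by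
        rw [← mul_div_assoc, le_div_iff₀ hZ']
        have : ((Z * 2 ^ i : ℕ) : ℝ) ≤ ((2 * (j + 1) : ℕ) : ℝ) := by exact_mod_cast h2
        push_cast at this ⊢
        linarith
      calc (((2 ^ i : ℕ) : ℝ)) ^ (7/8 : ℝ) ≤ (2 * (((j : ℝ) + 1) / Z)) ^ (7/8 : ℝ) := by gcongr
        _ = (2:ℝ) ^ (7/8 : ℝ) * (((j : ℝ) + 1) / Z) ^ (7/8 : ℝ) := Real.mul_rpow (by norm_num) (by positivity)
        _ ≤ 2 * (((j : ℝ) + 1) / Z) ^ (7/8 : ℝ) := by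
            gcongr
            calc (2:ℝ) ^ (7/8 : ℝ) ≤ (2:ℝ) ^ (1 : ℝ) := Real.rpow_le_rpow_of_exponent_le (by norm_num) (by norm_num)
              _ = 2 := Real.rpow_one 2
    calc (2:ℝ) ^ B * (((2 ^ i : ℕ) : ℝ)) ^ (7/8 : ℝ) ≤ (2:ℝ) ^ B * (2 * (((j : ℝ) + 1) / Z) ^ (7/8 : ℝ)) := by gcongr
      _ = _ := by rw [pow_succ]; ring
  rw [h7]
  calc (1:ℝ) = (2:ℝ) ^ ((B:ℝ) + 7 / 8 * i) * (2:ℝ) ^ (-((B:ℝ) + 7 / 8 * i)) := by
        rw [← Real.rpow_add (by norm_num)]; simp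
    _ ≤ ((2:ℝ) ^ (B + 1) * (((j : ℝ) + 1) / Z) ^ (7/8 : ℝ)) * (2:ℝ) ^ (-(vs (QQ Z (j + 1)) n : ℝ)) := by
        have e4 : (2:ℝ) ^ (-((B:ℝ) + 7 / 8 * i)) ≤ (2:ℝ) ^ (-(vs (QQ Z (j + 1)) n : ℝ)) :=
          Real.rpow_le_rpow_of_exponent_le (by norm_num) (by linarith)
        gcongr

theorem vs_smooth_rough {Z j d : ℕ} (hd : d ∈ SR Z j) : vs (QQ Z j) d = ArithmeticFunction.cardFactors d := by
  rw [ArithmeticFunction.cardFactors_eq_sum_factorization]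
  unfold vs
  rw [Finsupp.sum]
  symm
  apply Finset.sum_subset
  · intro p hp
    rw [Nat.support_factorization, Nat.mem_primeFactors] at hp
    rw [mem_QQ]
    exact ⟨hp.1, (mem_Sm.mp hd.1).2 p hp.1 hp.2.1, hd.2.2 p hp.1 hp.2.1⟩
  · intro p _ hp
    rw [Finsupp.notMem_support_iff] at hp
    exact hp

theorem zp_blockR {σ : ℝ} (hσ : 1 < σ) {Z j d : ℕ} (hd : d ∈ SR Z (j + 1) \ Sm j) :
    zp σ d * ENNReal.ofReal (1/2) ^ (vs (QQ Z (j + 1)) d) ≤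
      ENNReal.ofReal (((2:ℝ) ^ j) ^ (-(σ - 1))) * uu d := by
  obtain ⟨h1, h2⟩ := hd
  have h1' := mem_Sm.mp h1.1
  have hd0 : 0 < d := Nat.pos_of_ne_zero h1'.1
  have h3 : ∃ p : ℕ, p.Prime ∧ p ∣ d ∧ 2 ^ j < p := by
    by_contra hcon
    push Not at hcon
    exact h2 (mem_Sm.mpr ⟨h1'.1, hcon⟩)
  obtain ⟨p, hp, hpd, hpj⟩ := h3
  have hdj : 2 ^ j ≤ d := hpj.le.trans (Nat.le_of_dvd hd0 hpd)
  rw [vs_smooth_rough h1]
  unfold zp uu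
  rw [← ENNReal.ofReal_pow (by norm_num), ← ENNReal.ofReal_mul (by positivity), ← ENNReal.ofReal_mul (by positivity)]
  apply ENNReal.ofReal_le_ofReal
  have hd0' : (0:ℝ) < d := by exact_mod_cast hd0
  have e1 : (d : ℝ) ^ (-σ) = (d : ℝ)⁻¹ * (d : ℝ) ^ (-(σ - 1)) := by
    rw [← Real.rpow_neg_one, ← Real.rpow_add hd0']
    congr 1
    ring
  have e2 : (d : ℝ) ^ (-(σ - 1)) ≤ ((2:ℝ) ^ j) ^ (-(σ - 1)) := by
    apply Real.rpow_le_rpow_of_nonpos (by positivity) _ (by linarith)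
    exact_mod_cast hdj
  rw [e1]
  calc (d : ℝ)⁻¹ * (d : ℝ) ^ (-(σ - 1)) * (1/2) ^ (ArithmeticFunction.cardFactors d)
      ≤ (d : ℝ)⁻¹ * ((2:ℝ) ^ j) ^ (-(σ - 1)) * (1/2) ^ (ArithmeticFunction.cardFactors d) := by gcongr
    _ = _ := by ring

/-- typical rough set -/
def TR (Z B : ℕ) : Set ℕ := {n | n ∈ Rg Z ∧ n ∈ TypR Z B}

/-- contribution of one block -/
theorem blockR_part {σ : ℝ} (hσ : 1 < σ) {Z B j : ℕ} (hZ : 1 ≤ Z) (hj : Z ≤ j) :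
    ∑' n : ℕ, (TR Z B).indicator (fun n => zp σ n * ∑ d ∈ n.divisors, (Sm (j + 1) \ Sm j).indicator te d) n ≤
      ENNReal.ofReal ((2:ℝ) ^ (B + 1) * (((j : ℝ) + 1) / Z) ^ (7/8 : ℝ)) *
        (BBR Z j * (ENNReal.ofReal (((2:ℝ) ^ j) ^ (-(σ - 1))) * WR σ Z (j + 1) (ENNReal.ofReal (1/2)))) := by
  set θ := ENNReal.ofReal (1/2) with hθ
  set K := ENNReal.ofReal ((2:ℝ) ^ (B + 1) * (((j : ℝ) + 1) / Z) ^ (7/8 : ℝ)) with hK
  have hA : ∀ n : ℕ, (TR Z B).indicator (fun n => zp σ n * ∑ d ∈ n.divisors, (Sm (j + 1) \ Sm j).indicator te d) n ≤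
      ∑ d ∈ n.divisors, K * ((Rg Z).indicator (fun n => θ ^ (vs (QQ Z (j + 1)) n) * zp σ n) n * (Sm (j + 1) \ Sm j).indicator te d) := by
    intro n
    by_cases hn : n ∈ TR Z B
    · rw [Set.indicator_of_mem hn, ← Finset.mul_sum, ← Finset.mul_sum, Set.indicator_of_mem hn.1]
      have h1 := typR_weight hZ hn.2 hj
      calc zp σ n * ∑ d ∈ n.divisors, (Sm (j + 1) \ Sm j).indicator te d
          = 1 * (zp σ n * ∑ d ∈ n.divisors, (Sm (j + 1) \ Sm j).indicator te d) := (one_mul _).symm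
        _ ≤ (K * θ ^ (vs (QQ Z (j + 1)) n)) * (zp σ n * ∑ d ∈ n.divisors, (Sm (j + 1) \ Sm j).indicator te d) := by
            gcongr
        _ = _ := by ring
    · rw [Set.indicator_of_notMem hn]
      exact zero_le
  refine (ENNReal.tsum_le_tsum hA).trans ?_
  refine (tsum_divisors_le _).trans ?_
  have hB : ∀ d s : ℕ, (if d = 0 then 0 else K * ((Rg Z).indicator (fun n => θ ^ (vs (QQ Z (j + 1)) n) * zp σ n) (d * s) * (Sm (j + 1) \ Sm j).indicator te d)) ≤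
      K * ((SR Z (j + 1) \ Sm j).indicator (fun d => te d * uu d) d * (ENNReal.ofReal (((2:ℝ) ^ j) ^ (-(σ - 1))) * (Rg Z).indicator (fun s => zp σ s * θ ^ (vs (QQ Z (j + 1)) s)) s)) := by
    intro d s
    split_ifs with hd0
    · exact zero_le
    · by_cases hds : d * s ∈ Rg Z
      · have hs : s ∈ Rg Z := Rg_dvd hds (Dvd.intro_left _ rfl)
        have hdR : d ∈ Rg Z := Rg_dvd hds (Dvd.intro _ rfl)
        rw [Set.indicator_of_mem hds, Set.indicator_of_mem hs]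
        by_cases hd : d ∈ Sm (j + 1) \ Sm j
        · have hd' : d ∈ SR Z (j + 1) \ Sm j := ⟨⟨hd.1, hdR⟩, hd.2⟩
          rw [Set.indicator_of_mem hd, Set.indicator_of_mem hd']
          rw [vs_mul _ hd0 hs.1, zp_mul, pow_add]
          have h1 := zp_blockR hσ hd'
          calc K * (θ ^ (vs (QQ Z (j + 1)) d) * θ ^ (vs (QQ Z (j + 1)) s) * (zp σ d * zp σ s) * te d)
              = K * (te d * (zp σ d * θ ^ (vs (QQ Z (j + 1)) d)) * (zp σ s * θ ^ (vs (QQ Z (j + 1)) s))) := by ring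
            _ ≤ K * (te d * (ENNReal.ofReal (((2:ℝ) ^ j) ^ (-(σ - 1))) * uu d) * (zp σ s * θ ^ (vs (QQ Z (j + 1)) s))) := by
                gcongr
            _ = _ := by ring
        · rw [Set.indicator_of_notMem hd]
          simp
      · rw [Set.indicator_of_notMem hds]
        simp
  refine (ENNReal.tsum_le_tsum (fun d => ENNReal.tsum_le_tsum (hB d))).trans ?_
  simp_rw [ENNReal.tsum_mul_left, ENNReal.tsum_mul_right]
  apply le_of_eq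
  rfl

/-- divisors of rough numbers other than one lie in high blocks -/
theorem blockR_cover {Z d : ℕ} (hZ : 1 ≤ Z) (hd : d ∈ Rg Z) (hd1 : d ≠ 1) :
    ∃ i : ℕ, d ∈ Sm (Z + i + 1) \ Sm (Z + i) := by
  obtain ⟨p, hp, hpd⟩ := Nat.exists_prime_and_dvd hd1
  have hpZ := hd.2 p hp hpd
  have hnZ : d ∉ Sm Z := by
    intro h
    have := (mem_Sm.mp h).2 p hp hpd
    omega
  rcases block_cover hd.1 with h3 | ⟨j, h3⟩
  · exact absurd (Sm_mono hZ h3) hnZ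
  · have h4 : Z ≤ j + 1 := by
      by_contra hcon
      push Not at hcon
      exact hnZ (Sm_mono (show j + 1 + 1 ≤ Z by omega) h3.1)
    refine ⟨j + 1 - Z, ?_⟩
    rw [show Z + (j + 1 - Z) = j + 1 by omega]
    exact h3

/-- the truncated expectation of `hr` over rough numbers -/
theorem hr_typ_bound : ∃ C : ℝ, 0 < C ∧ ∀ σ : ℝ, 1 < σ → σ ≤ 2 → ∀ Z : ℕ, 1 ≤ Z → (Z : ℝ) * (σ - 1) ≤ 1 → ∀ B : ℕ,
    ∑' n : ℕ, (TR Z B).indicator (fun n => zp σ n * hr n) n ≤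
      ZZ σ * ENNReal.ofReal (C * 2 ^ B * (Z : ℝ) ^ (-(15/8) : ℝ)) := by
  obtain ⟨C1, hC1, h1⟩ := BBR_le
  obtain ⟨C2, hC2, h2⟩ := WR_half
  have hsum : Summable (fun j : ℕ => ((j + 1 : ℕ) : ℝ) ^ (-(17/16) : ℝ)) := by
    have := (Real.summable_nat_rpow (p := -(17/16))).mpr (by norm_num)
    exact (summable_nat_add_iff (f := fun j : ℕ => (j : ℝ) ^ (-(17/16) : ℝ)) 1).mpr this
  set S := ∑' j : ℕ, ((j + 1 : ℕ) : ℝ) ^ (-(17/16) : ℝ) with hS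
  have hS0 : 0 ≤ S := tsum_nonneg (fun j => by positivity)
  refine ⟨4 * C1 * C2 * (S + 1), by positivity, ?_⟩
  intro σ hσ hσ2 Z hZ hZσ B
  have hZ' : (1:ℝ) ≤ Z := by exact_mod_cast hZ
  have hZ0 : (0:ℝ) < Z := by linarith
  -- pointwise
  have hP : ∀ n : ℕ, (TR Z B).indicator (fun n => zp σ n * hr n) n ≤
      ∑' i : ℕ, (TR Z B).indicator (fun n => zp σ n * ∑ d ∈ n.divisors, (Sm (Z + i + 1) \ Sm (Z + i)).indicator te d) n := by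
    intro n
    by_cases hn : n ∈ TR Z B
    · rw [Set.indicator_of_mem hn]
      have e1 : ∑' i : ℕ, (TR Z B).indicator (fun n => zp σ n * ∑ d ∈ n.divisors, (Sm (Z + i + 1) \ Sm (Z + i)).indicator te d) n =
          zp σ n * ∑ d ∈ n.divisors, ∑' i : ℕ, (Sm (Z + i + 1) \ Sm (Z + i)).indicator te d := by
        have e2 : ∀ i : ℕ, (TR Z B).indicator (fun n => zp σ n * ∑ d ∈ n.divisors, (Sm (Z + i + 1) \ Sm (Z + i)).indicator te d) n =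
            zp σ n * ∑ d ∈ n.divisors, (Sm (Z + i + 1) \ Sm (Z + i)).indicator te d := fun j => Set.indicator_of_mem hn _
        rw [tsum_congr e2, ENNReal.tsum_mul_left]
        congr 1
        rw [Summable.tsum_finsetSum (fun i _ => ENNReal.summable)]
      rw [e1]
      apply mul_le_mul' le_rfl
      unfold hr
      refine le_trans ?_ (Finset.sum_le_sum_of_subset (Finset.erase_subset 1 n.divisors))
      apply Finset.sum_le_sum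
      intro d hd
      rw [Finset.mem_erase] at hd
      have hdR : d ∈ Rg Z := Rg_dvd hn.1 (Nat.dvd_of_mem_divisors hd.2)
      obtain ⟨i, h3⟩ := blockR_cover hZ hdR hd.1
      calc te d = (Sm (Z + i + 1) \ Sm (Z + i)).indicator te d := by rw [Set.indicator_of_mem h3]
        _ ≤ _ := ENNReal.le_tsum (f := fun i : ℕ => (Sm (Z + i + 1) \ Sm (Z + i)).indicator te d) i
    · rw [Set.indicator_of_notMem hn]
      exact zero_le
  refine (ENNReal.tsum_le_tsum hP).trans ?_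
  rw [ENNReal.tsum_comm]
  have hB : ∀ i : ℕ, ∑' n : ℕ, (TR Z B).indicator (fun n => zp σ n * ∑ d ∈ n.divisors, (Sm (Z + i + 1) \ Sm (Z + i)).indicator te d) n ≤
      ZZ σ * ENNReal.ofReal ((4 * C1 * C2 * 2 ^ B * (Z : ℝ) ^ (-(15/8) : ℝ)) * ((i + 1 : ℕ) : ℝ) ^ (-(17/16) : ℝ)) := by
    intro i
    refine (blockR_part hσ hZ (show Z ≤ Z + i by omega)).trans ?_
    have h3 := h1 Z (Z + i) hZ (by omega)
    have h4 := h2 σ hσ hσ2 Z hZ hZσ (Z + i) (by omega)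
    set x : ℝ := ((Z + i : ℕ) : ℝ) with hx
    have hx1 : 1 ≤ x := by rw [hx]; exact_mod_cast (by omega : 1 ≤ Z + i)
    have hx0 : 0 < x := by linarith
    have hxi : ((i + 1 : ℕ) : ℝ) ≤ x := by rw [hx]; exact_mod_cast (by omega : i + 1 ≤ Z + i)
    have hi0 : (0:ℝ) < ((i + 1 : ℕ) : ℝ) := by positivity
    calc ENNReal.ofReal ((2:ℝ) ^ (B + 1) * ((x + 1) / Z) ^ (7/8 : ℝ)) *
        (BBR Z (Z + i) * (ENNReal.ofReal (((2:ℝ) ^ (Z + i)) ^ (-(σ - 1))) * WR σ Z (Z + i + 1) (ENNReal.ofReal (1/2))))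
        ≤ ENNReal.ofReal ((2:ℝ) ^ (B + 1) * ((x + 1) / Z) ^ (7/8 : ℝ)) *
          (ENNReal.ofReal (C1 * ((Z : ℝ) ^ (-(1/2) : ℝ) * x ^ (-(23/16) : ℝ))) * (ZZ σ * ENNReal.ofReal (C2 * ((Z : ℝ) ^ (-(1/2) : ℝ) * x ^ (-(1/2) : ℝ))))) := by
          gcongr
      _ = ZZ σ * (ENNReal.ofReal ((2:ℝ) ^ (B + 1) * ((x + 1) / Z) ^ (7/8 : ℝ)) *
          (ENNReal.ofReal (C1 * ((Z : ℝ) ^ (-(1/2) : ℝ) * x ^ (-(23/16) : ℝ))) * ENNReal.ofReal (C2 * ((Z : ℝ) ^ (-(1/2) : ℝ) * x ^ (-(1/2) : ℝ))))) := by ring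
      _ ≤ _ := by
          rw [← ENNReal.ofReal_mul (by positivity), ← ENNReal.ofReal_mul (by positivity)]
          apply mul_le_mul' le_rfl
          apply ENNReal.ofReal_le_ofReal
          have e5 : ((x + 1) / Z) ^ (7/8 : ℝ) ≤ 2 * (x ^ (7/8 : ℝ) * (Z : ℝ) ^ (-(7/8) : ℝ)) := by
            calc ((x + 1) / Z) ^ (7/8 : ℝ) ≤ (2 * (x / Z)) ^ (7/8 : ℝ) := by
                  gcongr
                  rw [← mul_div_assoc]
                  gcongr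
                  linarith
              _ = (2:ℝ) ^ (7/8 : ℝ) * (x / Z) ^ (7/8 : ℝ) := Real.mul_rpow (by norm_num) (by positivity)
              _ ≤ 2 * (x / Z) ^ (7/8 : ℝ) := by
                  gcongr
                  calc (2:ℝ) ^ (7/8 : ℝ) ≤ (2:ℝ) ^ (1 : ℝ) := Real.rpow_le_rpow_of_exponent_le (by norm_num) (by norm_num)
                    _ = 2 := Real.rpow_one 2
              _ = 2 * (x ^ (7/8 : ℝ) * (Z : ℝ) ^ (-(7/8) : ℝ)) := by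
                  rw [Real.div_rpow hx0.le hZ0.le, Real.rpow_neg hZ0.le]
                  rfl
          have e6 : x ^ (7/8 : ℝ) * (x ^ (-(23/16) : ℝ) * x ^ (-(1/2) : ℝ)) = x ^ (-(17/16) : ℝ) := by
            rw [← Real.rpow_add hx0, ← Real.rpow_add hx0]
            congr 1
            norm_num
          have e7 : (Z : ℝ) ^ (-(7/8) : ℝ) * ((Z : ℝ) ^ (-(1/2) : ℝ) * (Z : ℝ) ^ (-(1/2) : ℝ)) = (Z : ℝ) ^ (-(15/8) : ℝ) := by
            rw [← Real.rpow_add hZ0, ← Real.rpow_add hZ0]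
            congr 1
            norm_num
          have e8 : x ^ (-(17/16) : ℝ) ≤ ((i + 1 : ℕ) : ℝ) ^ (-(17/16) : ℝ) :=
            Real.rpow_le_rpow_of_nonpos hi0 hxi (by norm_num)
          calc (2:ℝ) ^ (B + 1) * ((x + 1) / Z) ^ (7/8 : ℝ) * (C1 * ((Z : ℝ) ^ (-(1/2) : ℝ) * x ^ (-(23/16) : ℝ)) * (C2 * ((Z : ℝ) ^ (-(1/2) : ℝ) * x ^ (-(1/2) : ℝ))))
              ≤ (2:ℝ) ^ (B + 1) * (2 * (x ^ (7/8 : ℝ) * (Z : ℝ) ^ (-(7/8) : ℝ))) * (C1 * ((Z : ℝ) ^ (-(1/2) : ℝ) * x ^ (-(23/16) : ℝ)) * (C2 * ((Z : ℝ) ^ (-(1/2) : ℝ) * x ^ (-(1/2) : ℝ)))) := by gcongr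
            _ = (4 * C1 * C2 * 2 ^ B * ((Z : ℝ) ^ (-(7/8) : ℝ) * ((Z : ℝ) ^ (-(1/2) : ℝ) * (Z : ℝ) ^ (-(1/2) : ℝ)))) * (x ^ (7/8 : ℝ) * (x ^ (-(23/16) : ℝ) * x ^ (-(1/2) : ℝ))) := by rw [pow_succ]; ring
            _ = (4 * C1 * C2 * 2 ^ B * (Z : ℝ) ^ (-(15/8) : ℝ)) * x ^ (-(17/16) : ℝ) := by rw [e6, e7]
            _ ≤ _ := by gcongr
  calc _ ≤ ∑' i : ℕ, ZZ σ * ENNReal.ofReal ((4 * C1 * C2 * 2 ^ B * (Z : ℝ) ^ (-(15/8) : ℝ)) * ((i + 1 : ℕ) : ℝ) ^ (-(17/16) : ℝ)) :=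
        ENNReal.tsum_le_tsum hB
    _ = ZZ σ * ENNReal.ofReal ((4 * C1 * C2 * 2 ^ B * (Z : ℝ) ^ (-(15/8) : ℝ)) * S) := by
        rw [ENNReal.tsum_mul_left]
        congr 1
        rw [← ENNReal.ofReal_tsum_of_nonneg (fun i => by positivity) (hsum.mul_left _), tsum_mul_left]
    _ ≤ _ := by
        apply mul_le_mul' le_rfl
        apply ENNReal.ofReal_le_ofReal
        have : 0 ≤ 4 * C1 * C2 * 2 ^ B * (Z : ℝ) ^ (-(15/8) : ℝ) := by positivity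
        nlinarith

end Pool.Agent.Erdos456
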