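import Mathlib
import Pool.Agent.Erdos456.R5

set_option autoImplicit false

open scoped ENNReal

namespace Pool.Agent.Erdos456

/-- mean of `GG ^ 2` over rough numbers -/
theorem GG_meanR : ∃ C : ℝ, 0 < C ∧ ∀ σ : ℝ, 1 < σ → ∀ Z : ℕ,
    ∑' n : ℕ, (Rg Z).indicator (fun n => zp σ n * ENNReal.ofReal (GG n ^ 2)) n ≤ mu σ (Rg Z) * ENNReal.ofReal C := by
  obtain ⟨C1, hC1, h1⟩ := GG_sq_le
  obtain ⟨C3, hC3, h3⟩ := tsum_rpow_fin
  refine ⟨C1 * C3, by positivity, ?_⟩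
  intro σ hσ Z
  have hA : ∀ n : ℕ, (Rg Z).indicator (fun n => zp σ n * ENNReal.ofReal (GG n ^ 2)) n ≤
      ∑ e ∈ n.divisors, ENNReal.ofReal C1 * ((Rg Z).indicator (zp σ) n * ENNReal.ofReal ((e : ℝ) ^ (-(1/2) : ℝ))) := by
    intro n
    by_cases hn : n ∈ Rg Z
    · rw [Set.indicator_of_mem hn, Set.indicator_of_mem hn, ← Finset.mul_sum, ← Finset.mul_sum,
        ← ENNReal.ofReal_sum_of_nonneg (fun i _ => by positivity)]
      calc zp σ n * ENNReal.ofReal (GG n ^ 2) ≤ zp σ n * ENNReal.ofReal (C1 * ∑ d ∈ n.divisors, (d : ℝ) ^ (-(1/2) : ℝ)) := by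
            gcongr
            exact h1 n
        _ = _ := by
            rw [ENNReal.ofReal_mul hC1.le]
            ring
    · rw [Set.indicator_of_notMem hn]
      exact zero_le
  refine (ENNReal.tsum_le_tsum hA).trans ?_
  refine (tsum_divisors_le _).trans ?_
  have hB : ∀ e s : ℕ, (if e = 0 then 0 else ENNReal.ofReal C1 * ((Rg Z).indicator (zp σ) (e * s) * ENNReal.ofReal ((e : ℝ) ^ (-(1/2) : ℝ)))) ≤
      ENNReal.ofReal C1 * (ENNReal.ofReal ((e : ℝ)⁻¹ * (e : ℝ) ^ (-(1/2) : ℝ)) * (Rg Z).indicator (zp σ) s) := by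
    intro e s
    split_ifs with he
    · exact zero_le
    · by_cases hes : e * s ∈ Rg Z
      · have hs : s ∈ Rg Z := Rg_dvd hes (Dvd.intro_left _ rfl)
        rw [Set.indicator_of_mem hes, Set.indicator_of_mem hs, zp_mul]
        have h4 : zp σ e ≤ ENNReal.ofReal ((e : ℝ)⁻¹) := zp_le_inv hσ (Nat.one_le_iff_ne_zero.mpr he)
        rw [ENNReal.ofReal_mul (by positivity)]
        calc ENNReal.ofReal C1 * (zp σ e * zp σ s * ENNReal.ofReal ((e : ℝ) ^ (-(1/2) : ℝ)))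
            ≤ ENNReal.ofReal C1 * (ENNReal.ofReal ((e : ℝ)⁻¹) * zp σ s * ENNReal.ofReal ((e : ℝ) ^ (-(1/2) : ℝ))) := by
              gcongr
          _ = _ := by ring
      · rw [Set.indicator_of_notMem hes]
        simp
  refine (ENNReal.tsum_le_tsum (fun d => ENNReal.tsum_le_tsum (hB d))).trans ?_
  simp_rw [ENNReal.tsum_mul_left, ENNReal.tsum_mul_right]
  calc ENNReal.ofReal C1 * ((∑' e : ℕ, ENNReal.ofReal ((e : ℝ)⁻¹ * (e : ℝ) ^ (-(1/2) : ℝ))) * ∑' s : ℕ, (Rg Z).indicator (zp σ) s)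
      ≤ ENNReal.ofReal C1 * (ENNReal.ofReal C3 * ∑' s : ℕ, (Rg Z).indicator (zp σ) s) := by gcongr
    _ = mu σ (Rg Z) * ENNReal.ofReal (C1 * C3) := by
        rw [ENNReal.ofReal_mul hC1.le]
        unfold mu
        ring

/-- the set where `hr * GG ^ 2` is not small -/
def BigR (ε : ℝ) : Set ℕ := {n | ENNReal.ofReal ε < hr n * ENNReal.ofReal (GG n ^ 2)}

/-- `hr * GG ^ 2` is small for most rough numbers -/
theorem tightR : ∀ ε : ℝ, 0 < ε → ∀ ε' : ℝ, 0 < ε' → ∃ Z₀ : ℕ, 1 ≤ Z₀ ∧ ∀ Z : ℕ, Z₀ ≤ Z →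
    ∀ σ : ℝ, 1 < σ → σ ≤ 2 → (Z : ℝ) * (σ - 1) ≤ 1 →
    mu σ {n | n ∈ Rg Z ∧ n ∈ BigR ε'} ≤ ZZ σ * ENNReal.ofReal (ε / Z) := by
  intro ε hε ε' hε'
  obtain ⟨C1, hC1, h1⟩ := not_typR_bound
  obtain ⟨C2, hC2, h2⟩ := hr_typ_bound
  obtain ⟨C3, hC3, h3⟩ := GG_meanR
  obtain ⟨C4, hC4, h4⟩ := mu_Rg_le
  obtain ⟨B, hB⟩ : ∃ B : ℕ, (4/5 : ℝ) ^ B < ε / (3 * C1) :=
    exists_pow_lt_of_lt_one (by positivity) (by norm_num)
  set H2 : ℝ := 3 * C3 * C4 / ε with hH2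
  have hH2p : 0 < H2 := by positivity
  set H1 : ℝ := ε' / H2 with hH1
  have hH1p : 0 < H1 := by positivity
  have hlim : Filter.Tendsto (fun Z : ℕ => (Z : ℝ) ^ (-(7/8) : ℝ)) Filter.atTop (nhds 0) :=
    (tendsto_rpow_neg_atTop (by norm_num : (0:ℝ) < 7/8)).comp tendsto_natCast_atTop_atTop
  have hev : ∀ᶠ Z : ℕ in Filter.atTop, (Z : ℝ) ^ (-(7/8) : ℝ) < ε * H1 / (3 * C2 * 2 ^ B) :=
    hlim.eventually (gt_mem_nhds (by positivity))
  obtain ⟨Z₀, hZ₀⟩ := Filter.eventually_atTop.mp hev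
  refine ⟨max 1 Z₀, le_max_left _ _, ?_⟩
  intro Z hZ σ hσ hσ2 hZσ
  have hZ1 : 1 ≤ Z := (le_max_left _ _).trans hZ
  have hZ' : (0:ℝ) < Z := by exact_mod_cast hZ1
  have hZs := hZ₀ Z ((le_max_right _ _).trans hZ)
  have hsub : {n | n ∈ Rg Z ∧ n ∈ BigR ε'} ⊆ {n | n ∈ Rg Z ∧ n ∉ TypR Z B} ∪ ((TR Z B ∩ {n | ENNReal.ofReal H1 < hr n}) ∪
      (Rg Z ∩ {n | ENNReal.ofReal H2 < ENNReal.ofReal (GG n ^ 2)})) := by
    rintro n ⟨hnR, hnB⟩
    by_cases ht : n ∈ TypR Z B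
    · right
      by_cases h4 : ENNReal.ofReal H1 < hr n
      · left; exact ⟨⟨hnR, ht⟩, h4⟩
      · right
        refine ⟨hnR, ?_⟩
        by_contra h5
        have h5' : ENNReal.ofReal (GG n ^ 2) ≤ ENNReal.ofReal H2 := not_lt.mp h5
        have h4' : hr n ≤ ENNReal.ofReal H1 := not_lt.mp h4
        have h6 : hr n * ENNReal.ofReal (GG n ^ 2) ≤ ENNReal.ofReal ε' := by
          have e : ε' = H1 * H2 := by rw [hH1]; field_simp
          rw [e, ENNReal.ofReal_mul hH1p.le]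
          exact mul_le_mul' h4' h5'
        exact absurd hnB (not_lt.mpr h6)
    · left; exact ⟨hnR, ht⟩
  refine (mu_mono σ hsub).trans ?_
  refine (mu_union_le _ _ _).trans ?_
  have e1 : mu σ {n | n ∈ Rg Z ∧ n ∉ TypR Z B} ≤ ZZ σ * ENNReal.ofReal (ε / 3 / Z) := by
    refine (h1 σ hσ hσ2 Z hZ1 hZσ B).trans ?_
    apply mul_le_mul' le_rfl
    apply ENNReal.ofReal_le_ofReal
    rw [lt_div_iff₀ (by positivity)] at hB
    calc C1 / Z * (4/5) ^ B = (C1 * (4/5) ^ B) / Z := by ring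
      _ ≤ ε / 3 / Z := by
          gcongr
          linarith
  have e2 : mu σ (TR Z B ∩ {n | ENNReal.ofReal H1 < hr n}) ≤ ZZ σ * ENNReal.ofReal (ε / 3 / Z) := by
    refine (markov_mu σ (TR Z B) hr hH1p).trans ?_
    calc ENNReal.ofReal (H1⁻¹) * ∑' n : ℕ, (TR Z B).indicator (fun n => zp σ n * hr n) n
        ≤ ENNReal.ofReal (H1⁻¹) * (ZZ σ * ENNReal.ofReal (C2 * 2 ^ B * (Z : ℝ) ^ (-(15/8) : ℝ))) := by
          gcongr
          exact h2 σ hσ hσ2 Z hZ1 hZσ B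
      _ = ZZ σ * ENNReal.ofReal (H1⁻¹ * (C2 * 2 ^ B * (Z : ℝ) ^ (-(15/8) : ℝ))) := by
          rw [ENNReal.ofReal_mul (p := H1⁻¹) (by positivity)]
          ring
      _ ≤ _ := by
          apply mul_le_mul' le_rfl
          apply ENNReal.ofReal_le_ofReal
          have e5 : (Z : ℝ) ^ (-(15/8) : ℝ) = (Z : ℝ) ^ (-(7/8) : ℝ) * (Z : ℝ)⁻¹ := by
            rw [← Real.rpow_neg_one, ← Real.rpow_add hZ']
            congr 1
            norm_num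
          rw [e5]
          calc H1⁻¹ * (C2 * 2 ^ B * ((Z : ℝ) ^ (-(7/8) : ℝ) * (Z : ℝ)⁻¹))
              ≤ H1⁻¹ * (C2 * 2 ^ B * ((ε * H1 / (3 * C2 * 2 ^ B)) * (Z : ℝ)⁻¹)) := by gcongr
            _ = ε / 3 / Z := by
                field_simp
  have e3 : mu σ (Rg Z ∩ {n | ENNReal.ofReal H2 < ENNReal.ofReal (GG n ^ 2)}) ≤ ZZ σ * ENNReal.ofReal (ε / 3 / Z) := by
    refine (markov_mu σ (Rg Z) (fun n => ENNReal.ofReal (GG n ^ 2)) hH2p).trans ?_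
    calc ENNReal.ofReal (H2⁻¹) * ∑' n : ℕ, (Rg Z).indicator (fun n => zp σ n * ENNReal.ofReal (GG n ^ 2)) n
        ≤ ENNReal.ofReal (H2⁻¹) * ((ZZ σ * ENNReal.ofReal (C4 / Z)) * ENNReal.ofReal C3) := by
          gcongr
          refine (h3 σ hσ Z).trans ?_
          gcongr
          exact h4 σ hσ hσ2 Z hZ1 hZσ
      _ = ZZ σ * ENNReal.ofReal (H2⁻¹ * (C4 / Z * C3)) := by
          rw [ENNReal.ofReal_mul (p := H2⁻¹) (by positivity), ENNReal.ofReal_mul (p := C4 / Z) (by positivity)]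
          ring
      _ = _ := by
          congr 2
          rw [hH2]
          field_simp
  calc mu σ {n | n ∈ Rg Z ∧ n ∉ TypR Z B} + mu σ ((TR Z B ∩ {n | ENNReal.ofReal H1 < hr n}) ∪
      (Rg Z ∩ {n | ENNReal.ofReal H2 < ENNReal.ofReal (GG n ^ 2)}))
      ≤ ZZ σ * ENNReal.ofReal (ε / 3 / Z) + (ZZ σ * ENNReal.ofReal (ε / 3 / Z) + ZZ σ * ENNReal.ofReal (ε / 3 / Z)) := by
        refine add_le_add e1 ((mu_union_le _ _ _).trans (add_le_add e2 e3))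
    _ = ZZ σ * ENNReal.ofReal (ε / Z) := by
        rw [← mul_add, ← mul_add, ← ENNReal.ofReal_add (by positivity) (by positivity),
          ← ENNReal.ofReal_add (by positivity) (by positivity)]
        congr 2
        ring

end Pool.Agent.Erdos456
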