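import Mathlib
import Pool.Agent.Erdos456.R6
import Pool.Agent.Erdos456.Bad3

set_option autoImplicit false

open scoped ENNReal

namespace Pool.Agent.Erdos456

/-- least prime congruent to one -/
noncomputable def pp (n : ℕ) : ℕ := sInf {p : ℕ | p.Prime ∧ p ≡ 1 [MOD n]}

theorem pp_le {n a : ℕ} (h : (a * n + 1).Prime) : pp n ≤ a * n + 1 := by
  apply Nat.sInf_le
  refine ⟨h, ?_⟩
  unfold Nat.ModEq
  rw [Nat.add_mod, Nat.mul_mod_left, zero_add, Nat.mod_mod]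

theorem mm_one : mm 1 = 1 := by
  apply le_antisymm
  · exact mm_le (by norm_num) (by simp)
  · exact (mm_spec 1 (by norm_num)).1

/-- structure of an integer with a large prime factor, refined -/
theorem big_struct' {J n : ℕ} (hn0 : n ≠ 0) (hn : n ∉ Sm J) :
    ∃ Q : ℕ, Q.Prime ∧ 2 ^ J < Q ∧
    ((∃ r' d' b : ℕ, n = Q * r' * d' ∧ 1 ≤ b ∧
      ((r' * b) * Q + 1).Prime ∧ (b : ℝ) * tt n ≤ tt d' ∧ ((r' * b) * Q + 1) * mm d' ≤ mm n) ∨
    (∃ r₁ d' f : ℕ, n = Q ^ f * r₁ * d' ∧ 1 ≤ f ∧ r₁ ∣ Q - 1 ∧ 1 ≤ r₁ ∧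
      tt n ≤ ((r₁ : ℝ) / Q) * tt d')) := by
  rw [mem_Sm] at hn
  have hpos : 0 < n := Nat.pos_of_ne_zero hn0
  have h3 : ∃ p : ℕ, p.Prime ∧ p ∣ n ∧ 2 ^ J < p := by
    by_contra hcon
    push Not at hcon
    exact hn ⟨hn0, hcon⟩
  obtain ⟨p, hp, hpd, hpj⟩ := h3
  have hne : n.primeFactors.Nonempty := ⟨p, Nat.mem_primeFactors.mpr ⟨hp, hpd, hn0⟩⟩
  set Q := n.primeFactors.max' hne with hQ
  have hQm := Finset.max'_mem n.primeFactors hne
  rw [← hQ, Nat.mem_primeFactors] at hQm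
  have hmax : ∀ p : ℕ, p.Prime → p ∣ n → p ≤ Q := by
    intro p hp hpd
    exact Finset.le_max' _ _ (Nat.mem_primeFactors.mpr ⟨hp, hpd, hn0⟩)
  refine ⟨Q, hQm.1, lt_of_lt_of_le hpj (hmax p hp hpd), ?_⟩
  rcases mm_decomp' n Q hpos hQm.1 hQm.2.1 hmax with ⟨r, d', b, hr1, hr2, hb, hpr, ht, hmm⟩ | ⟨r₁, d', f, hr1, hf, hr2, ht⟩
  · left
    obtain ⟨r', hr'⟩ := hr2
    have e1 : n = Q * r' * d' := by rw [hr1, hr']
    have e2 : r' * b * Q + 1 = r * b + 1 := by rw [hr']; ring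
    refine ⟨r', d', b, e1, hb, ?_, ht, ?_⟩
    · rw [e2]; exact hpr
    · rw [e2]; exact hmm
  · right
    refine ⟨r₁, d', f, hr1, hf, hr2, ?_, ht⟩
    rcases Nat.eq_zero_or_pos r₁ with h0 | h0
    · rw [h0] at hr1; simp at hr1; omega
    · exact h0

/-- divisor indicator, excluding one -/
noncomputable def dvk1 (k d : ℕ) : ℝ≥0∞ := if d ∈ k.divisors.erase 1 then 1 else 0

theorem sum_dvk1 (k : ℕ) (f : ℕ → ℝ≥0∞) : ∑' d : ℕ, dvk1 k d * f d = ∑ d ∈ k.divisors.erase 1, f d := by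
  unfold dvk1
  rw [tsum_eq_sum (s := k.divisors.erase 1)]
  · apply Finset.sum_congr rfl
    intro d hd
    rw [if_pos hd, one_mul]
  · intro d hd
    rw [if_neg hd, zero_mul]

theorem not_BigR_of_dvd {H : ℝ} {k n : ℕ} (hn : n ≠ 0) (hkn : k ∣ n) (h : n ∉ BigR H) : k ∉ BigR H := by
  have h1 : hr k ≤ hr n := by
    unfold hr
    exact Finset.sum_le_sum_of_subset (Finset.erase_subset_erase 1 (Nat.divisors_subset_of_dvd hn hkn))
  have h2 : GG k ≤ GG n := GG_mono_dvd (Nat.pos_of_ne_zero hn) hkn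
  intro hk
  apply h
  have hk' : ENNReal.ofReal H < hr k * ENNReal.ofReal (GG k ^ 2) := hk
  refine lt_of_lt_of_le hk' ?_
  have := GG_nonneg k
  gcongr

theorem case_oneR : ∃ C : ℝ, 0 < C ∧ ∀ σ : ℝ, 1 < σ → ∀ Z J : ℕ, 1 ≤ J → ∀ H : ℝ, 0 < H → ∀ A : ℝ, 0 ≤ A →
    mu σ {n | n ∈ Rg Z ∧ n ∉ BigR H ∧ ∃ Q r' d' b : ℕ, Q.Prime ∧ 2 ^ J < Q ∧ n = Q * r' * d' ∧ d' ≠ 1 ∧
      1 ≤ b ∧ (b : ℝ) ≤ A * tt d' ∧ ((r' * b) * Q + 1).Prime} ≤ mu σ (Rg Z) * ENNReal.ofReal (C * A * H / J) := by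
  obtain ⟨C1, hC1, h1⟩ := sieve_tail
  obtain ⟨C2, hC2, h2⟩ := sum_GG_sq_le
  refine ⟨C1 * C2, by positivity, ?_⟩
  intro σ hσ Z J hJ H hH A hA0
  have hJ' : (0:ℝ) < J := by exact_mod_cast hJ
  let F : ℕ × ℕ × ℕ × ℕ → ℝ≥0∞ := fun x =>
    (Rg Z \ BigR H).indicator (zp σ) x.1 * (dvk1 x.1 x.2.1 * (sml (A * tt x.2.1) x.2.2.1 *
      sQ J (x.1 / x.2.1 * x.2.2.1) x.2.2.2))
  have hA := tsum_le_of_rel (β := ℕ × ℕ × ℕ × ℕ)
    (P := fun n => n ∈ Rg Z ∧ n ∉ BigR H ∧ ∃ Q r' d' b : ℕ, Q.Prime ∧ 2 ^ J < Q ∧ n = Q * r' * d' ∧ d' ≠ 1 ∧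
      1 ≤ b ∧ (b : ℝ) ≤ A * tt d' ∧ ((r' * b) * Q + 1).Prime)
    (f := zp σ) (H := F)
    (R := fun n x => n = x.2.2.2 * x.1)
    (by
      rintro n ⟨hnR, hnB, Q, r', d', b, hQ, hQ1, hn, hd1, hb1, hb2, hpr⟩
      have hn0 : n ≠ 0 := hnR.1
      have hr' : r' ≠ 0 := by rintro rfl; simp at hn; exact hn0 hn
      have hd' : d' ≠ 0 := by rintro rfl; simp at hn; exact hn0 hn
      refine ⟨(r' * d', d', b, Q), by simp only; rw [hn]; ring, ?_⟩
      simp only [F]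
      have hkn : r' * d' ∣ n := ⟨Q, by rw [hn]; ring⟩
      have hk : r' * d' ∈ Rg Z \ BigR H := ⟨Rg_dvd hnR hkn, not_BigR_of_dvd hn0 hkn hnB⟩
      have hdiv : r' * d' / d' = r' := Nat.mul_div_cancel r' (Nat.pos_of_ne_zero hd')
      have e1 : dvk1 (r' * d') d' = 1 := if_pos (by
        rw [Finset.mem_erase, Nat.mem_divisors]
        exact ⟨hd1, Dvd.intro_left r' rfl, by positivity⟩)
      have e2 : sml (A * tt d') b = 1 := if_pos ⟨hb1, hb2⟩
      have e3 : sQ J (r' * b) Q = ENNReal.ofReal ((Q : ℝ)⁻¹) := if_pos ⟨hQ, hQ1, hpr⟩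
      rw [Set.indicator_of_mem hk, hdiv, e1, e2, e3, hn,
        show Q * r' * d' = Q * (r' * d') by ring, zp_mul, one_mul, one_mul, mul_comm]
      gcongr
      exact zp_le_inv hσ hQ.one_lt.le)
    (by
      rintro n n' x hx hx'
      rw [hx, hx'])
  refine (le_trans (le_of_eq rfl) hA).trans ?_
  rw [ENNReal.tsum_prod' (f := F)]
  have hK : ∀ k : ℕ, ∑' y : ℕ × ℕ × ℕ, F (k, y) ≤ (Rg Z).indicator (zp σ) k * ENNReal.ofReal (C1 * C2 * A * H / J) := by
    intro k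
    simp only [F]
    by_cases hk : k ∈ Rg Z \ BigR H
    · rw [Set.indicator_of_mem hk, Set.indicator_of_mem hk.1, ENNReal.tsum_mul_left]
      gcongr
      have hk0 : 0 < k := Nat.pos_of_ne_zero hk.1.1
      rw [ENNReal.tsum_prod']
      have hD : ∀ d' : ℕ, ∑' z : ℕ × ℕ, dvk1 k d' * (sml (A * tt d') z.1 * sQ J (k / d' * z.1) z.2) ≤
          dvk1 k d' * (ENNReal.ofReal (C1 * C2 * A / J) * ENNReal.ofReal (GG k ^ 2) * te d') := by
        intro d'
        rw [ENNReal.tsum_mul_left, ENNReal.tsum_prod']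
        by_cases hd : d' ∈ k.divisors.erase 1
        · gcongr
          have hd2 := (Finset.mem_erase.mp hd).2
          have hdk := Nat.dvd_of_mem_divisors hd2
          have hd0 := Nat.pos_of_mem_divisors hd2
          have hdd : 1 ≤ k / d' := Nat.div_pos (Nat.le_of_dvd hk0 hdk) hd0
          have hb : ∀ b : ℕ, ∑' Q : ℕ, sml (A * tt d') b * sQ J (k / d' * b) Q ≤
              ENNReal.ofReal (C1 / J) * ENNReal.ofReal (GG k ^ 2) *
              (if 1 ≤ b ∧ (b : ℝ) ≤ A * tt d' then ENNReal.ofReal (GG b ^ 2) else 0) := by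
            intro b
            rw [ENNReal.tsum_mul_left]
            unfold sml
            split_ifs with hb
            · rw [one_mul]
              have hg : 1 ≤ k / d' * b := Nat.mul_pos hdd hb.1
              refine (h1 (k / d' * b) J hg hJ).trans ?_
              rw [← ENNReal.ofReal_mul (by positivity), ← ENNReal.ofReal_mul (by positivity)]
              apply ENNReal.ofReal_le_ofReal
              have h6 := GG_mul_le (k / d') b
              have h6' : GG (k / d') ≤ GG k := GG_mono_dvd hk0 (Nat.div_dvd_of_dvd hdk)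
              have h7 := GG_nonneg (k / d' * b)
              have h7' := GG_nonneg (k / d')
              have h7'' := GG_nonneg b
              have h8 : GG (k / d' * b) ^ 2 ≤ (GG k * GG b) ^ 2 := by
                gcongr
                exact h6.trans (by gcongr)
              calc C1 * GG (k / d' * b) ^ 2 / J ≤ C1 * (GG k * GG b) ^ 2 / J := by gcongr
                _ = _ := by ring
            · simp
          refine (ENNReal.tsum_le_tsum hb).trans ?_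
          rw [ENNReal.tsum_mul_left]
          have htt := tt_nonneg d'
          calc ENNReal.ofReal (C1 / J) * ENNReal.ofReal (GG k ^ 2) *
              ∑' b : ℕ, (if 1 ≤ b ∧ (b : ℝ) ≤ A * tt d' then ENNReal.ofReal (GG b ^ 2) else 0)
              ≤ ENNReal.ofReal (C1 / J) * ENNReal.ofReal (GG k ^ 2) * ENNReal.ofReal (C2 * (A * tt d')) := by
                gcongr
                exact h2 _ (by positivity)
            _ = _ := by
                unfold te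
                rw [show C1 * C2 * A / J = (C1 / J) * (C2 * A) by ring, ENNReal.ofReal_mul (p := C1 / J) (by positivity),
                  ← mul_assoc C2, ENNReal.ofReal_mul (p := C2 * A) (by positivity)]
                ring
        · have e0 : dvk1 k d' = 0 := if_neg hd
          rw [e0]; simp
      refine (ENNReal.tsum_le_tsum hD).trans ?_
      rw [sum_dvk1, ← Finset.mul_sum]
      have hkH : hr k * ENNReal.ofReal (GG k ^ 2) ≤ ENNReal.ofReal H := not_lt.mp hk.2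
      calc ENNReal.ofReal (C1 * C2 * A / J) * ENNReal.ofReal (GG k ^ 2) * ∑ d ∈ k.divisors.erase 1, te d
          = ENNReal.ofReal (C1 * C2 * A / J) * (hr k * ENNReal.ofReal (GG k ^ 2)) := by unfold hr; ring
        _ ≤ ENNReal.ofReal (C1 * C2 * A / J) * ENNReal.ofReal H := by gcongr
        _ = _ := by
            rw [← ENNReal.ofReal_mul (by positivity)]
            congr 1
            ring
    · rw [Set.indicator_of_notMem hk]
      simp
  refine (ENNReal.tsum_le_tsum hK).trans ?_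
  rw [ENNReal.tsum_mul_right]
  exact le_rfl

theorem decay_J_two (J : ℕ) : (J : ℝ) ^ 2 * ((2:ℝ) ^ J) ^ (-(1/4) : ℝ) ≤ 256 := by
  have h1 : ((2:ℝ) ^ J) ^ (-(1/4) : ℝ) = ((((2:ℝ) ^ (1/8 : ℝ)) ^ J)⁻¹) ^ 2 := by
    rw [Real.rpow_neg (by positivity), inv_pow, ← pow_mul, mul_comm J 2, pow_mul]
    congr 1
    rw [← Real.rpow_natCast ((2:ℝ) ^ (1/8 : ℝ)) 2, ← Real.rpow_mul (by norm_num), ← Real.rpow_natCast, ← Real.rpow_natCast,
      ← Real.rpow_mul (by norm_num), ← Real.rpow_mul (by norm_num)]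
    congr 1
    norm_num
    ring
  have h2 : (17/16 : ℝ) ≤ (2:ℝ) ^ (1/8 : ℝ) := by
    by_contra hcon
    push Not at hcon
    have h3 : ((2:ℝ) ^ (1/8 : ℝ)) ^ 8 < (17/16 : ℝ) ^ 8 := by
      apply pow_lt_pow_left₀ hcon (by positivity) (by norm_num)
    rw [← Real.rpow_natCast, ← Real.rpow_mul (by norm_num)] at h3
    norm_num at h3
  have h3 : (1:ℝ) + J * (1/16) ≤ (17/16 : ℝ) ^ J := by
    have := one_add_mul_le_pow (a := (1/16 : ℝ)) (by norm_num) J
    calc (1:ℝ) + J * (1/16) ≤ (1 + 1/16) ^ J := this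
      _ = _ := by norm_num
  have h4 : (17/16 : ℝ) ^ J ≤ ((2:ℝ) ^ (1/8 : ℝ)) ^ J := pow_le_pow_left₀ (by norm_num) h2 J
  have h5 : (J : ℝ) * (((2:ℝ) ^ (1/8 : ℝ)) ^ J)⁻¹ ≤ 16 := by
    rw [← div_eq_mul_inv, div_le_iff₀ (by positivity)]
    linarith
  rw [h1, ← mul_pow]
  calc ((J : ℝ) * (((2:ℝ) ^ (1/8 : ℝ)) ^ J)⁻¹) ^ 2 ≤ 16 ^ 2 := by gcongr
    _ = 256 := by norm_num

/-- the bad set -/
def BdR (Z : ℕ) (L : ℝ) : Set ℕ := {n | n ∈ Rg Z ∧ (mm n : ℝ) ≤ n * L ∧ mm n < pp n}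

theorem bad_setR : ∀ ε : ℝ, 0 < ε → ∃ Z₀ : ℕ, 1 ≤ Z₀ ∧ ∀ Z : ℕ, Z₀ ≤ Z → ∃ L₀ : ℝ, 1 ≤ L₀ ∧ ∀ L : ℝ, L₀ ≤ L →
    mu (1 + 1 / (2 * L)) (BdR Z L) ≤ ENNReal.ofReal (ε * L / Z) := by
  intro ε hε
  obtain ⟨C1, hC1, h1⟩ := mu_SR_le
  obtain ⟨C2, hC2, h2⟩ := case_oneR
  obtain ⟨C3, hC3, h3⟩ := case_two
  obtain ⟨C4, hC4, h4⟩ := mu_Rg_le
  set δ : ℝ := ε / (8 * C1) with hδ
  have hδ0 : 0 < δ := by positivity
  set ε' : ℝ := ε * δ / (12 * C2 * C4) with hε'
  have hε'0 : 0 < ε' := by positivity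
  obtain ⟨Z₀, hZ₀1, h5⟩ := tightR (ε / 12) (by positivity) ε' hε'0
  refine ⟨Z₀, hZ₀1, ?_⟩
  intro Z hZ
  have hZ1 : 1 ≤ Z := hZ₀1.trans hZ
  have hZ' : (1:ℝ) ≤ Z := by exact_mod_cast hZ1
  have hZ0 : (0:ℝ) < Z := by linarith
  refine ⟨max (max 1 (Z / δ)) (max Z (3072 * C3 * Z / (δ ^ 2 * ε))), (le_max_left _ _).trans (le_max_left _ _), ?_⟩
  intro L hL
  have hL1 : 1 ≤ L := ((le_max_left _ _).trans (le_max_left _ _)).trans hL
  have hLδ : Z / δ ≤ L := ((le_max_right _ _).trans (le_max_left _ _)).trans hL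
  have hLZ : (Z : ℝ) ≤ L := ((le_max_left _ _).trans (le_max_right _ _)).trans hL
  have hLb : 3072 * C3 * Z / (δ ^ 2 * ε) ≤ L := ((le_max_right _ _).trans (le_max_right _ _)).trans hL
  have hL0 : 0 < L := by linarith
  have hδL : Z ≤ δ * L := by
    rw [div_le_iff₀ hδ0] at hLδ
    linarith
  have hδL1 : 1 ≤ δ * L := hZ'.trans hδL
  set σ : ℝ := 1 + 1 / (2 * L) with hσd
  have hσ : 1 < σ := by
    have : 0 < 1 / (2 * L) := by positivity
    linarith
  have hσ2 : σ ≤ 2 := by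
    have : 1 / (2 * L) ≤ 1 := by
      rw [div_le_one (by positivity)]
      linarith
    linarith
  have hZσ : (Z : ℝ) * (σ - 1) ≤ 1 := by
    rw [hσd, add_sub_cancel_left, mul_one_div, div_le_one (by positivity)]
    linarith
  have hZ : ZZ σ ≤ ENNReal.ofReal (3 * L) := by
    refine (ZZ_le hσ).trans (ENNReal.ofReal_le_ofReal ?_)
    have : 1 / (σ - 1) = 2 * L := by
      rw [hσd]
      field_simp
      ring
    rw [this]
    linarith
  set J : ℕ := ⌈δ * L⌉₊ with hJd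
  have hJ1 : δ * L ≤ J := Nat.le_ceil _
  have hJ2 : (J : ℝ) ≤ 2 * (δ * L) := by
    have := Nat.ceil_lt_add_one (show 0 ≤ δ * L by positivity)
    linarith
  have hJ : 1 ≤ J := by
    have : (1:ℝ) ≤ J := le_trans hδL1 hJ1
    exact_mod_cast this
  have hZJ : Z ≤ J := by
    have : (Z:ℝ) ≤ J := le_trans hδL hJ1
    exact_mod_cast this
  have hJ' : (0:ℝ) < J := by exact_mod_cast hJ
  set S1 : Set ℕ := {n | n ∈ Rg Z ∧ n ∉ BigR ε' ∧ ∃ Q r' d' b : ℕ, Q.Prime ∧ 2 ^ J < Q ∧ n = Q * r' * d' ∧ d' ≠ 1 ∧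
      1 ≤ b ∧ (b : ℝ) ≤ L * tt d' ∧ ((r' * b) * Q + 1).Prime} with hS1
  set S2 : Set ℕ := {n | ∃ Q r₁ d' f : ℕ, Q.Prime ∧ 2 ^ J < Q ∧ n = Q ^ f * r₁ * d' ∧ 1 ≤ f ∧ r₁ ∣ Q - 1 ∧ 1 ≤ r₁ ∧
      1 ≤ L * ((r₁ : ℝ) / Q)} with hS2
  have hsub : BdR Z L ⊆ SR Z J ∪ ({n | n ∈ Rg Z ∧ n ∈ BigR ε'} ∪ (S1 ∪ S2)) := by
    rintro n ⟨hnR, hn2, hn3⟩
    have hn0 : n ≠ 0 := hnR.1
    have hn1 : 1 ≤ n := Nat.one_le_iff_ne_zero.mpr hn0
    have hm0 : (0:ℝ) < mm n := by exact_mod_cast mm_pos hn1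
    have hAt : 1 ≤ L * tt n := by
      unfold tt
      rw [← mul_div_assoc, le_div_iff₀ hm0]
      linarith
    by_cases hs : n ∈ Sm J
    · left; exact ⟨hs, hnR⟩
    right
    by_cases hB : n ∈ BigR ε'
    · left; exact ⟨hnR, hB⟩
    right
    obtain ⟨Q, hQ, hQ1, hQ3⟩ := big_struct' hn0 hs
    rcases hQ3 with ⟨r', d', b, a1, a4, a5, a6, a7⟩ | ⟨r₁, d', f, a1, a3, a4, a5, a6⟩
    · left
      refine ⟨hnR, hB, Q, r', d', b, hQ, hQ1, a1, ?_, a4, ?_, a5⟩
      · rintro rfl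
        rw [mm_one, mul_one] at a7
        have e1 : r' * b * Q + 1 = b * n + 1 := by rw [a1]; ring
        rw [e1] at a5 a7
        have := pp_le a5
        omega
      · calc (b : ℝ) = b * 1 := (mul_one _).symm
          _ ≤ b * (L * tt n) := by gcongr
          _ = L * (b * tt n) := by ring
          _ ≤ L * tt d' := by gcongr
    · right
      refine ⟨Q, r₁, d', f, hQ, hQ1, a1, a3, a4, a5, ?_⟩
      calc (1:ℝ) ≤ L * tt n := hAt
        _ ≤ L * (((r₁ : ℝ) / Q) * tt d') := by gcongr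
        _ ≤ L * (((r₁ : ℝ) / Q) * 1) := by
            gcongr
            exact tt_le_one d'
        _ = _ := by rw [mul_one]
  have b1 : mu σ (SR Z J) ≤ ENNReal.ofReal (ε * L / Z / 4) := by
    refine (h1 σ hσ Z J hZ1 hZJ).trans (ENNReal.ofReal_le_ofReal ?_)
    calc C1 * (J / Z) ≤ C1 * (2 * (δ * L) / Z) := by gcongr
      _ = ε * L / Z / 4 := by rw [hδ]; field_simp; ring
  have b2 : mu σ {n | n ∈ Rg Z ∧ n ∈ BigR ε'} ≤ ENNReal.ofReal (ε * L / Z / 4) := by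
    calc mu σ {n | n ∈ Rg Z ∧ n ∈ BigR ε'} ≤ ZZ σ * ENNReal.ofReal (ε / 12 / Z) := h5 Z (by assumption) σ hσ hσ2 hZσ
      _ ≤ ENNReal.ofReal (3 * L) * ENNReal.ofReal (ε / 12 / Z) := by gcongr
      _ = ENNReal.ofReal (ε * L / Z / 4) := by
          rw [← ENNReal.ofReal_mul (by positivity)]
          congr 1
          ring
  have b3 : mu σ S1 ≤ ENNReal.ofReal (ε * L / Z / 4) := by
    calc mu σ S1 ≤ mu σ (Rg Z) * ENNReal.ofReal (C2 * L * ε' / J) := h2 σ hσ Z J hJ ε' hε'0 L hL0.le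
      _ ≤ (ENNReal.ofReal (3 * L) * ENNReal.ofReal (C4 / Z)) * ENNReal.ofReal (C2 * L * ε' / J) := by
          gcongr
          exact (h4 σ hσ hσ2 Z hZ1 hZσ).trans (by gcongr)
      _ ≤ ENNReal.ofReal (ε * L / Z / 4) := by
          rw [← ENNReal.ofReal_mul (by positivity), ← ENNReal.ofReal_mul (by positivity)]
          apply ENNReal.ofReal_le_ofReal
          calc 3 * L * (C4 / Z) * (C2 * L * ε' / J) ≤ 3 * L * (C4 / Z) * (C2 * L * ε' / (δ * L)) := by gcongr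
            _ = ε * L / Z / 4 := by
                rw [hε']
                field_simp
                ring
  have b4 : mu σ S2 ≤ ENNReal.ofReal (ε * L / Z / 4) := by
    calc mu σ S2 ≤ ZZ σ * ENNReal.ofReal (C3 * L * ((2:ℝ) ^ J) ^ (-(1/4) : ℝ)) := h3 σ hσ J L hL0.le
      _ ≤ ENNReal.ofReal (3 * L) * ENNReal.ofReal (C3 * L * ((2:ℝ) ^ J) ^ (-(1/4) : ℝ)) := by gcongr
      _ ≤ ENNReal.ofReal (ε * L / Z / 4) := by
          rw [← ENNReal.ofReal_mul (by positivity)]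
          apply ENNReal.ofReal_le_ofReal
          have hd := decay_J_two J
          set y := ((2:ℝ) ^ J) ^ (-(1/4) : ℝ) with hy
          have hy0 : 0 ≤ y := by positivity
          have hLJ : L ≤ J / δ := by
            rw [le_div_iff₀ hδ0]
            linarith
          have hyJ : y ≤ 256 / J ^ 2 := by
            rw [le_div_iff₀ (by positivity)]
            linarith
          have hy2 : L * y ≤ 256 / (δ ^ 2 * L) := by
            calc L * y ≤ L * (256 / J ^ 2) := by gcongr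
              _ ≤ L * (256 / (δ * L) ^ 2) := by gcongr
              _ = 256 / (δ ^ 2 * L) := by
                  field_simp
          have hZL : 3072 * C3 * Z / (δ ^ 2 * L) ≤ ε := by
            rw [div_le_iff₀ (by positivity)] at hLb
            rw [div_le_iff₀ (by positivity)]
            linarith
          calc 3 * L * (C3 * L * y) = 3 * C3 * L * (L * y) := by ring
            _ ≤ 3 * C3 * L * (256 / (δ ^ 2 * L)) := by gcongr
            _ = (3072 * C3 * Z / (δ ^ 2 * L)) * L / Z / 4 := by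
                field_simp
                ring
            _ ≤ ε * L / Z / 4 := by gcongr
  calc mu σ (BdR Z L) ≤ mu σ (SR Z J ∪ ({n | n ∈ Rg Z ∧ n ∈ BigR ε'} ∪ (S1 ∪ S2))) := mu_mono σ hsub
    _ ≤ mu σ (SR Z J) + (mu σ {n | n ∈ Rg Z ∧ n ∈ BigR ε'} + (mu σ S1 + mu σ S2)) := by
        refine (mu_union_le _ _ _).trans (add_le_add le_rfl ?_)
        refine (mu_union_le _ _ _).trans (add_le_add le_rfl ?_)
        exact mu_union_le _ _ _
    _ ≤ ENNReal.ofReal (ε * L / Z / 4) + (ENNReal.ofReal (ε * L / Z / 4) + (ENNReal.ofReal (ε * L / Z / 4) + ENNReal.ofReal (ε * L / Z / 4))) := by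
        gcongr
    _ = ENNReal.ofReal (ε * L / Z) := by
        rw [← ENNReal.ofReal_add (by positivity) (by positivity), ← ENNReal.ofReal_add (by positivity) (by positivity),
          ← ENNReal.ofReal_add (by positivity) (by positivity)]
        congr 1
        ring

end Pool.Agent.Erdos456
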