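import Mathlib
import Pool.Agent.Erdos456.R7
import Pool.Agent.Erdos456.Final2

set_option autoImplicit false

open scoped ENNReal
open Filter Topology

namespace Pool.Agent.Erdos456

/-- primorial -/
noncomputable def PZ (Z : ℕ) : ℕ := ∏ p ∈ PP Z, p

theorem PZ_pos (Z : ℕ) : 0 < PZ Z := Finset.prod_pos (fun p hp => (mem_PP.mp hp).1.pos)

theorem Rg_iff {Z n : ℕ} : n ∈ Rg Z ↔ 1 ≤ n ∧ Nat.Coprime n (PZ Z) := by
  constructor
  · rintro ⟨h1, h2⟩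
    refine ⟨Nat.one_le_iff_ne_zero.mpr h1, ?_⟩
    unfold PZ
    apply Nat.Coprime.prod_right
    intro p hp
    have hp' := mem_PP.mp hp
    apply Nat.Coprime.symm
    rw [Nat.Prime.coprime_iff_not_dvd hp'.1]
    intro hpn
    have := h2 p hp'.1 hpn
    omega
  · rintro ⟨h1, h2⟩
    refine ⟨Nat.one_le_iff_ne_zero.mp h1, ?_⟩
    intro p hp hpn
    by_contra hcon
    push Not at hcon
    have h3 : p ∣ PZ Z := Finset.dvd_prod_of_mem _ (mem_PP.mpr ⟨hp, hcon⟩)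
    have h4 := Nat.dvd_gcd hpn h3
    rw [h2] at h4
    exact hp.one_lt.ne' (Nat.dvd_one.mp h4)

theorem PZ_primeFactors (Z : ℕ) : (PZ Z).primeFactors = PP Z := by
  ext p
  rw [Nat.mem_primeFactors]
  constructor
  · rintro ⟨hp, h, _⟩
    unfold PZ at h
    rw [Prime.dvd_finsetProd_iff hp.prime] at h
    obtain ⟨q, hq, hpq⟩ := h
    have hq' := mem_PP.mp hq
    rw [(Nat.prime_dvd_prime_iff_eq hp hq'.1).mp hpq]
    exact hq
  · intro hp
    exact ⟨(mem_PP.mp hp).1, Finset.dvd_prod_of_mem _ hp, (PZ_pos Z).ne'⟩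

theorem GG_PZ_le : ∃ C : ℝ, 0 < C ∧ ∀ Z : ℕ, 1 ≤ Z → GG (PZ Z) ≤ C * Z := by
  obtain ⟨C, hC, h⟩ := mertens_upper
  refine ⟨Real.exp (C + 4), by positivity, ?_⟩
  intro j hj
  have hj' : (0:ℝ) < j := by exact_mod_cast hj
  rw [GG_eq_prod (PZ_pos j), PZ_primeFactors]
  have h3 : ∏ p ∈ PP j, (1 - (p : ℝ)⁻¹)⁻¹ ≤
      ∏ p ∈ PP j, Real.exp ((p : ℝ)⁻¹ + 2 * ((p : ℝ)⁻¹) ^ 2) := by
    apply Finset.prod_le_prod
    · intro p hp
      have h2 : (2:ℝ) ≤ p := by exact_mod_cast (mem_PP.mp hp).1.two_le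
      rw [inv_nonneg, sub_nonneg]
      exact inv_le_one_of_one_le₀ (by linarith)
    · intro p hp
      have h2 : (2:ℝ) ≤ p := by exact_mod_cast (mem_PP.mp hp).1.two_le
      set x := (p : ℝ)⁻¹ with hx
      have hx0 : 0 < x := by positivity
      have hx1 : x ≤ 1/2 := by rw [hx, one_div]; exact inv_anti₀ (by norm_num) h2
      have h4 : (1 - x)⁻¹ ≤ 1 + (x + 2 * x^2) := by
        rw [inv_le_iff_one_le_mul₀ (by linarith)]
        nlinarith [mul_nonneg hx0.le (mul_nonneg hx0.le (sub_nonneg.mpr hx1))]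
      have := Real.add_one_le_exp (x + 2 * x^2)
      linarith
  rw [← Real.exp_sum] at h3
  refine h3.trans ?_
  have h5 : ∑ p ∈ PP j, ((p : ℝ)⁻¹ + 2 * ((p : ℝ)⁻¹) ^ 2) ≤ (Real.log j + C) + 4 := by
    rw [Finset.sum_add_distrib, ← Finset.mul_sum]
    have h6 := h j hj
    have h7 := sum_inv_sq_le (PP j) (fun p hp => (mem_PP.mp hp).1.one_lt.le)
    unfold PP at h7 ⊢
    linarith
  calc Real.exp (∑ p ∈ PP j, ((p : ℝ)⁻¹ + 2 * ((p : ℝ)⁻¹) ^ 2))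
      ≤ Real.exp ((Real.log j + C) + 4) := Real.exp_le_exp.mpr h5
    _ = Real.exp (C + 4) * j := by
        rw [show Real.log j + C + 4 = (C + 4) + Real.log j by ring, Real.exp_add (C + 4), Real.exp_log hj']

/-- the set of equality -/
def EqS : Set ℕ := {n | 1 ≤ n ∧ pp n = mm n}

theorem mm_le_pp {n a : ℕ} (_hn : 1 ≤ n) (h : (a * n + 1).Prime) : mm n ≤ pp n := by
  have h1 : pp n ∈ {p : ℕ | p.Prime ∧ p ≡ 1 [MOD n]} := by
    apply Nat.sInf_mem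
    refine ⟨a * n + 1, h, ?_⟩
    unfold Nat.ModEq
    rw [Nat.add_mod, Nat.mul_mod_left, zero_add, Nat.mod_mod]
  obtain ⟨h2, h3⟩ := h1
  apply mm_le h2.pos
  rw [Nat.totient_prime h2]
  exact (Nat.modEq_iff_dvd' h2.one_lt.le).mp h3.symm

/-- lower bound for the weight of the equality set -/
theorem eq_weight
    (hM : ∃ κ : ℝ, 0 < κ ∧ ∀ P : ℕ, 1 ≤ P → ∃ L₀ : ℝ, ∀ L : ℝ, L₀ ≤ L →
      κ * L * Nat.totient P / P ≤ ∑' n : ℕ,
        (open Classical in if (1 ≤ n ∧ Nat.Coprime n P ∧ ∃ a : ℕ, 1 ≤ a ∧ (a : ℝ) ≤ L ∧ (a * n + 1).Prime) then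
          (n : ℝ) ^ (-(1 + 1 / (2 * L))) else 0)) :
    ∃ κ : ℝ, 0 < κ ∧ ∃ L₀ : ℝ, 1 ≤ L₀ ∧ ∀ L : ℝ, L₀ ≤ L →
      ENNReal.ofReal (κ * L) ≤ mu (1 + 1 / (2 * L)) (EqS) := by
  obtain ⟨κ, hκ, hP⟩ := hM
  obtain ⟨C, hC, hG⟩ := GG_PZ_le
  obtain ⟨Z, hZ1, hbad⟩ := bad_setR (κ / (2 * C)) (by positivity)
  obtain ⟨L₁, hL₁, hb⟩ := hbad Z le_rfl
  obtain ⟨L₂, hp⟩ := hP (PZ Z) (PZ_pos Z)
  have hZ' : (0:ℝ) < Z := by exact_mod_cast hZ1
  refine ⟨κ / (2 * C * Z), by positivity, max L₁ L₂, hL₁.trans (le_max_left _ _), ?_⟩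
  intro L hL
  have hLa : L₁ ≤ L := (le_max_left _ _).trans hL
  have hLb : L₂ ≤ L := (le_max_right _ _).trans hL
  have hL1 : 1 ≤ L := hL₁.trans hLa
  have hL0 : 0 < L := by linarith
  have hσ : 1 < 1 + 1 / (2 * L) := by
    have : 0 < 1 / (2 * L) := by positivity
    linarith
  set σ : ℝ := 1 + 1 / (2 * L) with hσd
  set G : Set ℕ := {n | 1 ≤ n ∧ Nat.Coprime n (PZ Z) ∧ ∃ a : ℕ, 1 ≤ a ∧ (a : ℝ) ≤ L ∧ (a * n + 1).Prime} with hGd
  have h1 : ENNReal.ofReal (κ / (C * Z) * L) ≤ mu σ G := by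
    rw [mu_of_tsum hσ]
    apply ENNReal.ofReal_le_ofReal
    have h2 := hp L hLb
    have h3 : κ / (C * Z) * L ≤ κ * L * Nat.totient (PZ Z) / (PZ Z) := by
      have h4 := hG Z hZ1
      unfold GG at h4
      have h5 : (0:ℝ) < Nat.totient (PZ Z) := by exact_mod_cast Nat.totient_pos.mpr (PZ_pos Z)
      have h6 : (0:ℝ) < PZ Z := by exact_mod_cast PZ_pos Z
      rw [div_le_iff₀ h5] at h4
      rw [div_mul_eq_mul_div, div_le_div_iff₀ (by positivity) h6]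
      calc κ * L * (PZ Z : ℝ) ≤ κ * L * (C * Z * Nat.totient (PZ Z)) := by gcongr
        _ = _ := by ring
    refine h3.trans (h2.trans (le_of_eq ?_))
    apply tsum_congr
    intro n
    by_cases hn : n ∈ G
    · rw [Set.indicator_of_mem hn, if_pos]
      exact hn
    · rw [Set.indicator_of_notMem hn, if_neg]
      exact hn
  have hsub : G ⊆ BdR Z L ∪ EqS := by
    rintro n ⟨hn1, hnP, a, ha1, ha2, hap⟩
    by_cases hE : n ∈ EqS
    · right; exact hE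
    left
    have hle := mm_le_pp hn1 hap
    have hlt : mm n < pp n := by
      rcases hle.lt_or_eq with h | h
      · exact h
      · exact absurd ⟨hn1, h.symm⟩ hE
    refine ⟨Rg_iff.mpr ⟨hn1, hnP⟩, ?_, hlt⟩
    have h2 := pp_le hap
    have h3 : mm n ≤ a * n := by omega
    calc (mm n : ℝ) ≤ ((a * n : ℕ) : ℝ) := by exact_mod_cast h3
      _ = a * n := by push_cast; ring
      _ ≤ L * n := by gcongr
      _ = n * L := by ring
  have h2 : ENNReal.ofReal (κ / (C * Z) * L) ≤ ENNReal.ofReal (κ / (2 * C) * L / Z) + mu σ (EqS) :=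
    calc _ ≤ mu σ G := h1
      _ ≤ mu σ (BdR Z L ∪ EqS) := mu_mono σ hsub
      _ ≤ mu σ (BdR Z L) + mu σ (EqS) := mu_union_le _ _ _
      _ ≤ _ := by
          gcongr
          exact hb L hLa
  have h3 : κ / (C * Z) * L = κ / (2 * C) * L / Z + κ / (2 * C * Z) * L := by
    field_simp
    ring
  rw [h3, ENNReal.ofReal_add (by positivity) (by positivity)] at h2
  exact (ENNReal.add_le_add_iff_left ENNReal.ofReal_ne_top).mp h2

/-- final theorem: the equality set does not have density zero -/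
theorem eq_not_density_zero
    (hM : ∃ κ : ℝ, 0 < κ ∧ ∀ P : ℕ, 1 ≤ P → ∃ L₀ : ℝ, ∀ L : ℝ, L₀ ≤ L →
      κ * L * Nat.totient P / P ≤ ∑' n : ℕ,
        (open Classical in if (1 ≤ n ∧ Nat.Coprime n P ∧ ∃ a : ℕ, 1 ≤ a ∧ (a : ℝ) ≤ L ∧ (a * n + 1).Prime) then
          (n : ℝ) ^ (-(1 + 1 / (2 * L))) else 0)) :
    ¬ Tendsto (fun N : ℕ => ((EqS ∩ Set.Iio N).ncard : ℝ) / (N : ℝ)) atTop (𝓝 0) := by
  intro hT
  obtain ⟨κ, hκ, L₀, hL₀, h⟩ := eq_weight hM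
  obtain ⟨K, hK, hz⟩ := mu_density_zero hT (κ / 4) (by positivity)
  set L : ℝ := max L₀ (4 * K / κ) with hL
  have hLa : L₀ ≤ L := le_max_left _ _
  have hLb : 4 * K / κ ≤ L := le_max_right _ _
  have hL1 : 1 ≤ L := hL₀.trans hLa
  have hL0 : 0 < L := by linarith
  have h1 := (h L hLa).trans (hz L hL1)
  rw [ENNReal.ofReal_le_ofReal_iff (by positivity)] at h1
  rw [div_le_iff₀ hκ] at hLb
  nlinarith

end Pool.Agent.Erdos456
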