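import Mathlib
import Pool.Agent.Erdos456.Tot

set_option autoImplicit false

open Finset

namespace Pool.Agent.Erdos456.SP

/-- radical of the part of `n` coprime to `P` -/
def rp (P n : ℕ) : ℕ := ∏ p ∈ n.primeFactors.filter (fun p => ¬ p ∣ P), p

theorem rp_pos (P n : ℕ) : 0 < rp P n :=
  Finset.prod_pos (fun p hp => (Nat.prime_of_mem_primeFactors (Finset.mem_filter.mp hp).1).pos)

theorem rp_dvd (P n : ℕ) : rp P n ∣ n :=
  (Finset.prod_dvd_prod_of_subset _ _ _ (Finset.filter_subset _ _)).trans (Nat.prod_primeFactors_dvd n)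

theorem primeFactors_rp (P n : ℕ) : (rp P n).primeFactors = n.primeFactors.filter (fun p => ¬ p ∣ P) :=
  Nat.primeFactors_prod (fun p hp => Nat.prime_of_mem_primeFactors (Finset.mem_filter.mp hp).1)

theorem rp_coprime (P n : ℕ) : Nat.Coprime (rp P n) P := by
  unfold rp
  apply Nat.Coprime.prod_left
  intro p hp
  rw [Finset.mem_filter] at hp
  exact (Nat.Prime.coprime_iff_not_dvd (Nat.prime_of_mem_primeFactors hp.1)).mpr hp.2

theorem GG_mono_pf {m n : ℕ} (hm : 0 < m) (hn : 0 < n) (h : m.primeFactors ⊆ n.primeFactors) : GG m ≤ GG n := by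
  rw [GG_eq_prod hm, GG_eq_prod hn]
  apply Finset.prod_le_prod_of_subset_of_one_le h
  · intro p hp
    exact zero_le_one.trans (factor_ge_one (Nat.prime_of_mem_primeFactors hp))
  · intro p hp _
    exact factor_ge_one (Nat.prime_of_mem_primeFactors hp)

theorem GG_split {P : ℕ} (hP : 0 < P) {a b c : ℕ} (ha : 0 < a) (hb : 0 < b) (hc : 0 < c) :
    GG (a * P * (b * P) * (P * c)) ≤ GG P * (GG (rp P a) * GG (rp P b) * GG (rp P c)) := by
  have h1 : GG (a * P * (b * P) * (P * c)) ≤ GG (P * (rp P a * rp P b * rp P c)) := by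
    apply GG_mono_pf (by positivity)
      (Nat.mul_pos hP (Nat.mul_pos (Nat.mul_pos (rp_pos P a) (rp_pos P b)) (rp_pos P c)))
    intro p hp
    rw [Nat.mem_primeFactors] at hp ⊢
    obtain ⟨hp1, hp2, _⟩ := hp
    refine ⟨hp1, ?_, ?_⟩
    · by_cases hpP : p ∣ P
      · exact Dvd.dvd.mul_right hpP _
      · have key : ∀ x : ℕ, 0 < x → p ∣ x → p ∣ rp P x := by
          intro x hx hpx
          apply Finset.dvd_prod_of_mem (fun p => p)
          rw [Finset.mem_filter, Nat.mem_primeFactors]
          exact ⟨⟨hp1, hpx, hx.ne'⟩, hpP⟩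
        apply Dvd.dvd.mul_left
        rcases hp1.dvd_mul.mp hp2 with h | h
        · rcases hp1.dvd_mul.mp h with h | h
          · rcases hp1.dvd_mul.mp h with h | h
            · exact Dvd.dvd.mul_right (Dvd.dvd.mul_right (key a ha h) _) _
            · exact absurd h hpP
          · rcases hp1.dvd_mul.mp h with h | h
            · exact Dvd.dvd.mul_right (Dvd.dvd.mul_left (key b hb h) _) _
            · exact absurd h hpP
        · rcases hp1.dvd_mul.mp h with h | h
          · exact absurd h hpP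
          · exact Dvd.dvd.mul_left (key c hc h) _
    · exact (Nat.mul_pos hP (Nat.mul_pos (Nat.mul_pos (rp_pos P a) (rp_pos P b)) (rp_pos P c))).ne'
  refine h1.trans ?_
  refine (GG_mul_le _ _).trans ?_
  apply mul_le_mul_of_nonneg_left _ (GG_nonneg P)
  refine (GG_mul_le _ _).trans ?_
  apply mul_le_mul_of_nonneg_right (GG_mul_le _ _) (GG_nonneg _)

/-- admissible multipliers -/
def AU (P u X : ℕ) : Finset ℕ := (Icc 1 X).filter (fun a => Nat.Coprime (a * u + 1) P)

/-- counting admissible multipliers in a residue class -/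
theorem count_class {P u : ℕ} (hP : 0 < P) (hu : Nat.Coprime u P) {d : ℕ} (hd : 0 < d) (hdP : Nat.Coprime d P)
    (X c : ℕ) :
    ((AU P u X).filter (fun b => b ≡ c [MOD d])).card ≤ (X / (d * P) + 1) * Nat.totient P := by
  have h1 : Nat.totient P = ((Finset.range P).filter (fun t => Nat.Coprime P t)).card := rfl
  rw [h1, ← Finset.card_range (X / (d * P) + 1), ← Finset.card_product]
  apply Finset.card_le_card_of_injOn (fun b => (b / (d * P), (b * u + 1) % P))
  · intro b hb
    rw [Finset.mem_coe, Finset.mem_filter] at hb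
    obtain ⟨hb1, hb2⟩ := hb
    unfold AU at hb1
    rw [Finset.mem_filter, Finset.mem_Icc] at hb1
    rw [Finset.mem_coe, Finset.mem_product]
    constructor
    · rw [Finset.mem_range]
      have : b / (d * P) ≤ X / (d * P) := Nat.div_le_div_right hb1.1.2
      simp only
      omega
    · rw [Finset.mem_filter, Finset.mem_range]
      refine ⟨Nat.mod_lt _ hP, ?_⟩
      simp only
      have h2 := (Nat.mod_modEq (b * u + 1) P).gcd_eq
      rw [Nat.coprime_comm]
      unfold Nat.Coprime
      rw [h2]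
      exact hb1.2
  · intro b hb b' hb' heq
    rw [Finset.mem_coe, Finset.mem_filter] at hb hb'
    simp only [Prod.mk.injEq] at heq
    obtain ⟨e1, e2⟩ := heq
    have e3 : b * u ≡ b' * u [MOD P] := Nat.ModEq.add_right_cancel' 1 e2
    have e4 : b ≡ b' [MOD P] := Nat.ModEq.cancel_right_of_coprime (by rw [Nat.gcd_comm]; exact hu) e3
    have e5 : b ≡ b' [MOD d] := hb.2.trans hb'.2.symm
    have e6 : b ≡ b' [MOD (d * P)] := (Nat.modEq_and_modEq_iff_modEq_mul hdP).mp ⟨e5, e4⟩
    rw [← Nat.div_add_mod b (d * P), ← Nat.div_add_mod b' (d * P), e1, e6]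

end Pool.Agent.Erdos456.SP
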