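import Mathlib
import Pool.Agent.Erdos456.P1

set_option autoImplicit false

open Finset

namespace Pool.Agent.Erdos456.SP

theorem sum_rpow_half (X : ℕ) : ∑ d ∈ Icc 1 X, (d : ℝ) ^ (-(1/2) : ℝ) ≤ 2 * Real.sqrt X := by
  induction X with
  | zero => simp
  | succ X ih =>
    rw [sum_Icc_succ_top (by omega)]
    have hX : (0:ℝ) ≤ X := by positivity
    have h1 : ((X + 1 : ℕ) : ℝ) ^ (-(1/2) : ℝ) = (Real.sqrt ((X : ℝ) + 1))⁻¹ := by
      push_cast
      rw [Real.rpow_neg (by positivity), Real.sqrt_eq_rpow]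
    rw [h1]
    push_cast
    set s := Real.sqrt X with hs
    set t := Real.sqrt ((X : ℝ) + 1) with ht
    have hs0 : 0 ≤ s := Real.sqrt_nonneg _
    have ht0 : 0 < t := Real.sqrt_pos.mpr (by positivity)
    have hs2 : s ^ 2 = X := Real.sq_sqrt hX
    have ht2 : t ^ 2 = X + 1 := Real.sq_sqrt (by positivity)
    have hst : s ≤ t := Real.sqrt_le_sqrt (by linarith)
    have h2 : t⁻¹ ≤ 2 * (t - s) := by
      rw [inv_le_iff_one_le_mul₀ ht0]
      nlinarith
    linarith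

theorem sum_rpow_three : ∃ C : ℝ, 0 < C ∧ ∀ X : ℕ, ∑ d ∈ Icc 1 X, (d : ℝ) ^ (-(3/2) : ℝ) ≤ C := by
  have hs : Summable (fun n : ℕ => (n : ℝ) ^ (-(3/2) : ℝ)) := Real.summable_nat_rpow.mpr (by norm_num)
  refine ⟨(∑' n : ℕ, (n : ℝ) ^ (-(3/2) : ℝ)) + 1, ?_, ?_⟩
  · have : 0 ≤ ∑' n : ℕ, (n : ℝ) ^ (-(3/2) : ℝ) := tsum_nonneg (fun n => by positivity)
    linarith
  · intro X
    have := hs.sum_le_tsum (Icc 1 X) (fun n _ => by positivity)
    linarith

/-- sixth moment over admissible multipliers -/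
theorem momentP : ∃ C : ℝ, 0 < C ∧ ∀ P u : ℕ, 0 < P → Nat.Coprime u P → ∀ X : ℕ, P ^ 2 ≤ X → ∀ a₀ : ℕ, a₀ ≤ X →
    ∑ b ∈ AU P u X, (if a₀ ≠ b then GG (rp P ((a₀ : ℤ) - (b : ℤ)).natAbs) ^ 6 else 0) ≤
      C * (Nat.totient P * (X / P)) := by
  obtain ⟨C0, hC0, h0⟩ := GG_pow_six_le
  obtain ⟨C5, hC5, h5⟩ := sum_rpow_three
  refine ⟨C0 * (C5 + 2), by positivity, ?_⟩
  intro P u hP hu X hX a₀ ha₀
  have hP' : (0:ℝ) < P := by exact_mod_cast hP
  have hPhi : (0:ℝ) ≤ Nat.totient P := by positivity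
  have hXp : 0 < X := lt_of_lt_of_le (by positivity) hX
  -- pointwise
  have hpt : ∀ b ∈ AU P u X, (if a₀ ≠ b then GG (rp P ((a₀ : ℤ) - (b : ℤ)).natAbs) ^ 6 else 0) ≤
      C0 * ∑ d ∈ (Icc 1 X).filter (fun d => Nat.Coprime d P), (if b ≡ a₀ [MOD d] then (d : ℝ) ^ (-(1/2) : ℝ) else 0) := by
    intro b hb
    have hb' := Finset.mem_Icc.mp (Finset.mem_filter.mp hb).1
    split_ifs with hab
    · set h := ((a₀ : ℤ) - (b : ℤ)).natAbs with hh
      have hh0 : 0 < h := by omega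
      have hhX : h ≤ X := by omega
      refine (h0 (rp P h) (rp_pos P h)).trans ?_
      apply mul_le_mul_of_nonneg_left _ hC0.le
      have hsub : (rp P h).divisors ⊆ ((Icc 1 X).filter (fun d => Nat.Coprime d P)).filter (fun d => b ≡ a₀ [MOD d]) := by
        intro d hd
        rw [Nat.mem_divisors] at hd
        have hdh : d ∣ h := hd.1.trans (rp_dvd P h)
        rw [Finset.mem_filter, Finset.mem_filter, Finset.mem_Icc]
        refine ⟨⟨⟨Nat.pos_of_dvd_of_pos hdh hh0, (Nat.le_of_dvd hh0 hdh).trans hhX⟩, ?_⟩, ?_⟩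
        · exact Nat.Coprime.coprime_dvd_left hd.1 (rp_coprime P h)
        · rw [Nat.modEq_iff_dvd]
          exact Int.natCast_dvd.mpr hdh
      rw [← Finset.sum_filter]
      exact Finset.sum_le_sum_of_subset_of_nonneg hsub (fun d _ _ => by positivity)
    · apply mul_nonneg hC0.le
      apply Finset.sum_nonneg
      intro d _
      split_ifs <;> positivity
  refine (Finset.sum_le_sum hpt).trans ?_
  rw [← Finset.mul_sum, Finset.sum_comm]
  have hd : ∀ d ∈ (Icc 1 X).filter (fun d => Nat.Coprime d P),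
      ∑ b ∈ AU P u X, (if b ≡ a₀ [MOD d] then (d : ℝ) ^ (-(1/2) : ℝ) else 0) ≤
      Nat.totient P * ((X / P) * (d : ℝ) ^ (-(3/2) : ℝ) + (d : ℝ) ^ (-(1/2) : ℝ)) := by
    intro d hd
    rw [Finset.mem_filter, Finset.mem_Icc] at hd
    have hd0 : (0:ℝ) < d := by exact_mod_cast hd.1.1
    rw [← Finset.sum_filter, Finset.sum_const, nsmul_eq_mul]
    have h1 := count_class hP hu hd.1.1 hd.2 X a₀
    have h2 : (((AU P u X).filter (fun b => b ≡ a₀ [MOD d])).card : ℝ) ≤ ((X : ℝ) / (d * P) + 1) * Nat.totient P := by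
      have h3 : (((AU P u X).filter (fun b => b ≡ a₀ [MOD d])).card : ℝ) ≤ (((X / (d * P) + 1) * Nat.totient P : ℕ) : ℝ) := by
        exact_mod_cast h1
      refine h3.trans ?_
      push_cast
      apply mul_le_mul_of_nonneg_right _ hPhi
      have h4 : ((X / (d * P) : ℕ) : ℝ) ≤ (X : ℝ) / ((d * P : ℕ) : ℝ) := Nat.cast_div_le
      push_cast at h4
      linarith
    calc (((AU P u X).filter (fun b => b ≡ a₀ [MOD d])).card : ℝ) * (d : ℝ) ^ (-(1/2) : ℝ)
        ≤ (((X : ℝ) / (d * P) + 1) * Nat.totient P) * (d : ℝ) ^ (-(1/2) : ℝ) := by gcongr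
      _ = Nat.totient P * ((X / P) * ((d : ℝ)⁻¹ * (d : ℝ) ^ (-(1/2) : ℝ)) + (d : ℝ) ^ (-(1/2) : ℝ)) := by
          field_simp
      _ = _ := by
          have e : (d : ℝ)⁻¹ * (d : ℝ) ^ (-(1/2) : ℝ) = (d : ℝ) ^ (-(3/2) : ℝ) := by
            rw [← Real.rpow_neg_one, ← Real.rpow_add hd0]
            congr 1
            norm_num
          rw [e]
  have hsq : Real.sqrt X ≤ X / P := by
    rw [le_div_iff₀ hP']
    have h1 : (P : ℝ) ≤ Real.sqrt X := by
      apply Real.le_sqrt_of_sq_le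
      exact_mod_cast hX
    calc Real.sqrt X * P ≤ Real.sqrt X * Real.sqrt X := by gcongr
      _ = X := Real.mul_self_sqrt (by positivity)
  calc C0 * ∑ d ∈ (Icc 1 X).filter (fun d => Nat.Coprime d P), ∑ b ∈ AU P u X, (if b ≡ a₀ [MOD d] then (d : ℝ) ^ (-(1/2) : ℝ) else 0)
      ≤ C0 * ∑ d ∈ (Icc 1 X).filter (fun d => Nat.Coprime d P), Nat.totient P * ((X / P) * (d : ℝ) ^ (-(3/2) : ℝ) + (d : ℝ) ^ (-(1/2) : ℝ)) := by
        gcongr with d hd'
        exact hd d hd'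
    _ ≤ C0 * ∑ d ∈ Icc 1 X, Nat.totient P * ((X / P) * (d : ℝ) ^ (-(3/2) : ℝ) + (d : ℝ) ^ (-(1/2) : ℝ)) := by
        apply mul_le_mul_of_nonneg_left _ hC0.le
        apply Finset.sum_le_sum_of_subset_of_nonneg (Finset.filter_subset _ _)
        intro d _ _
        positivity
    _ = C0 * (Nat.totient P * ((X / P) * ∑ d ∈ Icc 1 X, (d : ℝ) ^ (-(3/2) : ℝ) + ∑ d ∈ Icc 1 X, (d : ℝ) ^ (-(1/2) : ℝ))) := by
        rw [← Finset.mul_sum, Finset.sum_add_distrib, ← Finset.mul_sum]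
    _ ≤ C0 * (Nat.totient P * ((X / P) * C5 + 2 * (X / P))) := by
        gcongr
        · exact h5 X
        · exact (sum_rpow_half X).trans (by linarith)
    _ = _ := by ring

end Pool.Agent.Erdos456.SP
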