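import Mathlib
import Pool.Agent.Erdos456.Sieve
import Pool.Agent.Erdos456.Mertens

set_option autoImplicit false

open Finset

namespace Pool.Agent.Erdos456.SM

/-- the weight -/
noncomputable def sw (L x : ℝ) : ℝ :=
  (Real.log x / L) * x ^ (-(1 / (2 * L))) * (1 - x ^ (-(1 / L)))

theorem sw_aux {L x : ℝ} (hL : 0 < L) (hx : 1 ≤ x) :
    0 ≤ 1 - x ^ (-(1 / L)) ∧ 1 - x ^ (-(1 / L)) ≤ 1 := by
  have h2 : x ^ (-(1 / L)) ≤ 1 := Real.rpow_le_one_of_one_le_of_nonpos hx (by
    have : 0 < 1 / L := by positivity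
    linarith)
  have h3 : 0 ≤ x ^ (-(1 / L)) := Real.rpow_nonneg (by linarith) _
  constructor <;> linarith

theorem sw_nonneg {L x : ℝ} (hL : 0 < L) (hx : 1 ≤ x) : 0 ≤ sw L x := by
  unfold sw
  have h1 : 0 ≤ Real.log x := Real.log_nonneg hx
  have h3 : 0 ≤ x ^ (-(1 / (2 * L))) := Real.rpow_nonneg (by linarith) _
  have h4 := (sw_aux hL hx).1
  positivity

theorem sw_le_log {L x : ℝ} (hL : 0 < L) (hx : 1 ≤ x) : sw L x ≤ Real.log x / L := by
  unfold sw
  have h1 : 0 ≤ Real.log x / L := div_nonneg (Real.log_nonneg hx) hL.le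
  have h2 : x ^ (-(1 / (2 * L))) ≤ 1 := Real.rpow_le_one_of_one_le_of_nonpos hx (by
    have : 0 < 1 / (2 * L) := by positivity
    linarith)
  have h3 : 0 ≤ x ^ (-(1 / (2 * L))) := Real.rpow_nonneg (by linarith) _
  have h4 := sw_aux hL hx
  calc (Real.log x / L) * x ^ (-(1 / (2 * L))) * (1 - x ^ (-(1 / L)))
      ≤ (Real.log x / L) * x ^ (-(1 / (2 * L))) * 1 :=
        mul_le_mul_of_nonneg_left h4.2 (by positivity)
    _ = (Real.log x / L) * x ^ (-(1 / (2 * L))) := mul_one _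
    _ ≤ (Real.log x / L) * 1 := mul_le_mul_of_nonneg_left h2 h1
    _ = _ := mul_one _

theorem sw_le_one {L x : ℝ} (hL : 0 < L) (hx : 1 ≤ x) : sw L x ≤ 1 := by
  unfold sw
  have h1 : 0 ≤ Real.log x / L := div_nonneg (Real.log_nonneg hx) hL.le
  have h3 : 0 ≤ x ^ (-(1 / (2 * L))) := Real.rpow_nonneg (by linarith) _
  have h4 := sw_aux hL hx
  have h5 : (Real.log x / L) * x ^ (-(1 / (2 * L))) ≤ 1 := by
    rw [Real.rpow_def_of_pos (by linarith)]
    set t := Real.log x / L with ht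
    have h6 : Real.log x * -(1 / (2 * L)) = -(t / 2) := by
      rw [ht]; field_simp
    rw [h6, Real.exp_neg]
    rw [← div_eq_mul_inv, div_le_one (Real.exp_pos _)]
    have h7 : Real.exp (t / 2) = (Real.exp (t / 4)) ^ 2 := by
      rw [← Real.exp_nat_mul]; congr 1; push_cast; ring
    have h8 : t / 4 + 1 ≤ Real.exp (t / 4) := Real.add_one_le_exp _
    rw [h7]
    nlinarith [sq_nonneg (t / 4 - 1)]
  calc (Real.log x / L) * x ^ (-(1 / (2 * L))) * (1 - x ^ (-(1 / L)))
      ≤ (Real.log x / L) * x ^ (-(1 / (2 * L))) * 1 :=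
        mul_le_mul_of_nonneg_left h4.2 (by positivity)
    _ = (Real.log x / L) * x ^ (-(1 / (2 * L))) := mul_one _
    _ ≤ 1 := h5

/-- ratio `n / φ(n)` -/
noncomputable def Gr (n : ℕ) : ℝ := (n : ℝ) / (Nat.totient n : ℝ)

theorem Gr_nonneg (n : ℕ) : 0 ≤ Gr n := by unfold Gr; positivity

theorem Gr_mul_le {m n : ℕ} (hm : 0 < m) (hn : 0 < n) : Gr (m * n) ≤ Gr m * Gr n := by
  unfold Gr
  have h1 : 0 < Nat.totient m := Nat.totient_pos.2 hm
  have h2 : 0 < Nat.totient n := Nat.totient_pos.2 hn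
  have h3 := Nat.totient_super_multiplicative m n
  have h3' : (Nat.totient m : ℝ) * Nat.totient n ≤ Nat.totient (m * n) := by exact_mod_cast h3
  rw [div_mul_div_comm]
  push_cast
  apply div_le_div_of_nonneg_left (by positivity) (by positivity) h3'

theorem sum_inv_sq (J : ℕ) : ∑ j ∈ range J, 1 / ((j : ℝ) + 1) ^ 2 ≤ 2 := by
  have key : ∀ J : ℕ, ∑ j ∈ range (J + 1), 1 / ((j : ℝ) + 1) ^ 2 ≤ 2 - 1 / ((J : ℝ) + 1) := by
    intro J
    induction J with
    | zero => simp; norm_num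
    | succ J ih =>
      rw [sum_range_succ]
      push_cast
      have h1 : 1 / ((J : ℝ) + 1 + 1) ^ 2 ≤ 1 / ((J : ℝ) + 1) - 1 / ((J : ℝ) + 1 + 1) := by
        have : (0 : ℝ) ≤ J := Nat.cast_nonneg _
        rw [div_sub_div _ _ (by positivity) (by positivity), div_le_div_iff₀ (by positivity) (by positivity)]
        nlinarith
      linarith
  rcases J with _ | J
  · simp
  · have h := key J
    have : (0 : ℝ) < 1 / ((J : ℝ) + 1) := by positivity
    linarith

theorem sum_inv_sq_tail (m J : ℕ) (hm : 1 ≤ m) :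
    ∑ j ∈ range J, (if m < j + 1 then 1 / ((j : ℝ) + 1) ^ 2 else (0 : ℝ)) ≤ 1 / (m : ℝ) := by
  have hm' : (0 : ℝ) < m := by exact_mod_cast hm
  have key : ∀ J : ℕ, ∑ j ∈ range J, (if m < j + 1 then 1 / ((j : ℝ) + 1) ^ 2 else (0 : ℝ)) ≤
      1 / (m : ℝ) - (if m < J then 1 / (J : ℝ) else 1 / (m : ℝ)) := by
    intro J
    induction J with
    | zero => simp
    | succ J ih =>
      rw [sum_range_succ]
      by_cases h : m < J + 1
      · rw [if_pos h, if_pos h]
        push_cast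
        by_cases h2 : m < J
        · rw [if_pos h2] at ih
          have hJ : (0 : ℝ) < J := by exact_mod_cast (by omega : 0 < J)
          have h1 : 1 / ((J : ℝ) + 1) ^ 2 ≤ 1 / (J : ℝ) - 1 / ((J : ℝ) + 1) := by
            rw [div_sub_div _ _ (by positivity) (by positivity), div_le_div_iff₀ (by positivity) (by positivity)]
            nlinarith
          linarith
        · rw [if_neg h2] at ih
          have hJm : J = m := by omega
          subst hJm
          have h1 : 1 / ((J : ℝ) + 1) ^ 2 ≤ 1 / (J : ℝ) - 1 / ((J : ℝ) + 1) := by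
            rw [div_sub_div _ _ (by positivity) (by positivity), div_le_div_iff₀ (by positivity) (by positivity)]
            nlinarith
          linarith
      · rw [if_neg h, if_neg h]
        rw [if_neg (by omega)] at ih
        linarith
  have h := key J
  have h2 : (0 : ℝ) ≤ (if m < J then 1 / (J : ℝ) else 1 / (m : ℝ)) := by
    split_ifs <;> positivity
  linarith

theorem weight_sum {L : ℝ} (hL : 1 ≤ L) (J : ℕ) :
    ∑ j ∈ range J, min 1 ((((j : ℝ) + 1) + Real.log L) / L) ^ 2 / ((j : ℝ) + 1) ^ 2 ≤ 20 / L := by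
  have hL0 : 0 < L := by linarith
  have hlog0 : 0 ≤ Real.log L := Real.log_nonneg hL
  have hlog : Real.log L ^ 2 ≤ 4 * L := by
    have h1 : Real.log L ≤ 2 * Real.sqrt L := by
      have h2 : Real.log (Real.sqrt L) = Real.log L / 2 := Real.log_sqrt hL0.le
      have h3 : Real.log (Real.sqrt L) ≤ Real.sqrt L - 1 :=
        Real.log_le_sub_one_of_pos (Real.sqrt_pos.2 hL0)
      linarith
    have h4 : Real.sqrt L ^ 2 = L := Real.sq_sqrt hL0.le
    have h5 : Real.log L ^ 2 ≤ (2 * Real.sqrt L) ^ 2 := pow_le_pow_left₀ hlog0 h1 2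
    nlinarith
  set m := ⌊L⌋₊ with hm
  have hm1 : 1 ≤ m := Nat.one_le_floor_iff L |>.2 hL
  have hmL : (m : ℝ) ≤ L := Nat.floor_le hL0.le
  have hmL2 : L < m + 1 := Nat.lt_floor_add_one L
  have hm1' : (1 : ℝ) ≤ m := by exact_mod_cast hm1
  have hterm : ∀ j ∈ range J,
      min 1 ((((j : ℝ) + 1) + Real.log L) / L) ^ 2 / ((j : ℝ) + 1) ^ 2 ≤
      (if j < m then 2 / L ^ 2 else 0) + (8 / L) * (1 / ((j : ℝ) + 1) ^ 2) +
        (if m < j + 1 then 1 / ((j : ℝ) + 1) ^ 2 else 0) := by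
    intro j _
    have hj : (0 : ℝ) ≤ j := Nat.cast_nonneg _
    set k : ℝ := (j : ℝ) + 1 with hk
    have hk0 : 0 < k := by positivity
    have hx0 : 0 ≤ (k + Real.log L) / L := by positivity
    have hmin0 : 0 ≤ min 1 ((k + Real.log L) / L) := le_min zero_le_one hx0
    by_cases h : j < m
    · rw [if_pos h]
      have h2 : (0 : ℝ) ≤ (if m < j + 1 then 1 / k ^ 2 else 0) := by split_ifs <;> positivity
      have h3 : min 1 ((k + Real.log L) / L) ^ 2 ≤ ((k + Real.log L) / L) ^ 2 :=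
        pow_le_pow_left₀ hmin0 (min_le_right _ _) 2
      have h4 : ((k + Real.log L) / L) ^ 2 / k ^ 2 ≤ 2 / L ^ 2 + (8 / L) * (1 / k ^ 2) := by
        rw [div_pow, div_div, div_le_iff₀ (by positivity)]
        have h5 : (2 / L ^ 2 + 8 / L * (1 / k ^ 2)) * (L ^ 2 * k ^ 2) = 2 * k ^ 2 + 8 * L := by
          field_simp
        rw [h5]
        nlinarith [sq_nonneg (k - Real.log L)]
      have h5 : min 1 ((k + Real.log L) / L) ^ 2 / k ^ 2 ≤ ((k + Real.log L) / L) ^ 2 / k ^ 2 :=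
        div_le_div_of_nonneg_right h3 (by positivity)
      linarith
    · rw [if_neg h, if_pos (by omega)]
      have h3 : min 1 ((k + Real.log L) / L) ^ 2 ≤ 1 :=
        pow_le_one₀ hmin0 (min_le_left _ _)
      have h5 : min 1 ((k + Real.log L) / L) ^ 2 / k ^ 2 ≤ 1 / k ^ 2 :=
        div_le_div_of_nonneg_right h3 (by positivity)
      have h6 : 0 ≤ 8 / L * (1 / k ^ 2) := by positivity
      linarith
  refine (Finset.sum_le_sum hterm).trans ?_
  rw [sum_add_distrib, sum_add_distrib, ← mul_sum]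
  have e1 : ∑ j ∈ range J, (if j < m then 2 / L ^ 2 else 0) ≤ 2 / L := by
    rw [← sum_filter, sum_const, nsmul_eq_mul]
    have hc : (((range J).filter (fun j => j < m)).card : ℝ) ≤ m := by
      have : ((range J).filter (fun j => j < m)).card ≤ (range m).card := by
        apply card_le_card
        intro j hj
        rw [mem_filter] at hj
        exact mem_range.2 hj.2
      rw [card_range] at this
      exact_mod_cast this
    calc (((range J).filter (fun j => j < m)).card : ℝ) * (2 / L ^ 2) ≤ L * (2 / L ^ 2) :=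
          mul_le_mul_of_nonneg_right (hc.trans hmL) (by positivity)
      _ = 2 / L := by field_simp
  have e2 : 8 / L * ∑ j ∈ range J, 1 / ((j : ℝ) + 1) ^ 2 ≤ 16 / L := by
    calc 8 / L * ∑ j ∈ range J, 1 / ((j : ℝ) + 1) ^ 2 ≤ 8 / L * 2 :=
          mul_le_mul_of_nonneg_left (sum_inv_sq J) (by positivity)
      _ = 16 / L := by ring
  have e3 := sum_inv_sq_tail m J hm1
  have e4 : 1 / (m : ℝ) ≤ 2 / L := by
    rw [div_le_div_iff₀ (by positivity) hL0]
    linarith
  have e5 : 2 / L + 16 / L + 2 / L = 20 / L := by ring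
  linarith

/-- dyadic decomposition -/
theorem dyadic_sum (f : ℕ → ℝ) (B : ℕ → ℝ) (h0 : f 0 = 0)
    (hB : ∀ j, ∑ n ∈ Ico (2 ^ j) (2 ^ (j + 1)), f n ≤ B j) (J : ℕ) :
    ∑ n ∈ range (2 ^ J), f n ≤ ∑ j ∈ range J, B j := by
  induction J with
  | zero => simp [h0]
  | succ J ih =>
    rw [sum_range_succ, ← sum_range_add_sum_Ico f
      (Nat.pow_le_pow_right (by norm_num) (Nat.le_succ J))]
    exact add_le_add ih (hB J)

theorem pair_sum : ∃ C : ℝ, 0 < C ∧ ∀ L : ℝ, 1 ≤ L → ∀ a b : ℕ, 0 < a → 0 < b → a ≠ b →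
    (a : ℝ) ≤ L → (b : ℝ) ≤ L → ∀ N : ℕ,
    ∑ n ∈ range N, (if (a * n + 1).Prime ∧ (b * n + 1).Prime then
      (n : ℝ) ^ (-(1 + 1 / (2 * L))) * (sw L (a * n + 1) * sw L (b * n + 1)) else 0) ≤
    C * (Gr a * Gr b * Gr ((a : ℤ) - (b : ℤ)).natAbs) ^ 2 / L := by
  obtain ⟨C, hC, h⟩ := sieve_two
  refine ⟨160 * C, by positivity, ?_⟩
  intro L hL a b ha hb hab haL hbL N
  have hL0 : 0 < L := by linarith
  have hlogL : 0 ≤ Real.log L := Real.log_nonneg hL
  set G : ℝ := Gr a * Gr b * Gr ((a : ℤ) - (b : ℤ)).natAbs with hG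
  have hdab : 0 < ((a : ℤ) - (b : ℤ)).natAbs := by
    rw [Int.natAbs_pos]
    intro h0
    apply hab
    omega
  have hGD : Gr (a * b * ((a : ℤ) - (b : ℤ)).natAbs) ≤ G := by
    rw [hG]
    refine (Gr_mul_le (Nat.mul_pos ha hb) hdab).trans ?_
    exact mul_le_mul_of_nonneg_right (Gr_mul_le ha hb) (Gr_nonneg _)
  have hG0 : 0 ≤ G := (Gr_nonneg _).trans hGD
  have hsieve : ∀ N : ℕ, 2 ≤ N →
      (((Icc 1 N).filter (fun n => (a * n + 1).Prime ∧ (b * n + 1).Prime)).card : ℝ) ≤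
      C * G ^ 2 * N / (Real.log N) ^ 2 := by
    intro N hN
    have h1 := h a 1 b 1 N ha hb (Nat.coprime_one_right a) (Nat.coprime_one_right b)
      (by simpa using hab) hN
    simp only [mul_one] at h1
    refine h1.trans ?_
    have h2 : (((a * b * ((a : ℤ) - (b : ℤ)).natAbs : ℕ) : ℝ) /
        ((Nat.totient (a * b * ((a : ℤ) - (b : ℤ)).natAbs) : ℕ) : ℝ)) ^ 2 ≤ G ^ 2 :=
      pow_le_pow_left₀ (Gr_nonneg _) hGD 2
    have h3 : C * (((a * b * ((a : ℤ) - (b : ℤ)).natAbs : ℕ) : ℝ) /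
        ((Nat.totient (a * b * ((a : ℤ) - (b : ℤ)).natAbs) : ℕ) : ℝ)) ^ 2 * N ≤ C * G ^ 2 * N :=
      mul_le_mul_of_nonneg_right (mul_le_mul_of_nonneg_left h2 hC.le) (Nat.cast_nonneg N)
    exact div_le_div_of_nonneg_right h3 (by positivity)
  set f : ℕ → ℝ := fun n => (if (a * n + 1).Prime ∧ (b * n + 1).Prime then
      (n : ℝ) ^ (-(1 + 1 / (2 * L))) * (sw L (a * n + 1) * sw L (b * n + 1)) else 0) with hf
  have hf0 : ∀ n, 0 ≤ f n := by
    intro n
    simp only [hf]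
    split_ifs
    · have h1 := sw_nonneg hL0 (x := (a : ℝ) * n + 1) (by
        have : (0 : ℝ) ≤ (a : ℝ) * n := by positivity
        linarith)
      have h2 := sw_nonneg hL0 (x := (b : ℝ) * n + 1) (by
        have : (0 : ℝ) ≤ (b : ℝ) * n := by positivity
        linarith)
      have h3 : 0 ≤ (n : ℝ) ^ (-(1 + 1 / (2 * L))) := Real.rpow_nonneg (Nat.cast_nonneg n) _
      positivity
    · exact le_rfl
  have hfz : f 0 = 0 := by
    simp only [hf]
    rw [if_neg]
    rintro ⟨h1, -⟩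
    norm_num at h1
  have hlogb : ∀ c j n : ℕ, 0 < c → (c : ℝ) ≤ L → n < 2 ^ (j + 1) →
      Real.log ((c : ℝ) * n + 1) ≤ ((j : ℝ) + 1) + Real.log L := by
    intro c j n hc hcL hn
    have h1 : (c : ℝ) * n + 1 ≤ L * 2 ^ (j + 1) := by
      have h2 : ((n + 1 : ℕ) : ℝ) ≤ ((2 ^ (j + 1) : ℕ) : ℝ) := by exact_mod_cast hn
      push_cast at h2
      have h3 : (1 : ℝ) ≤ c := by exact_mod_cast hc
      calc (c : ℝ) * n + 1 ≤ c * n + c := by linarith
        _ = c * ((n : ℝ) + 1) := by ring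
        _ ≤ L * 2 ^ (j + 1) := mul_le_mul hcL h2 (by positivity) hL0.le
    have h4 : 0 < (c : ℝ) * n + 1 := by positivity
    refine (Real.log_le_log h4 h1).trans ?_
    rw [Real.log_mul hL0.ne' (by positivity), Real.log_pow]
    push_cast
    have h5 : Real.log 2 ≤ 1 := by
      have := Real.log_two_lt_d9
      linarith
    have h6 : ((j : ℝ) + 1) * Real.log 2 ≤ ((j : ℝ) + 1) * 1 :=
      mul_le_mul_of_nonneg_left h5 (by positivity)
    linarith
  have hB : ∀ j : ℕ, ∑ n ∈ Ico (2 ^ j) (2 ^ (j + 1)), f n ≤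
      8 * C * G ^ 2 * (min 1 ((((j : ℝ) + 1) + Real.log L) / L) ^ 2 / ((j : ℝ) + 1) ^ 2) := by
    intro j
    set W := min 1 ((((j : ℝ) + 1) + Real.log L) / L) with hW
    have hW0 : 0 ≤ W := le_min zero_le_one (by positivity)
    have h1 : ∀ n ∈ Ico (2 ^ j) (2 ^ (j + 1)), f n ≤
        if (a * n + 1).Prime ∧ (b * n + 1).Prime then ((2 : ℝ) ^ j)⁻¹ * W ^ 2 else 0 := by
      intro n hn
      rw [mem_Ico] at hn
      simp only [hf]
      split_ifs with hp
      · have hn1 : 1 ≤ n := le_trans (Nat.one_le_two_pow) hn.1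
        have hn1' : (1 : ℝ) ≤ n := by exact_mod_cast hn1
        have e1 : (n : ℝ) ^ (-(1 + 1 / (2 * L))) ≤ ((2 : ℝ) ^ j)⁻¹ := by
          have h2 : (n : ℝ) ^ (-(1 + 1 / (2 * L))) ≤ (n : ℝ) ^ (-1 : ℝ) := by
            apply Real.rpow_le_rpow_of_exponent_le hn1'
            have : 0 < 1 / (2 * L) := by positivity
            linarith
          refine h2.trans ?_
          rw [Real.rpow_neg_one]
          apply inv_anti₀ (by positivity)
          exact_mod_cast hn.1
        have hc : ∀ c : ℕ, 0 < c → (c : ℝ) ≤ L → 0 ≤ sw L ((c : ℝ) * n + 1) ∧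
            sw L ((c : ℝ) * n + 1) ≤ W := by
          intro c hc hcL
          have hx : (1 : ℝ) ≤ (c : ℝ) * n + 1 := by
            have : (0 : ℝ) ≤ (c : ℝ) * n := by positivity
            linarith
          refine ⟨sw_nonneg hL0 hx, le_min (sw_le_one hL0 hx) ((sw_le_log hL0 hx).trans ?_)⟩
          exact div_le_div_of_nonneg_right (hlogb c j n hc hcL hn.2) hL0.le
        have e2 : sw L (a * n + 1) * sw L (b * n + 1) ≤ W ^ 2 := by
          rw [sq]
          exact mul_le_mul (hc a ha haL).2 (hc b hb hbL).2 (hc b hb hbL).1 hW0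
        exact mul_le_mul e1 e2 (mul_nonneg (hc a ha haL).1 (hc b hb hbL).1) (by positivity)
      · exact le_rfl
    refine (sum_le_sum h1).trans ?_
    rw [← sum_filter, sum_const, nsmul_eq_mul]
    have h2 : (((Ico (2 ^ j) (2 ^ (j + 1))).filter
        (fun n => (a * n + 1).Prime ∧ (b * n + 1).Prime)).card : ℝ) ≤
        C * G ^ 2 * ((2 ^ (j + 1) : ℕ) : ℝ) / (Real.log ((2 ^ (j + 1) : ℕ) : ℝ)) ^ 2 := by
      refine le_trans ?_ (hsieve (2 ^ (j + 1)) ?_)
      · have : ((Ico (2 ^ j) (2 ^ (j + 1))).filter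
            (fun n => (a * n + 1).Prime ∧ (b * n + 1).Prime)).card ≤
            ((Icc 1 (2 ^ (j + 1))).filter
            (fun n => (a * n + 1).Prime ∧ (b * n + 1).Prime)).card := by
          apply card_le_card
          apply filter_subset_filter
          intro n hn
          rw [mem_Ico] at hn
          rw [mem_Icc]
          exact ⟨le_trans (Nat.one_le_two_pow) hn.1, hn.2.le⟩
        exact_mod_cast this
      · calc 2 = 2 ^ 1 := by norm_num
          _ ≤ 2 ^ (j + 1) := Nat.pow_le_pow_right (by norm_num) (by omega)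
    have h3 : Real.log ((2 ^ (j + 1) : ℕ) : ℝ) = ((j : ℝ) + 1) * Real.log 2 := by
      push_cast
      rw [Real.log_pow]
      push_cast
      ring
    rw [h3] at h2
    have hj0 : (0 : ℝ) < (j : ℝ) + 1 := by positivity
    have hl2 : (1 / 2 : ℝ) ≤ Real.log 2 := by
      have := Real.log_two_gt_d9
      linarith
    have h4 : C * G ^ 2 * ((2 ^ (j + 1) : ℕ) : ℝ) / (((j : ℝ) + 1) * Real.log 2) ^ 2 ≤
        4 * C * G ^ 2 * 2 ^ (j + 1) / ((j : ℝ) + 1) ^ 2 := by
      rw [div_le_div_iff₀ (by positivity) (by positivity)]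
      have h5 : (1 : ℝ) ≤ 4 * (Real.log 2) ^ 2 := by nlinarith
      push_cast
      have h6 : 0 ≤ C * G ^ 2 * 2 ^ (j + 1) * ((j : ℝ) + 1) ^ 2 := by positivity
      calc C * G ^ 2 * 2 ^ (j + 1) * ((j : ℝ) + 1) ^ 2
          ≤ C * G ^ 2 * 2 ^ (j + 1) * ((j : ℝ) + 1) ^ 2 * (4 * (Real.log 2) ^ 2) :=
            le_mul_of_one_le_right h6 h5
        _ = _ := by ring
    calc (((Ico (2 ^ j) (2 ^ (j + 1))).filter
        (fun n => (a * n + 1).Prime ∧ (b * n + 1).Prime)).card : ℝ) * (((2 : ℝ) ^ j)⁻¹ * W ^ 2)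
        ≤ (4 * C * G ^ 2 * 2 ^ (j + 1) / ((j : ℝ) + 1) ^ 2) * (((2 : ℝ) ^ j)⁻¹ * W ^ 2) :=
          mul_le_mul_of_nonneg_right (h2.trans h4) (by positivity)
      _ = _ := by
          rw [pow_succ]
          field_simp
          ring
  have h1 : ∑ n ∈ range N, f n ≤ ∑ n ∈ range (2 ^ N), f n := by
    apply sum_le_sum_of_subset_of_nonneg
    · intro n hn
      rw [mem_range] at hn ⊢
      exact hn.trans (Nat.lt_two_pow_self)
    · intro n _ _
      exact hf0 n
  refine h1.trans ((dyadic_sum f _ hfz hB N).trans ?_)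
  rw [← mul_sum]
  calc 8 * C * G ^ 2 * ∑ j ∈ range N,
        (min 1 ((((j : ℝ) + 1) + Real.log L) / L) ^ 2 / ((j : ℝ) + 1) ^ 2)
      ≤ 8 * C * G ^ 2 * (20 / L) := mul_le_mul_of_nonneg_left (weight_sum hL N) (by positivity)
    _ = 160 * C * G ^ 2 / L := by ring

theorem amgm6 {x y z : ℝ} :
    (x * y * z) ^ 2 ≤ x ^ 6 + y ^ 6 + z ^ 6 := by
  have key : ∀ u v w : ℝ, 0 ≤ u → 0 ≤ v → 0 ≤ w → u * v * w ≤ u ^ 3 + v ^ 3 + w ^ 3 := by
    intro u v w hu hv hw
    set m := max u (max v w) with hm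
    have h1 : u ≤ m := le_max_left _ _
    have h2 : v ≤ m := (le_max_left _ _).trans (le_max_right _ _)
    have h3 : w ≤ m := (le_max_right _ _).trans (le_max_right _ _)
    have hm0 : 0 ≤ m := hu.trans h1
    have h4 : u * v * w ≤ m ^ 3 := by
      calc u * v * w ≤ m * m * m := by gcongr
        _ = m ^ 3 := by ring
    have hu3 : 0 ≤ u ^ 3 := by positivity
    have hv3 : 0 ≤ v ^ 3 := by positivity
    have hw3 : 0 ≤ w ^ 3 := by positivity
    have h5 : m ^ 3 ≤ u ^ 3 + v ^ 3 + w ^ 3 := by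
      rcases max_choice u (max v w) with h | h
      · rw [hm, h]; linarith
      · rcases max_choice v w with h' | h'
        · rw [hm, h, h']; linarith
        · rw [hm, h, h']; linarith
    exact h4.trans h5
  have := key (x ^ 2) (y ^ 2) (z ^ 2) (by positivity) (by positivity) (by positivity)
  calc (x * y * z) ^ 2 = x ^ 2 * y ^ 2 * z ^ 2 := by ring
    _ ≤ (x ^ 2) ^ 3 + (y ^ 2) ^ 3 + (z ^ 2) ^ 3 := this
    _ = _ := by ring

theorem shift_sum (g : ℕ → ℝ) (hg : ∀ n, 0 ≤ g n) (X a : ℕ) (ha : a ∈ Icc 1 X) :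
    ∑ b ∈ Icc 1 X, (if a ≠ b then g ((a : ℤ) - (b : ℤ)).natAbs else 0) ≤
      2 * ∑ h ∈ Icc 1 X, g h := by
  rw [mem_Icc] at ha
  have h1 : ∀ b ∈ Icc 1 X, (if a ≠ b then g ((a : ℤ) - (b : ℤ)).natAbs else 0) ≤
      (if b < a then g (a - b) else 0) + (if a < b then g (b - a) else 0) := by
    intro b _
    rcases lt_trichotomy a b with h | h | h
    · rw [if_pos h.ne, if_neg (by omega), if_pos h]
      have : ((a : ℤ) - (b : ℤ)).natAbs = b - a := by omega
      rw [this]; linarith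
    · rw [if_neg (by simpa using h), if_neg (by omega), if_neg (by omega)]; simp
    · rw [if_pos h.ne', if_pos h, if_neg (by omega)]
      have : ((a : ℤ) - (b : ℤ)).natAbs = a - b := by omega
      rw [this]; linarith
  refine (sum_le_sum h1).trans ?_
  rw [sum_add_distrib, two_mul, ← sum_filter, ← sum_filter]
  apply add_le_add
  · have h2 : ∑ b ∈ (Icc 1 X).filter (fun b => b < a), g (a - b) =
        ∑ h ∈ ((Icc 1 X).filter (fun b => b < a)).image (fun b => a - b), g h := by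
      rw [sum_image]
      intro x hx y hy hxy
      simp only [coe_filter, Set.mem_ofPred_eq, mem_Icc] at hx hy hxy
      omega
    rw [h2]
    apply sum_le_sum_of_subset_of_nonneg
    · intro h hh
      rw [mem_image] at hh
      obtain ⟨b, hb, rfl⟩ := hh
      rw [mem_filter, mem_Icc] at hb
      rw [mem_Icc]
      omega
    · intro n _ _; exact hg n
  · have h2 : ∑ b ∈ (Icc 1 X).filter (fun b => a < b), g (b - a) =
        ∑ h ∈ ((Icc 1 X).filter (fun b => a < b)).image (fun b => b - a), g h := by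
      rw [sum_image]
      intro x hx y hy hxy
      simp only [coe_filter, Set.mem_ofPred_eq, mem_Icc] at hx hy hxy
      omega
    rw [h2]
    apply sum_le_sum_of_subset_of_nonneg
    · intro h hh
      rw [mem_image] at hh
      obtain ⟨b, hb, rfl⟩ := hh
      rw [mem_filter, mem_Icc] at hb
      rw [mem_Icc]
      omega
    · intro n _ _; exact hg n

theorem gram_sum : ∃ C : ℝ, 0 < C ∧ ∀ X : ℕ, ∑ a ∈ Icc 1 X, ∑ b ∈ Icc 1 X,
    (if a ≠ b then (Gr a * Gr b * Gr ((a : ℤ) - (b : ℤ)).natAbs) ^ 2 else 0) ≤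
      C * (X : ℝ) ^ 2 := by
  obtain ⟨C, hC⟩ := Mert.totRatio_moment
  have hC' : ∀ N : ℕ, ∑ n ∈ Icc 1 N, Gr n ^ 6 ≤ C * N := hC
  have hC0 : 0 < C := by
    have := hC' 1
    simp [Gr] at this
    linarith
  refine ⟨4 * C, by positivity, ?_⟩
  intro X
  have hterm : ∀ a ∈ Icc 1 X, ∑ b ∈ Icc 1 X,
      (if a ≠ b then (Gr a * Gr b * Gr ((a : ℤ) - (b : ℤ)).natAbs) ^ 2 else 0) ≤
      X * Gr a ^ 6 + 3 * (C * X) := by
    intro a ha
    have h1 : ∀ b ∈ Icc 1 X,
        (if a ≠ b then (Gr a * Gr b * Gr ((a : ℤ) - (b : ℤ)).natAbs) ^ 2 else 0) ≤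
        Gr a ^ 6 + Gr b ^ 6 + (if a ≠ b then Gr ((a : ℤ) - (b : ℤ)).natAbs ^ 6 else 0) := by
      intro b _
      have hga := Gr_nonneg a
      have hgb := Gr_nonneg b
      split_ifs
      · exact amgm6
      · positivity
    refine (sum_le_sum h1).trans ?_
    rw [sum_add_distrib, sum_add_distrib, sum_const, Nat.card_Icc, nsmul_eq_mul]
    have h2 := shift_sum (fun n => Gr n ^ 6) (fun n => pow_nonneg (Gr_nonneg n) 6) X a ha
    have h3 := hC' X
    have h4 : (((X + 1 - 1 : ℕ)) : ℝ) = X := by simp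
    rw [h4]
    linarith
  refine (sum_le_sum hterm).trans ?_
  rw [sum_add_distrib, sum_const, Nat.card_Icc, nsmul_eq_mul, ← mul_sum]
  have h4 : (((X + 1 - 1 : ℕ)) : ℝ) = X := by simp
  rw [h4]
  have h3 := hC' X
  have h5 : (X : ℝ) * ∑ i ∈ Icc 1 X, Gr i ^ 6 ≤ X * (C * X) :=
    mul_le_mul_of_nonneg_left h3 (Nat.cast_nonneg X)
  nlinarith

/-- the weighted count -/
noncomputable def rr (A : Finset ℕ) (L : ℝ) (n : ℕ) : ℝ :=
  ∑ a ∈ A, if (a * n + 1).Prime then sw L ((a : ℝ) * n + 1) else 0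

theorem one_le_lin (a n : ℕ) : (1 : ℝ) ≤ (a : ℝ) * n + 1 := by
  have : (0 : ℝ) ≤ (a : ℝ) * n := by positivity
  linarith

theorem rr_nonneg (A : Finset ℕ) {L : ℝ} (hL : 0 < L) (n : ℕ) : 0 ≤ rr A L n := by
  unfold rr
  apply sum_nonneg
  intro a _
  split_ifs
  · exact sw_nonneg hL (one_le_lin a n)
  · exact le_rfl

theorem rr_le_card (A : Finset ℕ) {L : ℝ} (hL : 0 < L) (n : ℕ) : rr A L n ≤ A.card := by
  unfold rr
  calc ∑ a ∈ A, (if (a * n + 1).Prime then sw L ((a : ℝ) * n + 1) else 0)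
      ≤ ∑ a ∈ A, (1 : ℝ) := by
        apply sum_le_sum
        intro a _
        split_ifs
        · exact sw_le_one hL (one_le_lin a n)
        · exact zero_le_one
    _ = A.card := by simp

theorem second_moment : ∃ C : ℝ, 0 < C ∧ ∀ L : ℝ, 1 ≤ L → ∀ X : ℕ, (X : ℝ) ≤ L →
    ∀ A : Finset ℕ, A ⊆ Icc 1 X → ∀ N : ℕ,
    ∑ n ∈ range N, (n : ℝ) ^ (-(1 + 1 / (2 * L))) * rr A L n ^ 2 ≤
    ∑ n ∈ range N, (n : ℝ) ^ (-(1 + 1 / (2 * L))) * rr A L n + C * (X : ℝ) ^ 2 / L := by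
  obtain ⟨C₁, hC₁, h₁⟩ := pair_sum
  obtain ⟨C₂, hC₂, h₂⟩ := gram_sum
  refine ⟨C₁ * C₂, by positivity, ?_⟩
  intro L hL X hX A hA N
  have hL0 : 0 < L := by linarith
  set f : ℕ → ℕ → ℝ := fun a n => if (a * n + 1).Prime then sw L ((a : ℝ) * n + 1) else 0 with hf
  have hf0 : ∀ a n, 0 ≤ f a n := by
    intro a n
    simp only [hf]
    split_ifs
    · exact sw_nonneg hL0 (one_le_lin a n)
    · exact le_rfl
  have hf1 : ∀ a n, f a n ≤ 1 := by
    intro a n
    simp only [hf]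
    split_ifs
    · exact sw_le_one hL0 (one_le_lin a n)
    · exact zero_le_one
  have hrr : ∀ n, rr A L n = ∑ a ∈ A, f a n := fun n => rfl
  have hw0 : ∀ n : ℕ, 0 ≤ (n : ℝ) ^ (-(1 + 1 / (2 * L))) :=
    fun n => Real.rpow_nonneg (Nat.cast_nonneg n) _
  have hsq : ∀ n, rr A L n ^ 2 ≤ rr A L n +
      ∑ a ∈ A, ∑ b ∈ A, if a ≠ b then f a n * f b n else 0 := by
    intro n
    rw [hrr, sq, sum_mul_sum, ← sum_add_distrib]
    apply sum_le_sum
    intro a ha
    have h3 : ∑ b ∈ A, f a n * f b n = ∑ b ∈ A, ((if a = b then f a n * f b n else 0) +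
        (if a ≠ b then f a n * f b n else 0)) := by
      apply sum_congr rfl
      intro b _
      by_cases h : a = b
      · simp [h]
      · simp [h]
    rw [h3, sum_add_distrib, sum_ite_eq, if_pos ha]
    have h4 : f a n * f a n ≤ f a n := mul_le_of_le_one_right (hf0 a n) (hf1 a n)
    linarith
  calc ∑ n ∈ range N, (n : ℝ) ^ (-(1 + 1 / (2 * L))) * rr A L n ^ 2
      ≤ ∑ n ∈ range N, ((n : ℝ) ^ (-(1 + 1 / (2 * L))) * rr A L n +
        ∑ a ∈ A, ∑ b ∈ A, if a ≠ b then (n : ℝ) ^ (-(1 + 1 / (2 * L))) * (f a n * f b n)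
          else 0) := by
        apply sum_le_sum
        intro n _
        have h3 := mul_le_mul_of_nonneg_left (hsq n) (hw0 n)
        refine h3.trans (le_of_eq ?_)
        rw [mul_add, mul_sum]
        congr 1
        apply sum_congr rfl
        intro a _
        rw [mul_sum]
        apply sum_congr rfl
        intro b _
        rw [mul_ite, mul_zero]
    _ = ∑ n ∈ range N, (n : ℝ) ^ (-(1 + 1 / (2 * L))) * rr A L n +
        ∑ a ∈ A, ∑ b ∈ A, (if a ≠ b then
          ∑ n ∈ range N, (n : ℝ) ^ (-(1 + 1 / (2 * L))) * (f a n * f b n) else 0) := by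
        rw [sum_add_distrib, sum_comm]
        congr 1
        apply sum_congr rfl
        intro a _
        rw [sum_comm]
        apply sum_congr rfl
        intro b _
        split_ifs
        · rfl
        · simp
    _ ≤ ∑ n ∈ range N, (n : ℝ) ^ (-(1 + 1 / (2 * L))) * rr A L n +
        ∑ a ∈ A, ∑ b ∈ A, (if a ≠ b then
          C₁ * (Gr a * Gr b * Gr ((a : ℤ) - (b : ℤ)).natAbs) ^ 2 / L else 0) := by
        apply add_le_add le_rfl
        apply sum_le_sum
        intro a ha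
        apply sum_le_sum
        intro b hb
        have ha' := mem_Icc.1 (hA ha)
        have hb' := mem_Icc.1 (hA hb)
        split_ifs with hab
        · have haX : (a : ℝ) ≤ L := by
            have : (a : ℝ) ≤ X := by exact_mod_cast ha'.2
            linarith
          have hbX : (b : ℝ) ≤ L := by
            have : (b : ℝ) ≤ X := by exact_mod_cast hb'.2
            linarith
          refine le_trans (le_of_eq ?_) (h₁ L hL a b (by omega) (by omega) hab haX hbX N)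
          apply sum_congr rfl
          intro n _
          simp only [hf]
          by_cases p1 : (a * n + 1).Prime
          · by_cases p2 : (b * n + 1).Prime
            · simp [p1, p2]
            · simp [p1, p2]
          · simp [p1]
        · exact le_rfl
    _ ≤ ∑ n ∈ range N, (n : ℝ) ^ (-(1 + 1 / (2 * L))) * rr A L n +
        ∑ a ∈ Icc 1 X, ∑ b ∈ Icc 1 X, (if a ≠ b then
          C₁ * (Gr a * Gr b * Gr ((a : ℤ) - (b : ℤ)).natAbs) ^ 2 / L else 0) := by
        apply add_le_add le_rfl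
        have hnn : ∀ a b : ℕ, (0 : ℝ) ≤ (if a ≠ b then
          C₁ * (Gr a * Gr b * Gr ((a : ℤ) - (b : ℤ)).natAbs) ^ 2 / L else 0) := by
          intro a b
          split_ifs
          · positivity
          · exact le_rfl
        calc ∑ a ∈ A, ∑ b ∈ A, (if a ≠ b then
              C₁ * (Gr a * Gr b * Gr ((a : ℤ) - (b : ℤ)).natAbs) ^ 2 / L else 0)
            ≤ ∑ a ∈ A, ∑ b ∈ Icc 1 X, (if a ≠ b then
              C₁ * (Gr a * Gr b * Gr ((a : ℤ) - (b : ℤ)).natAbs) ^ 2 / L else 0) := by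
              apply sum_le_sum
              intro a _
              exact sum_le_sum_of_subset_of_nonneg hA (fun b _ _ => hnn a b)
          _ ≤ _ := sum_le_sum_of_subset_of_nonneg hA
              (fun a _ _ => sum_nonneg (fun b _ => hnn a b))
    _ = ∑ n ∈ range N, (n : ℝ) ^ (-(1 + 1 / (2 * L))) * rr A L n +
        C₁ / L * ∑ a ∈ Icc 1 X, ∑ b ∈ Icc 1 X, (if a ≠ b then
          (Gr a * Gr b * Gr ((a : ℤ) - (b : ℤ)).natAbs) ^ 2 else 0) := by
        congr 1
        rw [mul_sum]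
        apply sum_congr rfl
        intro a _
        rw [mul_sum]
        apply sum_congr rfl
        intro b _
        split_ifs
        · ring
        · ring
    _ ≤ ∑ n ∈ range N, (n : ℝ) ^ (-(1 + 1 / (2 * L))) * rr A L n +
        C₁ / L * (C₂ * (X : ℝ) ^ 2) := by
        apply add_le_add le_rfl
        exact mul_le_mul_of_nonneg_left (h₂ X) (by positivity)
    _ = _ := by ring

/-- the sum over primes congruent to one -/
noncomputable def S1m (a : ℕ) (L : ℝ) : ℝ :=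
  ∑' p : ℕ, if p.Prime ∧ p ≡ 1 [MOD a] then
    Real.log p * ((p : ℝ) ^ (-(1 + 1 / L)) - (p : ℝ) ^ (-(1 + 2 / L))) else 0

theorem S1m_term_nonneg {L : ℝ} (hL : 0 < L) (a p : ℕ) :
    0 ≤ (if p.Prime ∧ p ≡ 1 [MOD a] then
    Real.log p * ((p : ℝ) ^ (-(1 + 1 / L)) - (p : ℝ) ^ (-(1 + 2 / L))) else 0) := by
  split_ifs with h
  · have h1 : (1 : ℝ) ≤ p := by exact_mod_cast h.1.one_le
    have h2 : (p : ℝ) ^ (-(1 + 2 / L)) ≤ (p : ℝ) ^ (-(1 + 1 / L)) := by
      apply Real.rpow_le_rpow_of_exponent_le h1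
      have : 1 / L ≤ 2 / L := by
        apply div_le_div_of_nonneg_right (by norm_num) hL.le
      linarith
    exact mul_nonneg (Real.log_nonneg h1) (by linarith)
  · exact le_rfl

theorem S1m_nonneg {L : ℝ} (hL : 0 < L) (a : ℕ) : 0 ≤ S1m a L :=
  tsum_nonneg (S1m_term_nonneg hL a)

theorem summable_base {L : ℝ} (hL : 0 < L) :
    Summable (fun n : ℕ => (n : ℝ) ^ (-(1 + 1 / (2 * L)))) := by
  rw [Real.summable_nat_rpow]
  have : 0 < 1 / (2 * L) := by positivity
  linarith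

theorem first_term {L : ℝ} (hL : 1 ≤ L) {a : ℕ} (ha : 0 < a) :
    (a : ℝ) / L * S1m a L ≤ ∑' n : ℕ, (n : ℝ) ^ (-(1 + 1 / (2 * L))) *
      (if (a * n + 1).Prime then sw L ((a : ℝ) * n + 1) else 0) := by
  have hL0 : 0 < L := by linarith
  have ha' : (1 : ℝ) ≤ a := by exact_mod_cast ha
  set F : ℕ → ℝ := fun p => if p.Prime ∧ p ≡ 1 [MOD a] then
    Real.log p * ((p : ℝ) ^ (-(1 + 1 / L)) - (p : ℝ) ^ (-(1 + 2 / L))) else 0 with hF
  have hF0 : ∀ p, 0 ≤ F p := S1m_term_nonneg hL0 a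
  have h1 : S1m a L = ∑' n : ℕ, F (a * n + 1) := by
    symm
    have hinj : Function.Injective (fun n : ℕ => a * n + 1) := by
      intro x y hxy
      have : a * x = a * y := by simpa using hxy
      exact Nat.eq_of_mul_eq_mul_left ha this
    have hsupp : Function.support F ⊆ Set.range (fun n : ℕ => a * n + 1) := by
      intro p hp
      rw [Function.mem_support] at hp
      have hp' : p.Prime ∧ p ≡ 1 [MOD a] := by
        by_contra h
        apply hp
        simp only [hF]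
        rw [if_neg h]
      have h2 : a ∣ p - 1 := (Nat.modEq_iff_dvd' hp'.1.one_le).1 hp'.2.symm
      obtain ⟨k, hk⟩ := h2
      refine ⟨k, ?_⟩
      have := hp'.1.one_le
      simp only
      omega
    exact hinj.tsum_eq hsupp
  have hterm : ∀ n : ℕ, (a : ℝ) / L * F (a * n + 1) ≤ (n : ℝ) ^ (-(1 + 1 / (2 * L))) *
      (if (a * n + 1).Prime then sw L ((a : ℝ) * n + 1) else 0) := by
    intro n
    by_cases hp : (a * n + 1).Prime
    · have hn : 1 ≤ n := by
        rcases Nat.eq_zero_or_pos n with h | h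
        · subst h
          norm_num at hp
        · exact h
      have hn' : (1 : ℝ) ≤ n := by exact_mod_cast hn
      rw [if_pos hp]
      simp only [hF]
      have hmod : a * n + 1 ≡ 1 [MOD a] := by
        have : a * n + 1 ≡ 0 + 1 [MOD a] :=
          Nat.ModEq.add_right 1 ((Nat.modEq_zero_iff_dvd).2 (dvd_mul_right a n))
        simpa using this
      rw [if_pos ⟨hp, hmod⟩]
      push_cast
      set x : ℝ := (a : ℝ) * n + 1 with hx
      have hx1 : 1 ≤ x := one_le_lin a n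
      have hx0 : 0 < x := by linarith
      have e1 : x ^ (-(1 + 1 / L)) - x ^ (-(1 + 2 / L)) =
          x ^ (-(1 + 1 / (2 * L))) * (x ^ (-(1 / (2 * L))) * (1 - x ^ (-(1 / L)))) := by
        rw [mul_sub, mul_one, mul_sub, ← Real.rpow_add hx0, ← Real.rpow_add hx0,
          ← Real.rpow_add hx0]
        congr 2
        · field_simp
          ring
        · field_simp
          ring
      have e2 : (a : ℝ) * x ^ (-(1 + 1 / (2 * L))) ≤ (n : ℝ) ^ (-(1 + 1 / (2 * L))) := by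
        have h2 : x ^ (-(1 + 1 / (2 * L))) ≤ ((a : ℝ) * n) ^ (-(1 + 1 / (2 * L))) := by
          apply Real.rpow_le_rpow_of_nonpos (by positivity) (by rw [hx]; linarith)
          have : 0 < 1 / (2 * L) := by positivity
          linarith
        rw [Real.mul_rpow (by linarith) (by linarith)] at h2
        have h3 : (a : ℝ) ^ (-(1 + 1 / (2 * L))) ≤ (a : ℝ) ^ (-1 : ℝ) := by
          apply Real.rpow_le_rpow_of_exponent_le ha'
          have : 0 < 1 / (2 * L) := by positivity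
          linarith
        rw [Real.rpow_neg_one] at h3
        have h4 : 0 ≤ (n : ℝ) ^ (-(1 + 1 / (2 * L))) := Real.rpow_nonneg (by linarith) _
        calc (a : ℝ) * x ^ (-(1 + 1 / (2 * L)))
            ≤ a * ((a : ℝ) ^ (-(1 + 1 / (2 * L))) * (n : ℝ) ^ (-(1 + 1 / (2 * L)))) :=
              mul_le_mul_of_nonneg_left h2 (by linarith)
          _ ≤ a * ((a : ℝ)⁻¹ * (n : ℝ) ^ (-(1 + 1 / (2 * L)))) :=
              mul_le_mul_of_nonneg_left (mul_le_mul_of_nonneg_right h3 h4) (by linarith)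
          _ = (n : ℝ) ^ (-(1 + 1 / (2 * L))) := by
              rw [← mul_assoc, mul_inv_cancel₀ (by linarith), one_mul]
      have hsw : 0 ≤ sw L x := sw_nonneg hL0 hx1
      calc (a : ℝ) / L * (Real.log x * (x ^ (-(1 + 1 / L)) - x ^ (-(1 + 2 / L))))
          = ((a : ℝ) * x ^ (-(1 + 1 / (2 * L)))) * sw L x := by
            rw [e1]; unfold sw; ring
        _ ≤ (n : ℝ) ^ (-(1 + 1 / (2 * L))) * sw L x := mul_le_mul_of_nonneg_right e2 hsw
    · rw [if_neg hp]
      simp only [hF]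
      rw [if_neg (fun h => hp h.1)]
      simp
  have hsumR : Summable (fun n : ℕ => (n : ℝ) ^ (-(1 + 1 / (2 * L))) *
      (if (a * n + 1).Prime then sw L ((a : ℝ) * n + 1) else 0)) := by
    refine Summable.of_nonneg_of_le ?_ ?_ (summable_base hL0)
    · intro n
      have h4 : 0 ≤ (n : ℝ) ^ (-(1 + 1 / (2 * L))) := Real.rpow_nonneg (Nat.cast_nonneg n) _
      split_ifs
      · exact mul_nonneg h4 (sw_nonneg hL0 (one_le_lin a n))
      · simp
    · intro n
      have h4 : 0 ≤ (n : ℝ) ^ (-(1 + 1 / (2 * L))) := Real.rpow_nonneg (Nat.cast_nonneg n) _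
      split_ifs
      · exact mul_le_of_le_one_right h4 (sw_le_one hL0 (one_le_lin a n))
      · simpa using h4
  have hsumL : Summable (fun n : ℕ => (a : ℝ) / L * F (a * n + 1)) :=
    Summable.of_nonneg_of_le (fun n => mul_nonneg (by positivity) (hF0 _)) hterm hsumR
  rw [h1, ← tsum_mul_left]
  exact hsumL.tsum_le_tsum hterm hsumR

theorem summable_rr {L : ℝ} (hL : 0 < L) (A : Finset ℕ) :
    Summable (fun n : ℕ => (n : ℝ) ^ (-(1 + 1 / (2 * L))) * rr A L n) := by
  refine Summable.of_nonneg_of_le ?_ ?_ ((summable_base hL).mul_right (A.card : ℝ))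
  · intro n
    exact mul_nonneg (Real.rpow_nonneg (Nat.cast_nonneg n) _) (rr_nonneg A hL n)
  · intro n
    exact mul_le_mul_of_nonneg_left (rr_le_card A hL n) (Real.rpow_nonneg (Nat.cast_nonneg n) _)

theorem first_moment {L : ℝ} (hL : 1 ≤ L) {X : ℕ} {A : Finset ℕ} (hA : A ⊆ Icc 1 X) :
    ∑ a ∈ A, (a : ℝ) / L * S1m a L ≤
      ∑' n : ℕ, (n : ℝ) ^ (-(1 + 1 / (2 * L))) * rr A L n := by
  have hL0 : 0 < L := by linarith
  have hs : ∀ a ∈ A, Summable (fun n : ℕ => (n : ℝ) ^ (-(1 + 1 / (2 * L))) *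
      (if (a * n + 1).Prime then sw L ((a : ℝ) * n + 1) else 0)) := by
    intro a _
    refine Summable.of_nonneg_of_le ?_ ?_ (summable_base hL0)
    · intro n
      have h4 : 0 ≤ (n : ℝ) ^ (-(1 + 1 / (2 * L))) := Real.rpow_nonneg (Nat.cast_nonneg n) _
      split_ifs
      · exact mul_nonneg h4 (sw_nonneg hL0 (one_le_lin a n))
      · simp
    · intro n
      have h4 : 0 ≤ (n : ℝ) ^ (-(1 + 1 / (2 * L))) := Real.rpow_nonneg (Nat.cast_nonneg n) _
      split_ifs
      · exact mul_le_of_le_one_right h4 (sw_le_one hL0 (one_le_lin a n))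
      · simpa using h4
  have h1 : ∑' n : ℕ, (n : ℝ) ^ (-(1 + 1 / (2 * L))) * rr A L n =
      ∑ a ∈ A, ∑' n : ℕ, (n : ℝ) ^ (-(1 + 1 / (2 * L))) *
      (if (a * n + 1).Prime then sw L ((a : ℝ) * n + 1) else 0) := by
    rw [← Summable.tsum_finsetSum hs]
    congr 1
    funext n
    unfold rr
    rw [mul_sum]
  rw [h1]
  apply sum_le_sum
  intro a ha
  exact first_term hL (mem_Icc.1 (hA ha)).1

theorem many_gen : ∃ C : ℝ, 0 < C ∧ ∀ L : ℝ, 1 ≤ L → ∀ X : ℕ, (X : ℝ) ≤ L →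
    ∀ A : Finset ℕ, A ⊆ Icc 1 X →
    (∑ a ∈ A, (a : ℝ) / L * S1m a L) ^ 2 ≤
    (∑' n : ℕ, if (1 ≤ n ∧ ∃ a ∈ A, (a * n + 1).Prime) then
      (n : ℝ) ^ (-(1 + 1 / (2 * L))) else 0) *
    (∑ a ∈ A, (a : ℝ) / L * S1m a L + C * (X : ℝ) ^ 2 / L) := by
  classical
  obtain ⟨C, hC, h2m⟩ := second_moment
  refine ⟨C, hC, ?_⟩
  intro L hL X hX A hA
  have hL0 : 0 < L := by linarith
  set c : ℝ := C * (X : ℝ) ^ 2 / L with hc
  have hc0 : 0 ≤ c := by positivity
  set M₁ := ∑ a ∈ A, (a : ℝ) / L * S1m a L with hM₁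
  have hM₁0 : 0 ≤ M₁ := by
    apply sum_nonneg
    intro a _
    exact mul_nonneg (by positivity) (S1m_nonneg hL0 a)
  set e : ℕ → ℝ := fun n => if (1 ≤ n ∧ ∃ a ∈ A, (a * n + 1).Prime) then
      (n : ℝ) ^ (-(1 + 1 / (2 * L))) else 0 with he
  have hw0 : ∀ n : ℕ, 0 ≤ (n : ℝ) ^ (-(1 + 1 / (2 * L))) :=
    fun n => Real.rpow_nonneg (Nat.cast_nonneg n) _
  have he0 : ∀ n, 0 ≤ e n := by
    intro n
    simp only [he]
    split_ifs
    · exact hw0 n
    · exact le_rfl
  have hes : Summable e := by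
    refine Summable.of_nonneg_of_le he0 ?_ (summable_base hL0)
    intro n
    simp only [he]
    split_ifs
    · exact le_rfl
    · exact hw0 n
  set E := ∑' n, e n with hE
  have hE0 : 0 ≤ E := tsum_nonneg he0
  set M := ∑' n : ℕ, (n : ℝ) ^ (-(1 + 1 / (2 * L))) * rr A L n with hM
  have hMM : M₁ ≤ M := first_moment hL hA
  have hfin : ∀ N : ℕ, (∑ n ∈ range N, (n : ℝ) ^ (-(1 + 1 / (2 * L))) * rr A L n) ^ 2 ≤
      E * (∑ n ∈ range N, (n : ℝ) ^ (-(1 + 1 / (2 * L))) * rr A L n + c) := by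
    intro N
    have h1 : (∑ n ∈ range N, (n : ℝ) ^ (-(1 + 1 / (2 * L))) * rr A L n) ^ 2 ≤
        (∑ n ∈ range N, e n) *
        ∑ n ∈ range N, (n : ℝ) ^ (-(1 + 1 / (2 * L))) * rr A L n ^ 2 := by
      apply Finset.sum_sq_le_sum_mul_sum_of_sq_le_mul
      · intro n _; exact he0 n
      · intro n _
        exact mul_nonneg (hw0 n) (sq_nonneg _)
      · intro n _
        apply le_of_eq
        simp only [he]
        split_ifs with h
        · ring
        · rcases Nat.eq_zero_or_pos n with hn | hn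
          · subst hn
            have : (((0 : ℕ) : ℝ)) ^ (-(1 + 1 / (2 * L))) = 0 := by
              rw [Nat.cast_zero, Real.zero_rpow]
              have : 0 < 1 / (2 * L) := by positivity
              linarith
            rw [this]
            ring
          · have hr : rr A L n = 0 := by
              unfold rr
              apply sum_eq_zero
              intro a ha
              rw [if_neg]
              intro hp
              exact h ⟨hn, a, ha, hp⟩
            rw [hr]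
            ring
    have h3 : ∑ n ∈ range N, e n ≤ E := hes.sum_le_tsum _ (fun n _ => he0 n)
    have h4 := h2m L hL X hX A hA N
    have h5 : 0 ≤ ∑ n ∈ range N, (n : ℝ) ^ (-(1 + 1 / (2 * L))) * rr A L n ^ 2 :=
      sum_nonneg (fun n _ => mul_nonneg (hw0 n) (sq_nonneg _))
    calc _ ≤ (∑ n ∈ range N, e n) *
        ∑ n ∈ range N, (n : ℝ) ^ (-(1 + 1 / (2 * L))) * rr A L n ^ 2 := h1
      _ ≤ E * ∑ n ∈ range N, (n : ℝ) ^ (-(1 + 1 / (2 * L))) * rr A L n ^ 2 :=
        mul_le_mul_of_nonneg_right h3 h5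
      _ ≤ _ := mul_le_mul_of_nonneg_left h4 hE0
  have hlim := (summable_rr hL0 A).hasSum.tendsto_sum_nat
  rw [← hM] at hlim
  have hMsq : M ^ 2 ≤ E * (M + c) :=
    le_of_tendsto_of_tendsto' (hlim.pow 2) ((hlim.add_const c).const_mul E) hfin
  have hM0 : 0 ≤ M := hM₁0.trans hMM
  rcases eq_or_lt_of_le (add_nonneg hM0 hc0) with h0 | hpos
  · have h6 : M₁ = 0 := by linarith
    rw [h6]
    have : 0 ≤ E * (0 + c) := mul_nonneg hE0 (by linarith)
    simpa using this
  · have h7 : M₁ ^ 2 * (M + c) ≤ (E * (M₁ + c)) * (M + c) := by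
      have h8 : M₁ ^ 2 * (M + c) ≤ M ^ 2 * (M₁ + c) := by
        have : 0 ≤ M * M₁ * (M - M₁) + c * ((M - M₁) * (M + M₁)) := by
          have h9 : 0 ≤ M - M₁ := by linarith
          positivity
        nlinarith
      have h10 : M ^ 2 * (M₁ + c) ≤ E * (M + c) * (M₁ + c) :=
        mul_le_mul_of_nonneg_right hMsq (by linarith)
      calc _ ≤ _ := h8
        _ ≤ _ := h10
        _ = _ := by ring
    exact le_of_mul_le_mul_right h7 hpos

open Classical in
theorem many_small_p_of (hP : ∃ L₀ : ℝ, ∀ L : ℝ, L₀ ≤ L → ∀ a : ℕ, 1 ≤ a → (a + 1 : ℝ) ≤ L →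
    (L / (4 * Nat.totient a) ≤ S1m a L) ∨ (L / (4 * Nat.totient (a + 1)) ≤ S1m (a + 1) L)) :
    ∃ κ : ℝ, 0 < κ ∧ ∃ L₀ : ℝ, ∀ L : ℝ, L₀ ≤ L → κ * L ≤
      ∑' n : ℕ, if (1 ≤ n ∧ ∃ a : ℕ, 1 ≤ a ∧ (a : ℝ) ≤ L ∧ (a * n + 1).Prime) then
        (n : ℝ) ^ (-(1 + 1 / (2 * L))) else 0 := by
  classical
  obtain ⟨C, hC, hgen⟩ := many_gen
  obtain ⟨L₁, hP⟩ := hP
  refine ⟨1 / (16 * (1 + 16 * C)), by positivity, max L₁ 4, ?_⟩
  intro L hL
  have hL4 : 4 ≤ L := (le_max_right _ _).trans hL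
  have hL1 : L₁ ≤ L := (le_max_left _ _).trans hL
  have hL0 : 0 < L := by linarith
  set X := ⌊L⌋₊ with hX
  have hXL : (X : ℝ) ≤ L := Nat.floor_le hL0.le
  have hXL2 : L < X + 1 := Nat.lt_floor_add_one L
  have hg := hgen L (by linarith) X hXL (Icc 1 X) (Subset.refl _)
  set g : ℕ → ℝ := fun a => (a : ℝ) / L * S1m a L with hgdef
  have hg0 : ∀ a, 0 ≤ g a := fun a => mul_nonneg (by positivity) (S1m_nonneg hL0 a)
  have hgood : ∀ a : ℕ, 1 ≤ a → L / (4 * Nat.totient a) ≤ S1m a L → 1 / 4 ≤ g a := by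
    intro a ha h
    have h1 : (0 : ℝ) < Nat.totient a := by exact_mod_cast Nat.totient_pos.2 ha
    have h2 : (Nat.totient a : ℝ) ≤ a := by exact_mod_cast Nat.totient_le a
    have h3 : (a : ℝ) / L * (L / (4 * Nat.totient a)) ≤ g a :=
      mul_le_mul_of_nonneg_left h (by positivity)
    have h4 : (a : ℝ) / L * (L / (4 * Nat.totient a)) = a / (4 * Nat.totient a) := by
      field_simp
    rw [h4] at h3
    refine le_trans ?_ h3
    rw [div_le_div_iff₀ (by norm_num) (by positivity)]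
    linarith
  have hpair : ∀ a : ℕ, 1 ≤ a → a + 1 ≤ X → 1 / 4 ≤ g a + g (a + 1) := by
    intro a ha haX
    have h1 : (a + 1 : ℝ) ≤ L := by
      have : ((a + 1 : ℕ) : ℝ) ≤ X := by exact_mod_cast haX
      push_cast at this
      linarith
    rcases hP L hL1 a ha h1 with h | h
    · have := hgood a ha h
      have := hg0 (a + 1)
      linarith
    · have := hgood (a + 1) (by omega) h
      have := hg0 a
      linarith
  have hsum : ∀ K : ℕ, 2 * K ≤ X → (K : ℝ) / 4 ≤ ∑ a ∈ Icc 1 (2 * K), g a := by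
    intro K
    induction K with
    | zero => intro _; simp
    | succ K ih =>
      intro hK
      have h1 := ih (by omega)
      have h2 := hpair (2 * K + 1) (by omega) (by omega)
      have h3 : 2 * (K + 1) = 2 * K + 1 + 1 := by ring
      rw [h3, sum_Icc_succ_top (by omega), sum_Icc_succ_top (by omega)]
      push_cast
      linarith
  have hM₁ : L / 16 ≤ ∑ a ∈ Icc 1 X, g a := by
    have h1 := hsum (X / 2) (by omega)
    have h2 : ∑ a ∈ Icc 1 (2 * (X / 2)), g a ≤ ∑ a ∈ Icc 1 X, g a := by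
      apply sum_le_sum_of_subset_of_nonneg
      · apply Icc_subset_Icc le_rfl (by omega)
      · intro a _ _; exact hg0 a
    have h3 : (X : ℝ) ≤ 2 * ((X / 2 : ℕ) : ℝ) + 1 := by
      have : X ≤ 2 * (X / 2) + 1 := by omega
      exact_mod_cast this
    linarith
  set M₁ := ∑ a ∈ Icc 1 X, g a with hM₁def
  have hM₁0 : 0 < M₁ := by linarith
  have hc : C * (X : ℝ) ^ 2 / L ≤ 16 * C * M₁ := by
    rw [div_le_iff₀ hL0]
    have h1 : (X : ℝ) ^ 2 ≤ L ^ 2 := pow_le_pow_left₀ (Nat.cast_nonneg X) hXL 2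
    have h2 : L * L ≤ 16 * M₁ * L := mul_le_mul_of_nonneg_right (by linarith) hL0.le
    calc C * (X : ℝ) ^ 2 ≤ C * L ^ 2 := mul_le_mul_of_nonneg_left h1 hC.le
      _ = C * (L * L) := by ring
      _ ≤ C * (16 * M₁ * L) := mul_le_mul_of_nonneg_left h2 hC.le
      _ = _ := by ring
  have hcongr : (∑' n : ℕ, if (1 ≤ n ∧ ∃ a ∈ Icc 1 X, (a * n + 1).Prime) then
      (n : ℝ) ^ (-(1 + 1 / (2 * L))) else 0) =
      ∑' n : ℕ, if (1 ≤ n ∧ ∃ a : ℕ, 1 ≤ a ∧ (a : ℝ) ≤ L ∧ (a * n + 1).Prime) then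
        (n : ℝ) ^ (-(1 + 1 / (2 * L))) else 0 := by
    congr 1
    funext n
    have : (1 ≤ n ∧ ∃ a ∈ Icc 1 X, (a * n + 1).Prime) ↔
        (1 ≤ n ∧ ∃ a : ℕ, 1 ≤ a ∧ (a : ℝ) ≤ L ∧ (a * n + 1).Prime) := by
      constructor
      · rintro ⟨h1, a, ha, hp⟩
        rw [mem_Icc] at ha
        refine ⟨h1, a, ha.1, ?_, hp⟩
        have : (a : ℝ) ≤ X := by exact_mod_cast ha.2
        linarith
      · rintro ⟨h1, a, ha, haL, hp⟩
        exact ⟨h1, a, mem_Icc.2 ⟨ha, Nat.le_floor haL⟩, hp⟩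
    simp only [this]
  rw [hcongr] at hg
  set E := ∑' n : ℕ, if (1 ≤ n ∧ ∃ a : ℕ, 1 ≤ a ∧ (a : ℝ) ≤ L ∧ (a * n + 1).Prime) then
        (n : ℝ) ^ (-(1 + 1 / (2 * L))) else 0 with hE
  have hE0 : 0 ≤ E := by
    apply tsum_nonneg
    intro n
    split_ifs
    · exact Real.rpow_nonneg (Nat.cast_nonneg n) _
    · exact le_rfl
  have h1 : M₁ * M₁ ≤ (E * (1 + 16 * C)) * M₁ := by
    calc M₁ * M₁ = M₁ ^ 2 := by ring
      _ ≤ E * (M₁ + C * (X : ℝ) ^ 2 / L) := hg
      _ ≤ E * (M₁ + 16 * C * M₁) := mul_le_mul_of_nonneg_left (by linarith) hE0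
      _ = _ := by ring
  have h2 : M₁ ≤ E * (1 + 16 * C) := le_of_mul_le_mul_right h1 hM₁0
  have h3 : L / 16 ≤ E * (1 + 16 * C) := hM₁.trans h2
  have h4 : 1 / (16 * (1 + 16 * C)) * L = (L / 16) / (1 + 16 * C) := by
    field_simp
  rw [h4, div_le_iff₀ (by positivity)]
  exact h3

end Pool.Agent.Erdos456.SM
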