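import Mathlib
import Pool.Agent.Erdos456.P2
import Pool.Agent.Erdos456.SecondMoment

set_option autoImplicit false

open Finset

namespace Pool.Agent.Erdos456.SP

open Pool.Agent.Erdos456.SM

theorem card_AU {P u : ℕ} (hP : 0 < P) (hu : Nat.Coprime u P) {X : ℕ} (hX : P ^ 2 ≤ X) :
    ((AU P u X).card : ℝ) ≤ 2 * (Nat.totient P * (X / P)) := by
  have hP' : (0:ℝ) < P := by exact_mod_cast hP
  have h1 := count_class hP hu (d := 1) (by norm_num) (Nat.coprime_one_left P) X 0
  have h2 : (AU P u X).filter (fun b => b ≡ 0 [MOD 1]) = AU P u X := by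
    apply Finset.filter_true_of_mem
    intro b _
    exact Nat.modEq_one
  rw [h2, one_mul] at h1
  have h3 : ((AU P u X).card : ℝ) ≤ (((X / P + 1) * Nat.totient P : ℕ) : ℝ) := by exact_mod_cast h1
  have h4 : ((X / P : ℕ) : ℝ) ≤ (X : ℝ) / (P : ℝ) := Nat.cast_div_le
  have h5 : (1:ℝ) ≤ (X : ℝ) / P := by
    rw [le_div_iff₀ hP', one_mul]
    have : P ≤ X := le_trans (by nlinarith) hX
    exact_mod_cast this
  refine h3.trans ?_
  push_cast
  have h6 : (0:ℝ) ≤ Nat.totient P := by positivity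
  nlinarith

/-- the Gram sum over admissible multipliers -/
theorem gramP : ∃ C : ℝ, 0 < C ∧ ∀ P u : ℕ, 0 < P → Nat.Coprime u P → ∀ X : ℕ, P ^ 2 ≤ X →
    ∑ a ∈ AU P u X, ∑ b ∈ AU P u X,
      (if a ≠ b then (GG (rp P a) * GG (rp P b) * GG (rp P ((a : ℤ) - (b : ℤ)).natAbs)) ^ 2 else 0) ≤
      C * (Nat.totient P * (X / P)) ^ 2 := by
  obtain ⟨C, hC, h⟩ := momentP
  refine ⟨6 * C, by positivity, ?_⟩
  intro P u hP hu X hX
  have hP' : (0:ℝ) < P := by exact_mod_cast hP
  set M : ℝ := Nat.totient P * (X / P) with hM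
  have hM0 : 0 ≤ M := by positivity
  have hcard := card_AU hP hu hX
  have h0 : ∑ b ∈ AU P u X, GG (rp P b) ^ 6 ≤ C * M := by
    have := h P u hP hu X hX 0 (Nat.zero_le _)
    refine le_trans (le_of_eq ?_) this
    apply Finset.sum_congr rfl
    intro b hb
    have hb' := Finset.mem_Icc.mp (Finset.mem_filter.mp hb).1
    rw [if_pos (by omega)]
    congr 3
    omega
  have hterm : ∀ a ∈ AU P u X, ∑ b ∈ AU P u X,
      (if a ≠ b then (GG (rp P a) * GG (rp P b) * GG (rp P ((a : ℤ) - (b : ℤ)).natAbs)) ^ 2 else 0) ≤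
      (AU P u X).card * GG (rp P a) ^ 6 + 2 * (C * M) := by
    intro a ha
    have ha' := Finset.mem_Icc.mp (Finset.mem_filter.mp ha).1
    have h1 : ∀ b ∈ AU P u X,
        (if a ≠ b then (GG (rp P a) * GG (rp P b) * GG (rp P ((a : ℤ) - (b : ℤ)).natAbs)) ^ 2 else 0) ≤
        GG (rp P a) ^ 6 + GG (rp P b) ^ 6 + (if a ≠ b then GG (rp P ((a : ℤ) - (b : ℤ)).natAbs) ^ 6 else 0) := by
      intro b _
      have hga := GG_nonneg (rp P a)
      have hgb := GG_nonneg (rp P b)
      split_ifs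
      · exact amgm6
      · positivity
    refine (Finset.sum_le_sum h1).trans ?_
    rw [Finset.sum_add_distrib, Finset.sum_add_distrib, Finset.sum_const, nsmul_eq_mul]
    have h2 := h P u hP hu X hX a ha'.2
    linarith
  refine (Finset.sum_le_sum hterm).trans ?_
  rw [Finset.sum_add_distrib, Finset.sum_const, nsmul_eq_mul, ← Finset.mul_sum]
  have h3 : ((AU P u X).card : ℝ) * ∑ i ∈ AU P u X, GG (rp P i) ^ 6 ≤ (2 * M) * (C * M) := by
    gcongr
  have h4 : ((AU P u X).card : ℝ) * (2 * (C * M)) ≤ (2 * M) * (2 * (C * M)) := by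
    gcongr
  nlinarith

theorem weight_sum' {L : ℝ} (hL : 1 ≤ L) (J : ℕ) :
    ∑ j ∈ range J, min 1 ((((j : ℝ) + 1) + 2 * Real.log L) / L) ^ 2 / ((j : ℝ) + 1) ^ 2 ≤ 80 / L := by
  have hL0 : 0 < L := by linarith
  have hlog0 : 0 ≤ Real.log L := Real.log_nonneg hL
  have h1 : ∀ j ∈ range J, min 1 ((((j : ℝ) + 1) + 2 * Real.log L) / L) ^ 2 / ((j : ℝ) + 1) ^ 2 ≤
      4 * (min 1 ((((j : ℝ) + 1) + Real.log L) / L) ^ 2 / ((j : ℝ) + 1) ^ 2) := by
    intro j _
    have hj : (0 : ℝ) ≤ j := Nat.cast_nonneg _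
    have h2 : min 1 ((((j : ℝ) + 1) + 2 * Real.log L) / L) ≤ 2 * min 1 ((((j : ℝ) + 1) + Real.log L) / L) := by
      rw [mul_min_of_nonneg _ _ (by norm_num : (0:ℝ) ≤ 2)]
      apply min_le_min (by norm_num)
      rw [← mul_div_assoc]
      apply div_le_div_of_nonneg_right _ hL0.le
      linarith
    have h3 : 0 ≤ min 1 ((((j : ℝ) + 1) + 2 * Real.log L) / L) := le_min zero_le_one (by positivity)
    rw [← mul_div_assoc]
    apply div_le_div_of_nonneg_right _ (by positivity)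
    calc min 1 ((((j : ℝ) + 1) + 2 * Real.log L) / L) ^ 2 ≤ (2 * min 1 ((((j : ℝ) + 1) + Real.log L) / L)) ^ 2 := by gcongr
      _ = _ := by ring
  refine (Finset.sum_le_sum h1).trans ?_
  rw [← Finset.mul_sum]
  have := weight_sum hL J
  calc 4 * ∑ j ∈ range J, min 1 ((((j : ℝ) + 1) + Real.log L) / L) ^ 2 / ((j : ℝ) + 1) ^ 2 ≤ 4 * (20 / L) := by gcongr
    _ = 80 / L := by ring

/-- pair correlation in a residue class -/
theorem pairP : ∃ C : ℝ, 0 < C ∧ ∀ P u : ℕ, 0 < P → 1 ≤ u → u ≤ P → Nat.Coprime u P → ∀ L : ℝ,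
    1 ≤ L → 2 * (P : ℝ) ≤ L → (P : ℝ) * (2 * Real.log L) ^ 2 ≤ L → ∀ a b : ℕ, 0 < a → 0 < b → a ≠ b →
    (a : ℝ) ≤ L → (b : ℝ) ≤ L → Nat.Coprime (a * u + 1) P → Nat.Coprime (b * u + 1) P → ∀ N : ℕ,
    ∑ m ∈ range N, (if (a * (P * m + u) + 1).Prime ∧ (b * (P * m + u) + 1).Prime then
      ((P * m + u : ℕ) : ℝ) ^ (-(1 + 1 / (2 * L))) *
        (sw L (a * ((P * m + u : ℕ) : ℝ) + 1) * sw L (b * ((P * m + u : ℕ) : ℝ) + 1)) else 0) ≤
    C * (GG P * (GG (rp P a) * GG (rp P b) * GG (rp P ((a : ℤ) - (b : ℤ)).natAbs))) ^ 2 / (P * L) := by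
  obtain ⟨C, hC, h⟩ := sieve_two
  refine ⟨640 * C + 1, by positivity, ?_⟩
  intro P u hP hu1 huP hu L hL hPL hPlog a b ha hb hab haL hbL hca hcb N
  have hL0 : 0 < L := by linarith
  have hP' : (1:ℝ) ≤ P := by exact_mod_cast hP
  have hP0 : (0:ℝ) < P := by linarith
  have hlogL : 0 ≤ Real.log L := Real.log_nonneg hL
  set G : ℝ := GG P * (GG (rp P a) * GG (rp P b) * GG (rp P ((a : ℤ) - (b : ℤ)).natAbs)) with hG
  have hdab : 0 < ((a : ℤ) - (b : ℤ)).natAbs := by
    rw [Int.natAbs_pos]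
    intro h0
    apply hab
    omega
  have hG1 : 1 ≤ G := by
    have g1 := one_le_GG hP
    have g2 := one_le_GG (rp_pos P a)
    have g3 := one_le_GG (rp_pos P b)
    have g4 := one_le_GG (rp_pos P ((a : ℤ) - (b : ℤ)).natAbs)
    rw [hG]
    exact one_le_mul_of_one_le_of_one_le g1 (one_le_mul_of_one_le_of_one_le (one_le_mul_of_one_le_of_one_le g2 g3) g4)
  have hGD : GG (a * P * (b * P) * (P * ((a : ℤ) - (b : ℤ)).natAbs)) ≤ G := GG_split hP ha hb hdab
  have hG0 : 0 ≤ G := by linarith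
  have hsieve : ∀ N : ℕ, 2 ≤ N →
      (((Icc 1 N).filter (fun m => (a * (P * m + u) + 1).Prime ∧ (b * (P * m + u) + 1).Prime)).card : ℝ) ≤
      C * G ^ 2 * N / (Real.log N) ^ 2 := by
    intro N hN
    have hcop : ∀ c : ℕ, 0 < c → Nat.Coprime (c * u + 1) P → Nat.Coprime (c * P) (c * u + 1) := by
      intro c hc h1
      apply Nat.Coprime.mul_left
      · have : Nat.Coprime c (1 + c * u) := by
          rw [Nat.coprime_add_mul_left_right]
          exact Nat.coprime_one_right c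
        rw [add_comm]
        exact this
      · exact h1.symm
    have hdet : (((a * P * (b * u + 1) : ℕ) : ℤ) - ((b * P * (a * u + 1) : ℕ) : ℤ)).natAbs =
        P * ((a : ℤ) - (b : ℤ)).natAbs := by
      have : (((a * P * (b * u + 1) : ℕ) : ℤ) - ((b * P * (a * u + 1) : ℕ) : ℤ)) = (P : ℤ) * ((a : ℤ) - b) := by
        push_cast
        ring
      rw [this, Int.natAbs_mul, Int.natAbs_natCast]
    have h1 := h (a * P) (a * u + 1) (b * P) (b * u + 1) N (Nat.mul_pos ha hP) (Nat.mul_pos hb hP)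
      (hcop a ha hca) (hcop b hb hcb) (by
        intro heq
        have h2 : (((a * P * (b * u + 1) : ℕ) : ℤ) - ((b * P * (a * u + 1) : ℕ) : ℤ)) = 0 := by
          rw [heq]; ring
        rw [h2] at hdet
        simp only [Int.natAbs_zero] at hdet
        have := Nat.mul_pos hP hdab
        omega) hN
    rw [hdet] at h1
    have h2 : (((Icc 1 N).filter (fun m => (a * (P * m + u) + 1).Prime ∧ (b * (P * m + u) + 1).Prime)).card : ℝ) =
        (((Icc 1 N).filter (fun n => (a * P * n + (a * u + 1)).Prime ∧ (b * P * n + (b * u + 1)).Prime)).card : ℝ) := by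
      congr 2
      apply Finset.filter_congr
      intro m _
      rw [show a * (P * m + u) + 1 = a * P * m + (a * u + 1) by ring,
        show b * (P * m + u) + 1 = b * P * m + (b * u + 1) by ring]
    rw [h2]
    refine h1.trans ?_
    have h3 : ((((a * P * (b * P) * (P * ((a : ℤ) - (b : ℤ)).natAbs) : ℕ) : ℝ)) /
        ((Nat.totient (a * P * (b * P) * (P * ((a : ℤ) - (b : ℤ)).natAbs)) : ℕ) : ℝ)) ^ 2 ≤ G ^ 2 :=
      pow_le_pow_left₀ (GG_nonneg _) hGD 2
    have h4 := mul_le_mul_of_nonneg_right (mul_le_mul_of_nonneg_left h3 hC.le) (Nat.cast_nonneg (α := ℝ) N)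
    exact div_le_div_of_nonneg_right h4 (by positivity)
  set f : ℕ → ℝ := fun m => (if (a * (P * m + u) + 1).Prime ∧ (b * (P * m + u) + 1).Prime then
      ((P * m + u : ℕ) : ℝ) ^ (-(1 + 1 / (2 * L))) *
        (sw L (a * ((P * m + u : ℕ) : ℝ) + 1) * sw L (b * ((P * m + u : ℕ) : ℝ) + 1)) else 0) with hf
  have hone : ∀ c m : ℕ, (1:ℝ) ≤ (c : ℝ) * ((P * m + u : ℕ) : ℝ) + 1 := by
    intro c m
    have : (0 : ℝ) ≤ (c : ℝ) * ((P * m + u : ℕ) : ℝ) := by positivity
    linarith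
  have hf0 : ∀ m, 0 ≤ f m := by
    intro m
    simp only [hf]
    split_ifs
    · have h1 := sw_nonneg hL0 (hone a m)
      have h2 := sw_nonneg hL0 (hone b m)
      have h3 : 0 ≤ ((P * m + u : ℕ) : ℝ) ^ (-(1 + 1 / (2 * L))) := Real.rpow_nonneg (Nat.cast_nonneg _) _
      positivity
    · exact le_rfl
  have hlogb : ∀ c j m : ℕ, 0 < c → (c : ℝ) ≤ L → m < 2 ^ (j + 1) →
      Real.log ((c : ℝ) * ((P * m + u : ℕ) : ℝ) + 1) ≤ ((j : ℝ) + 1) + 2 * Real.log L := by
    intro c j m hc hcL hm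
    have h1 : (c : ℝ) * ((P * m + u : ℕ) : ℝ) + 1 ≤ L * L * 2 ^ (j + 1) := by
      have h2 : ((m + 1 : ℕ) : ℝ) ≤ ((2 ^ (j + 1) : ℕ) : ℝ) := by exact_mod_cast hm
      push_cast at h2
      have h3 : (1 : ℝ) ≤ c := by exact_mod_cast hc
      have hu' : (u : ℝ) ≤ P := by exact_mod_cast huP
      have h4 : (1:ℝ) ≤ (m : ℝ) + 1 := by
        have : (0:ℝ) ≤ m := by positivity
        linarith
      push_cast
      calc (c : ℝ) * (P * m + u) + 1 ≤ c * (P * m + P) + c * (P * (m + 1)) := by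
            have h5 : (1:ℝ) ≤ c * (P * (m + 1)) := by
              have : (1:ℝ) ≤ P * (m + 1) := by nlinarith
              nlinarith
            have h6 : (c : ℝ) * (P * m + u) ≤ c * (P * m + P) := by gcongr
            linarith
        _ = c * (2 * P) * ((m : ℝ) + 1) := by ring
        _ ≤ L * L * 2 ^ (j + 1) := by gcongr
    have h4 : 0 < (c : ℝ) * ((P * m + u : ℕ) : ℝ) + 1 := by linarith [hone c m]
    refine (Real.log_le_log h4 h1).trans ?_
    rw [Real.log_mul (by positivity) (by positivity), Real.log_mul hL0.ne' hL0.ne', Real.log_pow]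
    push_cast
    have h5 : Real.log 2 ≤ 1 := by
      have := Real.log_two_lt_d9
      linarith
    have h6 : ((j : ℝ) + 1) * Real.log 2 ≤ ((j : ℝ) + 1) * 1 :=
      mul_le_mul_of_nonneg_left h5 (by positivity)
    linarith
  -- the term m = 0
  have hzero : f 0 ≤ 1 * G ^ 2 / (P * L) := by
    have h1 : f 0 ≤ (2 * Real.log L / L) ^ 2 := by
      simp only [hf]
      split_ifs
      · have e1 : ((P * 0 + u : ℕ) : ℝ) ^ (-(1 + 1 / (2 * L))) ≤ 1 := by
          apply Real.rpow_le_one_of_one_le_of_nonpos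
          · have : 1 ≤ P * 0 + u := by omega
            exact_mod_cast this
          · have : 0 < 1 / (2 * L) := by positivity
            linarith
        have hc : ∀ c : ℕ, 0 < c → (c : ℝ) ≤ L → 0 ≤ sw L ((c : ℝ) * ((P * 0 + u : ℕ) : ℝ) + 1) ∧
            sw L ((c : ℝ) * ((P * 0 + u : ℕ) : ℝ) + 1) ≤ 2 * Real.log L / L := by
          intro c hc hcL
          refine ⟨sw_nonneg hL0 (hone c 0), (sw_le_log hL0 (hone c 0)).trans ?_⟩
          apply div_le_div_of_nonneg_right _ hL0.le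
          have h3 : (c : ℝ) * ((P * 0 + u : ℕ) : ℝ) + 1 ≤ L * L := by
            have hu' : (u : ℝ) ≤ P := by exact_mod_cast huP
            have h3 : (1 : ℝ) ≤ c := by exact_mod_cast hc
            push_cast
            have h7 : (c : ℝ) * (P * 0 + u) ≤ c * P := by
              rw [mul_zero, zero_add]
              gcongr
            have h8 : (1:ℝ) ≤ c * P := by nlinarith
            calc (c : ℝ) * (P * 0 + u) + 1 ≤ c * (2 * P) := by linarith
              _ ≤ L * L := by gcongr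
          refine (Real.log_le_log (by linarith [hone c 0]) h3).trans ?_
          rw [Real.log_mul hL0.ne' hL0.ne']
          linarith
        obtain ⟨x1, x2⟩ := hc a ha haL
        obtain ⟨y1, y2⟩ := hc b hb hbL
        calc _ ≤ 1 * (sw L ((a : ℝ) * ((P * 0 + u : ℕ) : ℝ) + 1) * sw L ((b : ℝ) * ((P * 0 + u : ℕ) : ℝ) + 1)) := by
              gcongr
          _ ≤ 1 * ((2 * Real.log L / L) * (2 * Real.log L / L)) := by gcongr
          _ = _ := by ring
      · positivity
    refine h1.trans ?_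
    rw [div_pow, div_le_div_iff₀ (by positivity) (by positivity)]
    have hG2 : 1 ≤ G ^ 2 := one_le_pow₀ hG1
    calc (2 * Real.log L) ^ 2 * (P * L) = (P * (2 * Real.log L) ^ 2) * L := by ring
      _ ≤ L * L := by gcongr
      _ = 1 * L ^ 2 := by ring
      _ ≤ (1 * G ^ 2) * L ^ 2 := by
          gcongr
          linarith
  set f' : ℕ → ℝ := fun m => if m = 0 then 0 else f m with hf'
  have hf'0 : ∀ m, 0 ≤ f' m := by
    intro m
    simp only [hf']
    split_ifs
    · exact le_rfl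
    · exact hf0 m
  have hB : ∀ j : ℕ, ∑ m ∈ Ico (2 ^ j) (2 ^ (j + 1)), f' m ≤
      8 * C * G ^ 2 / P * (min 1 ((((j : ℝ) + 1) + 2 * Real.log L) / L) ^ 2 / ((j : ℝ) + 1) ^ 2) := by
    intro j
    set W := min 1 ((((j : ℝ) + 1) + 2 * Real.log L) / L) with hW
    have hW0 : 0 ≤ W := le_min zero_le_one (by positivity)
    have h1 : ∀ m ∈ Ico (2 ^ j) (2 ^ (j + 1)), f' m ≤
        if (a * (P * m + u) + 1).Prime ∧ (b * (P * m + u) + 1).Prime then ((P : ℝ) * (2 : ℝ) ^ j)⁻¹ * W ^ 2 else 0 := by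
      intro m hm
      rw [mem_Ico] at hm
      have hm1 : 1 ≤ m := le_trans (Nat.one_le_two_pow) hm.1
      simp only [hf', hf]
      rw [if_neg (by omega)]
      split_ifs with hp
      · have hm1' : (1 : ℝ) ≤ ((P * m + u : ℕ) : ℝ) := by
          have : 1 ≤ P * m + u := by omega
          exact_mod_cast this
        have e1 : ((P * m + u : ℕ) : ℝ) ^ (-(1 + 1 / (2 * L))) ≤ ((P : ℝ) * (2 : ℝ) ^ j)⁻¹ := by
          have h2 : ((P * m + u : ℕ) : ℝ) ^ (-(1 + 1 / (2 * L))) ≤ ((P * m + u : ℕ) : ℝ) ^ (-1 : ℝ) := by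
            apply Real.rpow_le_rpow_of_exponent_le hm1'
            have : 0 < 1 / (2 * L) := by positivity
            linarith
          refine h2.trans ?_
          rw [Real.rpow_neg_one]
          apply inv_anti₀ (by positivity)
          have h3 : P * 2 ^ j ≤ P * m + u := (Nat.mul_le_mul_left P hm.1).trans (Nat.le_add_right _ _)
          exact_mod_cast h3
        have hc : ∀ c : ℕ, 0 < c → (c : ℝ) ≤ L → 0 ≤ sw L ((c : ℝ) * ((P * m + u : ℕ) : ℝ) + 1) ∧
            sw L ((c : ℝ) * ((P * m + u : ℕ) : ℝ) + 1) ≤ W := by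
          intro c hc hcL
          refine ⟨sw_nonneg hL0 (hone c m), le_min (sw_le_one hL0 (hone c m)) ((sw_le_log hL0 (hone c m)).trans ?_)⟩
          exact div_le_div_of_nonneg_right (hlogb c j m hc hcL hm.2) hL0.le
        have e2 : sw L (a * ((P * m + u : ℕ) : ℝ) + 1) * sw L (b * ((P * m + u : ℕ) : ℝ) + 1) ≤ W ^ 2 := by
          rw [sq]
          exact mul_le_mul (hc a ha haL).2 (hc b hb hbL).2 (hc b hb hbL).1 hW0
        exact mul_le_mul e1 e2 (mul_nonneg (hc a ha haL).1 (hc b hb hbL).1) (by positivity)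
      · exact le_rfl
    refine (sum_le_sum h1).trans ?_
    rw [← sum_filter, sum_const, nsmul_eq_mul]
    have h2 : (((Ico (2 ^ j) (2 ^ (j + 1))).filter
        (fun m => (a * (P * m + u) + 1).Prime ∧ (b * (P * m + u) + 1).Prime)).card : ℝ) ≤
        C * G ^ 2 * ((2 ^ (j + 1) : ℕ) : ℝ) / (Real.log ((2 ^ (j + 1) : ℕ) : ℝ)) ^ 2 := by
      refine le_trans ?_ (hsieve (2 ^ (j + 1)) ?_)
      · have : ((Ico (2 ^ j) (2 ^ (j + 1))).filter
            (fun m => (a * (P * m + u) + 1).Prime ∧ (b * (P * m + u) + 1).Prime)).card ≤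
            ((Icc 1 (2 ^ (j + 1))).filter
            (fun m => (a * (P * m + u) + 1).Prime ∧ (b * (P * m + u) + 1).Prime)).card := by
          apply card_le_card
          apply filter_subset_filter
          intro n hn
          rw [mem_Ico] at hn
          rw [mem_Icc]
          exact ⟨le_trans (Nat.one_le_two_pow) hn.1, hn.2.le⟩
        exact_mod_cast this
      · calc 2 = 2 ^ 1 := by norm_num
          _ ≤ 2 ^ (j + 1) := Nat.pow_le_pow_right (by norm_num) (by omega)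
    have h3 : Real.log ((2 ^ (j + 1) : ℕ) : ℝ) = ((j : ℝ) + 1) * Real.log 2 := by
      push_cast
      rw [Real.log_pow]
      push_cast
      ring
    rw [h3] at h2
    have hj0 : (0 : ℝ) < (j : ℝ) + 1 := by positivity
    have hl2 : (1 / 2 : ℝ) ≤ Real.log 2 := by
      have := Real.log_two_gt_d9
      linarith
    have h4 : C * G ^ 2 * ((2 ^ (j + 1) : ℕ) : ℝ) / (((j : ℝ) + 1) * Real.log 2) ^ 2 ≤
        4 * C * G ^ 2 * 2 ^ (j + 1) / ((j : ℝ) + 1) ^ 2 := by
      rw [div_le_div_iff₀ (by positivity) (by positivity)]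
      have h5 : (1 : ℝ) ≤ 4 * (Real.log 2) ^ 2 := by nlinarith
      push_cast
      have h6 : 0 ≤ C * G ^ 2 * 2 ^ (j + 1) * ((j : ℝ) + 1) ^ 2 := by positivity
      calc C * G ^ 2 * 2 ^ (j + 1) * ((j : ℝ) + 1) ^ 2
          ≤ C * G ^ 2 * 2 ^ (j + 1) * ((j : ℝ) + 1) ^ 2 * (4 * (Real.log 2) ^ 2) :=
            le_mul_of_one_le_right h6 h5
        _ = _ := by ring
    calc (((Ico (2 ^ j) (2 ^ (j + 1))).filter
        (fun m => (a * (P * m + u) + 1).Prime ∧ (b * (P * m + u) + 1).Prime)).card : ℝ) * (((P : ℝ) * (2 : ℝ) ^ j)⁻¹ * W ^ 2)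
        ≤ (4 * C * G ^ 2 * 2 ^ (j + 1) / ((j : ℝ) + 1) ^ 2) * (((P : ℝ) * (2 : ℝ) ^ j)⁻¹ * W ^ 2) :=
          mul_le_mul_of_nonneg_right (h2.trans h4) (by positivity)
      _ = _ := by
          rw [pow_succ]
          field_simp
          ring
  have h1 : ∑ m ∈ range N, f m ≤ f 0 + ∑ m ∈ range (2 ^ N), f' m := by
    have h2 : ∑ m ∈ range N, f m ≤ ∑ m ∈ range (2 ^ N), f m := by
      apply sum_le_sum_of_subset_of_nonneg
      · intro n hn
        rw [mem_range] at hn ⊢
        exact hn.trans (Nat.lt_two_pow_self)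
      · intro n _ _
        exact hf0 n
    refine h2.trans ?_
    have h3 : ∑ m ∈ range (2 ^ N), f m = ∑ m ∈ range (2 ^ N), ((if m = 0 then f m else 0) + f' m) := by
      apply sum_congr rfl
      intro m _
      simp only [hf']
      split_ifs <;> simp
    rw [h3, sum_add_distrib]
    apply add_le_add _ le_rfl
    rw [sum_ite_eq' (range (2 ^ N)) 0 f]
    split_ifs
    · exact le_rfl
    · exact hf0 0
  refine h1.trans ?_
  have h2 := dyadic_sum f' _ (by simp [hf']) hB N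
  rw [← mul_sum] at h2
  have h3 := weight_sum' hL N
  calc f 0 + ∑ m ∈ range (2 ^ N), f' m
      ≤ 1 * G ^ 2 / (P * L) + 8 * C * G ^ 2 / P * (80 / L) := by
        apply add_le_add hzero
        exact h2.trans (mul_le_mul_of_nonneg_left h3 (by positivity))
    _ = (640 * C + 1) * G ^ 2 / (P * L) := by
        field_simp
        ring

end Pool.Agent.Erdos456.SP
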