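import Mathlib
import Pool.Agent.Erdos456.LDich

open Finset Filter Topology

namespace Pool.Agent.Erdos456

open DirichletCharacter ArithmeticFunction ArithmeticFunction.vonMangoldt

theorem LSeries_real (f : ℕ → ℝ) {s : ℝ} (hs : 1 < s) :
    LSeries (fun n => (f n : ℂ)) (s:ℂ) = ((∑' n : ℕ, f n * (n:ℝ) ^ (-s) : ℝ) : ℂ) := by
  rw [LSeries, Complex.ofReal_tsum]
  apply tsum_congr
  intro n
  rcases Nat.eq_zero_or_pos n with h0 | h0
  · subst h0
    rw [LSeries.term_zero, Nat.cast_zero, Real.zero_rpow (by linarith), mul_zero, Complex.ofReal_zero]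
  · rw [LSeries.term_of_ne_zero h0.ne', Complex.ofReal_mul, Complex.ofReal_cpow (Nat.cast_nonneg n)]
    push_cast
    rw [Complex.cpow_neg, div_eq_mul_inv]

theorem summable_aux (f : ℕ → ℝ) (hf0 : ∀ n, 0 ≤ f n) (hf1 : ∀ n, f n ≤ ArithmeticFunction.vonMangoldt n) {s : ℝ} (hs : 1 < s) :
    Summable (fun n : ℕ => f n * (n:ℝ) ^ (-s)) := by
  have hbase : Summable (fun n : ℕ => (2/(s-1)) * (n:ℝ) ^ (-((s+1)/2))) := by
    have := (Real.summable_nat_rpow (p := -((s+1)/2))).mpr (by linarith)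
    exact this.mul_left _
  refine Summable.of_nonneg_of_le (fun n => mul_nonneg (hf0 n) (by positivity)) (fun n => ?_) hbase
  rcases Nat.eq_zero_or_pos n with h0 | h0
  · subst h0
    rw [Nat.cast_zero, Real.zero_rpow (by linarith), Real.zero_rpow (by linarith)]; simp
  · have hn0 : (0:ℝ) < n := by exact_mod_cast h0
    have hlog : Real.log n ≤ 2/(s-1) * (n:ℝ) ^ ((s-1)/2) := by
      have := Real.log_le_rpow_div hn0.le (ε := (s-1)/2) (by linarith)
      calc _ ≤ _ := this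
        _ = _ := by have : s - 1 ≠ 0 := by linarith
                    field_simp
    calc f n * (n : ℝ) ^ (-s) ≤ (2/(s-1) * (n:ℝ) ^ ((s-1)/2)) * (n : ℝ) ^ (-s) := by
          gcongr
          exact (hf1 n).trans (vonMangoldt_le_log.trans hlog)
      _ = (2/(s-1)) * (n:ℝ) ^ (-((s+1)/2)) := by
        rw [mul_assoc, ← Real.rpow_add hn0]; congr 2; ring

/-- full von Mangoldt sum near 1 -/
theorem vm_sum_bound : ∃ C : ℝ, 0 ≤ C ∧ ∀ s : ℝ, 1 < s → s ≤ 2 →
    |∑' n : ℕ, ArithmeticFunction.vonMangoldt n * (n:ℝ) ^ (-s) - 1 / (s - 1)| ≤ C := by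
  have hc : ContinuousOn (fun x : ℝ => LFunctionResidueClassAux (1 : ZMod 1) (x:ℂ)) (Set.Icc 1 2) :=
    (continuousOn_LFunctionResidueClassAux (1 : ZMod 1)).comp Complex.continuous_ofReal.continuousOn (fun x hx => by
      simpa using hx.1)
  obtain ⟨C, hC⟩ := isCompact_Icc.exists_bound_of_continuousOn hc
  refine ⟨C, (norm_nonneg _).trans (hC 1 ⟨le_refl _, one_le_two⟩), ?_⟩
  intro s hs hs2
  have h1 := hC s ⟨hs.le, hs2⟩
  have h2 := eqOn_LFunctionResidueClassAux (q := 1) (a := 1) isUnit_one (x := (s:ℂ)) (by simpa using hs)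
  rw [h2] at h1
  have e1 : (fun n : ℕ => ((residueClass (1 : ZMod 1) n : ℝ) : ℂ)) = fun n : ℕ => ((ArithmeticFunction.vonMangoldt n : ℝ) : ℂ) := by
    ext n
    congr 1
    apply Set.indicator_of_mem
    exact Subsingleton.elim _ _
  simp only at h1
  rw [e1, LSeries_real _ hs] at h1
  have e2 : ((∑' n : ℕ, ArithmeticFunction.vonMangoldt n * (n:ℝ) ^ (-s) : ℝ) : ℂ) - ((Nat.totient 1 : ℕ) : ℂ)⁻¹ / ((s:ℂ) - 1) =
      ((∑' n : ℕ, ArithmeticFunction.vonMangoldt n * (n:ℝ) ^ (-s) - 1 / (s - 1) : ℝ) : ℂ) := by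
    push_cast
    simp
  rw [e2, Complex.norm_real] at h1
  exact h1


noncomputable def wt (L : ℝ) (n : ℕ) : ℝ := (n:ℝ) ^ (-(1 + 1 / L)) - (n:ℝ) ^ (-(1 + 2 / L))

theorem wt_nonneg {L : ℝ} (hL : 1 ≤ L) (n : ℕ) : 0 ≤ wt L n := by
  unfold wt
  have hL0 : 0 < 1 / L := by positivity
  rcases Nat.eq_zero_or_pos n with h0 | h0
  · subst h0
    have e2 : 2 / L = 2 * (1 / L) := by ring
    rw [Nat.cast_zero, Real.zero_rpow (by linarith), Real.zero_rpow (by rw [e2]; linarith)]; simp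
  · have hn1 : (1:ℝ) ≤ n := by exact_mod_cast h0
    have : (n:ℝ) ^ (-(1 + 2 / L)) ≤ (n:ℝ) ^ (-(1 + 1 / L)) := by
      apply Real.rpow_le_rpow_of_exponent_le hn1
      have e2 : 2 / L = 2 * (1 / L) := by ring
      rw [e2]; linarith
    linarith

theorem wt_le_inv {L : ℝ} (hL : 1 ≤ L) {n : ℕ} (hn : n ≠ 0) : wt L n ≤ 1 / n := by
  unfold wt
  have h1 := rpow_neg_le_inv hn (s := 1 + 1 / L) (by
    have : 0 < 1 / L := by positivity
    linarith)
  have h2 : 0 ≤ (n:ℝ) ^ (-(1 + 2 / L)) := by positivity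
  linarith

theorem wt_le_log {L : ℝ} (hL : 1 ≤ L) (n : ℕ) : wt L n ≤ Real.log n / n / L := by
  have hL0 : 0 < 1 / L := by positivity
  rcases Nat.eq_zero_or_pos n with h0 | h0
  · subst h0
    unfold wt
    have e2 : 2 / L = 2 * (1 / L) := by ring
    rw [Nat.cast_zero, Real.zero_rpow (by linarith), Real.zero_rpow (by rw [e2]; linarith)]; simp
  · have hn0 : (0:ℝ) < n := by exact_mod_cast h0
    have hn1 : (1:ℝ) ≤ n := by exact_mod_cast h0
    unfold wt
    have e : (n:ℝ) ^ (-(1 + 2 / L)) = (n:ℝ) ^ (-(1 + 1 / L)) * (n:ℝ) ^ (-(1/L)) := by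
      rw [← Real.rpow_add hn0]; congr 1; ring
    have h1 : 1 - Real.log n / L ≤ (n:ℝ) ^ (-(1/L)) := by
      rw [Real.rpow_def_of_pos hn0]
      have := Real.add_one_le_exp (Real.log n * -(1 / L))
      have e2 : Real.log n * -(1 / L) + 1 = 1 - Real.log n / L := by ring
      linarith
    have h2 := rpow_neg_le_inv h0.ne' (s := 1 + 1 / L) (by linarith)
    have h3 : 0 ≤ (n:ℝ) ^ (-(1 + 1 / L)) := by positivity
    have hlog : 0 ≤ Real.log n := Real.log_natCast_nonneg n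
    calc _ = (n:ℝ) ^ (-(1 + 1 / L)) * (1 - (n:ℝ) ^ (-(1/L))) := by rw [e]; ring
      _ ≤ (n:ℝ) ^ (-(1 + 1 / L)) * (Real.log n / L) := by gcongr; linarith
      _ ≤ (1 / n) * (Real.log n / L) := by gcongr
      _ = _ := by ring

theorem summable_wt (f : ℕ → ℝ) (hf0 : ∀ n, 0 ≤ f n) (hf1 : ∀ n, f n ≤ ArithmeticFunction.vonMangoldt n) {L : ℝ} (hL : 1 ≤ L) :
    Summable (fun n : ℕ => f n * wt L n) := by
  have hL0 : 0 < 1 / L := by positivity
  have e2 : 2 / L = 2 * (1 / L) := by ring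
  have h1 := summable_aux f hf0 hf1 (s := 1 + 1 / L) (by linarith)
  have h2 := summable_aux f hf0 hf1 (s := 1 + 2 / L) (by rw [e2]; linarith)
  refine (h1.sub h2).congr ?_
  intro n
  unfold wt; ring

theorem tsum_wt (f : ℕ → ℝ) (hf0 : ∀ n, 0 ≤ f n) (hf1 : ∀ n, f n ≤ ArithmeticFunction.vonMangoldt n) {L : ℝ} (hL : 1 ≤ L) :
    ∑' n : ℕ, f n * wt L n = ∑' n : ℕ, f n * (n:ℝ) ^ (-(1 + 1/L)) - ∑' n : ℕ, f n * (n:ℝ) ^ (-(1 + 2/L)) := by
  have hL0 : 0 < 1 / L := by positivity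
  have e2 : 2 / L = 2 * (1 / L) := by ring
  have h1 := summable_aux f hf0 hf1 (s := 1 + 1 / L) (by linarith)
  have h2 := summable_aux f hf0 hf1 (s := 1 + 2 / L) (by rw [e2]; linarith)
  rw [← h1.tsum_sub h2]
  apply tsum_congr
  intro n
  unfold wt; ring

theorem summable_np : Summable (fun n : ℕ => (if n.Prime then 0 else ArithmeticFunction.vonMangoldt n) * (Real.log n / n)) := by
  let i : Nat.Primes × ℕ → ℕ := fun x => (x.1 : ℕ) ^ (x.2 + 2)
  have hi : Function.Injective i := by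
    rintro ⟨p, k⟩ ⟨p', k'⟩ h
    simp only [i] at h
    have hpp : (p:ℕ) = (p':ℕ) := by
      have h1 : (p:ℕ) ∣ (p':ℕ) ^ (k' + 2) := by rw [← h]; exact dvd_pow_self _ (by omega)
      have h2 := p.2.dvd_of_dvd_pow h1
      exact (Nat.prime_dvd_prime_iff_eq p.2 p'.2).mp h2
    have hp : p = p' := Subtype.ext hpp
    subst hp
    have := Nat.pow_right_injective p.2.two_le h
    simp only [Prod.mk.injEq, true_and]
    omega
  rw [← Function.Injective.summable_iff hi]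
  · have h1 : Summable (fun p : Nat.Primes => (16:ℝ) * ((p:ℕ):ℝ) ^ (-(3/2) : ℝ)) :=
      (Nat.Primes.summable_rpow.mpr (by norm_num)).mul_left _
    have h2 : Summable (fun k : ℕ => ((k:ℝ) + 2) * (1/2) ^ k) := by
      have a1 : Summable (fun k : ℕ => ((k:ℝ)) * (1/2) ^ k) := by
        have := summable_pow_mul_geometric_of_norm_lt_one (R := ℝ) 1 (r := 1/2) (by norm_num)
        simpa using this
      have a2 : Summable (fun k : ℕ => (2:ℝ) * (1/2) ^ k) := (summable_geometric_of_lt_one (by norm_num) (by norm_num)).mul_left _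
      refine (a1.add a2).congr ?_
      intro k; ring
    have h3 := h1.mul_of_nonneg h2 (fun p => by positivity) (fun k => by positivity)
    refine Summable.of_nonneg_of_le ?_ ?_ h3
    · rintro ⟨p, k⟩
      simp only [Function.comp]
      have : 0 ≤ (if Nat.Prime (i (p, k)) then 0 else ArithmeticFunction.vonMangoldt (i (p, k))) := by
        split_ifs
        · exact le_refl _
        · exact vonMangoldt_nonneg
      have h5 : 0 ≤ Real.log ((i (p,k) : ℕ) : ℝ) := Real.log_natCast_nonneg _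
      positivity
    · rintro ⟨p, k⟩
      simp only [Function.comp, i]
      have hp0 : (0:ℝ) < (p:ℕ) := by exact_mod_cast p.2.pos
      have hp2 : (2:ℝ) ≤ (p:ℕ) := by exact_mod_cast p.2.two_le
      rw [if_neg (Nat.Prime.not_prime_pow (by omega)), vonMangoldt_apply_pow (by omega), vonMangoldt_apply_prime p.2]
      push_cast
      rw [Real.log_pow]
      push_cast
      have hlog : Real.log ((p:ℕ):ℝ) ≤ 4 * ((p:ℕ):ℝ) ^ (1/4 : ℝ) := by
        have := Real.log_le_rpow_div hp0.le (ε := 1/4) (by norm_num)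
        linarith
      have hlog0 : 0 ≤ Real.log ((p:ℕ):ℝ) := Real.log_natCast_nonneg _
      have h4 : Real.log ((p:ℕ):ℝ) * Real.log ((p:ℕ):ℝ) ≤ 16 * ((p:ℕ):ℝ) ^ (1/2 : ℝ) := by
        calc _ ≤ (4 * ((p:ℕ):ℝ) ^ (1/4 : ℝ)) * (4 * ((p:ℕ):ℝ) ^ (1/4 : ℝ)) := by gcongr
          _ = 16 * (((p:ℕ):ℝ) ^ (1/4 : ℝ) * ((p:ℕ):ℝ) ^ (1/4 : ℝ)) := by ring
          _ = _ := by rw [← Real.rpow_add hp0]; norm_num
      have h6 : 1 / ((p:ℕ):ℝ) ^ k ≤ (1/2) ^ k := by
        rw [div_pow, one_pow]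
        gcongr
      have h7 : ((p:ℕ):ℝ) ^ (1/2 : ℝ) / ((p:ℕ):ℝ) ^ 2 = ((p:ℕ):ℝ) ^ (-(3/2) : ℝ) := by
        rw [← Real.rpow_natCast ((p:ℕ):ℝ) 2, ← Real.rpow_sub hp0]; norm_num
      have goal1 : Real.log ((p:ℕ):ℝ) * (((k:ℝ) + 2) * Real.log ((p:ℕ):ℝ) / ((p:ℕ):ℝ) ^ (k+2)) =
          (Real.log ((p:ℕ):ℝ) * Real.log ((p:ℕ):ℝ)) / ((p:ℕ):ℝ) ^ 2 * (((k:ℝ) + 2) * (1 / ((p:ℕ):ℝ) ^ k)) := by
        rw [pow_add]
        field_simp
      have goal2 : (Real.log ((p:ℕ):ℝ) * Real.log ((p:ℕ):ℝ)) / ((p:ℕ):ℝ) ^ 2 * (((k:ℝ) + 2) * (1 / ((p:ℕ):ℝ) ^ k)) ≤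
          (16 * ((p:ℕ):ℝ) ^ (1/2 : ℝ)) / ((p:ℕ):ℝ) ^ 2 * (((k:ℝ) + 2) * (1/2) ^ k) := by gcongr
      have goal3 : (16 * ((p:ℕ):ℝ) ^ (1/2 : ℝ)) / ((p:ℕ):ℝ) ^ 2 * (((k:ℝ) + 2) * (1/2) ^ k) =
          16 * ((p:ℕ):ℝ) ^ (-(3/2) : ℝ) * (((k:ℝ) + 2) * (1/2) ^ k) := by
        rw [← h7]
        ring
      rw [goal1]
      exact goal2.trans goal3.le
  · intro n hn
    by_cases hp : n.Prime
    · simp [hp]
    · rw [if_neg hp]
      have : ArithmeticFunction.vonMangoldt n = 0 := by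
        rw [vonMangoldt_eq_zero_iff]
        intro hpp
        obtain ⟨p, k, hpr, hk, rfl⟩ := (isPrimePow_nat_iff _).mp hpp
        apply hn
        rcases Nat.lt_or_ge k 2 with h | h
        · have : k = 1 := by omega
          subst this
          rw [pow_one] at hp
          exact absurd hpr hp
        · exact ⟨(⟨p, hpr⟩, k - 2), by simp only [i]; congr 1; omega⟩
      rw [this, zero_mul]

theorem np_bound : ∃ C : ℝ, 0 ≤ C ∧ ∀ L : ℝ, 1 ≤ L →
    ∑' n : ℕ, (if n.Prime then 0 else ArithmeticFunction.vonMangoldt n) * wt L n ≤ C / L := by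
  refine ⟨∑' n : ℕ, (if n.Prime then 0 else ArithmeticFunction.vonMangoldt n) * (Real.log n / n), ?_, ?_⟩
  · apply tsum_nonneg
    intro n
    have : 0 ≤ (if Nat.Prime n then 0 else ArithmeticFunction.vonMangoldt n) := by
      split_ifs
      · exact le_refl _
      · exact vonMangoldt_nonneg
    have h5 : 0 ≤ Real.log (n : ℝ) := Real.log_natCast_nonneg _
    positivity
  · intro L hL
    rw [div_eq_mul_one_div, ← tsum_mul_right]
    apply Summable.tsum_le_tsum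
    · intro n
      have : 0 ≤ (if Nat.Prime n then 0 else ArithmeticFunction.vonMangoldt n) := by
        split_ifs
        · exact le_refl _
        · exact vonMangoldt_nonneg
      have := mul_le_mul_of_nonneg_left (wt_le_log hL n) this
      calc _ ≤ _ := this
        _ = _ := by ring
    · apply summable_wt _ _ _ hL
      · intro n; split_ifs
        · exact le_refl _
        · exact vonMangoldt_nonneg
      · intro n; split_ifs
        · exact vonMangoldt_nonneg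
        · exact le_refl _
    · exact summable_np.mul_right _


theorem residue_main {q : ℕ} [NeZero q] {a : ZMod q} (ha : IsUnit a) {L : ℝ} (hL : 2 ≤ L) {E : ℝ}
    (hE : ∀ χ : DirichletCharacter ℂ q, χ ≠ 1 →
      ‖deriv (LFunction χ) ((1 + 1/L : ℝ) : ℂ) / LFunction χ ((1 + 1/L : ℝ) : ℂ) -
        deriv (LFunction χ) ((1 + 2/L : ℝ) : ℂ) / LFunction χ ((1 + 2/L : ℝ) : ℂ)‖ ≤ E) (hE0 : 0 ≤ E) :
    ∑' n : ℕ, (if Nat.Coprime n q then ArithmeticFunction.vonMangoldt n else 0) * wt L n - Nat.totient q * E ≤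
      Nat.totient q * ∑' n : ℕ, residueClass a n * wt L n := by
  have hL1 : 1 ≤ L := by linarith
  have hL0 : 0 < 1 / L := by positivity
  have e2 : 2 / L = 2 * (1 / L) := by ring
  have hs1 : 1 < 1 + 1 / L := by linarith
  have hs2 : 1 < 1 + 2 / L := by rw [e2]; linarith
  have hc0 : ∀ n : ℕ, 0 ≤ (if Nat.Coprime n q then ArithmeticFunction.vonMangoldt n else 0) := by
    intro n; split_ifs
    · exact vonMangoldt_nonneg
    · exact le_refl _
  have hc1 : ∀ n : ℕ, (if Nat.Coprime n q then ArithmeticFunction.vonMangoldt n else 0) ≤ ArithmeticFunction.vonMangoldt n := by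
    intro n; split_ifs
    · exact le_refl _
    · exact vonMangoldt_nonneg
  rw [tsum_wt _ hc0 hc1 hL1, tsum_wt _ (residueClass_nonneg a) (residueClass_le a) hL1]
  set A1 := ∑' n : ℕ, residueClass a n * (n:ℝ) ^ (-(1 + 1 / L)) with hA1
  set A2 := ∑' n : ℕ, residueClass a n * (n:ℝ) ^ (-(1 + 2 / L)) with hA2
  set T1 := ∑' n : ℕ, (if Nat.Coprime n q then ArithmeticFunction.vonMangoldt n else 0) * (n:ℝ) ^ (-(1 + 1 / L)) with hT1
  set T2 := ∑' n : ℕ, (if Nat.Coprime n q then ArithmeticFunction.vonMangoldt n else 0) * (n:ℝ) ^ (-(1 + 2 / L)) with hT2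
  have hA : ∀ s : ℝ, 1 < s → ((∑' n : ℕ, residueClass a n * (n:ℝ) ^ (-s) : ℝ) : ℂ) =
      -(q.totient : ℂ)⁻¹ * ∑ χ : DirichletCharacter ℂ q, χ a⁻¹ *
        (deriv (LFunction χ) s / LFunction χ s) := by
    intro s hs
    rw [← LSeries_real _ hs, LSeries_residueClass_eq ha (by simpa using hs)]
  have hT : ∀ s : ℝ, 1 < s → ((∑' n : ℕ, (if Nat.Coprime n q then ArithmeticFunction.vonMangoldt n else 0) * (n:ℝ) ^ (-s) : ℝ) : ℂ) =
      - (deriv (LFunction (1 : DirichletCharacter ℂ q)) s / LFunction (1 : DirichletCharacter ℂ q) s) := by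
    intro s hs
    have hs' : 1 < (s:ℂ).re := by simpa using hs
    rw [deriv_LFunction_eq_deriv_LSeries _ hs', LFunction_eq_LSeries _ hs', ← neg_div, ← LSeries_twist_vonMangoldt_eq _ hs',
      ← LSeries_real _ hs]
    congr 1
    ext n
    simp only [Pi.mul_apply]
    by_cases h : Nat.Coprime n q
    · rw [if_pos h, MulChar.one_apply (by rwa [ZMod.isUnit_iff_coprime]), one_mul]
    · rw [if_neg h, MulChar.map_nonunit _ (by rwa [ZMod.isUnit_iff_coprime]), zero_mul, Complex.ofReal_zero]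
  have hφ : (0:ℝ) < q.totient := by exact_mod_cast Nat.totient_pos.mpr (Nat.pos_of_ne_zero (NeZero.ne q))
  have hφc : (q.totient : ℂ) ≠ 0 := by exact_mod_cast hφ.ne'
  classical
  have ha' : IsUnit a⁻¹ := isUnit_of_dvd_one ⟨a, (ZMod.inv_mul_of_unit a ha).symm⟩
  have key : ((q.totient * (A1 - A2) - (T1 - T2) : ℝ) : ℂ) =
      - ∑ χ ∈ ({1}ᶜ : Finset (DirichletCharacter ℂ q)), χ a⁻¹ * (deriv (LFunction χ) ((1 + 1/L : ℝ) : ℂ) / LFunction χ ((1 + 1/L : ℝ) : ℂ) -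
        deriv (LFunction χ) ((1 + 2/L : ℝ) : ℂ) / LFunction χ ((1 + 2/L : ℝ) : ℂ)) := by
    have a1 := hA _ hs1
    have a2 := hA _ hs2
    have t1 := hT _ hs1
    have t2 := hT _ hs2
    push_cast at a1 a2 t1 t2 ⊢
    rw [hA1, hA2, hT1, hT2]
    push_cast
    rw [a1, a2, t1, t2]
    rw [Fintype.sum_eq_add_sum_compl (1 : DirichletCharacter ℂ q), Fintype.sum_eq_add_sum_compl (1 : DirichletCharacter ℂ q)]
    rw [MulChar.one_apply ha', one_mul, one_mul]
    simp only [mul_sub, Finset.sum_sub_distrib]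
    field_simp
    ring
  have hbound : ‖((q.totient * (A1 - A2) - (T1 - T2) : ℝ) : ℂ)‖ ≤ q.totient * E := by
    rw [key, norm_neg]
    refine (norm_sum_le _ _).trans ?_
    calc ∑ χ ∈ ({1}ᶜ : Finset (DirichletCharacter ℂ q)), ‖χ a⁻¹ * (deriv (LFunction χ) ((1 + 1/L : ℝ) : ℂ) / LFunction χ ((1 + 1/L : ℝ) : ℂ) -
        deriv (LFunction χ) ((1 + 2/L : ℝ) : ℂ) / LFunction χ ((1 + 2/L : ℝ) : ℂ))‖
        ≤ ∑ χ ∈ ({1}ᶜ : Finset (DirichletCharacter ℂ q)), E := by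
          apply Finset.sum_le_sum
          intro χ hχ
          have hχ1 : χ ≠ 1 := by simpa using hχ
          rw [norm_mul]
          calc _ ≤ 1 * E := by
                gcongr
                · exact χ.norm_le_one _
                · exact hE χ hχ1
            _ = E := one_mul _
      _ = ((({1}ᶜ : Finset (DirichletCharacter ℂ q))).card : ℝ) * E := by rw [Finset.sum_const, nsmul_eq_mul]
      _ ≤ q.totient * E := by
          gcongr
          refine (Finset.card_le_univ _).trans ?_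
          rw [← Nat.card_eq_fintype_card, DirichletCharacter.card_eq_totient_of_hasEnoughRootsOfUnity]
  rw [Complex.norm_real, Real.norm_eq_abs] at hbound
  have := (abs_le.mp hbound).1
  linarith


theorem np_nonneg (n : ℕ) : 0 ≤ (if Nat.Prime n then 0 else ArithmeticFunction.vonMangoldt n) := by
  split_ifs
  · exact le_refl _
  · exact vonMangoldt_nonneg

theorem np_le (n : ℕ) : (if Nat.Prime n then 0 else ArithmeticFunction.vonMangoldt n) ≤ ArithmeticFunction.vonMangoldt n := by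
  split_ifs
  · exact vonMangoldt_nonneg
  · exact le_refl _

theorem coprime_lower {q : ℕ} (hq : q ≠ 0) {L : ℝ} (hL : 1 ≤ L) :
    ∑' n : ℕ, ArithmeticFunction.vonMangoldt n * wt L n -
      ∑' n : ℕ, (if n.Prime then 0 else ArithmeticFunction.vonMangoldt n) * wt L n - Real.log q ≤
    ∑' n : ℕ, (if Nat.Coprime n q then ArithmeticFunction.vonMangoldt n else 0) * wt L n := by
  have s1 := summable_wt (fun n => ArithmeticFunction.vonMangoldt n) (fun n => vonMangoldt_nonneg) (fun n => le_refl _) hL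
  have s2 := summable_wt _ np_nonneg np_le hL
  have s3 := summable_wt (fun n => if Nat.Coprime n q then ArithmeticFunction.vonMangoldt n else 0)
    (fun n => by
      split_ifs
      · exact vonMangoldt_nonneg
      · exact le_refl _) (fun n => by
      split_ifs
      · exact le_refl _
      · exact vonMangoldt_nonneg) hL
  have s4 : Summable (fun n : ℕ => if n ∈ q.primeFactors then ArithmeticFunction.vonMangoldt n * wt L n else 0) :=
    summable_of_ne_finset_zero (s := q.primeFactors) (fun n hn => if_neg hn)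
  have h4 : ∑' n : ℕ, (if n ∈ q.primeFactors then ArithmeticFunction.vonMangoldt n * wt L n else 0) ≤ Real.log q := by
    rw [tsum_eq_sum (s := q.primeFactors) (fun n hn => if_neg hn)]
    have e : ∑ p ∈ q.primeFactors, (if p ∈ q.primeFactors then ArithmeticFunction.vonMangoldt p * wt L p else 0) ≤
        ∑ p ∈ q.primeFactors, Real.log p := by
      apply Finset.sum_le_sum
      intro p hp
      rw [if_pos hp]
      have hpp := Nat.prime_of_mem_primeFactors hp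
      rw [vonMangoldt_apply_prime hpp]
      have h1 : wt L p ≤ 1 := by
        have hp1 : (1:ℝ) ≤ p := by exact_mod_cast hpp.one_le
        exact (wt_le_inv hL hpp.ne_zero).trans ((div_le_one (by linarith)).mpr hp1)
      have h2 : 0 ≤ Real.log p := Real.log_natCast_nonneg p
      calc _ ≤ Real.log p * 1 := by gcongr
        _ = _ := mul_one _
    refine e.trans ?_
    rw [← Real.log_prod (s := q.primeFactors) (f := fun p => (p:ℝ)) (fun p hp => by
      have := (Nat.prime_of_mem_primeFactors hp).ne_zero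
      exact_mod_cast this)]
    apply Real.log_le_log
    · apply Finset.prod_pos
      intro p hp
      exact_mod_cast (Nat.prime_of_mem_primeFactors hp).pos
    · have := Nat.le_of_dvd (Nat.pos_of_ne_zero hq) (Nat.prod_primeFactors_dvd q)
      rw [← Nat.cast_prod]
      exact_mod_cast this
  have main : ∑' n : ℕ, (ArithmeticFunction.vonMangoldt n * wt L n - (if n.Prime then 0 else ArithmeticFunction.vonMangoldt n) * wt L n -
      (if n ∈ q.primeFactors then ArithmeticFunction.vonMangoldt n * wt L n else 0)) ≤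
      ∑' n : ℕ, (if Nat.Coprime n q then ArithmeticFunction.vonMangoldt n else 0) * wt L n := by
    apply Summable.tsum_le_tsum _ ((s1.sub s2).sub s4) s3
    intro n
    have hw := wt_nonneg hL n
    have hv : 0 ≤ ArithmeticFunction.vonMangoldt n := vonMangoldt_nonneg
    have hm : 0 ≤ ArithmeticFunction.vonMangoldt n * wt L n := mul_nonneg hv hw
    by_cases hp : n.Prime
    · rw [if_pos hp]
      by_cases hd : n ∣ q
      · rw [if_pos (Nat.mem_primeFactors.mpr ⟨hp, hd, hq⟩)]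
        have : 0 ≤ (if Nat.Coprime n q then ArithmeticFunction.vonMangoldt n else 0) * wt L n := by
          split_ifs
          · exact hm
          · simp
        linarith
      · rw [if_neg (fun h => hd (Nat.dvd_of_mem_primeFactors h)), if_pos ((Nat.Prime.coprime_iff_not_dvd hp).mpr hd)]
        linarith
    · rw [if_neg hp, if_neg (fun h => hp (Nat.prime_of_mem_primeFactors h))]
      have : 0 ≤ (if Nat.Coprime n q then ArithmeticFunction.vonMangoldt n else 0) * wt L n := by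
        split_ifs
        · exact hm
        · simp
      linarith
  rw [(s1.sub s2).tsum_sub s4, s1.tsum_sub s2] at main
  linarith

/-- weighted sum over primes in the class u mod q -/
noncomputable def SU (u q : ℕ) (L : ℝ) : ℝ :=
  ∑' p : ℕ, if p.Prime ∧ p ≡ u [MOD q] then Real.log p * ((p:ℝ)^(-(1+1/L)) - (p:ℝ)^(-(1+2/L))) else 0

theorem SU_lower {q : ℕ} (u : ℕ) {L : ℝ} (hL : 1 ≤ L) :
    ∑' n : ℕ, residueClass (u : ZMod q) n * wt L n - ∑' n : ℕ, (if n.Prime then 0 else ArithmeticFunction.vonMangoldt n) * wt L n ≤ SU u q L := by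
  have s1 := summable_wt (residueClass (u : ZMod q)) (residueClass_nonneg _) (residueClass_le _) hL
  have s2 := summable_wt _ np_nonneg np_le hL
  unfold SU
  rw [← s1.tsum_sub s2]
  have s0 := summable_wt (fun n => ArithmeticFunction.vonMangoldt n) (fun n => vonMangoldt_nonneg) (fun n => le_refl _) hL
  have s3 : Summable (fun p : ℕ => if p.Prime ∧ p ≡ u [MOD q] then Real.log p * ((p:ℝ)^(-(1+1/L)) - (p:ℝ)^(-(1+2/L))) else 0) := by
    refine Summable.of_nonneg_of_le ?_ ?_ s0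
    · intro n
      split_ifs with h
      · exact mul_nonneg (Real.log_natCast_nonneg _) (wt_nonneg hL n)
      · exact le_refl _
    · intro n
      split_ifs with h
      · rw [vonMangoldt_apply_prime h.1]; rfl
      · exact mul_nonneg vonMangoldt_nonneg (wt_nonneg hL n)
  apply Summable.tsum_le_tsum _ (s1.sub s2) s3
  intro n
  have hw := wt_nonneg hL n
  have hv : 0 ≤ ArithmeticFunction.vonMangoldt n := vonMangoldt_nonneg
  have hr0 := residueClass_nonneg (u : ZMod q) n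
  have hr1 := residueClass_le (u : ZMod q) n
  by_cases hp : n.Prime
  · rw [if_pos hp, zero_mul, sub_zero]
    by_cases hn : n ≡ u [MOD q]
    · rw [if_pos ⟨hp, hn⟩, ← vonMangoldt_apply_prime hp]
      exact mul_le_mul_of_nonneg_right hr1 hw
    · rw [if_neg (fun h => hn h.2)]
      have : residueClass (u : ZMod q) n = 0 := by
        apply Set.indicator_of_notMem
        intro h
        exact hn ((ZMod.natCast_eq_natCast_iff _ _ _).mp h)
      rw [this, zero_mul]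
  · rw [if_neg hp, if_neg (fun h => hp h.1)]
    have := mul_le_mul_of_nonneg_right hr1 hw
    linarith


theorem eventually_facts (A B K d l₀ : ℝ) (hd : 0 < d) :
    ∃ L₀ : ℝ, ∀ L : ℝ, L₀ ≤ L → 2 ≤ L ∧ 1 ≤ Real.log L ∧ l₀ ≤ Real.log L ∧ 2 * (Real.log L) ^ 9 ≤ d * L ∧
      A + B + 4 * Real.log L + K * (Real.log L) ^ 18 * L ^ (1/2 : ℝ) + B * L ^ (1/2 : ℝ) ≤ L / 4 := by
  have t1 : Tendsto Real.log atTop atTop := Real.tendsto_log_atTop
  have t2 : Tendsto (fun L : ℝ => L ^ (1/2 : ℝ)) atTop atTop := tendsto_rpow_atTop (by norm_num)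
  have o1 : (fun L : ℝ => (Real.log L) ^ 18) =o[atTop] fun L : ℝ => L ^ (1/2 : ℝ) := by
    have := isLittleO_log_rpow_rpow_atTop (18:ℝ) (s := 1/2) (by norm_num)
    refine this.congr' ?_ (Eventually.of_forall fun _ => rfl)
    filter_upwards [eventually_ge_atTop 1] with L hL
    exact_mod_cast Real.rpow_natCast (Real.log L) 18
  have o2 : (fun L : ℝ => (Real.log L) ^ 9) =o[atTop] fun L : ℝ => L :=
    Real.isLittleO_pow_log_id_atTop
  have o3 : Real.log =o[atTop] fun L : ℝ => L := Real.isLittleO_log_id_atTop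
  have b1 := o1.bound (c := 1 / (16 * (|K| + 1))) (by positivity)
  have b2 := o2.bound (c := d / 2) (by positivity)
  have b3 := o3.bound (c := 1 / 128) (by norm_num)
  have ev : ∀ᶠ L : ℝ in atTop, 2 ≤ L ∧ 1 ≤ Real.log L ∧ l₀ ≤ Real.log L ∧ 2 * (Real.log L) ^ 9 ≤ d * L ∧
      A + B + 4 * Real.log L + K * (Real.log L) ^ 18 * L ^ (1/2 : ℝ) + B * L ^ (1/2 : ℝ) ≤ L / 4 := by
    filter_upwards [b1, b2, b3, eventually_ge_atTop 2, t1.eventually_ge_atTop 1, t1.eventually_ge_atTop l₀,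
      t2.eventually_ge_atTop (32 * |B|), eventually_ge_atTop (32 * (A + B))] with L h1 h2 h3 h4 h5 h6 h7 h8
    have hL0 : 0 < L := by linarith
    have hl0 : 0 ≤ Real.log L := by linarith
    have hs0 : 0 < L ^ (1/2 : ℝ) := by positivity
    have hss : L ^ (1/2 : ℝ) * L ^ (1/2 : ℝ) = L := by
      rw [← Real.rpow_add hL0]; norm_num
    rw [Real.norm_eq_abs, Real.norm_eq_abs, abs_of_nonneg (by positivity), abs_of_nonneg hs0.le] at h1
    rw [Real.norm_eq_abs, Real.norm_eq_abs, abs_of_nonneg (by positivity), abs_of_nonneg hL0.le] at h2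
    rw [Real.norm_eq_abs, Real.norm_eq_abs, abs_of_nonneg hl0, abs_of_nonneg hL0.le] at h3
    refine ⟨h4, h5, h6, by linarith, ?_⟩
    have f1 : K * (Real.log L) ^ 18 * L ^ (1/2 : ℝ) ≤ L / 16 := by
      calc K * (Real.log L) ^ 18 * L ^ (1/2 : ℝ) ≤ |K| * (1 / (16 * (|K| + 1)) * L ^ (1/2 : ℝ)) * L ^ (1/2 : ℝ) := by
            gcongr
            exact le_abs_self K
        _ = (|K| / (|K| + 1)) * (L ^ (1/2 : ℝ) * L ^ (1/2 : ℝ)) / 16 := by
            have : |K| + 1 ≠ 0 := by positivity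
            field_simp
        _ ≤ 1 * (L ^ (1/2 : ℝ) * L ^ (1/2 : ℝ)) / 16 := by
            gcongr
            rw [div_le_one (by positivity)]; linarith
        _ = L / 16 := by rw [hss, one_mul]
    have f2 : B * L ^ (1/2 : ℝ) ≤ L / 32 := by
      calc B * L ^ (1/2 : ℝ) ≤ |B| * L ^ (1/2 : ℝ) := by gcongr; exact le_abs_self B
        _ ≤ (L ^ (1/2 : ℝ) / 32) * L ^ (1/2 : ℝ) := by gcongr; linarith
        _ = L / 32 := by rw [div_mul_eq_mul_div, hss]
    linarith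
  exact eventually_atTop.mp ev

theorem good_modulus {q : ℕ} [NeZero q] {L C1 C2 C3 c0 d : ℝ} (hL : 2 ≤ L) (hl : 1 ≤ Real.log L) (hC1 : 0 ≤ C1) (hC2 : 0 ≤ C2)
    (hC3 : 0 ≤ C3) (hc0 : 0 < c0) (_hd : 0 < d)
    (hq : (q:ℝ) ≤ L ^ (3/2 : ℝ)) (hq2 : Real.log ((q:ℝ) + 2) ≤ 4 * Real.log L)
    (h1 : ∀ s : ℝ, 1 < s → s ≤ 2 → |∑' n : ℕ, ArithmeticFunction.vonMangoldt n * (n:ℝ) ^ (-s) - 1 / (s - 1)| ≤ C1)
    (h2 : ∑' n : ℕ, (if n.Prime then 0 else ArithmeticFunction.vonMangoldt n) * wt L n ≤ C2 / L)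
    (h3 : ∀ χ : DirichletCharacter ℂ q, χ ≠ 1 →
    ∀ s t : ℝ, 1 < s → s ≤ 2 → 1 < t → t ≤ 2 → ∀ m : ℝ, 0 < m → m ≤ ‖LFunction χ (s : ℂ)‖ →
    m ≤ ‖LFunction χ (t : ℂ)‖ →
    ‖deriv (LFunction χ) (s : ℂ) / LFunction χ (s : ℂ) - deriv (LFunction χ) (t : ℂ) / LFunction χ (t : ℂ)‖
      ≤ C3 * |s - t| * Real.log (q + 2) ^ 4 / m ^ 2)
    (hd9 : 2 * (Real.log L) ^ 9 ≤ d * L)
    (hfin : 2 * C1 + C2 + 4 * Real.log L + (256 * C3 / c0 ^ 2) * (Real.log L) ^ 18 * L ^ (1/2 : ℝ) + C2 * L ^ (1/2 : ℝ) ≤ L / 4)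
    (hgood : ∀ χ : DirichletCharacter ℂ q, χ ≠ 1 → ∀ s : ℝ, 1 < s → s ≤ 1 + d / (Real.log L) ^ 9 →
      c0 / (Real.log L) ^ 7 ≤ ‖LFunction χ (s : ℂ)‖) (u : ℕ) (hu : Nat.Coprime u q) :
    L / (4 * Nat.totient q) ≤ SU u q L := by
  have hL1 : 1 ≤ L := by linarith
  have hL0 : 0 < L := by linarith
  have hLi : 0 < 1 / L := by positivity
  have e2 : 2 / L = 2 * (1 / L) := by ring
  have hs1 : 1 < 1 + 1 / L := by linarith
  have hs2 : 1 < 1 + 2 / L := by rw [e2]; linarith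
  have hs22 : 1 + 2 / L ≤ 2 := by
    have : 2 / L ≤ 1 := (div_le_one hL0).mpr hL
    linarith
  have hs12 : 1 + 1 / L ≤ 2 := by rw [e2] at hs22; linarith
  set l := Real.log L with hldef
  have hl0 : 0 < l := by linarith
  have hin : 2 / L ≤ d / l ^ 9 := by
    rw [div_le_div_iff₀ hL0 (by positivity)]; exact hd9
  have hin1 : 1 / L ≤ d / l ^ 9 := by
    have : 1 / L ≤ 2 / L := by rw [e2]; linarith
    linarith
  set E : ℝ := (256 * C3 / c0 ^ 2) * l ^ 18 / L with hE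
  have hE0 : 0 ≤ E := by positivity
  have hEb : ∀ χ : DirichletCharacter ℂ q, χ ≠ 1 →
      ‖deriv (LFunction χ) ((1 + 1/L : ℝ) : ℂ) / LFunction χ ((1 + 1/L : ℝ) : ℂ) -
        deriv (LFunction χ) ((1 + 2/L : ℝ) : ℂ) / LFunction χ ((1 + 2/L : ℝ) : ℂ)‖ ≤ E := by
    intro χ hχ
    have g1 := hgood χ hχ _ hs1 (by linarith)
    have g2 := hgood χ hχ _ hs2 (by linarith)
    refine (h3 χ hχ _ _ hs1 hs12 hs2 hs22 (c0 / l ^ 7) (by positivity) g1 g2).trans ?_
    have e3 : |1 + 1 / L - (1 + 2 / L)| = 1 / L := by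
      rw [e2, show 1 + 1 / L - (1 + 2 * (1 / L)) = - (1 / L) by ring, abs_neg, abs_of_pos hLi]
    rw [e3]
    have hlog : 0 ≤ Real.log ((q:ℝ) + 2) := Real.log_nonneg (by
      have : (0:ℝ) ≤ q := Nat.cast_nonneg q
      linarith)
    calc C3 * (1 / L) * Real.log (q + 2) ^ 4 / (c0 / l ^ 7) ^ 2 ≤ C3 * (1 / L) * (4 * l) ^ 4 / (c0 / l ^ 7) ^ 2 := by gcongr
      _ = E := by
        rw [hE]
        field_simp
        ring
  have huu : IsUnit (u : ZMod q) := (ZMod.isUnit_iff_coprime _ _).mpr hu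
  have hq0 : q ≠ 0 := NeZero.ne q
  have m1 := residue_main huu hL hEb hE0
  have m2 := coprime_lower hq0 hL1
  have m3 := SU_lower (q := q) u hL1
  have m4 : L / 2 - 2 * C1 ≤ ∑' n : ℕ, ArithmeticFunction.vonMangoldt n * wt L n := by
    rw [tsum_wt _ (fun n => vonMangoldt_nonneg) (fun n => le_refl _) hL1]
    have a1 := (abs_le.mp (h1 _ hs1 hs12)).1
    have a2 := (abs_le.mp (h1 _ hs2 hs22)).2
    have b1 : 1 / (1 + 1 / L - 1) = L := by rw [add_sub_cancel_left]; field_simp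
    have b2 : 1 / (1 + 2 / L - 1) = L / 2 := by rw [add_sub_cancel_left]; field_simp
    rw [b1] at a1
    rw [b2] at a2
    linarith
  have hφ : (0:ℝ) < q.totient := by exact_mod_cast Nat.totient_pos.mpr (Nat.pos_of_ne_zero hq0)
  have hφq : (q.totient : ℝ) ≤ L ^ (3/2 : ℝ) := (by exact_mod_cast Nat.totient_le q : (q.totient : ℝ) ≤ q).trans hq
  have hLL : L ^ (3/2 : ℝ) / L = L ^ (1/2 : ℝ) := by
    rw [div_eq_iff hL0.ne', ← Real.rpow_add_one hL0.ne']; norm_num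
  have k1 : q.totient * E ≤ (256 * C3 / c0 ^ 2) * l ^ 18 * L ^ (1/2 : ℝ) := by
    calc q.totient * E ≤ L ^ (3/2 : ℝ) * E := by gcongr
      _ = (256 * C3 / c0 ^ 2) * l ^ 18 * (L ^ (3/2 : ℝ) / L) := by rw [hE]; ring
      _ = _ := by rw [hLL]
  have k2 : q.totient * (C2 / L) ≤ C2 * L ^ (1/2 : ℝ) := by
    calc q.totient * (C2 / L) ≤ L ^ (3/2 : ℝ) * (C2 / L) := by gcongr
      _ = C2 * (L ^ (3/2 : ℝ) / L) := by ring
      _ = _ := by rw [hLL]
  have k3 : C2 / L ≤ C2 := div_le_self hC2 hL1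
  have k4 : Real.log q ≤ 4 * l := by
    have hq1 : (0:ℝ) < q := by exact_mod_cast Nat.pos_of_ne_zero hq0
    exact (Real.log_le_log hq1 (by linarith)).trans hq2
  have k5 : q.totient * (∑' n : ℕ, residueClass (u : ZMod q) n * wt L n - C2 / L) ≤ q.totient * SU u q L := by
    gcongr
    linarith
  rw [div_le_iff₀ (by positivity)]
  have k6 : q.totient * (∑' n : ℕ, residueClass (u : ZMod q) n * wt L n - C2 / L) =
    q.totient * ∑' n : ℕ, residueClass (u : ZMod q) n * wt L n - q.totient * (C2 / L) := by ring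
  rw [k6] at k5
  nlinarith

theorem primes_two_moduli (P : ℕ) : ∃ L₀ : ℝ, ∀ L : ℝ, L₀ ≤ L → ∀ q₁ q₂ : ℕ, 1 ≤ q₁ → 1 ≤ q₂ →
    (q₁ : ℝ) ≤ L ^ (3/2 : ℝ) → (q₂ : ℝ) ≤ L ^ (3/2 : ℝ) → Nat.gcd q₁ q₂ ≤ P →
    (∀ u : ℕ, Nat.Coprime u q₁ → L / (4 * Nat.totient q₁) ≤ SU u q₁ L) ∨
    (∀ u : ℕ, Nat.Coprime u q₂ → L / (4 * Nat.totient q₂) ≤ SU u q₂ L) := by
  obtain ⟨c0, d, hc0, hd, _, hdich⟩ := dichotomy
  obtain ⟨l₀, _, hP⟩ := hdich P
  obtain ⟨C1, hC1, h1⟩ := vm_sum_bound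
  obtain ⟨C2, hC2, h2⟩ := np_bound
  obtain ⟨C3, hC3, h3⟩ := logder_diff
  obtain ⟨L₀, hL₀⟩ := eventually_facts (2 * C1) C2 (256 * C3 / c0 ^ 2) d l₀ hd
  refine ⟨L₀, ?_⟩
  intro L hL q₁ q₂ hq₁ hq₂ hqL₁ hqL₂ hgcd
  obtain ⟨f1, f2, f3, f4, f5⟩ := hL₀ L hL
  have hL0 : 0 < L := by linarith
  have hn1 : NeZero q₁ := ⟨by omega⟩
  have hn2 : NeZero q₂ := ⟨by omega⟩
  have hL3 : L ^ (3/2 : ℝ) ≤ L ^ 3 := by
    rw [← Real.rpow_natCast L 3]
    apply Real.rpow_le_rpow_of_exponent_le (by linarith)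
    norm_num
  have hmul : L ^ (3/2 : ℝ) * L ^ (3/2 : ℝ) = L ^ 3 := by
    rw [← Real.rpow_add hL0, ← Real.rpow_natCast L 3]; norm_num
  have hL4 : L ^ 3 + 2 ≤ L ^ 4 := by
    have h8 : (8:ℝ) ≤ L ^ 3 := by
      have : (2:ℝ) ^ 3 ≤ L ^ 3 := by gcongr
      linarith
    nlinarith
  have hlog4 : ∀ x : ℝ, 0 ≤ x → x ≤ L ^ 3 → Real.log (x + 2) ≤ 4 * Real.log L := by
    intro x hx0 hx
    have : Real.log (x + 2) ≤ Real.log (L ^ 4) := Real.log_le_log (by linarith) (by linarith)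
    rwa [Real.log_pow] at this
  have g1 := hlog4 q₁ (Nat.cast_nonneg _) (hqL₁.trans hL3)
  have g2 := hlog4 q₂ (Nat.cast_nonneg _) (hqL₂.trans hL3)
  have g3 := hlog4 ((q₁ * q₂ : ℕ) : ℝ) (Nat.cast_nonneg _) (by
    push_cast
    rw [← hmul]
    gcongr)
  have hC30 : 0 ≤ C3 := by linarith
  rcases hP (Real.log L) f3 q₁ q₂ g1 g2 g3 hgcd with h | h
  · left
    intro u hu
    exact good_modulus f1 f2 hC1 hC2 hC30 hc0 hd hqL₁ g1 h1 (h2 L (by linarith)) (h3 q₁) f4 f5 h u hu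
  · right
    intro u hu
    exact good_modulus f1 f2 hC1 hC2 hC30 hc0 hd hqL₂ g2 h1 (h2 L (by linarith)) (h3 q₂) f4 f5 h u hu

/-- the exact form asked for -/
noncomputable def S (a : ℕ) (L : ℝ) : ℝ :=
  ∑' p : ℕ, if p.Prime ∧ p ≡ 1 [MOD a] then Real.log p * ((p:ℝ)^(-(1+1/L)) - (p:ℝ)^(-(1+2/L))) else 0

theorem primes_one_mod : ∃ L₀ : ℝ, ∀ L : ℝ, L₀ ≤ L → ∀ a : ℕ, 1 ≤ a → (a + 1 : ℝ) ≤ L →
    (L / (4 * Nat.totient a) ≤ S a L) ∨ (L / (4 * Nat.totient (a+1)) ≤ S (a+1) L) := by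
  obtain ⟨L₀, h⟩ := primes_two_moduli 1
  refine ⟨max 1 L₀, ?_⟩
  intro L hL a ha haL
  have hL1 : 1 ≤ L := (le_max_left _ _).trans hL
  have hL2 : L ≤ L ^ (3/2 : ℝ) := by
    calc L = L ^ (1:ℝ) := (Real.rpow_one L).symm
      _ ≤ _ := Real.rpow_le_rpow_of_exponent_le hL1 (by norm_num)
  have := h L ((le_max_right _ _).trans hL) a (a+1) ha (by omega) (by linarith) (by push_cast; linarith)
    (by simp)
  rcases this with h | h
  · left; exact h 1 (Nat.coprime_one_left a)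
  · right; exact h 1 (Nat.coprime_one_left (a+1))

noncomputable def Sc (u q : ℕ) (L : ℝ) : ℝ :=
  ∑' p : ℕ, if p.Prime ∧ p ≡ u [MOD q] then Real.log p * ((p:ℝ)^(-(1+1/L)) - (p:ℝ)^(-(1+2/L))) else 0

theorem primes_classes : ∀ P : ℕ, 1 ≤ P → ∃ L₀ : ℝ, ∀ L : ℝ, L₀ ≤ L → ∀ q1 q2 : ℕ, 1 ≤ q1 → 1 ≤ q2 →
    (q1:ℝ) ≤ L^(3/2:ℝ) → (q2:ℝ) ≤ L^(3/2:ℝ) → Nat.gcd q1 q2 ∣ P →
    (∀ u, Nat.Coprime u q1 → L / (4 * Nat.totient q1) ≤ Sc u q1 L) ∨
    (∀ u, Nat.Coprime u q2 → L / (4 * Nat.totient q2) ≤ Sc u q2 L) := by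
  intro P hP
  obtain ⟨L₀, h⟩ := primes_two_moduli P
  refine ⟨L₀, ?_⟩
  intro L hL q1 q2 h1 h2 h3 h4 h5
  exact h L hL q1 q2 h1 h2 h3 h4 (Nat.le_of_dvd hP h5)

end Pool.Agent.Erdos456
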