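import Mathlib
import Pool.Agent.Erdos456.P3
import Pool.Agent.Erdos456.PrimesOneMod

set_option autoImplicit false

open Finset

namespace Pool.Agent.Erdos456.SP

open Pool.Agent.Erdos456.SM

/-- weight of `n = P m + u` -/
noncomputable def wP (P u : ℕ) (L : ℝ) (m : ℕ) : ℝ := ((P * m + u : ℕ) : ℝ) ^ (-(1 + 1 / (2 * L)))

/-- weighted indicator -/
noncomputable def fP (P u : ℕ) (L : ℝ) (a m : ℕ) : ℝ :=
  if (a * (P * m + u) + 1).Prime then sw L (a * ((P * m + u : ℕ) : ℝ) + 1) else 0

/-- the weighted count -/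
noncomputable def rP (P u : ℕ) (A : Finset ℕ) (L : ℝ) (m : ℕ) : ℝ := ∑ a ∈ A, fP P u L a m

theorem wP_nonneg (P u : ℕ) (L : ℝ) (m : ℕ) : 0 ≤ wP P u L m := Real.rpow_nonneg (Nat.cast_nonneg _) _

theorem fP_nonneg (P u : ℕ) {L : ℝ} (hL : 0 < L) (a m : ℕ) : 0 ≤ fP P u L a m := by
  unfold fP
  split_ifs
  · exact sw_nonneg hL (one_le_lin a _)
  · exact le_rfl

theorem fP_le_one (P u : ℕ) {L : ℝ} (hL : 0 < L) (a m : ℕ) : fP P u L a m ≤ 1 := by
  unfold fP
  split_ifs
  · exact sw_le_one hL (one_le_lin a _)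
  · exact zero_le_one

theorem rP_nonneg (P u : ℕ) (A : Finset ℕ) {L : ℝ} (hL : 0 < L) (m : ℕ) : 0 ≤ rP P u A L m :=
  sum_nonneg (fun a _ => fP_nonneg P u hL a m)

theorem rP_le_card (P u : ℕ) (A : Finset ℕ) {L : ℝ} (hL : 0 < L) (m : ℕ) : rP P u A L m ≤ A.card := by
  unfold rP
  calc ∑ a ∈ A, fP P u L a m ≤ ∑ a ∈ A, (1 : ℝ) := sum_le_sum (fun a _ => fP_le_one P u hL a m)
    _ = A.card := by simp

theorem summable_wP {P u : ℕ} (hP : 0 < P) {L : ℝ} (hL : 0 < L) : Summable (wP P u L) := by
  have h := summable_base hL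
  have hinj : Function.Injective (fun m : ℕ => P * m + u) := by
    intro x y hxy
    have : P * x = P * y := by simpa using hxy
    exact Nat.eq_of_mul_eq_mul_left hP this
  exact h.comp_injective hinj

/-- second moment over the class -/
theorem second_momentP : ∃ C : ℝ, 0 < C ∧ ∀ P u : ℕ, 0 < P → 1 ≤ u → u ≤ P → Nat.Coprime u P → ∀ L : ℝ,
    1 ≤ L → 2 * (P : ℝ) ≤ L → (P : ℝ) * (2 * Real.log L) ^ 2 ≤ L → ∀ X : ℕ, (X : ℝ) ≤ L → P ^ 2 ≤ X → ∀ N : ℕ,
    ∑ m ∈ range N, wP P u L m * rP P u (AU P u X) L m ^ 2 ≤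
    ∑ m ∈ range N, wP P u L m * rP P u (AU P u X) L m + C * (X : ℝ) ^ 2 / (P * L) := by
  obtain ⟨C₁, hC₁, h₁⟩ := pairP
  obtain ⟨C₂, hC₂, h₂⟩ := gramP
  refine ⟨C₁ * C₂, by positivity, ?_⟩
  intro P u hP hu1 huP hu L hL hPL hPlog X hX hPX N
  have hL0 : 0 < L := by linarith
  have hP0 : (0:ℝ) < P := by exact_mod_cast hP
  set A := AU P u X with hA
  set f : ℕ → ℕ → ℝ := fP P u L with hf
  have hf0 : ∀ a n, 0 ≤ f a n := fP_nonneg P u hL0
  have hf1 : ∀ a n, f a n ≤ 1 := fP_le_one P u hL0
  have hsq : ∀ n, rP P u A L n ^ 2 ≤ rP P u A L n +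
      ∑ a ∈ A, ∑ b ∈ A, if a ≠ b then f a n * f b n else 0 := by
    intro n
    unfold rP
    rw [sq, sum_mul_sum, ← sum_add_distrib]
    apply sum_le_sum
    intro a ha
    have h3 : ∑ b ∈ A, fP P u L a n * fP P u L b n = ∑ b ∈ A, ((if a = b then f a n * f b n else 0) +
        (if a ≠ b then f a n * f b n else 0)) := by
      apply sum_congr rfl
      intro b _
      by_cases h : a = b
      · simp [h, hf]
      · simp [h, hf]
    rw [h3, sum_add_distrib, sum_ite_eq, if_pos ha]
    have h4 : f a n * f a n ≤ f a n := mul_le_of_le_one_right (hf0 a n) (hf1 a n)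
    have h5 : fP P u L a n = f a n := rfl
    rw [h5]
    linarith
  calc ∑ n ∈ range N, wP P u L n * rP P u A L n ^ 2
      ≤ ∑ n ∈ range N, (wP P u L n * rP P u A L n +
        ∑ a ∈ A, ∑ b ∈ A, if a ≠ b then wP P u L n * (f a n * f b n) else 0) := by
        apply sum_le_sum
        intro n _
        have h3 := mul_le_mul_of_nonneg_left (hsq n) (wP_nonneg P u L n)
        refine h3.trans (le_of_eq ?_)
        rw [mul_add, mul_sum]
        congr 1
        apply sum_congr rfl
        intro a _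
        rw [mul_sum]
        apply sum_congr rfl
        intro b _
        rw [mul_ite, mul_zero]
    _ = ∑ n ∈ range N, wP P u L n * rP P u A L n +
        ∑ a ∈ A, ∑ b ∈ A, (if a ≠ b then
          ∑ n ∈ range N, wP P u L n * (f a n * f b n) else 0) := by
        rw [sum_add_distrib, sum_comm]
        congr 1
        apply sum_congr rfl
        intro a _
        rw [sum_comm]
        apply sum_congr rfl
        intro b _
        split_ifs
        · rfl
        · simp
    _ ≤ ∑ n ∈ range N, wP P u L n * rP P u A L n +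
        ∑ a ∈ A, ∑ b ∈ A, (if a ≠ b then
          C₁ * (GG P * (GG (rp P a) * GG (rp P b) * GG (rp P ((a : ℤ) - (b : ℤ)).natAbs))) ^ 2 / (P * L) else 0) := by
        apply add_le_add le_rfl
        apply sum_le_sum
        intro a ha
        apply sum_le_sum
        intro b hb
        have ha2 := mem_filter.1 ha
        have hb2 := mem_filter.1 hb
        have ha' := mem_Icc.1 ha2.1
        have hb' := mem_Icc.1 hb2.1
        split_ifs with hab
        · have haX : (a : ℝ) ≤ L := by
            have : (a : ℝ) ≤ X := by exact_mod_cast ha'.2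
            linarith
          have hbX : (b : ℝ) ≤ L := by
            have : (b : ℝ) ≤ X := by exact_mod_cast hb'.2
            linarith
          refine le_trans (le_of_eq ?_) (h₁ P u hP hu1 huP hu L hL hPL hPlog a b (by omega) (by omega) hab haX hbX
            ha2.2 hb2.2 N)
          apply sum_congr rfl
          intro n _
          simp only [hf, fP, wP]
          by_cases p1 : (a * (P * n + u) + 1).Prime
          · by_cases p2 : (b * (P * n + u) + 1).Prime
            · simp [p1, p2]
            · simp [p1, p2]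
          · simp [p1]
        · exact le_rfl
    _ = ∑ n ∈ range N, wP P u L n * rP P u A L n +
        C₁ * GG P ^ 2 / (P * L) * ∑ a ∈ A, ∑ b ∈ A, (if a ≠ b then
          (GG (rp P a) * GG (rp P b) * GG (rp P ((a : ℤ) - (b : ℤ)).natAbs)) ^ 2 else 0) := by
        congr 1
        rw [mul_sum]
        apply sum_congr rfl
        intro a _
        rw [mul_sum]
        apply sum_congr rfl
        intro b _
        split_ifs
        · ring
        · ring
    _ ≤ ∑ n ∈ range N, wP P u L n * rP P u A L n +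
        C₁ * GG P ^ 2 / (P * L) * (C₂ * (Nat.totient P * (X / P)) ^ 2) := by
        apply add_le_add le_rfl
        exact mul_le_mul_of_nonneg_left (h₂ P u hP hu X hPX) (by positivity)
    _ = _ := by
        have hphi : (Nat.totient P : ℝ) ≠ 0 := by
          have := Nat.totient_pos.mpr hP
          positivity
        unfold GG
        field_simp

/-- first moment, one multiplier -/
theorem first_termP {P u : ℕ} (hP : 0 < P) (hu1 : 1 ≤ u) (huP : u ≤ P) {L : ℝ} (hL : 1 ≤ L) {a : ℕ} (ha : 0 < a) :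
    (a : ℝ) / L * Sc (a * u + 1) (a * P) L ≤ ∑' m : ℕ, wP P u L m * fP P u L a m := by
  have hL0 : 0 < L := by linarith
  have ha' : (1 : ℝ) ≤ a := by exact_mod_cast ha
  set F : ℕ → ℝ := fun p => if p.Prime ∧ p ≡ a * u + 1 [MOD (a * P)] then
    Real.log p * ((p : ℝ) ^ (-(1 + 1 / L)) - (p : ℝ) ^ (-(1 + 2 / L))) else 0 with hF
  have hF0 : ∀ p, 0 ≤ F p := by
    intro p
    simp only [hF]
    split_ifs with h
    · have h1 : (1 : ℝ) ≤ p := by exact_mod_cast h.1.one_le
      have h2 : (p : ℝ) ^ (-(1 + 2 / L)) ≤ (p : ℝ) ^ (-(1 + 1 / L)) := by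
        apply Real.rpow_le_rpow_of_exponent_le h1
        have : 1 / L ≤ 2 / L := by
          apply div_le_div_of_nonneg_right (by norm_num) hL0.le
        linarith
      exact mul_nonneg (Real.log_nonneg h1) (by linarith)
    · exact le_rfl
  have h1 : Sc (a * u + 1) (a * P) L = ∑' m : ℕ, F (a * (P * m + u) + 1) := by
    symm
    have hinj : Function.Injective (fun m : ℕ => a * (P * m + u) + 1) := by
      intro x y hxy
      have h1 : a * (P * x + u) = a * (P * y + u) := by simpa using hxy
      have h2 := Nat.eq_of_mul_eq_mul_left ha h1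
      have h3 : P * x = P * y := by omega
      exact Nat.eq_of_mul_eq_mul_left hP h3
    have hsupp : Function.support F ⊆ Set.range (fun m : ℕ => a * (P * m + u) + 1) := by
      intro p hp
      rw [Function.mem_support] at hp
      have hp' : p.Prime ∧ p ≡ a * u + 1 [MOD (a * P)] := by
        by_contra h
        apply hp
        simp only [hF]
        rw [if_neg h]
      have hle : a * u + 1 ≤ p := by
        by_contra hcon
        push Not at hcon
        have h2 : a * P ∣ (a * u + 1) - p := (Nat.modEq_iff_dvd' hcon.le).1 hp'.2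
        have h3 := Nat.le_of_dvd (by omega) h2
        have h4 := hp'.1.two_le
        have h5 : a * u ≤ a * P := Nat.mul_le_mul_left a huP
        omega
      have h2 : a * P ∣ p - (a * u + 1) := (Nat.modEq_iff_dvd' hle).1 hp'.2.symm
      obtain ⟨k, hk⟩ := h2
      refine ⟨k, ?_⟩
      simp only
      have : p = a * P * k + (a * u + 1) := by omega
      rw [this]
      ring
    exact hinj.tsum_eq hsupp
  have hterm : ∀ m : ℕ, (a : ℝ) / L * F (a * (P * m + u) + 1) ≤ wP P u L m * fP P u L a m := by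
    intro m
    unfold wP fP
    by_cases hp : (a * (P * m + u) + 1).Prime
    · set n := P * m + u with hn
      have hn1 : 1 ≤ n := by omega
      have hn' : (1 : ℝ) ≤ n := by exact_mod_cast hn1
      rw [if_pos hp]
      simp only [hF]
      have hmod : a * n + 1 ≡ a * u + 1 [MOD (a * P)] := by
        have e : a * n + 1 = (a * P) * m + (a * u + 1) := by rw [hn]; ring
        rw [e]
        simp
      rw [if_pos ⟨hp, hmod⟩]
      push_cast
      set x : ℝ := (a : ℝ) * n + 1 with hx
      have hx1 : 1 ≤ x := one_le_lin a n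
      have hx0 : 0 < x := by linarith
      have e1 : x ^ (-(1 + 1 / L)) - x ^ (-(1 + 2 / L)) =
          x ^ (-(1 + 1 / (2 * L))) * (x ^ (-(1 / (2 * L))) * (1 - x ^ (-(1 / L)))) := by
        rw [mul_sub, mul_one, mul_sub, ← Real.rpow_add hx0, ← Real.rpow_add hx0,
          ← Real.rpow_add hx0]
        congr 2
        · field_simp
          ring
        · field_simp
          ring
      have e2 : (a : ℝ) * x ^ (-(1 + 1 / (2 * L))) ≤ (n : ℝ) ^ (-(1 + 1 / (2 * L))) := by
        have h2 : x ^ (-(1 + 1 / (2 * L))) ≤ ((a : ℝ) * n) ^ (-(1 + 1 / (2 * L))) := by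
          apply Real.rpow_le_rpow_of_nonpos (by positivity) (by rw [hx]; linarith)
          have : 0 < 1 / (2 * L) := by positivity
          linarith
        rw [Real.mul_rpow (by linarith) (by linarith)] at h2
        have h3 : (a : ℝ) ^ (-(1 + 1 / (2 * L))) ≤ (a : ℝ) ^ (-1 : ℝ) := by
          apply Real.rpow_le_rpow_of_exponent_le ha'
          have : 0 < 1 / (2 * L) := by positivity
          linarith
        rw [Real.rpow_neg_one] at h3
        have h4 : 0 ≤ (n : ℝ) ^ (-(1 + 1 / (2 * L))) := Real.rpow_nonneg (by linarith) _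
        calc (a : ℝ) * x ^ (-(1 + 1 / (2 * L)))
            ≤ a * ((a : ℝ) ^ (-(1 + 1 / (2 * L))) * (n : ℝ) ^ (-(1 + 1 / (2 * L)))) :=
              mul_le_mul_of_nonneg_left h2 (by linarith)
          _ ≤ a * ((a : ℝ)⁻¹ * (n : ℝ) ^ (-(1 + 1 / (2 * L)))) :=
              mul_le_mul_of_nonneg_left (mul_le_mul_of_nonneg_right h3 h4) (by linarith)
          _ = (n : ℝ) ^ (-(1 + 1 / (2 * L))) := by
              rw [← mul_assoc, mul_inv_cancel₀ (by linarith), one_mul]
      have hsw : 0 ≤ sw L x := sw_nonneg hL0 hx1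
      calc (a : ℝ) / L * (Real.log x * (x ^ (-(1 + 1 / L)) - x ^ (-(1 + 2 / L))))
          = ((a : ℝ) * x ^ (-(1 + 1 / (2 * L)))) * sw L x := by
            rw [e1]; unfold sw; ring
        _ ≤ (n : ℝ) ^ (-(1 + 1 / (2 * L))) * sw L x := mul_le_mul_of_nonneg_right e2 hsw
    · rw [if_neg hp]
      simp only [hF]
      rw [if_neg (fun h => hp h.1)]
      simp
  have hsumR : Summable (fun m : ℕ => wP P u L m * fP P u L a m) := by
    refine Summable.of_nonneg_of_le ?_ ?_ (summable_wP hP hL0 (u := u))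
    · intro m
      exact mul_nonneg (wP_nonneg P u L m) (fP_nonneg P u hL0 a m)
    · intro m
      exact mul_le_of_le_one_right (wP_nonneg P u L m) (fP_le_one P u hL0 a m)
  have hsumL : Summable (fun m : ℕ => (a : ℝ) / L * F (a * (P * m + u) + 1)) :=
    Summable.of_nonneg_of_le (fun m => mul_nonneg (by positivity) (hF0 _)) hterm hsumR
  rw [h1, ← tsum_mul_left]
  exact hsumL.tsum_le_tsum hterm hsumR

theorem Sc_nonneg {L : ℝ} (hL : 0 < L) (u q : ℕ) : 0 ≤ Sc u q L := by
  unfold Sc
  apply tsum_nonneg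
  intro p
  split_ifs with h
  · have h1 : (1 : ℝ) ≤ p := by exact_mod_cast h.1.one_le
    have h2 : (p : ℝ) ^ (-(1 + 2 / L)) ≤ (p : ℝ) ^ (-(1 + 1 / L)) := by
      apply Real.rpow_le_rpow_of_exponent_le h1
      have : 1 / L ≤ 2 / L := by
        apply div_le_div_of_nonneg_right (by norm_num) hL.le
      linarith
    exact mul_nonneg (Real.log_nonneg h1) (by linarith)
  · exact le_rfl

theorem summable_rP {P u : ℕ} (hP : 0 < P) {L : ℝ} (hL : 0 < L) (A : Finset ℕ) :
    Summable (fun m : ℕ => wP P u L m * rP P u A L m) := by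
  refine Summable.of_nonneg_of_le ?_ ?_ ((summable_wP hP hL (u := u)).mul_right (A.card : ℝ))
  · intro m
    exact mul_nonneg (wP_nonneg P u L m) (rP_nonneg P u A hL m)
  · intro m
    exact mul_le_mul_of_nonneg_left (rP_le_card P u A hL m) (wP_nonneg P u L m)

theorem first_momentP {P u : ℕ} (hP : 0 < P) (hu1 : 1 ≤ u) (huP : u ≤ P) {L : ℝ} (hL : 1 ≤ L) (X : ℕ) :
    ∑ a ∈ AU P u X, (a : ℝ) / L * Sc (a * u + 1) (a * P) L ≤
      ∑' m : ℕ, wP P u L m * rP P u (AU P u X) L m := by
  have hL0 : 0 < L := by linarith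
  have hs : ∀ a ∈ AU P u X, Summable (fun m : ℕ => wP P u L m * fP P u L a m) := by
    intro a _
    refine Summable.of_nonneg_of_le ?_ ?_ (summable_wP hP hL0 (u := u))
    · intro m
      exact mul_nonneg (wP_nonneg P u L m) (fP_nonneg P u hL0 a m)
    · intro m
      exact mul_le_of_le_one_right (wP_nonneg P u L m) (fP_le_one P u hL0 a m)
  have h1 : ∑' m : ℕ, wP P u L m * rP P u (AU P u X) L m =
      ∑ a ∈ AU P u X, ∑' m : ℕ, wP P u L m * fP P u L a m := by
    rw [← Summable.tsum_finsetSum hs]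
    congr 1
    funext m
    unfold rP
    rw [mul_sum]
  rw [h1]
  apply sum_le_sum
  intro a ha
  exact first_termP hP hu1 huP hL (mem_Icc.1 (mem_filter.1 ha).1).1

end Pool.Agent.Erdos456.SP
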