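import Mathlib
import Pool.Agent.Erdos456.P4
import Pool.Agent.Erdos456.Prob

set_option autoImplicit false

open Finset

namespace Pool.Agent.Erdos456.SP

open Pool.Agent.Erdos456.SM

/-- mass of the class -/
noncomputable def eP (P u : ℕ) (A : Finset ℕ) (L : ℝ) (m : ℕ) : ℝ :=
  open Classical in if (∃ a ∈ A, (a * (P * m + u) + 1).Prime) then wP P u L m else 0

theorem eP_nonneg (P u : ℕ) (A : Finset ℕ) (L : ℝ) (m : ℕ) : 0 ≤ eP P u A L m := by
  unfold eP
  split_ifs
  · exact wP_nonneg P u L m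
  · exact le_rfl

theorem eP_le (P u : ℕ) (A : Finset ℕ) (L : ℝ) (m : ℕ) : eP P u A L m ≤ wP P u L m := by
  unfold eP
  split_ifs
  · exact le_rfl
  · exact wP_nonneg P u L m

theorem many_genP : ∃ C : ℝ, 0 < C ∧ ∀ P u : ℕ, 0 < P → 1 ≤ u → u ≤ P → Nat.Coprime u P → ∀ L : ℝ,
    1 ≤ L → 2 * (P : ℝ) ≤ L → (P : ℝ) * (2 * Real.log L) ^ 2 ≤ L → ∀ X : ℕ, (X : ℝ) ≤ L → P ^ 2 ≤ X →
    (∑ a ∈ AU P u X, (a : ℝ) / L * Sc (a * u + 1) (a * P) L) ^ 2 ≤
    (∑' m : ℕ, eP P u (AU P u X) L m) *
    (∑ a ∈ AU P u X, (a : ℝ) / L * Sc (a * u + 1) (a * P) L + C * (X : ℝ) ^ 2 / (P * L)) := by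
  classical
  obtain ⟨C, hC, h2m⟩ := second_momentP
  refine ⟨C, hC, ?_⟩
  intro P u hP hu1 huP hu L hL hPL hPlog X hX hPX
  have hL0 : 0 < L := by linarith
  have hP0 : (0:ℝ) < P := by exact_mod_cast hP
  set A := AU P u X with hA
  set c : ℝ := C * (X : ℝ) ^ 2 / (P * L) with hc
  have hc0 : 0 ≤ c := by positivity
  set M₁ := ∑ a ∈ A, (a : ℝ) / L * Sc (a * u + 1) (a * P) L with hM₁
  have hM₁0 : 0 ≤ M₁ := by
    apply sum_nonneg
    intro a _
    exact mul_nonneg (by positivity) (Sc_nonneg hL0 _ _)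
  set e : ℕ → ℝ := eP P u A L with he
  have he0 : ∀ n, 0 ≤ e n := eP_nonneg P u A L
  have hes : Summable e := Summable.of_nonneg_of_le he0 (eP_le P u A L) (summable_wP hP hL0)
  set E := ∑' n, e n with hE
  have hE0 : 0 ≤ E := tsum_nonneg he0
  set M := ∑' m : ℕ, wP P u L m * rP P u A L m with hM
  have hMM : M₁ ≤ M := first_momentP hP hu1 huP hL X
  have hfin : ∀ N : ℕ, (∑ n ∈ range N, wP P u L n * rP P u A L n) ^ 2 ≤
      E * (∑ n ∈ range N, wP P u L n * rP P u A L n + c) := by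
    intro N
    have h1 : (∑ n ∈ range N, wP P u L n * rP P u A L n) ^ 2 ≤
        (∑ n ∈ range N, e n) *
        ∑ n ∈ range N, wP P u L n * rP P u A L n ^ 2 := by
      apply Finset.sum_sq_le_sum_mul_sum_of_sq_le_mul
      · intro n _; exact he0 n
      · intro n _
        exact mul_nonneg (wP_nonneg P u L n) (sq_nonneg _)
      · intro n _
        apply le_of_eq
        simp only [he, eP]
        split_ifs with h
        · ring
        · have hr : rP P u A L n = 0 := by
            unfold rP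
            apply sum_eq_zero
            intro a ha
            unfold fP
            rw [if_neg]
            intro hp
            exact h ⟨a, ha, hp⟩
          rw [hr]
          ring
    have h3 : ∑ n ∈ range N, e n ≤ E := hes.sum_le_tsum _ (fun n _ => he0 n)
    have h4 := h2m P u hP hu1 huP hu L hL hPL hPlog X hX hPX N
    have h5 : 0 ≤ ∑ n ∈ range N, wP P u L n * rP P u A L n ^ 2 :=
      sum_nonneg (fun n _ => mul_nonneg (wP_nonneg P u L n) (sq_nonneg _))
    calc _ ≤ (∑ n ∈ range N, e n) *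
        ∑ n ∈ range N, wP P u L n * rP P u A L n ^ 2 := h1
      _ ≤ E * ∑ n ∈ range N, wP P u L n * rP P u A L n ^ 2 :=
        mul_le_mul_of_nonneg_right h3 h5
      _ ≤ _ := mul_le_mul_of_nonneg_left h4 hE0
  have hlim := (summable_rP hP hL0 (u := u) A).hasSum.tendsto_sum_nat
  rw [← hM] at hlim
  have hMsq : M ^ 2 ≤ E * (M + c) :=
    le_of_tendsto_of_tendsto' (hlim.pow 2) ((hlim.add_const c).const_mul E) hfin
  have hM0 : 0 ≤ M := hM₁0.trans hMM
  rcases eq_or_lt_of_le (add_nonneg hM0 hc0) with h0 | hpos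
  · have h6 : M₁ = 0 := by linarith
    rw [h6]
    have : 0 ≤ E * (0 + c) := mul_nonneg hE0 (by linarith)
    simpa using this
  · have h7 : M₁ ^ 2 * (M + c) ≤ (E * (M₁ + c)) * (M + c) := by
      have h8 : M₁ ^ 2 * (M + c) ≤ M ^ 2 * (M₁ + c) := by
        have : 0 ≤ M * M₁ * (M - M₁) + c * ((M - M₁) * (M + M₁)) := by
          have h9 : 0 ≤ M - M₁ := by linarith
          positivity
        nlinarith
      have h10 : M ^ 2 * (M₁ + c) ≤ E * (M + c) * (M₁ + c) :=
        mul_le_mul_of_nonneg_right hMsq (by linarith)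
      calc _ ≤ _ := h8
        _ ≤ _ := h10
        _ = _ := by ring
    exact le_of_mul_le_mul_right h7 hpos

/-- number of admissible residues in a window -/
theorem window_card {P u : ℕ} (hP : 0 < P) (hu : Nat.Coprime u P) (c : ℕ) :
    ((range P).filter (fun i => Nat.Coprime ((c + i) * u + 1) P)).card = Nat.totient P := by
  have h1 : Nat.totient P = ((Finset.range P).filter (fun t => Nat.Coprime P t)).card := rfl
  rw [h1]
  have hinj : Set.InjOn (fun i => ((c + i) * u + 1) % P) (range P : Set ℕ) := by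
    intro i hi j hj hij
    rw [Finset.mem_coe, mem_range] at hi hj
    have e3 : (c + i) * u ≡ (c + j) * u [MOD P] := Nat.ModEq.add_right_cancel' 1 hij
    have e4 : c + i ≡ c + j [MOD P] := Nat.ModEq.cancel_right_of_coprime (by rw [Nat.gcd_comm]; exact hu) e3
    have e5 : i ≡ j [MOD P] := Nat.ModEq.add_left_cancel' c e4
    have e6 : i % P = j % P := e5
    rwa [Nat.mod_eq_of_lt hi, Nat.mod_eq_of_lt hj] at e6
  have himg : (range P).image (fun i => ((c + i) * u + 1) % P) = range P := by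
    apply Finset.eq_of_subset_of_card_le
    · intro t ht
      rw [mem_image] at ht
      obtain ⟨i, _, rfl⟩ := ht
      exact mem_range.mpr (Nat.mod_lt _ hP)
    · rw [Finset.card_image_of_injOn hinj]
  have hfil : ((range P).filter (fun i => Nat.Coprime ((c + i) * u + 1) P)).image (fun i => ((c + i) * u + 1) % P) =
      (Finset.range P).filter (fun t => Nat.Coprime P t) := by
    ext t
    rw [mem_image, mem_filter]
    have key : ∀ i : ℕ, Nat.Coprime ((c + i) * u + 1) P ↔ Nat.Coprime P (((c + i) * u + 1) % P) := by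
      intro i
      have h2 := (Nat.mod_modEq ((c + i) * u + 1) P).gcd_eq
      rw [Nat.coprime_comm (n := P)]
      unfold Nat.Coprime
      rw [h2]
    constructor
    · rintro ⟨i, hi, rfl⟩
      rw [mem_filter] at hi
      exact ⟨mem_range.mpr (Nat.mod_lt _ hP), (key i).mp hi.2⟩
    · rintro ⟨ht, htc⟩
      rw [← himg, mem_image] at ht
      obtain ⟨i, hi, rfl⟩ := ht
      exact ⟨i, mem_filter.mpr ⟨hi, (key i).mpr htc⟩, rfl⟩
  rw [← hfil, Finset.card_image_of_injOn]
  intro i hi j hj hij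
  rw [Finset.mem_coe, mem_filter] at hi hj
  exact hinj (by exact_mod_cast hi.1) (by exact_mod_cast hj.1) hij

theorem totient_mul_le' {a P : ℕ} (ha : 0 < a) (hP : 0 < P) : (Nat.totient (a * P) : ℝ) ≤ a * Nat.totient P := by
  have h1 : GG P ≤ GG (a * P) := GG_mono_dvd (Nat.mul_pos ha hP) (Dvd.intro_left a rfl)
  unfold GG at h1
  have h2 : (0:ℝ) < Nat.totient P := by exact_mod_cast Nat.totient_pos.mpr hP
  have h3 : (0:ℝ) < Nat.totient (a * P) := by exact_mod_cast Nat.totient_pos.mpr (Nat.mul_pos ha hP)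
  have h4 : (0:ℝ) < P := by exact_mod_cast hP
  rw [div_le_div_iff₀ h2 h3] at h1
  push_cast at h1
  have h5 : (P : ℝ) * Nat.totient (a * P) ≤ P * (a * Nat.totient P) := by linarith
  exact le_of_mul_le_mul_left h5 h4

/-- lower bound for the first moment -/
theorem first_lower {P : ℕ} (hP : 0 < P) : ∃ L₀ : ℝ, ∀ L : ℝ, L₀ ≤ L → ∀ u : ℕ, 1 ≤ u → u ≤ P → Nat.Coprime u P →
    ∀ X : ℕ, (X : ℝ) ≤ L → L < X + 1 →
    L / (16 * P) ≤ ∑ a ∈ AU P u X, (a : ℝ) / L * Sc (a * u + 1) (a * P) L := by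
  obtain ⟨L₁, h⟩ := primes_classes (P ^ 2) (Nat.one_le_iff_ne_zero.mpr (by positivity))
  have hP' : (1:ℝ) ≤ P := by exact_mod_cast hP
  refine ⟨max L₁ (max ((P : ℝ) ^ 2) (4 * P + 2)), ?_⟩
  intro L hL u hu1 huP hu X hXL hLX
  have hLa : L₁ ≤ L := (le_max_left _ _).trans hL
  have hLb : (P : ℝ) ^ 2 ≤ L := ((le_max_left _ _).trans (le_max_right _ _)).trans hL
  have hLc : 4 * (P : ℝ) + 2 ≤ L := ((le_max_right _ _).trans (le_max_right _ _)).trans hL
  have hL0 : 0 < L := by linarith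
  set g : ℕ → ℝ := fun a => if Nat.Coprime (a * u + 1) P then (a : ℝ) / L * Sc (a * u + 1) (a * P) L else 0 with hg
  have hg0 : ∀ a, 0 ≤ g a := by
    intro a
    simp only [hg]
    split_ifs
    · exact mul_nonneg (by positivity) (Sc_nonneg hL0 _ _)
    · exact le_rfl
  have hphi : (0:ℝ) < Nat.totient P := by exact_mod_cast Nat.totient_pos.mpr hP
  have hgood : ∀ a : ℕ, 1 ≤ a → Nat.Coprime (a * u + 1) P →
      L / (4 * Nat.totient (a * P)) ≤ Sc (a * u + 1) (a * P) L → 1 / (4 * Nat.totient P) ≤ g a := by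
    intro a ha hc h1
    simp only [hg]
    rw [if_pos hc]
    have h2 : (0 : ℝ) < Nat.totient (a * P) := by exact_mod_cast Nat.totient_pos.2 (Nat.mul_pos ha hP)
    have h3 : (Nat.totient (a * P) : ℝ) ≤ a * Nat.totient P := totient_mul_le' ha hP
    have h4 : (a : ℝ) / L * (L / (4 * Nat.totient (a * P))) ≤ (a : ℝ) / L * Sc (a * u + 1) (a * P) L :=
      mul_le_mul_of_nonneg_left h1 (by positivity)
    have h5 : (a : ℝ) / L * (L / (4 * Nat.totient (a * P))) = a / (4 * Nat.totient (a * P)) := by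
      field_simp
    rw [h5] at h4
    refine le_trans ?_ h4
    rw [div_le_div_iff₀ (by positivity) (by positivity)]
    linarith
  have hcopaP : ∀ a : ℕ, Nat.Coprime (a * u + 1) P → Nat.Coprime (a * u + 1) (a * P) := by
    intro a hc
    apply Nat.Coprime.mul_right
    · have : Nat.Coprime a (1 + a * u) := by
        rw [Nat.coprime_add_mul_left_right]
        exact Nat.coprime_one_right a
      rw [add_comm]
      exact this.symm
    · exact hc
  have hsqrt : (P : ℝ) ≤ L ^ (1/2 : ℝ) := by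
    rw [← Real.sqrt_eq_rpow]
    exact Real.le_sqrt_of_sq_le hLb
  have hq : ∀ a : ℕ, a ≤ X → ((a * P : ℕ) : ℝ) ≤ L ^ (3/2 : ℝ) := by
    intro a ha
    push_cast
    have h1 : (a : ℝ) ≤ L := by
      have : (a : ℝ) ≤ X := by exact_mod_cast ha
      linarith
    calc (a : ℝ) * P ≤ L * L ^ (1/2 : ℝ) := by gcongr
      _ = L ^ (1 : ℝ) * L ^ (1/2 : ℝ) := by rw [Real.rpow_one]
      _ = L ^ (3/2 : ℝ) := by
          rw [← Real.rpow_add hL0]
          norm_num
  have hpair : ∀ a : ℕ, 1 ≤ a → a + P ≤ X → Nat.Coprime (a * u + 1) P →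
      1 / (4 * (Nat.totient P : ℝ)) ≤ g a + g (a + P) := by
    intro a ha haX hc
    have hc2 : Nat.Coprime ((a + P) * u + 1) P := by
      have e : (a + P) * u + 1 = (a * u + 1) + P * u := by ring
      rw [e]
      exact (Nat.coprime_add_mul_left_left _ _ _).mpr hc
    have hgcd : Nat.gcd (a * P) ((a + P) * P) ∣ P ^ 2 := by
      rw [Nat.gcd_mul_right, sq]
      apply Nat.mul_dvd_mul_right
      have : Nat.gcd a (a + P) = Nat.gcd a P := by simp
      rw [this]
      exact Nat.gcd_dvd_right a P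
    rcases h L hLa (a * P) ((a + P) * P) (Nat.mul_pos ha hP) (Nat.mul_pos (by omega) hP)
      (hq a (by omega)) (hq (a + P) haX) hgcd with h1 | h1
    · have := hgood a ha hc (h1 _ (hcopaP a hc))
      have := hg0 (a + P)
      linarith
    · have := hgood (a + P) (by omega) hc2 (h1 _ (hcopaP (a + P) hc2))
      have := hg0 a
      linarith
  have hsum : ∀ K : ℕ, 2 * P * K ≤ X → (K : ℝ) / 4 ≤ ∑ a ∈ Icc 1 (2 * P * K), g a := by
    intro K
    induction K with
    | zero => intro _; simp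
    | succ K ih =>
      intro hK
      have h1 := ih (le_trans (by nlinarith) hK)
      have h2 : ∑ a ∈ Icc 1 (2 * P * (K + 1)), g a = ∑ a ∈ Icc 1 (2 * P * K), g a +
          (∑ i ∈ range P, (g (2 * P * K + 1 + i) + g (2 * P * K + 1 + i + P))) := by
        have e1 : ∀ n m : ℕ, ∑ a ∈ Icc 1 (n + m), g a = ∑ a ∈ Icc 1 n, g a + ∑ i ∈ range m, g (n + 1 + i) := by
          intro n m
          induction m with
          | zero => simp
          | succ m ihm =>
            rw [← add_assoc, sum_Icc_succ_top (by omega), ihm, sum_range_succ, add_assoc]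
            congr 2
            congr 1
            omega
        have e2 : 2 * P * (K + 1) = 2 * P * K + (P + P) := by ring
        rw [e2, e1, sum_range_add, sum_add_distrib]
        congr 2
        apply sum_congr rfl
        intro i _
        congr 1
        omega
      rw [h2]
      have h3 : (1:ℝ) / 4 ≤ ∑ i ∈ range P, (g (2 * P * K + 1 + i) + g (2 * P * K + 1 + i + P)) := by
        calc (1:ℝ) / 4 = Nat.totient P * (1 / (4 * (Nat.totient P : ℝ))) := by
              field_simp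
          _ = ∑ i ∈ (range P).filter (fun i => Nat.Coprime ((2 * P * K + 1 + i) * u + 1) P), (1 / (4 * (Nat.totient P : ℝ))) := by
              rw [sum_const, nsmul_eq_mul, window_card hP hu]
          _ ≤ ∑ i ∈ (range P).filter (fun i => Nat.Coprime ((2 * P * K + 1 + i) * u + 1) P),
              (g (2 * P * K + 1 + i) + g (2 * P * K + 1 + i + P)) := by
              apply sum_le_sum
              intro i hi
              rw [mem_filter, mem_range] at hi
              apply hpair _ (by omega) _ hi.2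
              have e3 : 2 * P * (K + 1) = 2 * P * K + (P + P) := by ring
              omega
          _ ≤ _ := by
              apply sum_le_sum_of_subset_of_nonneg (filter_subset _ _)
              intro i _ _
              exact add_nonneg (hg0 _) (hg0 _)
      push_cast
      linarith
  set K := X / (2 * P) with hK
  have hKX : 2 * P * K ≤ X := Nat.mul_div_le X (2 * P)
  have h1 := hsum K hKX
  have h2 : ∑ a ∈ Icc 1 (2 * P * K), g a ≤ ∑ a ∈ Icc 1 X, g a := by
    apply sum_le_sum_of_subset_of_nonneg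
    · apply Icc_subset_Icc le_rfl hKX
    · intro a _ _; exact hg0 a
  have h3 : ∑ a ∈ Icc 1 X, g a = ∑ a ∈ AU P u X, (a : ℝ) / L * Sc (a * u + 1) (a * P) L := by
    unfold AU
    rw [sum_filter]
  rw [← h3]
  have h4 : (X : ℝ) < 2 * P * (K + 1) := by
    have := Nat.lt_mul_div_succ X (show 0 < 2 * P by omega)
    have h5 : ((X : ℕ) : ℝ) < ((2 * P * (X / (2 * P) + 1) : ℕ) : ℝ) := by exact_mod_cast this
    push_cast at h5
    exact h5
  have h5 : L / (4 * P) ≤ K := by
    rw [div_le_iff₀ (by positivity)]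
    nlinarith
  calc L / (16 * P) = (L / (4 * P)) / 4 := by
        field_simp
        ring
    _ ≤ (K : ℝ) / 4 := by linarith
    _ ≤ _ := h1.trans h2

/-- lower bound for the mass in one class -/
theorem class_lower : ∃ κ : ℝ, 0 < κ ∧ ∀ P : ℕ, 0 < P → ∃ L₀ : ℝ, 1 ≤ L₀ ∧ ∀ L : ℝ, L₀ ≤ L →
    ∀ u : ℕ, 1 ≤ u → u ≤ P → Nat.Coprime u P →
    κ * L / P ≤ ∑' m : ℕ, eP P u (AU P u ⌊L⌋₊) L m := by
  obtain ⟨C, hC, h⟩ := many_genP
  refine ⟨1 / (16 * (1 + 16 * C)), by positivity, ?_⟩
  intro P hP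
  obtain ⟨L₁, h1⟩ := first_lower hP
  have hP' : (1:ℝ) ≤ P := by exact_mod_cast hP
  have hlim : Filter.Tendsto (fun L : ℝ => Real.log L ^ 2 / L) Filter.atTop (nhds 0) := by
    have := Real.tendsto_pow_log_div_mul_add_atTop 1 0 2 one_ne_zero
    simpa using this
  have hev : ∀ᶠ L : ℝ in Filter.atTop, Real.log L ^ 2 / L < 1 / (4 * P) :=
    hlim.eventually (gt_mem_nhds (by positivity))
  obtain ⟨L₂, hL₂⟩ := Filter.eventually_atTop.mp hev
  refine ⟨max (max 1 L₁) (max L₂ ((P : ℝ) ^ 2 + 2 * P + 1)), (le_max_left _ _).trans (le_max_left _ _), ?_⟩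
  intro L hL u hu1 huP hu
  have hL1 : 1 ≤ L := ((le_max_left _ _).trans (le_max_left _ _)).trans hL
  have hLa : L₁ ≤ L := ((le_max_right _ _).trans (le_max_left _ _)).trans hL
  have hLb : L₂ ≤ L := ((le_max_left _ _).trans (le_max_right _ _)).trans hL
  have hLc : (P : ℝ) ^ 2 + 2 * P + 1 ≤ L := ((le_max_right _ _).trans (le_max_right _ _)).trans hL
  have hL0 : 0 < L := by linarith
  set X := ⌊L⌋₊ with hX
  have hXL : (X : ℝ) ≤ L := Nat.floor_le hL0.le
  have hLX : L < X + 1 := Nat.lt_floor_add_one L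
  have hlog := hL₂ L hLb
  have hPlog : (P : ℝ) * (2 * Real.log L) ^ 2 ≤ L := by
    rw [div_lt_iff₀ hL0] at hlog
    have h2 : (P : ℝ) * (2 * Real.log L) ^ 2 = 4 * P * Real.log L ^ 2 := by ring
    rw [h2]
    have h3 : 4 * (P : ℝ) * Real.log L ^ 2 ≤ 4 * P * (1 / (4 * P) * L) := by gcongr
    have h4 : 4 * (P : ℝ) * (1 / (4 * P) * L) = L := by field_simp
    linarith
  have hPX : P ^ 2 ≤ X := by
    apply Nat.le_floor
    push_cast
    nlinarith
  have hg := h P u hP hu1 huP hu L hL1 (by nlinarith) hPlog X hXL hPX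
  have hM := h1 L hLa u hu1 huP hu X hXL hLX
  set M₁ := ∑ a ∈ AU P u X, (a : ℝ) / L * Sc (a * u + 1) (a * P) L with hM₁
  set E := ∑' m : ℕ, eP P u (AU P u X) L m with hE
  have hM₁0 : 0 < M₁ := lt_of_lt_of_le (by positivity) hM
  have hE0 : 0 ≤ E := tsum_nonneg (eP_nonneg P u _ L)
  have hc : C * (X : ℝ) ^ 2 / (P * L) ≤ 16 * C * M₁ := by
    calc C * (X : ℝ) ^ 2 / (P * L) ≤ C * L ^ 2 / (P * L) := by gcongr
      _ = 16 * C * (L / (16 * P)) := by
          field_simp
      _ ≤ 16 * C * M₁ := by gcongr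
  have h2 : M₁ * M₁ ≤ (E * (1 + 16 * C)) * M₁ := by
    calc M₁ * M₁ = M₁ ^ 2 := by ring
      _ ≤ E * (M₁ + C * (X : ℝ) ^ 2 / (P * L)) := hg
      _ ≤ E * (M₁ + 16 * C * M₁) := mul_le_mul_of_nonneg_left (by linarith) hE0
      _ = _ := by ring
  have h3 : M₁ ≤ E * (1 + 16 * C) := le_of_mul_le_mul_right h2 hM₁0
  have h4 : 1 / (16 * (1 + 16 * C)) * L / P = (L / (16 * P)) / (1 + 16 * C) := by
    field_simp
  rw [h4, div_le_iff₀ (by positivity)]
  exact hM.trans h3

end Pool.Agent.Erdos456.SP
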