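import Mathlib
import Pool.Agent.Erdos456.P5
import Pool.Agent.Erdos456.Final3

set_option autoImplicit false

open scoped ENNReal
open Filter Topology

namespace Pool.Agent.Erdos456

/-- integers coprime to `P` with a small prime `a n + 1` -/
def GdP (P : ℕ) (L : ℝ) : Set ℕ := {n | 1 ≤ n ∧ Nat.Coprime n P ∧ ∃ a : ℕ, 1 ≤ a ∧ (a : ℝ) ≤ L ∧ (a * n + 1).Prime}

theorem many_coprime : ∃ κ : ℝ, 0 < κ ∧ ∀ P : ℕ, 1 ≤ P → ∃ L₀ : ℝ, 1 ≤ L₀ ∧ ∀ L : ℝ, L₀ ≤ L →
    ENNReal.ofReal (κ * L * Nat.totient P / P) ≤ mu (1 + 1 / (2 * L)) (GdP P L) := by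
  obtain ⟨κ, hκ, h⟩ := SP.class_lower
  refine ⟨κ, hκ, ?_⟩
  intro P hP
  obtain ⟨L₀, hL₀, h1⟩ := h P hP
  refine ⟨L₀, hL₀, ?_⟩
  intro L hL
  have hL1 : 1 ≤ L := hL₀.trans hL
  have hL0 : 0 < L := by linarith
  have hP0 : (0:ℝ) < P := by exact_mod_cast hP
  set σ : ℝ := 1 + 1 / (2 * L) with hσ
  set U : Finset ℕ := (Finset.Ico 1 (1 + P)).filter (fun u => Nat.Coprime P u) with hU
  have hUcard : U.card = Nat.totient P := Nat.filter_coprime_Ico_eq_totient P 1
  -- each class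
  have hclass : ∀ u ∈ U, ENNReal.ofReal (κ * L / P) ≤ ∑' m : ℕ, (GdP P L).indicator (zp σ) (P * m + u) := by
    intro u hu
    rw [hU, Finset.mem_filter, Finset.mem_Ico] at hu
    have hu1 : 1 ≤ u := hu.1.1
    have huP : u ≤ P := by omega
    have huc : Nat.Coprime u P := hu.2.symm
    have h2 := h1 L hL u hu1 huP huc
    have hsum : Summable (SP.eP P u (SP.AU P u ⌊L⌋₊) L) :=
      Summable.of_nonneg_of_le (SP.eP_nonneg P u _ L) (SP.eP_le P u _ L) (SP.summable_wP hP hL0)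
    calc ENNReal.ofReal (κ * L / P) ≤ ENNReal.ofReal (∑' m : ℕ, SP.eP P u (SP.AU P u ⌊L⌋₊) L m) :=
          ENNReal.ofReal_le_ofReal h2
      _ = ∑' m : ℕ, ENNReal.ofReal (SP.eP P u (SP.AU P u ⌊L⌋₊) L m) :=
          ENNReal.ofReal_tsum_of_nonneg (SP.eP_nonneg P u _ L) hsum
      _ ≤ _ := by
          apply ENNReal.tsum_le_tsum
          intro m
          unfold SP.eP
          split_ifs with hp
          · obtain ⟨a, ha, hap⟩ := hp
            have ha' := Finset.mem_Icc.mp (Finset.mem_filter.mp ha).1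
            rw [Set.indicator_of_mem]
            · rfl
            · refine ⟨by omega, ?_, a, ha'.1, ?_, hap⟩
              · have e : P * m + u = u + P * m := by ring
                rw [e]
                exact (Nat.coprime_add_mul_left_left _ _ _).mpr huc
              · calc (a : ℝ) ≤ (⌊L⌋₊ : ℝ) := by exact_mod_cast ha'.2
                  _ ≤ L := Nat.floor_le hL0.le
          · simp
  -- injectivity
  have hinj : Function.Injective (fun x : U × ℕ => P * x.2 + (x.1 : ℕ)) := by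
    rintro ⟨⟨u, hu⟩, m⟩ ⟨⟨v, hv⟩, k⟩ hxy
    simp only at hxy
    rw [hU, Finset.mem_filter, Finset.mem_Ico] at hu hv
    have e1 : m = k := by
      rcases lt_trichotomy m k with h | h | h
      · exfalso
        have h3 : P * (m + 1) ≤ P * k := Nat.mul_le_mul_left P h
        have h4 : P * (m + 1) = P * m + P := by ring
        omega
      · exact h
      · exfalso
        have h3 : P * (k + 1) ≤ P * m := Nat.mul_le_mul_left P h
        have h4 : P * (k + 1) = P * k + P := by ring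
        omega
    subst e1
    have e2 : u = v := by omega
    subst e2
    rfl
  calc ENNReal.ofReal (κ * L * Nat.totient P / P) = ∑ u ∈ U, ENNReal.ofReal (κ * L / P) := by
        rw [Finset.sum_const, hUcard, nsmul_eq_mul, ← ENNReal.ofReal_natCast, ← ENNReal.ofReal_mul (by positivity)]
        congr 1
        ring
    _ ≤ ∑ u ∈ U, ∑' m : ℕ, (GdP P L).indicator (zp σ) (P * m + u) := Finset.sum_le_sum hclass
    _ = ∑' x : U × ℕ, (GdP P L).indicator (zp σ) (P * x.2 + (x.1 : ℕ)) := by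
        rw [ENNReal.tsum_prod', tsum_fintype]
        exact (Finset.sum_coe_sort U (fun u => ∑' m : ℕ, (GdP P L).indicator (zp σ) (P * m + u))).symm
    _ ≤ mu σ (GdP P L) := ENNReal.tsum_comp_le_tsum_of_injective hinj _

/-- lower bound for the weight of the equality set -/
theorem eq_weight' : ∃ κ : ℝ, 0 < κ ∧ ∃ L₀ : ℝ, 1 ≤ L₀ ∧ ∀ L : ℝ, L₀ ≤ L →
      ENNReal.ofReal (κ * L) ≤ mu (1 + 1 / (2 * L)) EqS := by
  obtain ⟨κ, hκ, hP⟩ := many_coprime
  obtain ⟨C, hC, hG⟩ := GG_PZ_le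
  obtain ⟨Z, hZ1, hbad⟩ := bad_setR (κ / (2 * C)) (by positivity)
  obtain ⟨L₁, hL₁, hb⟩ := hbad Z le_rfl
  obtain ⟨L₂, hL₂, hp⟩ := hP (PZ Z) (PZ_pos Z)
  have hZ' : (0:ℝ) < Z := by exact_mod_cast hZ1
  refine ⟨κ / (2 * C * Z), by positivity, max L₁ L₂, hL₁.trans (le_max_left _ _), ?_⟩
  intro L hL
  have hLa : L₁ ≤ L := (le_max_left _ _).trans hL
  have hLb : L₂ ≤ L := (le_max_right _ _).trans hL
  have hL1 : 1 ≤ L := hL₁.trans hLa
  have hL0 : 0 < L := by linarith
  set σ : ℝ := 1 + 1 / (2 * L) with hσd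
  set G : Set ℕ := GdP (PZ Z) L with hGd
  have h1 : ENNReal.ofReal (κ / (C * Z) * L) ≤ mu σ G := by
    refine le_trans (ENNReal.ofReal_le_ofReal ?_) (hp L hLb)
    have h4 := hG Z hZ1
    unfold GG at h4
    have h5 : (0:ℝ) < Nat.totient (PZ Z) := by exact_mod_cast Nat.totient_pos.mpr (PZ_pos Z)
    have h6 : (0:ℝ) < PZ Z := by exact_mod_cast PZ_pos Z
    rw [div_le_iff₀ h5] at h4
    rw [div_mul_eq_mul_div, div_le_div_iff₀ (by positivity) h6]
    calc κ * L * (PZ Z : ℝ) ≤ κ * L * (C * Z * Nat.totient (PZ Z)) := by gcongr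
      _ = _ := by ring
  have hsub : G ⊆ BdR Z L ∪ EqS := by
    rintro n ⟨hn1, hnP, a, ha1, ha2, hap⟩
    by_cases hE : n ∈ EqS
    · right; exact hE
    left
    have hle := mm_le_pp hn1 hap
    have hlt : mm n < pp n := by
      rcases hle.lt_or_eq with h | h
      · exact h
      · exact absurd ⟨hn1, h.symm⟩ hE
    refine ⟨Rg_iff.mpr ⟨hn1, hnP⟩, ?_, hlt⟩
    have h2 := pp_le hap
    have h3 : mm n ≤ a * n := by omega
    calc (mm n : ℝ) ≤ ((a * n : ℕ) : ℝ) := by exact_mod_cast h3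
      _ = a * n := by push_cast; ring
      _ ≤ L * n := by gcongr
      _ = n * L := by ring
  have h2 : ENNReal.ofReal (κ / (C * Z) * L) ≤ ENNReal.ofReal (κ / (2 * C) * L / Z) + mu σ EqS :=
    calc _ ≤ mu σ G := h1
      _ ≤ mu σ (BdR Z L ∪ EqS) := mu_mono σ hsub
      _ ≤ mu σ (BdR Z L) + mu σ EqS := mu_union_le _ _ _
      _ ≤ _ := by
          gcongr
          exact hb L hLa
  have h3 : κ / (C * Z) * L = κ / (2 * C) * L / Z + κ / (2 * C * Z) * L := by
    field_simp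
    ring
  rw [h3, ENNReal.ofReal_add (by positivity) (by positivity)] at h2
  exact (ENNReal.add_le_add_iff_left ENNReal.ofReal_ne_top).mp h2

/-- the equality set does not have density zero -/
theorem eq_not_density_zero' :
    ¬ Tendsto (fun N : ℕ => ((EqS ∩ Set.Iio N).ncard : ℝ) / (N : ℝ)) atTop (𝓝 0) := by
  intro hT
  obtain ⟨κ, hκ, L₀, hL₀, h⟩ := eq_weight'
  obtain ⟨K, hK, hz⟩ := mu_density_zero hT (κ / 4) (by positivity)
  set L : ℝ := max L₀ (4 * K / κ) with hL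
  have hLa : L₀ ≤ L := le_max_left _ _
  have hLb : 4 * K / κ ≤ L := le_max_right _ _
  have hL1 : 1 ≤ L := hL₀.trans hLa
  have hL0 : 0 < L := by linarith
  have h1 := (h L hLa).trans (hz L hL1)
  rw [ENNReal.ofReal_le_ofReal_iff (by positivity)] at h1
  rw [div_le_iff₀ hκ] at hLb
  nlinarith

end Pool.Agent.Erdos456
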